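import Pool.Agent.T2h98.MR.Stm
import Pool.Agent.T2h98.EA.SNF

/-! Relaxation of the momentum: the operator `B`. -/

set_option autoImplicit false
set_option linter.unusedVariables false

open scoped BigOperators Topology ENNReal InnerProductSpace
open MeasureTheory ProbabilityTheory Filter
open Pool.Agent.TH980.IM.PR (PP sh)

namespace Pool.Agent.T2h98.MR.BOPx

open Pool.Agent.T2h98.NB
open Pool.Agent.T2h98.EA
open Pool.Agent.T2h98.EA.XOGx (ig ig_cont ig_int ig_meas Xl XO_eq XO_meas)

variable {d : ℕ} {U : Om d → ℝ → L2 d →L[ℂ] L2 d}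

/-- the shift, as a field of operators -/
noncomputable def Os (m : Sd d) : Om d → L2 d →L[ℂ] L2 d := fun _ => (Sf (-m)).toContinuousLinearMap

theorem Os_apply (m : Sd d) (V : Om d) (f : L2 d) : Os m V f = Sf (-m) f := rfl

theorem Os_cov (m : Sd d) : Cov (Os m) := by
  refine ⟨fun f => stronglyMeasurable_const, ⟨1, fun V => ?_⟩, fun z V f => ?_⟩
  · exact LinearIsometry.norm_toContinuousLinearMap_le _
  · rw [Os_apply, Os_apply, Sf_Sf, Sf_Sf]
    congr 2
    abel

theorem ig_norm (hU : Gr0 U) (m : Sd d) (V : Om d) (f : L2 d) (s : ℝ) :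
    ‖ig U (Os m) V f s‖ ≤ ‖f‖ := by
  unfold ig
  rw [hU.norm, Os_apply, LinearIsometry.norm_map, hU.norm]

theorem XO_norm (hU : Gr0 U) (m : Sd d) (V : Om d) (f : L2 d) :
    ‖Xl hU (Os m) V 1 f‖ ≤ 1 * ‖f‖ := by
  have h := intervalIntegral.norm_integral_le_of_norm_le_const (a := 0) (b := 1)
    (C := ‖f‖) fun s _ => ig_norm hU m V f s
  rw [sub_zero, abs_one, mul_one] at h
  rw [one_mul]
  exact h

/-- the operator `B` -/
noncomputable def Bo (hU : Gr0 U) (m : Sd d) (V : Om d) : L2 d →L[ℂ] L2 d :=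
  LinearMap.mkContinuous (Xl hU (Os m) V 1) 1 (XO_norm hU m V)

theorem Bo_apply (hU : Gr0 U) (m : Sd d) (V : Om d) (f : L2 d) :
    Bo hU m V f = XO U (Os m) V 1 f := rfl

theorem XO_add (hU : Gr0 U) (m : Sd d) (V : Om d) (s t : ℝ) (f : L2 d) :
    XO U (Os m) V (s + t) f = XO U (Os m) V s f + U V (-s) (XO U (Os m) V t (U V s f)) := by
  rw [XO_eq, XO_eq, XO_eq,
    ← intervalIntegral.integral_add_adjacent_intervals (ig_int hU (Os m) V f 0 s)
      (ig_int hU (Os m) V f s (s + t))]
  congr 1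
  have h1 := (U V (-s)).intervalIntegral_comp_comm (ig_int hU (Os m) V (U V s f) 0 t)
  refine Eq.trans ?_ h1
  have h2 := intervalIntegral.integral_comp_add_left (a := 0) (b := t)
    (fun r => ig U (Os m) V f r) s
  rw [add_zero] at h2
  rw [← h2]
  congr 1
  funext r
  unfold ig
  rw [neg_add, hU.add, add_comm s r, hU.add]

theorem t_BOP : T_BOP := by
  intro d U hG m
  have hU : Gr0 U := hG.g0
  refine ⟨Bo hU m, ⟨?_, ⟨1, ?_⟩, ?_⟩, ?_, ?_⟩
  · intro f
    have h1 := (XO_meas hU (Os_cov m) f).comp_measurable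
      (measurable_id.prodMk (measurable_const (a := (1 : ℝ))) : Measurable fun V : Om d => (V, (1 : ℝ)))
    exact h1
  · intro V
    exact LinearMap.mkContinuous_norm_le _ zero_le_one _
  · intro z V f
    rw [Bo_apply, Bo_apply]
    have h1 := (Sf (-z)).toContinuousLinearMap.intervalIntegral_comp_comm
      (ig_int hU (Os m) V (Sf z f) 0 1)
    rw [XO_eq, XO_eq]
    refine Eq.trans ?_ h1
    congr 1
    funext s
    show ig U (Os m) (sh z V) f s = Sf (-z) (ig U (Os m) V (Sf z f) s)
    unfold ig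
    rw [hG.shift, hG.shift, (Os_cov m).cov, Sf_Sf, Sf_Sf, add_neg_cancel, Sf_zero, Sf_zero]
  · intro V
    exact LinearMap.mkContinuous_norm_le _ zero_le_one _
  · intro V n f
    have key : SN U (Bo hU m) n V f = XO U (Os m) V (n : ℝ) f := by
      induction n with
      | zero =>
        rw [SNFx.SN_zero, Nat.cast_zero, XO_eq, intervalIntegral.integral_same]
        rfl
      | succ n ih =>
        rw [SNFx.SN_succ, add_apply, ih, Nat.cast_succ, XO_add hU]
        rfl
    rw [key]
    rfl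

end Pool.Agent.T2h98.MR.BOPx
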