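import Pool.Agent.T2h98.MR.Stm

/-! The cut off is harmless. -/

set_option autoImplicit false
set_option linter.unusedSectionVars false

open scoped BigOperators Matrix Topology
open MeasureTheory ProbabilityTheory Filter

namespace Pool.Agent.T2h98.MR

open Pool.Agent.T2h98.QD (dn dw T_DOS)
open Pool.Agent.T2h98.PS

namespace CFM

theorem one (f : ℝ → ℝ) : ∫ x in Set.Icc (0 : ℝ) 1, f (2 * Real.cos (2 * Real.pi * x)) =
    (2 * Real.pi)⁻¹ * ∫ x in Set.Icc (-Real.pi) Real.pi, f (2 * Real.cos x) := by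
  rw [integral_Icc_eq_integral_Ioc, integral_Icc_eq_integral_Ioc,
    ← intervalIntegral.integral_of_le zero_le_one,
    ← intervalIntegral.integral_of_le (by linarith [Real.pi_pos])]
  have h1 := intervalIntegral.integral_comp_mul_left (a := 0) (b := 1)
    (fun x => f (2 * Real.cos x)) (c := 2 * Real.pi) (by positivity)
  rw [h1, mul_zero, mul_one, smul_eq_mul]
  congr 1
  have hper : Function.Periodic (fun x => f (2 * Real.cos x)) (2 * Real.pi) := fun x => by
    simp only [Real.cos_add_two_pi]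
  have h2 := hper.intervalIntegral_add_eq (-Real.pi) 0
  rw [zero_add, show -Real.pi + 2 * Real.pi = Real.pi by ring] at h2
  exact h2.symm

/-- `1 / (2 π)` -/
noncomputable def cc : NNReal := ⟨(2 * Real.pi)⁻¹, by positivity⟩

theorem law1 : (volume.restrict (Set.Icc (0 : ℝ) 1)).map (fun x => 2 * Real.cos (2 * Real.pi * x)) =
    cc • (volume.restrict (Set.Icc (-Real.pi) Real.pi)).map (fun x => 2 * Real.cos x) := by
  have hm1 : Measurable fun x : ℝ => 2 * Real.cos (2 * Real.pi * x) := by fun_prop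
  have hm2 : Measurable fun x : ℝ => 2 * Real.cos x := by fun_prop
  refine Measure.ext fun s hs => ?_
  have h := one (s.indicator (1 : ℝ → ℝ))
  have e1 : ∫ x in Set.Icc (0 : ℝ) 1, s.indicator (1 : ℝ → ℝ) (2 * Real.cos (2 * Real.pi * x)) =
      ((volume.restrict (Set.Icc (0 : ℝ) 1)).map
        (fun x => 2 * Real.cos (2 * Real.pi * x))).real s := by
    rw [← integral_indicator_one hs, integral_map hm1.aemeasurable
      (aestronglyMeasurable_one.indicator hs)]
  have e2 : ∫ x in Set.Icc (-Real.pi) Real.pi, s.indicator (1 : ℝ → ℝ) (2 * Real.cos x) =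
      ((volume.restrict (Set.Icc (-Real.pi) Real.pi)).map (fun x => 2 * Real.cos x)).real s := by
    rw [← integral_indicator_one hs, integral_map hm2.aemeasurable
      (aestronglyMeasurable_one.indicator hs)]
  rw [e1, e2] at h
  rw [← ENNReal.toReal_eq_toReal_iff' (measure_ne_top _ _) (measure_ne_top _ _)]
  rw [Measure.smul_apply, ENNReal.smul_def, smul_eq_mul, ENNReal.toReal_mul]
  exact h

theorem pi_smul (d : ℕ) (c : NNReal) (ν : Measure ℝ) [IsFiniteMeasure ν] :
    (Measure.pi fun _ : Fin d => c • ν) = (c ^ d) • Measure.pi fun _ : Fin d => ν := by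
  refine Measure.pi_eq fun s hs => ?_
  rw [Measure.smul_apply, Measure.pi_pi]
  simp only [Measure.smul_apply, ENNReal.smul_def, smul_eq_mul, Finset.prod_mul_distrib,
    Finset.prod_const, Finset.card_univ, Fintype.card_fin, ENNReal.coe_pow]

theorem cov (d : ℕ) (f : ℝ → ℝ) (hf : Continuous f) :
    ∫ k in Set.Icc (0 : Fin d → ℝ) 1, f (ek k) =
      (2 * Real.pi)⁻¹ ^ d * ∫ k in Set.Icc (fun _ : Fin d => -Real.pi) (fun _ => Real.pi),
        f (∑ i, 2 * Real.cos (k i)) := by
  have hm1 : Measurable fun x : ℝ => 2 * Real.cos (2 * Real.pi * x) := by fun_prop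
  have hm2 : Measurable fun x : ℝ => 2 * Real.cos x := by fun_prop
  have e1 : (volume : Measure (Fin d → ℝ)).restrict (Set.Icc (0 : Fin d → ℝ) 1) =
      Measure.pi fun _ : Fin d => volume.restrict (Set.Icc (0 : ℝ) 1) := by
    rw [← Set.pi_univ_Icc]
    exact Measure.restrict_pi_pi _ _
  have e2 : (volume : Measure (Fin d → ℝ)).restrict
      (Set.Icc (fun _ : Fin d => -Real.pi) (fun _ => Real.pi)) =
      Measure.pi fun _ : Fin d => volume.restrict (Set.Icc (-Real.pi) Real.pi) := by
    rw [← Set.pi_univ_Icc]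
    exact Measure.restrict_pi_pi _ _
  have hs : Continuous fun y : Fin d → ℝ => f (∑ i, y i) := hf.comp (by fun_prop)
  have e3 := Measure.pi_map_pi (ι := Fin d) (μ := fun _ => volume.restrict (Set.Icc (0 : ℝ) 1))
    (f := fun _ x => 2 * Real.cos (2 * Real.pi * x)) (fun _ => hm1.aemeasurable)
  have e4 := Measure.pi_map_pi (ι := Fin d)
    (μ := fun _ => volume.restrict (Set.Icc (-Real.pi) Real.pi))
    (f := fun _ x => 2 * Real.cos x) (fun _ => hm2.aemeasurable)
  have hM1 : Measurable fun (x : Fin d → ℝ) (i : Fin d) => 2 * Real.cos (2 * Real.pi * x i) := by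
    fun_prop
  have hM2 : Measurable fun (x : Fin d → ℝ) (i : Fin d) => 2 * Real.cos (x i) := by
    fun_prop
  rw [e1, e2]
  have e5 : ∫ k, f (ek k) ∂(Measure.pi fun _ : Fin d => volume.restrict (Set.Icc (0 : ℝ) 1)) =
      ∫ y, f (∑ i, y i) ∂((Measure.pi fun _ : Fin d => volume.restrict (Set.Icc (0 : ℝ) 1)).map
        fun (x : Fin d → ℝ) (i : Fin d) => 2 * Real.cos (2 * Real.pi * x i)) := by
    rw [integral_map hM1.aemeasurable hs.aestronglyMeasurable]
    rfl
  have e6 : ∫ k, f (∑ i, 2 * Real.cos (k i))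
      ∂(Measure.pi fun _ : Fin d => volume.restrict (Set.Icc (-Real.pi) Real.pi)) =
      ∫ y, f (∑ i, y i) ∂((Measure.pi fun _ : Fin d =>
        volume.restrict (Set.Icc (-Real.pi) Real.pi)).map
        fun (x : Fin d → ℝ) (i : Fin d) => 2 * Real.cos (x i)) := by
    rw [integral_map hM2.aemeasurable hs.aestronglyMeasurable]
  rw [e5, e6, e3, e4, law1, pi_smul, integral_smul_nnreal_measure]
  rw [NNReal.smul_def, smul_eq_mul, NNReal.coe_pow]
  rfl

theorem key (w D c : ℝ) (hc : 0 < c) (hw : |w| ≤ D) : |w / max D c - w / D| ≤ max 0 (1 - D / c) := by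
  have hD : 0 ≤ D := (abs_nonneg w).trans hw
  rcases eq_or_lt_of_le hD with h0 | h0
  · rw [← h0] at hw
    have : w = 0 := abs_nonpos_iff.1 hw
    rw [this, zero_div, zero_div, sub_zero, abs_zero]
    exact le_max_left _ _
  rcases le_or_gt c D with h1 | h1
  · rw [max_eq_left h1, sub_self, abs_zero]
    exact le_max_left _ _
  · rw [max_eq_right h1.le]
    refine le_trans ?_ (le_max_right _ _)
    have h2 : w / c - w / D = w * (1 / c - 1 / D) := by ring
    have h3 : 1 / c ≤ 1 / D := one_div_le_one_div_of_le h0 h1.le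
    rw [h2, abs_mul, abs_of_nonpos (by linarith : 1 / c - 1 / D ≤ 0)]
    have h4 : D * -(1 / c - 1 / D) = 1 - D / c := by
      field_simp
      ring
    rw [← h4]
    exact mul_le_mul_of_nonneg_right hw (by linarith)

end CFM

open CFM in
theorem cfm (hM : T_PWM) (hD : T_DOS) : T_CFM := by
  intro d hd m g G c0 hg hG hc0
  obtain ⟨hW, hWD⟩ := hM d hd m
  obtain ⟨hDc, -, hD0, -, hDz, hDI⟩ := hD d hd
  have hG0 : 0 ≤ G := (abs_nonneg _).trans (hG 0)
  obtain ⟨F, hF⟩ : ∃ F : ℝ → ℝ, F = fun E => max 0 (1 - dn d E / c0) := ⟨_, rfl⟩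
  have hFc : Continuous F := by
    rw [hF]
    exact continuous_const.max (continuous_const.sub (hDc.div_const _))
  have hF0 : ∀ E, 0 ≤ F E := fun E => by
    rw [hF]
    exact le_max_left _ _
  have hkey : ∀ E, |cf d m c0 E - wm d m E / dn d E| ≤ F E := by
    intro E
    rw [hF]
    exact key _ _ _ hc0 (hWD E)
  have hek : Continuous fun k : Fin d → ℝ => ek k := by
    unfold ek
    fun_prop
  have hcf : Continuous (cf d m c0) := by
    unfold cf
    exact hW.div (hDc.max continuous_const) fun E => (lt_max_of_lt_right hc0).ne'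
  -- the integral of F
  have h1 : ∫ k in Set.Icc (0 : Fin d → ℝ) 1, F (ek k) ≤ d * c0 := by
    rw [cov d F hFc, (hDI F hFc).1]
    have h2 : ∫ E, F E * dn d E = ∫ E in Set.Icc (-(2 * (d : ℝ))) (2 * d), F E * dn d E := by
      refine (setIntegral_eq_integral_of_forall_compl_eq_zero fun E hE => ?_).symm
      have h3 : 2 * (d : ℝ) ≤ |E| := by
        by_contra hcon
        rw [not_le, abs_lt] at hcon
        exact hE ⟨hcon.1.le, hcon.2.le⟩
      rw [(hDz E h3).1, mul_zero]
    rw [h2]
    have h4 : ∀ E ∈ Set.Icc (-(2 * (d : ℝ))) (2 * d), ‖F E * dn d E‖ ≤ c0 / 4 := by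
      intro E _
      rw [Real.norm_eq_abs, abs_of_nonneg (mul_nonneg (hF0 E) (hD0 E)), hF]
      show max 0 (1 - dn d E / c0) * dn d E ≤ c0 / 4
      rcases max_cases 0 (1 - dn d E / c0) with h5 | h5
      · rw [h5.1, zero_mul]
        positivity
      · rw [h5.1]
        have h6 : (1 - dn d E / c0) * dn d E = c0 / 4 - (dn d E - c0 / 2) ^ 2 / c0 := by
          field_simp
          ring
        rw [h6]
        have : 0 ≤ (dn d E - c0 / 2) ^ 2 / c0 := by positivity
        linarith
    have h7 := norm_setIntegral_le_of_norm_le_const (μ := volume)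
      (isCompact_Icc.measure_lt_top) h4
    refine (le_abs_self _).trans (h7.trans (le_of_eq ?_))
    rw [Real.volume_real_Icc_of_le (by have : (0 : ℝ) ≤ d := Nat.cast_nonneg d
                                       linarith)]
    ring
  have i1 : Integrable (fun k => g k * cf d m c0 (ek k))
      (volume.restrict (Set.Icc (0 : Fin d → ℝ) 1)) :=
    (hg.mul (hcf.comp hek)).continuousOn.integrableOn_compact isCompact_Icc
  have i3 : Integrable (fun k => G * F (ek k))
      (volume.restrict (Set.Icc (0 : Fin d → ℝ) 1)) :=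
    (continuous_const.mul (hFc.comp hek)).continuousOn.integrableOn_compact isCompact_Icc
  have : IsFiniteMeasure ((volume : Measure (Fin d → ℝ)).restrict (Set.Icc (0 : Fin d → ℝ) 1)) :=
    ⟨by rw [Measure.restrict_apply_univ]; exact isCompact_Icc.measure_lt_top⟩
  have i2 : Integrable (fun k => g k * (wm d m (ek k) / dn d (ek k)))
      (volume.restrict (Set.Icc (0 : Fin d → ℝ) 1)) := by
    refine Integrable.of_bound (C := G) ?_ (ae_of_all _ fun k => ?_)
    · refine (hg.measurable.mul ?_).aestronglyMeasurable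
      exact (hW.measurable.div hDc.measurable).comp hek.measurable
    · rw [norm_mul, Real.norm_eq_abs, Real.norm_eq_abs]
      have h8 : |wm d m (ek k) / dn d (ek k)| ≤ 1 := by
        rw [abs_div, abs_of_nonneg (hD0 _)]
        exact div_le_one_of_le₀ (hWD _) (hD0 _)
      calc |g k| * |wm d m (ek k) / dn d (ek k)| ≤ G * 1 :=
            mul_le_mul (hG k) h8 (abs_nonneg _) hG0
        _ = G := mul_one G
  rw [← integral_sub i1 i2, ← Real.norm_eq_abs]
  refine (norm_integral_le_of_norm_le i3 (ae_of_all _ fun k => ?_)).trans ?_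
  · rw [← mul_sub, norm_mul, Real.norm_eq_abs, Real.norm_eq_abs]
    exact mul_le_mul (hG k) (hkey (ek k)) (abs_nonneg _) hG0
  · rw [integral_const_mul]
    have h9 := mul_le_mul_of_nonneg_left h1 hG0
    have h10 : 0 ≤ (d : ℝ) * G * c0 := by positivity
    nlinarith

end Pool.Agent.T2h98.MR
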