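import Pool.Agent.T2h98.MR.Stm
import Pool.Agent.T2h98.EA.Prp

/-! The free group. -/

set_option autoImplicit false
set_option linter.unusedSectionVars false

open scoped BigOperators Matrix Topology
open MeasureTheory ProbabilityTheory Filter

namespace Pool.Agent.T2h98.MR

open Pool.Agent.T2h98.NB
open Pool.Agent.T2h98.EA (uni prp_of coord_le)

namespace FRE

variable {d : ℕ}

/-- plane waves -/
noncomputable def pw (k : Fin d → ℝ) (x : Sd d) : ℂ :=
  Complex.exp ((2 * Real.pi * ∑ i, k i * (x i : ℝ) : ℝ) * Complex.I)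

theorem pw_norm (k : Fin d → ℝ) (x : Sd d) : ‖pw k x‖ = 1 := Complex.norm_exp_ofReal_mul_I _

theorem pw_cont (x : Sd d) : Continuous fun k : Fin d → ℝ => pw k x := by
  unfold pw
  exact Complex.continuous_exp.comp
    ((Complex.continuous_ofReal.comp (by fun_prop)).mul continuous_const)

theorem pw_add (k : Fin d → ℝ) (x y : Sd d) : pw k (x + y) = pw k x * pw k y := by
  unfold pw
  rw [← Complex.exp_add]
  congr 1
  have : ∑ i, k i * (((x + y) i : ℤ) : ℝ) = ∑ i, k i * (x i : ℝ) + ∑ i, k i * (y i : ℝ) := by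
    rw [← Finset.sum_add_distrib]
    refine Finset.sum_congr rfl fun i _ => ?_
    rw [Pi.add_apply]
    push_cast
    ring
  rw [this]
  push_cast
  ring

theorem pw_single (k : Fin d → ℝ) (i : Fin d) :
    pw k (Pi.single i 1) = Complex.exp (((2 * Real.pi * k i : ℝ) : ℂ) * Complex.I) := by
  unfold pw
  have : ∑ j, k j * (((Pi.single i (1 : ℤ) : Sd d) j : ℤ) : ℝ) = k i := by
    rw [Finset.sum_eq_single i]
    · simp
    · intro j _ hj
      rw [Pi.single_eq_of_ne hj]
      simp
    · intro h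
      exact absurd (Finset.mem_univ i) h
  rw [this]

theorem pw_neg (k : Fin d → ℝ) (x : Sd d) : pw k (-x) =
    Complex.exp (-((2 * Real.pi * ∑ i, k i * (x i : ℝ) : ℝ) * Complex.I)) := by
  unfold pw
  congr 1
  have : ∑ i, k i * (((-x) i : ℤ) : ℝ) = -∑ i, k i * (x i : ℝ) := by
    rw [← Finset.sum_neg_distrib]
    refine Finset.sum_congr rfl fun i _ => ?_
    rw [Pi.neg_apply]
    push_cast
    ring
  rw [this]
  push_cast
  ring

theorem pw_conj (k : Fin d → ℝ) (x : Sd d) : (starRingEnd ℂ) (pw k (-x)) = pw k x := by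
  rw [pw_neg, ← Complex.exp_conj]
  unfold pw
  congr 1
  rw [map_neg, map_mul, Complex.conj_ofReal, Complex.conj_I]
  ring

theorem pw_nb (k : Fin d → ℝ) (x : Sd d) :
    ∑ i : Fin d, (pw k (x + Pi.single i 1) + pw k (x - Pi.single i 1)) =
      (ek k : ℂ) * pw k x := by
  unfold ek
  rw [Complex.ofReal_sum, Finset.sum_mul]
  refine Finset.sum_congr rfl fun i _ => ?_
  rw [sub_eq_add_neg, pw_add, pw_add]
  have h1 : pw k (-Pi.single i 1) =
      Complex.exp (-((2 * Real.pi * k i : ℝ) : ℂ) * Complex.I) := by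
    have h2 : pw k (-Pi.single i 1) * pw k (Pi.single i 1) = 1 := by
      rw [← pw_add, neg_add_cancel]
      unfold pw
      simp
    rw [pw_single] at h2
    rw [neg_mul, Complex.exp_neg]
    exact eq_inv_of_mul_eq_one_left h2
  have h5 : ((2 * Real.cos (2 * Real.pi * k i) : ℝ) : ℂ) =
      Complex.exp (((2 * Real.pi * k i : ℝ) : ℂ) * Complex.I) +
        Complex.exp (-((2 * Real.pi * k i : ℝ) : ℂ) * Complex.I) := by
    rw [← Complex.two_cos, ← Complex.ofReal_cos, Complex.ofReal_mul, Complex.ofReal_ofNat]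
  rw [h1, pw_single, h5]
  ring

theorem pw_int (x : Sd d) : ∫ k in Set.Icc (0 : Fin d → ℝ) 1, pw k x =
    if x = 0 then 1 else 0 := by
  rw [← Pool.Agent.T2h98.QD.QE.mf_int x]
  refine integral_congr_ae (ae_of_all _ fun k => ?_)
  show pw k x = ∏ i, fourier (x i) ((k i : ℝ) : UnitAddCircle)
  have h : ∀ i, (fourier (x i) ((k i : ℝ) : UnitAddCircle) : ℂ) =
      Complex.exp (2 * Real.pi * Complex.I * (x i : ℂ) * (k i : ℂ)) := by
    intro i
    rw [fourier_coe_apply]
    congr 1
    push_cast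
    ring
  rw [Finset.prod_congr rfl fun i _ => h i, ← Complex.exp_sum]
  unfold pw
  congr 1
  push_cast
  rw [Finset.mul_sum, Finset.sum_mul]
  exact Finset.sum_congr rfl fun i _ => by ring

theorem fh_eq (S : Finset (Sd d)) (f : Sd d → ℂ) (k : Fin d → ℝ) :
    fh S f k = ∑ y ∈ S, f y * pw k (-y) := by
  unfold fh
  exact Finset.sum_congr rfl fun y _ => by rw [pw_neg]

theorem fh_cont (S : Finset (Sd d)) (f : Sd d → ℂ) : Continuous fun k => fh S f k := by
  simp only [fh_eq]
  exact continuous_finsetSum _ fun y _ => continuous_const.mul (pw_cont _)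

theorem fh_le (S : Finset (Sd d)) (f : Sd d → ℂ) (k : Fin d → ℝ) :
    ‖fh S f k‖ ≤ ∑ y ∈ S, ‖f y‖ := by
  rw [fh_eq]
  refine (norm_sum_le _ _).trans (le_of_eq (Finset.sum_congr rfl fun y _ => ?_))
  rw [norm_mul, pw_norm, mul_one]

theorem ek_cont : Continuous fun k : Fin d → ℝ => ek k := by
  unfold ek
  fun_prop

theorem ek_le (k : Fin d → ℝ) : |ek k| ≤ 2 * d := by
  unfold ek
  refine (Finset.abs_sum_le_sum_abs _ _).trans ?_
  calc ∑ i : Fin d, |2 * Real.cos (2 * Real.pi * k i)| ≤ ∑ _i : Fin d, (2 : ℝ) := by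
        refine Finset.sum_le_sum fun i _ => ?_
        rw [abs_mul, abs_two]
        linarith [Real.abs_cos_le_one (2 * Real.pi * k i)]
    _ = 2 * d := by
        rw [Finset.sum_const, Finset.card_univ, Fintype.card_fin, nsmul_eq_mul]
        ring

/-- phases -/
noncomputable def ph (t E : ℝ) : ℂ := Complex.exp (-(((t * E : ℝ) : ℂ) * Complex.I))

theorem ph_norm (t E : ℝ) : ‖ph t E‖ = 1 := by
  unfold ph
  rw [← neg_mul, ← Complex.ofReal_neg]
  exact Complex.norm_exp_ofReal_mul_I _

theorem ph_cont (t : ℝ) : Continuous fun E => ph t E := by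
  unfold ph
  exact Complex.continuous_exp.comp
    ((Complex.continuous_ofReal.comp (by fun_prop)).mul continuous_const).neg

theorem ph_der (t E : ℝ) : HasDerivAt (fun s => ph s E) (-(Complex.I * E) * ph t E) t := by
  have h1 : HasDerivAt (fun s : ℝ => ((s * E : ℝ) : ℂ)) ((E : ℝ) : ℂ) t := by
    have := ((hasDerivAt_id t).mul_const E).ofReal_comp
    simpa using this
  have h2 : HasDerivAt (fun s : ℝ => -(((s * E : ℝ) : ℂ) * Complex.I)) (-((E : ℂ) * Complex.I)) t :=
    (h1.mul_const Complex.I).fun_neg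
  unfold ph
  refine h2.cexp.congr_deriv ?_
  ring

/-- the integrand -/
noncomputable def F (S : Finset (Sd d)) (f : Sd d → ℂ) (t : ℝ) (x : Sd d) (k : Fin d → ℝ) : ℂ :=
  pw k x * fh S f k * ph t (ek k)

theorem F_cont (S : Finset (Sd d)) (f : Sd d → ℂ) (t : ℝ) (x : Sd d) :
    Continuous fun k => F S f t x k :=
  ((pw_cont x).mul (fh_cont S f)).mul ((ph_cont t).comp ek_cont)

theorem F_norm (S : Finset (Sd d)) (f : Sd d → ℂ) (t : ℝ) (x : Sd d) (k : Fin d → ℝ) :
    ‖F S f t x k‖ ≤ ∑ y ∈ S, ‖f y‖ := by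
  unfold F
  rw [norm_mul, norm_mul, pw_norm, ph_norm, one_mul, mul_one]
  exact fh_le S f k

theorem F_int (S : Finset (Sd d)) (f : Sd d → ℂ) (t : ℝ) (x : Sd d) :
    Integrable (fun k => F S f t x k) (volume.restrict (Set.Icc (0 : Fin d → ℝ) 1)) :=
  (F_cont S f t x).continuousOn.integrableOn_compact isCompact_Icc

theorem F_der (S : Finset (Sd d)) (f : Sd d → ℂ) (t : ℝ) (x : Sd d) (k : Fin d → ℝ) :
    HasDerivAt (fun s => F S f s x k) (-(Complex.I * ek k) * F S f t x k) t := by
  unfold F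
  refine ((ph_der t (ek k)).const_mul (pw k x * fh S f k)).congr_deriv ?_
  ring

/-- the solution -/
noncomputable def chi (S : Finset (Sd d)) (f : Sd d → ℂ) (t : ℝ) (x : Sd d) : ℂ :=
  ∫ k in Set.Icc (0 : Fin d → ℝ) 1, F S f t x k

theorem vol_one : (volume : Measure (Fin d → ℝ)).real (Set.Icc (0 : Fin d → ℝ) 1) = 1 := by
  rw [measureReal_def, Real.volume_Icc_pi]
  simp

theorem chi_le (S : Finset (Sd d)) (f : Sd d → ℂ) (t : ℝ) (x : Sd d) :
    ‖chi S f t x‖ ≤ ∑ y ∈ S, ‖f y‖ := by
  unfold chi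
  refine (norm_setIntegral_le_of_norm_le_const (isCompact_Icc.measure_lt_top)
    fun k _ => F_norm S f t x k).trans ?_
  rw [vol_one, mul_one]

theorem chi_der (S : Finset (Sd d)) (f : Sd d → ℂ) (t : ℝ) (x : Sd d) :
    HasDerivAt (fun s => chi S f s x)
      (∫ k in Set.Icc (0 : Fin d → ℝ) 1, -(Complex.I * ek k) * F S f t x k) t := by
  have : IsFiniteMeasure ((volume : Measure (Fin d → ℝ)).restrict (Set.Icc (0 : Fin d → ℝ) 1)) :=
    ⟨by rw [Measure.restrict_apply_univ]; exact isCompact_Icc.measure_lt_top⟩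
  unfold chi
  refine (hasDerivAt_integral_of_dominated_loc_of_deriv_le (F := fun s k => F S f s x k)
    (F' := fun s k => -(Complex.I * ek k) * F S f s x k) (s := Set.univ)
    (bound := fun _ => 2 * (d : ℝ) * ∑ y ∈ S, ‖f y‖) Filter.univ_mem ?_ ?_ ?_ ?_ ?_ ?_).2
  · exact Eventually.of_forall fun s => (F_cont S f s x).aestronglyMeasurable
  · exact F_int S f t x
  · refine Continuous.aestronglyMeasurable ?_
    exact ((continuous_const.mul (Complex.continuous_ofReal.comp ek_cont)).neg).mul (F_cont S f t x)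
  · refine ae_of_all _ fun k s _ => ?_
    rw [norm_mul, norm_neg, norm_mul, Complex.norm_I, one_mul, Complex.norm_real, Real.norm_eq_abs]
    exact mul_le_mul (ek_le k) (F_norm S f s x k) (norm_nonneg _) (by positivity)
  · exact (integrable_const _)
  · exact ae_of_all _ fun k s _ => F_der S f s x k

theorem chi_eq (S : Finset (Sd d)) (f : Sd d → ℂ) (t : ℝ) (x : Sd d) :
    ∫ k in Set.Icc (0 : Fin d → ℝ) 1, -(Complex.I * ek k) * F S f t x k =
      -(Complex.I * ∑ i : Fin d, (chi S f t (x + Pi.single i 1) + chi S f t (x - Pi.single i 1))) := by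
  have h1 : ∑ i : Fin d, (chi S f t (x + Pi.single i 1) + chi S f t (x - Pi.single i 1)) =
      ∫ k in Set.Icc (0 : Fin d → ℝ) 1, ∑ i : Fin d, (F S f t (x + Pi.single i 1) k +
        F S f t (x - Pi.single i 1) k) := by
    have hi : ∀ i : Fin d, Integrable (fun k => F S f t (x + Pi.single i 1) k +
        F S f t (x - Pi.single i 1) k) (volume.restrict (Set.Icc (0 : Fin d → ℝ) 1)) := by
      intro i
      exact (F_int S f t (x + Pi.single i 1)).add (F_int S f t (x - Pi.single i 1))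
    rw [integral_finsetSum Finset.univ fun i _ => hi i]
    refine Finset.sum_congr rfl fun i _ => ?_
    exact (integral_add (F_int S f t (x + Pi.single i 1)) (F_int S f t (x - Pi.single i 1))).symm
  rw [h1, ← integral_const_mul, ← integral_neg]
  refine integral_congr_ae (ae_of_all _ fun k => ?_)
  have h2 : ∑ i : Fin d, (F S f t (x + Pi.single i 1) k + F S f t (x - Pi.single i 1) k) =
      (∑ i : Fin d, (pw k (x + Pi.single i 1) + pw k (x - Pi.single i 1))) *
        (fh S f k * ph t (ek k)) := by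
    rw [Finset.sum_mul]
    refine Finset.sum_congr rfl fun i _ => ?_
    unfold F
    ring
  show _ = -(Complex.I * ∑ i : Fin d, (F S f t (x + Pi.single i 1) k +
    F S f t (x - Pi.single i 1) k))
  rw [h2, pw_nb]
  unfold F
  ring

theorem vf_apply (S : Finset (Sd d)) (f : Sd d → ℂ) (x : Sd d) :
    (vf S f) x = ∑ y ∈ S, f y * (if x = y then 1 else 0) := by
  rw [← inner_ee]
  unfold vf
  rw [inner_sum]
  refine Finset.sum_congr rfl fun y _ => ?_
  rw [inner_smul_right, inner_ee, ee_apply]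

theorem chi_zero (S : Finset (Sd d)) (f : Sd d → ℂ) (x : Sd d) :
    chi S f 0 x = (vf S f) x := by
  unfold chi
  have h1 : ∀ k : Fin d → ℝ, F S f 0 x k = ∑ y ∈ S, f y * pw k (x + -y) := by
    intro k
    unfold F
    have : ph 0 (ek k) = 1 := by
      unfold ph
      simp
    rw [this, mul_one, fh_eq, Finset.mul_sum]
    refine Finset.sum_congr rfl fun y _ => ?_
    rw [pw_add]
    ring
  simp only [h1]
  rw [integral_finsetSum _ fun y _ => ?_, vf_apply]
  · refine Finset.sum_congr rfl fun y _ => ?_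
    rw [integral_const_mul, pw_int]
    by_cases h : x = y
    · rw [if_pos (by rw [h, add_neg_cancel]), if_pos h]
    · rw [if_neg (fun h' => h (by rwa [← sub_eq_add_neg, sub_eq_zero] at h')), if_neg h]
  · exact (continuous_const.mul (pw_cont _)).continuousOn.integrableOn_compact isCompact_Icc

theorem grp_eq {U : Om d → ℝ → L2 d →L[ℂ] L2 d} (hU : Gr0 U) (S : Finset (Sd d)) (f : Sd d → ℂ)
    (t : ℝ) (x : Sd d) : (U 0 t (vf S f)) x = chi S f t x := by
  have hP := prp_of hU 0
  have h := uni (v := (0 : Om d)) (ψ := fun s x => (U 0 s (vf S f)) x) (χ := chi S f)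
    (max ‖vf S f‖ (∑ y ∈ S, ‖f y‖)) (fun s y => hP.deriv s (vf S f) y)
    (fun s y => ?_) ?_ (fun s y => ?_) (fun s y => ?_)
  · exact congrFun (congrFun h t) x
  · refine (chi_der S f s y).congr_deriv ?_
    rw [chi_eq]
    have : (((0 : Om d) y : ℝ) : ℂ) = 0 := by simp
    rw [this, zero_mul, add_zero]
    rfl
  · funext y
    show (U 0 0 (vf S f)) y = chi S f 0 y
    rw [chi_zero, hU.zero]
    rfl
  · exact ((coord_le _ y).trans (hU.norm _ s _).le).trans (le_max_left _ _)
  · exact (chi_le S f s y).trans (le_max_right _ _)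

theorem vf_inner (S : Finset (Sd d)) (f : Sd d → ℂ) (g : L2 d) :
    (inner ℂ (vf S f) g : ℂ) = ∑ y ∈ S, (starRingEnd ℂ) (f y) * g y := by
  unfold vf
  rw [sum_inner]
  refine Finset.sum_congr rfl fun y _ => ?_
  rw [inner_smul_left, inner_ee]

end FRE

open FRE in
theorem fre : T_FRE := by
  intro d U hU S f t
  rw [vf_inner]
  have h1 : ∑ y ∈ S, (starRingEnd ℂ) (f y) * (U 0 t (vf S f)) y =
      ∫ k in Set.Icc (0 : Fin d → ℝ) 1, ∑ y ∈ S, (starRingEnd ℂ) (f y) * F S f t y k := by
    rw [integral_finsetSum _ fun y _ => (F_int S f t y).const_mul _]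
    refine Finset.sum_congr rfl fun y _ => ?_
    rw [integral_const_mul, grp_eq hU.g0]
    rfl
  rw [h1]
  refine integral_congr_ae (ae_of_all _ fun k => ?_)
  have h2 : ∑ y ∈ S, (starRingEnd ℂ) (f y) * F S f t y k =
      (∑ y ∈ S, (starRingEnd ℂ) (f y) * pw k y) * fh S f k * ph t (ek k) := by
    rw [mul_assoc, Finset.sum_mul]
    refine Finset.sum_congr rfl fun y _ => ?_
    unfold F
    ring
  have h3 : ∑ y ∈ S, (starRingEnd ℂ) (f y) * pw k y = (starRingEnd ℂ) (fh S f k) := by
    rw [fh_eq, map_sum]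
    refine Finset.sum_congr rfl fun y _ => ?_
    rw [map_mul, pw_conj]
  show ∑ y ∈ S, (starRingEnd ℂ) (f y) * F S f t y k = _
  rw [h2, h3, Complex.conj_mul', ← Complex.ofReal_pow]
  rfl

end Pool.Agent.T2h98.MR
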