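import Pool.Agent.T2h98.MR.Stm
import Pool.Agent.T2h98.MR.FRE
import Pool.Agent.T2h98.MR.BOP

/-! Relaxation of the momentum at all times: the theorem from its parts. -/

set_option autoImplicit false
set_option linter.unusedSectionVars false
set_option linter.unusedVariables false

open scoped BigOperators Matrix Topology
open MeasureTheory ProbabilityTheory Filter

namespace Pool.Agent.T2h98.MR

open Pool.Agent.TH980.IM.PR (PP sh)
open Pool.Agent.T2h98.QD (dn T_DOS)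
open Pool.Agent.T2h98.PS
open Pool.Agent.T2h98.NB
open Pool.Agent.T2h98.EA (SN Uni1 T_SNF T_MAX)

namespace MRx

variable {d : ℕ}

theorem ns_prob (σ : ℝ) : IsProbabilityMeasure (ns σ) :=
  Measure.isProbabilityMeasure_map (measurable_const_mul σ).aemeasurable

theorem cf_cont (hM : T_PWM) (hD : T_DOS) (hd : 3 ≤ d) (m : Fin d → ℤ) {c0 : ℝ} (hc : 0 < c0) :
    Continuous (cf d m c0) := by
  obtain ⟨hW, -⟩ := hM d hd m
  obtain ⟨hDc, -⟩ := hD d hd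
  unfold cf
  exact hW.div (hDc.max continuous_const) fun E => (lt_of_lt_of_le hc (le_max_right _ _)).ne'

theorem cf_le (hM : T_PWM) (hd : 3 ≤ d) (m : Fin d → ℤ) {c0 : ℝ} (hc : 0 < c0) (E : ℝ) :
    |cf d m c0 E| ≤ 1 := by
  obtain ⟨-, hW⟩ := hM d hd m
  unfold cf
  have h0 : 0 < max (dn d E) c0 := lt_of_lt_of_le hc (le_max_right _ _)
  rw [abs_div, abs_of_pos h0, div_le_one h0]
  exact (hW E).trans (le_max_left _ _)

theorem norm_vf (S : Finset (Sd d)) (f : Sd d → ℂ) : ‖vf S f‖ ≤ ∑ y ∈ S, ‖f y‖ := by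
  unfold vf
  refine (norm_sum_le _ _).trans (le_of_eq (Finset.sum_congr rfl fun y _ => ?_))
  rw [norm_smul, norm_ee, mul_one]

theorem app_vf (A : L2 d →L[ℂ] L2 d) (S : Finset (Sd d)) (f : Sd d → ℂ) {b : ℝ}
    (h : ∀ y ∈ S, ‖A (ee y)‖ ≤ b) : ‖A (vf S f)‖ ≤ (∑ y ∈ S, ‖f y‖) * b := by
  unfold vf
  rw [map_sum, Finset.sum_mul]
  refine (norm_sum_le _ _).trans (Finset.sum_le_sum fun y hy => ?_)
  rw [map_smul, norm_smul]
  exact mul_le_mul_of_nonneg_left (h y hy) (norm_nonneg _)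

theorem cont_I {U : Om d → ℝ → L2 d →L[ℂ] L2 d} (hG : Grp U) (m : Sd d) (V : Om d) (F : L2 d) :
    Continuous fun s : ℝ => (inner ℂ (U V s F) (Sf (-m) (U V s F)) : ℂ) := by
  have h1 : Continuous fun s : ℝ => U V s F :=
    (hG.g0.cont F).comp (continuous_const.prodMk continuous_id)
  exact h1.inner ((Sf (-m)).continuous.comp h1)

theorem norm_I {U : Om d → ℝ → L2 d →L[ℂ] L2 d} (hG : Grp U) (m : Sd d) (V : Om d) (F : L2 d)
    (s : ℝ) : ‖(inner ℂ (U V s F) (Sf (-m) (U V s F)) : ℂ)‖ ≤ ‖F‖ ^ 2 := by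
  refine (norm_inner_le_norm _ _).trans ?_
  rw [LinearIsometry.norm_map, hG.g0.norm, sq]

theorem tint (hX : T_XT) {U : Om d → ℝ → L2 d →L[ℂ] L2 d} (hG : Grp U) {m : Sd d}
    {B : Om d → L2 d →L[ℂ] L2 d} (hB : IsB U m B) (V : Om d) (n : ℕ) (F : L2 d) :
    ∫ s in (0 : ℝ)..n, (inner ℂ (U V s F) (Sf (-m) (U V s F)) : ℂ) =
      inner ℂ F (SN U B n V F) := by
  obtain ⟨hsa, -⟩ := hX d U hG
  rw [hB.int]
  have h1 := (innerSL ℂ F).intervalIntegral_comp_comm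
    (EA.XOGx.ig_int hG.g0 (BOPx.Os m) V F 0 n)
  have h2 : (inner ℂ F (∫ s in (0 : ℝ)..n, U V (-s) (Sf (-m) (U V s F))) : ℂ) =
      ∫ s in (0 : ℝ)..n, (inner ℂ F (U V (-s) (Sf (-m) (U V s F))) : ℂ) := h1.symm
  rw [h2]
  refine intervalIntegral.integral_congr fun s _ => ?_
  exact hsa V s F _

theorem floor_err {I : ℝ → ℂ} (hI : Continuous I) {K : ℝ} (hK : ∀ s, ‖I s‖ ≤ K) {τ : ℝ}
    (hτ : 1 ≤ τ) : ‖(τ : ℂ)⁻¹ * (∫ s in (0 : ℝ)..τ, I s) -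
      ((⌊τ⌋₊ : ℕ) : ℂ)⁻¹ * (∫ s in (0 : ℝ)..(⌊τ⌋₊ : ℕ), I s)‖ ≤ 2 * K / τ := by
  have hK0 : 0 ≤ K := (norm_nonneg _).trans (hK 0)
  have hτ0 : 0 < τ := by linarith
  obtain ⟨N, hN⟩ : ∃ N : ℕ, N = ⌊τ⌋₊ := ⟨_, rfl⟩
  rw [← hN]
  have hN1 : 1 ≤ N := by
    rw [hN]
    exact Nat.le_floor (by exact_mod_cast hτ)
  have hNr : (1 : ℝ) ≤ N := by exact_mod_cast hN1
  have hNτ : (N : ℝ) ≤ τ := by
    rw [hN]
    exact Nat.floor_le hτ0.le
  have hNt : τ < N + 1 := by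
    rw [hN]
    exact Nat.lt_floor_add_one τ
  have h1 : ∫ s in (0 : ℝ)..τ, I s = (∫ s in (0 : ℝ)..N, I s) + ∫ s in (N : ℝ)..τ, I s :=
    (intervalIntegral.integral_add_adjacent_intervals (hI.intervalIntegrable _ _)
      (hI.intervalIntegrable _ _)).symm
  have h2 : ‖∫ s in (0 : ℝ)..N, I s‖ ≤ K * N := by
    have h := intervalIntegral.norm_integral_le_of_norm_le_const (a := 0) (b := (N : ℝ))
      (C := K) fun s _ => hK s
    rwa [sub_zero, abs_of_nonneg (by linarith)] at h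
  have h3 : ‖∫ s in (N : ℝ)..τ, I s‖ ≤ K * (τ - N) := by
    have h := intervalIntegral.norm_integral_le_of_norm_le_const (a := (N : ℝ)) (b := τ)
      (C := K) fun s _ => hK s
    rwa [abs_of_nonneg (by linarith)] at h
  rw [h1]
  have h4 : (τ : ℂ)⁻¹ * ((∫ s in (0 : ℝ)..N, I s) + ∫ s in (N : ℝ)..τ, I s) -
      (N : ℂ)⁻¹ * (∫ s in (0 : ℝ)..N, I s) =
      ((τ⁻¹ : ℝ) : ℂ) * (∫ s in (N : ℝ)..τ, I s) -
        (((N : ℝ)⁻¹ - τ⁻¹ : ℝ) : ℂ) * (∫ s in (0 : ℝ)..N, I s) := by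
    push_cast
    ring
  rw [h4]
  refine (norm_sub_le _ _).trans ?_
  rw [norm_mul, norm_mul, Complex.norm_real, Complex.norm_real, Real.norm_eq_abs,
    Real.norm_eq_abs, abs_of_pos (inv_pos.2 hτ0), abs_of_nonneg
      (sub_nonneg.2 (inv_anti₀ (by linarith) hNτ))]
  have h5 : τ⁻¹ * ‖∫ s in (N : ℝ)..τ, I s‖ ≤ τ⁻¹ * (K * (τ - N)) :=
    mul_le_mul_of_nonneg_left h3 (inv_pos.2 hτ0).le
  have h6 : ((N : ℝ)⁻¹ - τ⁻¹) * ‖∫ s in (0 : ℝ)..N, I s‖ ≤ ((N : ℝ)⁻¹ - τ⁻¹) * (K * N) :=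
    mul_le_mul_of_nonneg_left h2 (sub_nonneg.2 (inv_anti₀ (by linarith) hNτ))
  have h7 : ((N : ℝ)⁻¹ - τ⁻¹) * (K * N) = τ⁻¹ * (K * (τ - N)) := by
    field_simp
  have h8 : τ⁻¹ * (K * (τ - N)) ≤ K / τ := by
    rw [div_eq_inv_mul]
    refine mul_le_mul_of_nonneg_left ?_ (inv_pos.2 hτ0).le
    nlinarith
  calc _ ≤ K / τ + K / τ := by linarith
    _ = 2 * K / τ := by ring

theorem qE_cont {n : ℕ} (a : Fin n → ℂ) (t : Fin n → ℝ) : Continuous (qE a t) := by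
  unfold qE
  refine continuous_finsetSum _ fun i _ => continuous_const.mul ?_
  exact Complex.continuous_exp.comp
    (((Complex.continuous_ofReal.comp (continuous_const.mul continuous_id)).mul
      continuous_const).neg)

theorem free_part (hF : T_FRE) {U : Om d → ℝ → L2 d →L[ℂ] L2 d} (hG : Grp U)
    (S : Finset (Sd d)) (f : Sd d → ℂ) {n : ℕ} (a : Fin n → ℂ) (t : Fin n → ℝ) :
    (inner ℂ (vf S f) (qU U a t 0 (vf S f)) : ℂ) =
      ∫ k in Set.Icc (0 : Fin d → ℝ) 1, ((‖fh S f k‖ ^ 2 : ℝ) : ℂ) * qE a t (ek k) := by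
  have h1 : qU U a t 0 (vf S f) = ∑ i, a i • U 0 (t i) (vf S f) := by
    unfold qU
    rw [sum_apply]
    rfl
  rw [h1, inner_sum]
  have h2 : ∀ k : Fin d → ℝ, ((‖fh S f k‖ ^ 2 : ℝ) : ℂ) * qE a t (ek k) =
      ∑ i, a i * (((‖fh S f k‖ ^ 2 : ℝ) : ℂ) *
        Complex.exp (-(((t i * ek k : ℝ) : ℂ) * Complex.I))) := by
    intro k
    unfold qE
    rw [Finset.mul_sum]
    exact Finset.sum_congr rfl fun i _ => by ring
  simp only [h2]
  rw [integral_finsetSum _ fun i _ => ?_]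
  · refine Finset.sum_congr rfl fun i _ => ?_
    rw [integral_const_mul, inner_smul_right, hF d U hG S f (t i)]
  · refine Continuous.integrableOn_Icc ?_
    refine continuous_const.mul ((Complex.continuous_ofReal.comp
      ((FRE.fh_cont S f).norm.pow 2)).mul (Complex.continuous_exp.comp ?_))
    exact ((Complex.continuous_ofReal.comp (continuous_const.mul FRE.ek_cont)).mul
      continuous_const).neg

theorem free_err (hM : T_PWM) (hD : T_DOS) (hd : 3 ≤ d) (m : Fin d → ℤ) {c0 : ℝ} (hc : 0 < c0)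
    (S : Finset (Sd d)) (f : Sd d → ℂ) {n : ℕ} (a : Fin n → ℂ) (t : Fin n → ℝ) {η : ℝ}
    (h : ∀ E : ℝ, |E| ≤ 2 * (d : ℝ) + 1 → ‖qE a t E - (cf d m c0 E : ℂ)‖ ≤ η) :
    ‖(∫ k in Set.Icc (0 : Fin d → ℝ) 1, ((‖fh S f k‖ ^ 2 : ℝ) : ℂ) * qE a t (ek k)) -
      ((∫ k in Set.Icc (0 : Fin d → ℝ) 1, ‖fh S f k‖ ^ 2 * cf d m c0 (ek k) : ℝ) : ℂ)‖ ≤
      (∑ y ∈ S, ‖f y‖) ^ 2 * η := by
  have hη : 0 ≤ η := (norm_nonneg _).trans (h 0 (by rw [abs_zero]; positivity))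
  have hcc := cf_cont hM hD hd m hc
  rw [← integral_complex_ofReal, ← integral_sub]
  · have h1 := norm_setIntegral_le_of_norm_le_const (μ := (volume : Measure (Fin d → ℝ)))
      (s := Set.Icc (0 : Fin d → ℝ) 1) (C := (∑ y ∈ S, ‖f y‖) ^ 2 * η)
      (f := fun k => ((‖fh S f k‖ ^ 2 : ℝ) : ℂ) * qE a t (ek k) -
        ((‖fh S f k‖ ^ 2 * cf d m c0 (ek k) : ℝ) : ℂ)) isCompact_Icc.measure_lt_top
      (fun k _ => ?_)
    · rw [FRE.vol_one, mul_one] at h1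
      exact h1
    · have h2 : ((‖fh S f k‖ ^ 2 : ℝ) : ℂ) * qE a t (ek k) -
          ((‖fh S f k‖ ^ 2 * cf d m c0 (ek k) : ℝ) : ℂ) =
          ((‖fh S f k‖ ^ 2 : ℝ) : ℂ) * (qE a t (ek k) - (cf d m c0 (ek k) : ℂ)) := by
        push_cast
        ring
      rw [h2, norm_mul, Complex.norm_real, Real.norm_eq_abs, abs_of_nonneg (by positivity)]
      refine mul_le_mul (pow_le_pow_left₀ (norm_nonneg _) (FRE.fh_le S f k) 2)
        (h _ ((FRE.ek_le k).trans (by linarith))) (norm_nonneg _) (by positivity)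
  · refine Continuous.integrableOn_Icc ?_
    exact (Complex.continuous_ofReal.comp ((FRE.fh_cont S f).norm.pow 2)).mul
      ((qE_cont a t).comp FRE.ek_cont)
  · refine Continuous.integrableOn_Icc ?_
    exact Complex.continuous_ofReal.comp (((FRE.fh_cont S f).norm.pow 2).mul
      (hcc.comp FRE.ek_cont))

/-- the estimate at one potential -/
theorem point (hX : T_XT) (hC : T_ROC) (hF : T_FRE) (hCf : T_CFM) (hM : T_PWM) (hD : T_DOS)
    (hd : 3 ≤ d) {U : Om d → ℝ → L2 d →L[ℂ] L2 d} (hG : Grp U) {m : Sd d}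
    {B : Om d → L2 d →L[ℂ] L2 d} (hB : IsB U m B) (S : Finset (Sd d)) (f : Sd d → ℂ) {n : ℕ}
    (a : Fin n → ℂ) (t : Fin n → ℝ) {c0 η1 : ℝ} (hc : 0 < c0)
    (h : ∀ E : ℝ, |E| ≤ 2 * (d : ℝ) + 1 → ‖qE a t E - (cf d m c0 E : ℂ)‖ ≤ η1)
    {M : ℕ} (hM1 : 1 ≤ M) (V : Om d) {b e1 : ℝ} (hb0 : 0 ≤ b)
    (hb : ∀ y ∈ S, ∀ i : ℕ, 1 ≤ i → ‖((i : ℂ)⁻¹) • SN U (RO U B M a t) i V (ee y)‖ ≤ b)
    (he : ‖qU U a t V (vf S f) - qU U a t 0 (vf S f)‖ ≤ e1) {τ : ℝ} (hτ : 2 ≤ τ) :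
    ‖(τ : ℂ)⁻¹ * (∫ s in (0 : ℝ)..τ,
        (inner ℂ (U V s (vf S f)) (Sf (-m) (U V s (vf S f))) : ℂ)) -
      ((∫ k in Set.Icc (0 : Fin d → ℝ) 1, ‖fh S f k‖ ^ 2 * (wm d m (ek k) / dn d (ek k)) : ℝ) :
        ℂ)‖ ≤ ((∑ y ∈ S, ‖f y‖) + 1) ^ 2 *
          (2 / τ + 4 * M / τ + b + e1 + η1 + 16 * d * c0) := by
  obtain ⟨F, hFd⟩ : ∃ F : L2 d, F = vf S f := ⟨_, rfl⟩
  obtain ⟨F1, hF1⟩ : ∃ F1 : ℝ, F1 = ∑ y ∈ S, ‖f y‖ := ⟨_, rfl⟩
  have hη1 : 0 ≤ η1 := (norm_nonneg _).trans (h 0 (by rw [abs_zero]; positivity))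
  have he0 : 0 ≤ e1 := (norm_nonneg _).trans he
  have hF10 : 0 ≤ F1 := by
    rw [hF1]
    exact Finset.sum_nonneg fun y _ => norm_nonneg _
  have hnF : ‖F‖ ≤ F1 := by
    rw [hFd, hF1]
    exact norm_vf S f
  have hn0 : 0 ≤ ‖F‖ := norm_nonneg _
  have hA1 : ‖F‖ ^ 2 ≤ (F1 + 1) ^ 2 := pow_le_pow_left₀ hn0 (by linarith) 2
  have hA2 : ‖F‖ ≤ (F1 + 1) ^ 2 := by nlinarith
  have hA3 : F1 ^ 2 ≤ (F1 + 1) ^ 2 := pow_le_pow_left₀ hF10 (by linarith) 2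
  have hA4 : ‖F‖ * F1 ≤ (F1 + 1) ^ 2 := by nlinarith
  have hτ0 : 0 < τ := by linarith
  obtain ⟨N, hN⟩ : ∃ N : ℕ, N = ⌊τ⌋₊ := ⟨_, rfl⟩
  have hN1 : 1 ≤ N := by
    rw [hN]
    exact Nat.le_floor (by push_cast; linarith)
  have hNt : τ < N + 1 := by
    rw [hN]
    exact Nat.lt_floor_add_one τ
  have hN2 : τ / 2 ≤ N := by linarith
  have hN0 : (0 : ℝ) < N := by linarith
  -- first error
  have E1 := floor_err (cont_I hG m V F) (norm_I hG m V F) (τ := τ) (by linarith)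
  rw [← hN, tint hX hG hB] at E1
  -- second error
  have hR := (hC d U hG m B hB M hM1 n a t).2.2 N hN1 V F
  have E2 : ‖(inner ℂ F (((N : ℂ)⁻¹) • SN U B N V F - qU U a t V F -
      ((N : ℂ)⁻¹) • SN U (RO U B M a t) N V F) : ℂ)‖ ≤ ‖F‖ * (2 * (M : ℝ) / N * ‖F‖) :=
    (norm_inner_le_norm _ _).trans (mul_le_mul_of_nonneg_left hR hn0)
  have E2' : ‖F‖ * (2 * (M : ℝ) / N * ‖F‖) ≤ (F1 + 1) ^ 2 * (4 * M / τ) := by
    have h1 : ‖F‖ * (2 * (M : ℝ) / N * ‖F‖) = ‖F‖ ^ 2 * (2 * (M : ℝ) / N) := by ring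
    rw [h1]
    refine mul_le_mul hA1 ?_ (by positivity) (by positivity)
    rw [div_le_div_iff₀ hN0 hτ0]
    have hM0 : (0 : ℝ) ≤ M := Nat.cast_nonneg M
    nlinarith
  -- third error
  have E3 : ‖(inner ℂ F (((N : ℂ)⁻¹) • SN U (RO U B M a t) N V F) : ℂ)‖ ≤
      (F1 + 1) ^ 2 * b := by
    have h1 := app_vf ((((N : ℂ)⁻¹) • SN U (RO U B M a t) N V : L2 d →L[ℂ] L2 d)) S f
      (fun y hy => hb y hy N hN1)
    rw [← hFd, ← hF1] at h1
    refine (norm_inner_le_norm _ _).trans ((mul_le_mul_of_nonneg_left h1 hn0).trans ?_)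
    rw [← mul_assoc]
    exact mul_le_mul_of_nonneg_right hA4 hb0
  -- fourth error
  have E4 : ‖(inner ℂ F (qU U a t V F - qU U a t 0 F) : ℂ)‖ ≤ (F1 + 1) ^ 2 * e1 := by
    rw [← hFd] at he
    exact (norm_inner_le_norm _ _).trans (mul_le_mul hA2 he (norm_nonneg _) (by positivity))
  -- the free group
  have E5 := free_part hF hG S f a t
  have E6 := free_err hM hD hd m hc S f a t h
  rw [← E5, ← hF1, ← hFd] at E6
  have E7 := hCf d hd m (fun k => ‖fh S f k‖ ^ 2) (F1 ^ 2) c0 ((FRE.fh_cont S f).norm.pow 2)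
    (fun k => by
      rw [abs_of_nonneg (by positivity), hF1]
      exact pow_le_pow_left₀ (norm_nonneg _) (FRE.fh_le S f k) 2) hc
  have E7' : ‖((∫ k in Set.Icc (0 : Fin d → ℝ) 1, ‖fh S f k‖ ^ 2 * cf d m c0 (ek k) : ℝ) : ℂ) -
      ((∫ k in Set.Icc (0 : Fin d → ℝ) 1, ‖fh S f k‖ ^ 2 * (wm d m (ek k) / dn d (ek k)) : ℝ) :
        ℂ)‖ ≤ 16 * d * F1 ^ 2 * c0 := by
    rw [← Complex.ofReal_sub, Complex.norm_real, Real.norm_eq_abs]
    exact E7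
  rw [← hFd, ← hF1]
  obtain ⟨X0, hX0⟩ : ∃ X0 : ℂ, X0 = (τ : ℂ)⁻¹ * (∫ s in (0 : ℝ)..τ,
    (inner ℂ (U V s F) (Sf (-m) (U V s F)) : ℂ)) := ⟨_, rfl⟩
  obtain ⟨Y0, hY0⟩ : ∃ Y0 : ℂ, Y0 = ((∫ k in Set.Icc (0 : Fin d → ℝ) 1,
    ‖fh S f k‖ ^ 2 * (wm d m (ek k) / dn d (ek k)) : ℝ) : ℂ) := ⟨_, rfl⟩
  obtain ⟨Z0, hZ0⟩ : ∃ Z0 : ℂ, Z0 = ((∫ k in Set.Icc (0 : Fin d → ℝ) 1,
    ‖fh S f k‖ ^ 2 * cf d m c0 (ek k) : ℝ) : ℂ) := ⟨_, rfl⟩
  rw [← hX0] at E1 ⊢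
  rw [← hY0] at E7' ⊢
  rw [← hZ0] at E6 E7'
  rw [inner_sub_right, inner_sub_right, inner_smul_right, inner_smul_right] at E2
  rw [inner_smul_right] at E3
  rw [inner_sub_right] at E4
  have key : X0 - Y0 = (X0 - (N : ℂ)⁻¹ * inner ℂ F (SN U B N V F)) +
      ((N : ℂ)⁻¹ * inner ℂ F (SN U B N V F) - inner ℂ F (qU U a t V F) -
        (N : ℂ)⁻¹ * inner ℂ F (SN U (RO U B M a t) N V F)) +
      (N : ℂ)⁻¹ * inner ℂ F (SN U (RO U B M a t) N V F) +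
      (inner ℂ F (qU U a t V F) - inner ℂ F (qU U a t 0 F)) +
      (inner ℂ F (qU U a t 0 F) - Z0) + (Z0 - Y0) := by ring
  rw [key]
  refine (norm_add_le _ _).trans ?_
  refine (add_le_add_left (norm_add_le _ _) _).trans ?_
  refine (add_le_add_left (add_le_add_left (norm_add_le _ _) _) _).trans ?_
  refine (add_le_add_left (add_le_add_left (add_le_add_left (norm_add_le _ _) _) _) _).trans ?_
  refine (add_le_add_left (add_le_add_left (add_le_add_left (add_le_add_left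
    (norm_add_le _ _) _) _) _) _).trans ?_
  have h1 : 2 * ‖F‖ ^ 2 / τ ≤ (F1 + 1) ^ 2 * (2 / τ) := by
    rw [mul_div_assoc', div_le_div_iff_of_pos_right hτ0]
    linarith
  have h2 : F1 ^ 2 * η1 ≤ (F1 + 1) ^ 2 * η1 := mul_le_mul_of_nonneg_right hA3 hη1
  have h3 : 16 * d * F1 ^ 2 * c0 ≤ (F1 + 1) ^ 2 * (16 * d * c0) := by
    have : 16 * (d : ℝ) * F1 ^ 2 * c0 = F1 ^ 2 * (16 * d * c0) := by ring
    rw [this]
    exact mul_le_mul_of_nonneg_right hA3 (by positivity)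
  linarith

end MRx

open MRx in
/-- **relaxation of the momentum at all times**, from the parts -/
theorem mr (hB : T_BOP) (hI : T_INF) (hC : T_ROC) (hMx : T_MXS) (hQ : T_QCV) (hF : T_FRE)
    (hCf : T_CFM) (hT : T_TR2) (hBd : T_QBD) (hX : T_XT) (hS : T_SNF) (hPW : T_PWM)
    (hD : T_DOS) : T_MR := by
  intro d hd U hG m a ha S f η hη
  obtain ⟨h, hh⟩ : ∃ h : ℝ, h = min (a / 2) (1 / 4) := ⟨_, rfl⟩
  have hh0 : 0 < h := by
    rw [hh]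
    exact lt_min (by linarith) (by norm_num)
  have hh1 : h < 1 / 3 := by
    rw [hh]
    exact lt_of_le_of_lt (min_le_right _ _) (by norm_num)
  have hha : h ≤ a / 2 := by
    rw [hh]
    exact min_le_left _ _
  obtain ⟨B, hBB⟩ := hB d U hG m
  obtain ⟨A, hA⟩ : ∃ A : ℝ, A = ((∑ y ∈ S, ‖f y‖) + 1) ^ 2 := ⟨_, rfl⟩
  have hA1 : 1 ≤ A := by
    rw [hA]
    have : 0 ≤ ∑ y ∈ S, ‖f y‖ := Finset.sum_nonneg fun y _ => norm_nonneg _
    nlinarith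
  have hA0 : 0 < A := by linarith
  -- the constants
  obtain ⟨δ, hδ⟩ : ∃ δ : ℝ, δ = η / (16 * A) := ⟨_, rfl⟩
  have hδ0 : 0 < δ := by
    rw [hδ]
    positivity
  have hAδ : A * δ = η / 16 := by
    rw [hδ]
    field_simp
  have hsq : Real.sqrt (2 * (δ ^ 2 / 2)) = δ := by
    rw [show 2 * (δ ^ 2 / 2) = δ ^ 2 by ring]
    exact Real.sqrt_sq hδ0.le
  obtain ⟨w, hw⟩ : ∃ w : ℝ, w = δ ^ 2 / 2 * (δ / 3) ^ 2 := ⟨_, rfl⟩
  have hw0 : 0 < w := by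
    rw [hw]
    positivity
  obtain ⟨r, hr⟩ : ∃ r : ℝ, r = η / 2 * w / ((S.card : ℝ) + 1) := ⟨_, rfl⟩
  have hr0 : 0 < r := by
    rw [hr]
    positivity
  have hSr : (S.card : ℝ) * (r / w) ≤ η / 2 := by
    have h1 : r / w = η / 2 / ((S.card : ℝ) + 1) := by
      rw [hr]
      field_simp
    rw [h1, mul_div_assoc', div_le_iff₀ (by positivity)]
    nlinarith
  obtain ⟨c0, hc0⟩ : ∃ c0 : ℝ, c0 = min (r / (600 * d)) (δ / (16 * d)) := ⟨_, rfl⟩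
  have hd0 : (0 : ℝ) < d := by
    have : 0 < d := by omega
    exact_mod_cast this
  have hc : 0 < c0 := by
    rw [hc0]
    exact lt_min (by positivity) (by positivity)
  have hc1 : 300 * d * c0 ≤ r / 2 := by
    have h1 : c0 ≤ r / (600 * d) := by
      rw [hc0]
      exact min_le_left _ _
    calc 300 * d * c0 ≤ 300 * d * (r / (600 * d)) := mul_le_mul_of_nonneg_left h1 (by positivity)
      _ = r / 2 := by
        field_simp
        ring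
  have hc2 : 16 * d * c0 ≤ δ := by
    have h1 : c0 ≤ δ / (16 * d) := by
      rw [hc0]
      exact min_le_right _ _
    calc 16 * d * c0 ≤ 16 * d * (δ / (16 * d)) := mul_le_mul_of_nonneg_left h1 (by positivity)
      _ = δ := by
        field_simp
  obtain ⟨η1, hη1⟩ : ∃ η1 : ℝ, η1 = min 1 (min (r / 200) δ) := ⟨_, rfl⟩
  have hη10 : 0 < η1 := by
    rw [hη1]
    exact lt_min one_pos (lt_min (by positivity) hδ0)
  have hη11 : η1 ≤ 1 := by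
    rw [hη1]
    exact min_le_left _ _
  have hη12 : η1 ≤ r / 200 := by
    rw [hη1]
    exact (min_le_right _ _).trans (min_le_left _ _)
  have hη13 : η1 ≤ δ := by
    rw [hη1]
    exact (min_le_right _ _).trans (min_le_right _ _)
  obtain ⟨n, q, t, hq1, hq2⟩ := hT (cf d m c0) (2 * (d : ℝ) + 1) η1
    (cf_cont hPW hD hd m hc) (cf_le hPW hd m hc) (by positivity) hη10 hη11
  obtain ⟨e1, he1⟩ : ∃ e1 : ℝ, e1 = min (η / 2) δ := ⟨_, rfl⟩
  have he10 : 0 < e1 := by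
    rw [he1]
    exact lt_min (by linarith) hδ0
  have he11 : e1 ≤ η / 2 := by
    rw [he1]
    exact min_le_left _ _
  have he12 : e1 ≤ δ := by
    rw [he1]
    exact min_le_right _ _
  have F1 := hI d hd h hh0 hh1 m c0 η1 hc hη10 n q t hq1 U hG B hBB
  have F2 := hQ d U hG n q t (vf S f) e1 he10
  have F3 : ∀ᶠ σ : ℝ in 𝓝[>] 0, σ ^ (a - h) < min (1 / 2) (δ / 12) := by
    have hp : 0 < a - h := by linarith
    have h1 : Tendsto (fun σ : ℝ => σ ^ (a - h)) (𝓝[>] 0) (𝓝 ((0 : ℝ) ^ (a - h))) :=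
      ((Real.continuous_rpow_const hp.le).tendsto 0).mono_left nhdsWithin_le_nhds
    rw [Real.zero_rpow hp.ne'] at h1
    exact h1.eventually_lt_const (lt_min (by norm_num) (by positivity))
  have F4 : ∀ᶠ σ : ℝ in 𝓝[>] 0, 0 < σ := eventually_mem_nhdsWithin
  have F5 : ∀ᶠ σ : ℝ in 𝓝[>] 0, σ < 1 :=
    (Filter.Tendsto.eventually_lt_const one_pos tendsto_id).filter_mono nhdsWithin_le_nhds
  filter_upwards [F1, F2, F3, F4, F5] with σ G1 G2 G3 hσ0 hσ1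
  haveI := ns_prob σ
  haveI : IsProbabilityMeasure (PP (Sd d) (ns σ)) := by
    unfold Pool.Agent.TH980.IM.PR.PP
    infer_instance
  have hρ1 : σ ^ (a - h) ≤ 1 / 2 := (G3.trans_le (min_le_left _ _)).le
  have hρ2 : σ ^ (a - h) ≤ δ / 12 := (G3.trans_le (min_le_right _ _)).le
  have hp0 : 0 < σ ^ (2 + h) := Real.rpow_pos_of_pos hσ0 _
  have hp1 : σ ^ (2 + h) ≤ 1 := Real.rpow_le_one hσ0.le hσ1.le (by linarith)
  obtain ⟨M, hM⟩ : ∃ M : ℕ, M = ⌈2 / σ ^ (2 + h)⌉₊ := ⟨_, rfl⟩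
  have hM1 : 2 / σ ^ (2 + h) ≤ (M : ℝ) := by
    rw [hM]
    exact Nat.le_ceil _
  have hM2 : (M : ℝ) ≤ 2 / σ ^ (2 + h) + 1 := by
    rw [hM]
    exact (Nat.ceil_lt_add_one (by positivity)).le
  have hM3 : 1 ≤ M := by
    have h1 : (1 : ℝ) ≤ 2 / σ ^ (2 + h) := by
      rw [le_div_iff₀ hp0]
      linarith
    exact_mod_cast h1.trans hM1
  have hM0 : (M : ℂ) ≠ 0 := by
    have : M ≠ 0 := by omega
    exact_mod_cast this
  -- the bound of the remainder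
  have hRC := (hC d U hG m B hBB M hM3 n q t).1
  have hR3 : ∀ V, ‖RO U B M q t V‖ ≤ 3 := by
    intro V
    unfold RO
    refine (norm_sub_le _ _).trans ?_
    have h1 : ‖qU U q t V‖ ≤ 2 := hBd d U hG n q t 2 (by norm_num) hq2 V
    have h2 : ‖((M : ℂ)⁻¹) • SN U B M V‖ ≤ 1 := by
      refine ContinuousLinearMap.opNorm_le_bound _ zero_le_one fun g => ?_
      have h3 := (hS d U hG).2.1 B M 1 hBB.bdd V g
      rw [_root_.smul_apply, norm_smul, norm_inv, Complex.norm_natCast, one_mul]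
      have hMr : (0 : ℝ) < M := by exact_mod_cast hM3
      rw [inv_mul_le_iff₀ hMr]
      linarith
    linarith
  have hRr : ∫ V, ‖RO U B M q t V (ee 0)‖ ^ 2 ∂(PP (Sd d) (ns σ)) ≤ r := by
    refine (G1 M hM1 hM2).trans ?_
    nlinarith
  obtain ⟨Ω1, hΩ1, hP1, hb1⟩ := hMx d U hG (ns σ) (RO U B M q t) hRC 3 r (δ ^ 2 / 2) (δ / 3)
    (by norm_num) hR3 hRr (by positivity) (by positivity) S
  obtain ⟨Ω2, hΩ2, hP2, hb2⟩ := G2
  rw [← hw] at hP1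
  refine ⟨Ω1 ∩ Ω2, hΩ1.inter hΩ2, ?_, ?_⟩
  · have h1 : (PP (Sd d) (ns σ)).real (Ω1 ∩ Ω2)ᶜ ≤
        (PP (Sd d) (ns σ)).real Ω1ᶜ + (PP (Sd d) (ns σ)).real Ω2ᶜ := by
      rw [Set.compl_inter]
      exact measureReal_union_le _ _
    rw [probReal_compl_eq_one_sub (hΩ1.inter hΩ2), probReal_compl_eq_one_sub hΩ1,
      probReal_compl_eq_one_sub hΩ2] at h1
    linarith
  · intro V hV τ hτ
    have hst : σ ^ (-2 - a) = (σ ^ (2 + a))⁻¹ := by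
      rw [← Real.rpow_neg hσ0.le]
      congr 1
      ring
    have hpa : 0 < σ ^ (2 + a) := Real.rpow_pos_of_pos hσ0 _
    have hτ0 : 0 < τ := lt_of_lt_of_le (by rw [hst]; positivity) hτ
    have hti : 1 / τ ≤ σ ^ (2 + a) := by
      rw [hst] at hτ
      rw [div_le_iff₀ hτ0]
      calc (1 : ℝ) = σ ^ (2 + a) * (σ ^ (2 + a))⁻¹ := by field_simp
        _ ≤ σ ^ (2 + a) * τ := mul_le_mul_of_nonneg_left hτ hpa.le
    have hle : σ ^ (2 + a) ≤ σ ^ (a - h) :=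
      Real.rpow_le_rpow_of_exponent_ge hσ0 hσ1.le (by linarith)
    have hsplit : σ ^ (2 + a) = σ ^ (2 + h) * σ ^ (a - h) := by
      rw [← Real.rpow_add hσ0]
      congr 1
      ring
    have hτ2 : 2 ≤ τ := by
      have h1 : 1 / τ ≤ 1 / 2 := hti.trans (hle.trans hρ1)
      rwa [one_div_le_one_div hτ0 two_pos] at h1
    have hbb : ∀ y ∈ S, ∀ i : ℕ, 1 ≤ i →
        ‖((i : ℂ)⁻¹) • SN U (RO U B M q t) i V (ee y)‖ ≤ 2 * δ := by
      intro y hy i hi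
      have h1 := hb1 V hV.1 y hy i hi
      rw [hsq] at h1
      linarith
    have hpt := point hX hC hF hCf hPW hD hd hG hBB S f q t hc hq1 hM3 V (by linarith) hbb
      (hb2 V hV.2) hτ2
    rw [← hA] at hpt
    refine hpt.trans ?_
    have h1 : 2 / τ ≤ δ := by
      have : 2 / τ = 2 * (1 / τ) := by ring
      rw [this]
      linarith
    have h2 : 4 * M / τ ≤ δ := by
      have h3 : (M : ℝ) * (1 / τ) ≤ 3 / σ ^ (2 + h) * (σ ^ (2 + h) * σ ^ (a - h)) := by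
        refine mul_le_mul ?_ (hti.trans hsplit.le) (by positivity) (by positivity)
        have h4 : (1 : ℝ) ≤ 1 / σ ^ (2 + h) := by
          rw [le_div_iff₀ hp0]
          linarith
        calc (M : ℝ) ≤ 2 / σ ^ (2 + h) + 1 := hM2
          _ ≤ 2 / σ ^ (2 + h) + 1 / σ ^ (2 + h) := by linarith
          _ = 3 / σ ^ (2 + h) := by ring
      have h5 : 3 / σ ^ (2 + h) * (σ ^ (2 + h) * σ ^ (a - h)) = 3 * σ ^ (a - h) := by
        field_simp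
      rw [h5] at h3
      have h6 : 4 * (M : ℝ) / τ = 4 * (M * (1 / τ)) := by ring
      rw [h6]
      linarith
    have h7 : A * (2 / τ + 4 * M / τ + 2 * δ + e1 + η1 + 16 * d * c0) ≤ A * (7 * δ) :=
      mul_le_mul_of_nonneg_left (by linarith) hA0.le
    refine h7.trans ?_
    have h8 : A * (7 * δ) = 7 * (A * δ) := by ring
    rw [h8, hAδ]
    linarith

end Pool.Agent.T2h98.MR
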