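import Pool.Agent.T2h98.MR.Stm
import Pool.Agent.T2h98.EA.ASC

/-! The maximal inequality in probability (MXP). -/

set_option autoImplicit false
set_option linter.unusedSectionVars false

open scoped BigOperators Topology
open MeasureTheory ProbabilityTheory Filter

namespace Pool.Agent.T2h98.MR

open Pool.Agent.TH980.IM.PR (PP sh)
open Pool.Agent.T2h98.NB
open Pool.Agent.T2h98.EA (SN Uni1 T_SNF T_MAX)
open Pool.Agent.T2h98.EA.ASCx (int_bdd cov_apply_sq_int cov_one)

/-- **the maximal inequality** -/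
theorem mxp (hM : T_MAX) (hS : T_SNF) : T_MXP := by
  classical
  intro d U hU ν _ R hR C r lam s hC hRC hr hlam hs
  obtain ⟨hS1, hS2, -, -⟩ := hS d U hU
  obtain ⟨G, hG⟩ : ∃ G : ℕ → Om d → ℝ, G = fun (i : ℕ) V => ‖((i : ℂ)⁻¹) • SN U R i V (ee 0)‖ := ⟨_, rfl⟩
  obtain ⟨b, hb⟩ : ∃ b : ℝ, b = Real.sqrt (2 * lam) + C * s := ⟨_, rfl⟩
  have hGm : ∀ i, Measurable (G i) := by
    intro i
    rw [hG]
    exact ((cov_smul ((i : ℂ)⁻¹) (hS1 R i hR)).meas (ee 0)).norm.measurable
  have hGset : ∀ i, MeasurableSet {V | G i V ≤ b} := fun i => measurableSet_le (hGm i) measurable_const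
  refine ⟨⋂ i : ℕ, {V | 1 ≤ i → G i V ≤ b}, MeasurableSet.iInter fun i => ?_, ?_, ?_⟩
  · by_cases hi : 1 ≤ i
    · simp only [hi, true_imp_iff]
      exact hGset i
    · simp only [hi, false_imp_iff, Set.ofPred_true]
      exact MeasurableSet.univ
  · -- the probability
    have hpos : 0 < lam * s ^ 2 := by positivity
    obtain ⟨B, hB⟩ : ∃ B : ℕ → Set (Om d), B = fun m => {V | ∃ i, 1 ≤ i ∧ i ≤ m ∧ b < G i V} :=
      ⟨_, rfl⟩
    have hmono : Monotone B := by
      intro m m' hmm V hV
      rw [hB] at hV ⊢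
      obtain ⟨i, h1, h2, h3⟩ := hV
      exact ⟨i, h1, h2.trans hmm, h3⟩
    have hr0 : 0 ≤ r := le_trans (integral_nonneg fun V => sq_nonneg _) hr
    have hBm : ∀ m, (PP (Sd d) ν).real (B m) ≤ r / (lam * s ^ 2) := by
      intro m
      have key : ∀ ε : ℝ, 0 < ε → (PP (Sd d) ν).real (B m) ≤
          r / (lam * s ^ 2) + ε * (1 / (lam * s ^ 2) + m / lam) := by
        intro ε hε
        obtain ⟨z, hz, hz1, hz2⟩ := hM d U hU ν R hR m lam ε hlam hε
        have hcz : Cov fun V => (1 : L2 d →L[ℂ] L2 d) - z V := cov_sub cov_one hz.cov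
        have i1 : Integrable (fun V => ‖ee 0 - z V (ee 0)‖ ^ 2) (PP (Sd d) ν) :=
          cov_apply_sq_int ν hcz (ee 0)
        have m1 := mul_meas_ge_le_integral_of_nonneg (μ := PP (Sd d) ν)
          (f := fun V => ‖ee 0 - z V (ee 0)‖ ^ 2)
          (Filter.Eventually.of_forall fun V => sq_nonneg _) i1 (s ^ 2)
        have m1' : (PP (Sd d) ν).real {V | s ^ 2 ≤ ‖ee 0 - z V (ee 0)‖ ^ 2} ≤
            (r + ε) / (lam * s ^ 2) := by
          rw [le_div_iff₀ hpos]
          have h1 : (∫ V, ‖R V (ee 0)‖ ^ 2 ∂(PP (Sd d) ν) + ε) / lam ≤ (r + ε) / lam := by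
            apply div_le_div_of_nonneg_right _ hlam.le
            linarith
          have h2 := (m1.trans hz1).trans h1
          rw [le_div_iff₀ hlam] at h2
          linarith
        have m2 : ∀ i ∈ Finset.Icc 1 m, (PP (Sd d) ν).real {V | lam ≤
            max 0 (‖((i : ℂ)⁻¹) • SN U R i V (z V (ee 0))‖ ^ 2 - lam)} ≤ ε / lam := by
          intro i hi
          rw [Finset.mem_Icc] at hi
          have hc2 : Cov fun V => (((i : ℂ)⁻¹) • SN U R i V).comp (z V) :=
            cov_comp (cov_smul _ (hS1 R i hR)) hz.cov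
          have i2 : Integrable (fun V => ‖((i : ℂ)⁻¹) • SN U R i V (z V (ee 0))‖ ^ 2)
              (PP (Sd d) ν) := cov_apply_sq_int ν hc2 (ee 0)
          have i3 : Integrable (fun V => max 0 (‖((i : ℂ)⁻¹) • SN U R i V (z V (ee 0))‖ ^ 2 - lam))
              (PP (Sd d) ν) := by
            have h3 := (i2.sub (integrable_const lam)).pos_part
            refine h3.congr (Filter.Eventually.of_forall fun V => ?_)
            simp only [Pi.sub_apply]
            exact max_comm _ _
          have h4 := mul_meas_ge_le_integral_of_nonneg (μ := PP (Sd d) ν)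
            (f := fun V => max 0 (‖((i : ℂ)⁻¹) • SN U R i V (z V (ee 0))‖ ^ 2 - lam))
            (Filter.Eventually.of_forall fun V => le_max_left _ _) i3 lam
          rw [le_div_iff₀ hlam, mul_comm]
          exact h4.trans (hz2 i hi.1 hi.2)
        have hsub : B m ⊆ {V | s ^ 2 ≤ ‖ee 0 - z V (ee 0)‖ ^ 2} ∪
            ⋃ i ∈ Finset.Icc 1 m, {V | lam ≤
              max 0 (‖((i : ℂ)⁻¹) • SN U R i V (z V (ee 0))‖ ^ 2 - lam)} := by
          intro V hV
          rw [hB] at hV
          obtain ⟨i, h1, h2, h3⟩ := hV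
          by_contra hcon
          rw [Set.mem_union, not_or, Set.mem_iUnion₂] at hcon
          obtain ⟨h4, h5⟩ := hcon
          have h6 : ‖ee 0 - z V (ee 0)‖ < s := by
            have h7 : ‖ee 0 - z V (ee 0)‖ ^ 2 < s ^ 2 := not_le.1 h4
            exact lt_of_pow_lt_pow_left₀ 2 hs.le h7
          have h7 : ‖((i : ℂ)⁻¹) • SN U R i V (z V (ee 0))‖ ^ 2 < 2 * lam := by
            by_contra h8
            rw [not_lt] at h8
            apply h5
            refine ⟨i, Finset.mem_Icc.2 ⟨h1, h2⟩, ?_⟩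
            show lam ≤ max 0 (‖((i : ℂ)⁻¹) • SN U R i V (z V (ee 0))‖ ^ 2 - lam)
            refine le_trans ?_ (le_max_right _ _)
            linarith
          have h8 : ‖((i : ℂ)⁻¹) • SN U R i V (z V (ee 0))‖ ≤ Real.sqrt (2 * lam) := by
            rw [← Real.sqrt_sq (norm_nonneg (((i : ℂ)⁻¹) • SN U R i V (z V (ee 0))))]
            exact Real.sqrt_le_sqrt h7.le
          have h9 : ‖((i : ℂ)⁻¹) • SN U R i V (ee 0 - z V (ee 0))‖ ≤ C * s := by
            have hi0 : (0 : ℝ) < i := by exact_mod_cast h1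
            rw [norm_smul, norm_inv, Complex.norm_natCast]
            have h10 := hS2 R i C hRC V (ee 0 - z V (ee 0))
            calc (i : ℝ)⁻¹ * ‖SN U R i V (ee 0 - z V (ee 0))‖ ≤
                  (i : ℝ)⁻¹ * (i * C * ‖ee 0 - z V (ee 0)‖) := by gcongr
              _ = C * ‖ee 0 - z V (ee 0)‖ := by field_simp
              _ ≤ C * s := by gcongr
          have h10 : ((i : ℂ)⁻¹) • SN U R i V (ee 0) =
              ((i : ℂ)⁻¹) • SN U R i V (z V (ee 0)) + ((i : ℂ)⁻¹) • SN U R i V (ee 0 - z V (ee 0)) := by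
            rw [← smul_add, ← map_add, add_sub_cancel]
          have h11 : G i V ≤ b := by
            rw [hG, hb]
            show ‖((i : ℂ)⁻¹) • SN U R i V (ee 0)‖ ≤ _
            rw [h10]
            exact (norm_add_le _ _).trans (add_le_add h8 h9)
          linarith
        have h12 : (PP (Sd d) ν).real (B m) ≤ (r + ε) / (lam * s ^ 2) + m * (ε / lam) := by
          refine (measureReal_mono hsub).trans ((measureReal_union_le _ _).trans
            (add_le_add m1' ?_))
          refine (measureReal_biUnion_finset_le _ _).trans ((Finset.sum_le_sum m2).trans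
            (le_of_eq ?_))
          rw [Finset.sum_const, Nat.card_Icc, nsmul_eq_mul]
          simp
        refine h12.trans (le_of_eq ?_)
        field_simp
        ring
      refine le_of_forall_pos_le_add fun ε hε => ?_
      have hq : 0 < 1 / (lam * s ^ 2) + m / lam := by positivity
      have h1 := key (ε / (1 / (lam * s ^ 2) + m / lam)) (by positivity)
      rwa [div_mul_cancel₀ _ hq.ne'] at h1
    have hcompl : (⋂ i : ℕ, {V | 1 ≤ i → G i V ≤ b})ᶜ = ⋃ m, B m := by
      ext V
      simp only [Set.mem_compl_iff, Set.mem_iInter, Set.mem_ofPred_eq, Set.mem_iUnion, hB,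
        not_forall, not_le]
      constructor
      · rintro ⟨i, h1, h2⟩
        exact ⟨i, i, h1, le_rfl, h2⟩
      · rintro ⟨m, i, h1, h2, h3⟩
        exact ⟨i, h1, h3⟩
    have hmeas : MeasurableSet (⋂ i : ℕ, {V | 1 ≤ i → G i V ≤ b}) := by
      refine MeasurableSet.iInter fun i => ?_
      by_cases hi : 1 ≤ i
      · simp only [hi, true_imp_iff]
        exact hGset i
      · simp only [hi, false_imp_iff, Set.ofPred_true]
        exact MeasurableSet.univ
    have hU' : (PP (Sd d) ν).real (⋃ m, B m) ≤ r / (lam * s ^ 2) := by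
      rw [measureReal_def]
      refine ENNReal.toReal_le_of_le_ofReal (by positivity) ?_
      rw [hmono.measure_iUnion]
      refine iSup_le fun m => ?_
      rw [← ENNReal.ofReal_toReal (measure_ne_top (PP (Sd d) ν) (B m))]
      exact ENNReal.ofReal_le_ofReal (hBm m)
    have h1 := probReal_compl_eq_one_sub (μ := PP (Sd d) ν) hmeas
    rw [hcompl] at h1
    linarith
  · intro V hV i hi
    rw [Set.mem_iInter] at hV
    have h1 := hV i hi
    rw [hG, hb] at h1
    exact h1

end Pool.Agent.T2h98.MR
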