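import Pool.Agent.T2h98.MR.Stm

/-! The maximal inequality at finitely many sites (MXS). -/

set_option autoImplicit false
set_option linter.unusedSectionVars false

open scoped BigOperators Topology
open MeasureTheory ProbabilityTheory Filter

namespace Pool.Agent.T2h98.MR

open Pool.Agent.TH980.IM.PR (PP sh)
open Pool.Agent.T2h98.NB
open Pool.Agent.T2h98.EA (SN Uni1 T_SNF T_MAX)

/-- **the maximal inequality at finitely many sites** -/
theorem mxs (hM : T_MXP) (hS : T_SNF) : T_MXS := by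
  classical
  intro d U hU ν _ R hR C r lam s hC hRC hr hlam hs S
  obtain ⟨hS1, hS2, -, -⟩ := hS d U hU
  obtain ⟨Ω, hΩm, hΩp, hΩ⟩ := hM d U hU ν R hR C r lam s hC hRC hr hlam hs
  have hmm : MeasurableSet (⋂ y ∈ S, sh y ⁻¹' Ω) :=
    Finset.measurableSet_biInter _ fun y _ =>
      (Pool.Agent.TH980.IM.PR.mp_sh ν y).measurable hΩm
  refine ⟨⋂ y ∈ S, sh y ⁻¹' Ω, hmm, ?_, ?_⟩
  · have h1 : (PP (Sd d) ν).real (⋂ y ∈ S, sh y ⁻¹' Ω)ᶜ ≤ ∑ y ∈ S, r / (lam * s ^ 2) := by
      have h2 : (⋂ y ∈ S, sh y ⁻¹' Ω)ᶜ = ⋃ y ∈ S, (sh y ⁻¹' Ω)ᶜ := by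
        simp only [Set.compl_iInter]
      rw [h2]
      refine (measureReal_biUnion_finset_le _ _).trans (Finset.sum_le_sum fun y _ => ?_)
      rw [probReal_compl_eq_one_sub ((Pool.Agent.TH980.IM.PR.mp_sh ν y).measurable hΩm),
        measureReal_def, (Pool.Agent.TH980.IM.PR.mp_sh ν y).measure_preimage
          hΩm.nullMeasurableSet, ← measureReal_def]
      linarith
    rw [probReal_compl_eq_one_sub hmm, Finset.sum_const, nsmul_eq_mul] at h1
    linarith
  · intro V hV y hy i hi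
    have h1 : sh y V ∈ Ω := Set.mem_iInter₂.1 hV y hy
    have h2 := hΩ _ h1 i hi
    have h3 : SN U R i (sh y V) (ee 0) = Sf (-y) (SN U R i V (ee y)) := by
      rw [(hS1 R i hR).cov y V (ee 0), Sf_ee, zero_add]
    rw [h3, norm_smul, LinearIsometry.norm_map, ← norm_smul] at h2
    exact h2

end Pool.Agent.T2h98.MR
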