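import Pool.Agent.T2h98.MR.Stm
import Pool.Agent.T2h98.QD.MoA
import Pool.Agent.W788.BK.Basic

/-! OUT: large eigenvalues. -/

set_option autoImplicit false

open scoped BigOperators Matrix Topology
open MeasureTheory ProbabilityTheory Filter

namespace Pool.Agent.T2h98.MR

open Pool.Agent.W788.MFP.Four (T e NN adj K)
open Pool.Agent.W788.BK (nsq hs JJ hi Low cr nsq_nonneg cs_star)
open Pool.Agent.T2h98.QD
open Pool.Agent.T2h98.PS

namespace OUT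

theorem complete {ι : Type} [Fintype ι] [DecidableEq ι] {u : ι → ι → ℂ}
    (hu : ∀ j k, star (u j) ⬝ᵥ u k = if j = k then 1 else 0)
    (x y : ι) : ∑ l, u l x * star (u l y) = if x = y then 1 else 0 := by
  have h1 : (Matrix.of fun j x => star (u j x) : Matrix ι ι ℂ) *
      (Matrix.of fun x j => u j x : Matrix ι ι ℂ) = (1 : Matrix ι ι ℂ) := by
    ext j k
    rw [Matrix.mul_apply, Matrix.one_apply]
    exact hu j k
  have h2 := Matrix.ext_iff.2 (mul_eq_one_comm.1 h1) x y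
  rw [Matrix.mul_apply, Matrix.one_apply] at h2
  exact h2

theorem sum_sq {ι : Type} [Fintype ι] [DecidableEq ι] {u : ι → ι → ℂ}
    (hu : ∀ j k, star (u j) ⬝ᵥ u k = if j = k then 1 else 0) (x : ι) :
    ∑ l, ‖u l x‖ ^ 2 = 1 := by
  have h := complete hu x x
  rw [if_pos rfl] at h
  have h8 : ((∑ l, ‖u l x‖ ^ 2 : ℝ) : ℂ) = 1 := by
    rw [← h]
    push_cast
    refine Finset.sum_congr rfl fun l _ => ?_
    exact (Complex.mul_conj' _).symm
  exact_mod_cast h8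

variable {d L : ℕ} [NeZero L]

theorem nsq_one {u : T d L → T d L → ℂ}
    (hu : ∀ j k, star (u j) ⬝ᵥ u k = if j = k then 1 else 0) (j : T d L) : nsq (u j) = 1 := by
  have h6 := hu j j
  rw [if_pos rfl] at h6
  have h8 : ((∑ x, ‖u j x‖ ^ 2 : ℝ) : ℂ) = 1 := by
    rw [← h6]
    unfold dotProduct
    push_cast
    refine Finset.sum_congr rfl fun x _ => ?_
    rw [Pi.star_apply, mul_comm]
    exact (Complex.mul_conj' _).symm
  unfold nsq
  exact_mod_cast h8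

theorem adj_le (k : T d L) : |adj k| ≤ 2 * d := by
  unfold adj
  refine (Finset.abs_sum_le_sum_abs _ _).trans ?_
  have h : ∀ i : Fin d, |2 * (ZMod.stdAddChar (k i) : ℂ).re| ≤ 2 := by
    intro i
    rw [abs_mul, abs_two]
    have h1 : |(ZMod.stdAddChar (k i) : ℂ).re| ≤ 1 := by
      refine (Complex.abs_re_le_norm _).trans (le_of_eq ?_)
      exact AddChar.norm_apply _ _
    linarith
  refine (Finset.sum_le_sum fun i _ => h i).trans (le_of_eq ?_)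
  rw [Finset.sum_const, Finset.card_univ, Fintype.card_fin, nsmul_eq_mul, mul_comm]

theorem one (σ : ℝ) (ξ : T d L → ℝ) (v : T d L → ℂ) (a : ℝ) (hv : HT σ ξ *ᵥ v = (a : ℂ) • v)
    (hn : nsq v = 1) (ha : 2 * (d : ℝ) + 1 < |a|) : 1 ≤ ∑ x, σ ^ 2 * ξ x ^ 2 * ‖v x‖ ^ 2 := by
  have hd0 : (0 : ℝ) ≤ d := Nat.cast_nonneg d
  have hself : star v ⬝ᵥ v = 1 := by
    have : star v ⬝ᵥ v = ((nsq v : ℝ) : ℂ) := by
      unfold dotProduct nsq
      push_cast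
      refine Finset.sum_congr rfl fun x _ => ?_
      rw [Pi.star_apply, mul_comm]
      exact Complex.mul_conj' _
    rw [this, hn, Complex.ofReal_one]
  have h1 : star v ⬝ᵥ (HT σ ξ *ᵥ v) = (a : ℂ) := by
    rw [hv, dotProduct_smul, hself, smul_eq_mul, mul_one]
  have h2 : star v ⬝ᵥ (HT σ ξ *ᵥ v) = star v ⬝ᵥ (Mo (fun k : T d L => ((adj k : ℝ) : ℂ)) *ᵥ v) +
      ((∑ x, (σ * ξ x) * ‖v x‖ ^ 2 : ℝ) : ℂ) := by
    unfold HT
    rw [Matrix.add_mulVec, dotProduct_add]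
    congr 1
    unfold dotProduct
    push_cast
    refine Finset.sum_congr rfl fun x _ => ?_
    rw [Matrix.mulVec_diagonal, Pi.star_apply, ← Complex.mul_conj']
    push_cast
    have e3 : star (v x) = (starRingEnd ℂ) (v x) := rfl
    rw [e3]
    ring
  have h3 : ‖star v ⬝ᵥ (Mo (fun k : T d L => ((adj k : ℝ) : ℂ)) *ᵥ v)‖ ≤ 2 * d := by
    have h4 := cs_star v (Mo (fun k : T d L => ((adj k : ℝ) : ℂ)) *ᵥ v)
    have h5 := nsq_mo (fun k : T d L => ((adj k : ℝ) : ℂ)) ((2 * d) ^ 2) (fun k => by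
      rw [Complex.norm_real, Real.norm_eq_abs]
      exact pow_le_pow_left₀ (abs_nonneg _) (adj_le k) 2) v
    rw [hn, mul_one] at h5
    rw [hn, one_mul] at h4
    exact le_of_sq_le_sq (h4.trans h5) (by positivity)
  have h4 : 1 < |∑ x, (σ * ξ x) * ‖v x‖ ^ 2| := by
    have h5 : (a : ℂ) - star v ⬝ᵥ (Mo (fun k : T d L => ((adj k : ℝ) : ℂ)) *ᵥ v) =
        ((∑ x, (σ * ξ x) * ‖v x‖ ^ 2 : ℝ) : ℂ) := by
      rw [← h1, h2]
      ring
    have h6 : |∑ x, (σ * ξ x) * ‖v x‖ ^ 2| =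
        ‖((∑ x, (σ * ξ x) * ‖v x‖ ^ 2 : ℝ) : ℂ)‖ := by
      rw [Complex.norm_real, Real.norm_eq_abs]
    rw [h6, ← h5]
    have h7 := norm_sub_norm_le (a : ℂ)
      (star v ⬝ᵥ (Mo (fun k : T d L => ((adj k : ℝ) : ℂ)) *ᵥ v))
    rw [Complex.norm_real, Real.norm_eq_abs] at h7
    linarith
  have h5 : (∑ x, (σ * ξ x) * ‖v x‖ ^ 2) ^ 2 ≤
      (∑ x, σ ^ 2 * ξ x ^ 2 * ‖v x‖ ^ 2) * ∑ x, ‖v x‖ ^ 2 := by
    have h6 := Finset.sum_mul_sq_le_sq_mul_sq Finset.univ (fun x => (σ * ξ x) * ‖v x‖)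
      (fun x => ‖v x‖)
    have e1 : ∀ x, (σ * ξ x) * ‖v x‖ * ‖v x‖ = (σ * ξ x) * ‖v x‖ ^ 2 := fun x => by ring
    have e2 : ∀ x, ((σ * ξ x) * ‖v x‖) ^ 2 = σ ^ 2 * ξ x ^ 2 * ‖v x‖ ^ 2 := fun x => by ring
    simp only [e1, e2] at h6
    exact h6
  have h6 : ∑ x, ‖v x‖ ^ 2 = 1 := hn
  rw [h6, mul_one] at h5
  have h7 : 1 ≤ (∑ x, (σ * ξ x) * ‖v x‖ ^ 2) ^ 2 := by
    rw [← sq_abs]
    nlinarith
  linarith

end OUT

theorem out : T_OUT := by
  intro d L _ σ ξ u w hEB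
  classical
  obtain ⟨h1, h2⟩ := hEB
  obtain ⟨S, hS⟩ : ∃ S : Finset (T d L), S = Finset.univ.filter fun j => 2 * (d : ℝ) + 1 < |w j| :=
    ⟨_, rfl⟩
  have e1 : {j | 2 * (d : ℝ) + 1 < |w j|} = (S : Set (T d L)) := by
    rw [hS]
    ext j
    simp
  rw [e1, Set.ncard_coe_finset]
  calc (S.card : ℝ) = ∑ _j ∈ S, (1 : ℝ) := by simp
    _ ≤ ∑ j ∈ S, ∑ x, σ ^ 2 * ξ x ^ 2 * ‖u j x‖ ^ 2 := by
        refine Finset.sum_le_sum fun j hj => ?_
        rw [hS, Finset.mem_filter] at hj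
        exact OUT.one σ ξ (u j) (w j) (h1 j) (OUT.nsq_one h2 j) hj.2
    _ ≤ ∑ j, ∑ x, σ ^ 2 * ξ x ^ 2 * ‖u j x‖ ^ 2 := by
        refine Finset.sum_le_sum_of_subset_of_nonneg (Finset.subset_univ _) fun j _ _ => ?_
        exact Finset.sum_nonneg fun x _ => by positivity
    _ = σ ^ 2 * ∑ x, ξ x ^ 2 := by
        rw [Finset.sum_comm, Finset.mul_sum]
        refine Finset.sum_congr rfl fun x _ => ?_
        rw [← Finset.mul_sum, OUT.sum_sq h2 x, mul_one]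

end Pool.Agent.T2h98.MR
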