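import Pool.Agent.T2h98.MR.Stm

/-! Relaxation of the momentum at all times: the norm of a trigonometric polynomial. -/

set_option autoImplicit false
set_option linter.unusedVariables false

open scoped BigOperators Topology ComplexConjugate
open MeasureTheory ProbabilityTheory Filter

namespace Pool.Agent.T2h98.MR.QBDx

open Pool.Agent.TH980.IM.PR (PP sh)
open Pool.Agent.T2h98.PS
open Pool.Agent.T2h98.NB
open Pool.Agent.T2h98.EA (SN Uni1 T_SNF T_MAX T_SPE Spe)
open Pool.Agent.T2h44.GU (spm)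
open Pool.Agent.T2h98.MR

variable {d : ℕ} {U : Om d → ℝ → L2 d →L[ℂ] L2 d}

theorem U_inner (hG : Grp U) (V : Om d) (s t : ℝ) (f : L2 d) :
    (inner ℂ (U V s f) (U V t f) : ℂ) = inner ℂ f (U V (t - s) f) := by
  let L : L2 d →ₗᵢ[ℂ] L2 d := ⟨(U V (-s)).toLinearMap, fun g => hG.g0.norm V (-s) g⟩
  have h1 := L.inner_map_map (U V s f) (U V t f)
  have h2 : L (U V s f) = f := by
    show U V (-s) (U V s f) = f
    rw [← hG.g0.add, neg_add_cancel, hG.g0.zero]
    rfl
  have h3 : L (U V t f) = U V (t - s) f := by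
    show U V (-s) (U V t f) = _
    rw [← hG.g0.add]
    congr 2
    ring
  rw [← h1, h2, h3]

theorem qU_apply {n : ℕ} (a : Fin n → ℂ) (t : Fin n → ℝ) (V : Om d) (f : L2 d) :
    qU U a t V f = ∑ i, a i • U V (t i) f := by
  unfold qU
  rw [ContinuousLinearMap.sum_apply]
  rfl

theorem exp_int (μ : Measure ℝ) [IsFiniteMeasure μ] (c : ℝ) :
    Integrable (fun E : ℝ => Complex.exp (-(Complex.I * (c : ℂ) * E))) μ := by
  refine Integrable.of_bound (C := 1) ?_ ?_
  · exact (by fun_prop : Continuous fun E : ℝ =>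
      Complex.exp (-(Complex.I * (c : ℂ) * E))).aestronglyMeasurable
  · refine Eventually.of_forall fun E => ?_
    have e : -(Complex.I * (c : ℂ) * E) = ((-(c * E) : ℝ) : ℂ) * Complex.I := by
      push_cast
      ring
    rw [e, Complex.norm_exp_ofReal_mul_I]

theorem t_QBD (hS : T_SPE) : T_QBD := by
  intro d U hG n a t K hK hq V
  refine ContinuousLinearMap.opNorm_le_bound _ hK fun f => ?_
  obtain ⟨h1, h2, -⟩ := hS d U hG V f
  obtain ⟨μ, hμ⟩ : ∃ μ : Measure ℝ, μ = spm V f := ⟨_, rfl⟩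
  haveI : IsFiniteMeasure μ := by
    rw [hμ]
    infer_instance
  rw [← hμ] at h1 h2
  have h3 : ((‖qU U a t V f‖ ^ 2 : ℝ) : ℂ) = ∫ E : ℝ, ((‖qE a t E‖ ^ 2 : ℝ) : ℂ) ∂μ := by
    have e1 : ((‖qU U a t V f‖ ^ 2 : ℝ) : ℂ) = inner ℂ (qU U a t V f) (qU U a t V f) := by
      rw [inner_self_eq_norm_sq_to_K]
      push_cast
      rfl
    rw [e1, qU_apply, sum_inner]
    have e2 : ∀ E : ℝ, ((‖qE a t E‖ ^ 2 : ℝ) : ℂ) = ∑ i, ∑ j, conj (a i) * a j *
        Complex.exp (-(Complex.I * ((t j - t i : ℝ) : ℂ) * E)) := by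
      intro E
      rw [Complex.ofReal_pow, ← Complex.conj_mul']
      unfold qE
      rw [map_sum, Finset.sum_mul_sum]
      refine Finset.sum_congr rfl fun i _ => Finset.sum_congr rfl fun j _ => ?_
      rw [map_mul, ← Complex.exp_conj]
      have e3 : conj (-(((t i * E : ℝ) : ℂ) * Complex.I)) = ((t i * E : ℝ) : ℂ) * Complex.I := by
        rw [map_neg, map_mul, Complex.conj_ofReal, Complex.conj_I]
        ring
      rw [e3]
      have e4 : Complex.exp (-(Complex.I * ((t j - t i : ℝ) : ℂ) * E)) =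
          Complex.exp (((t i * E : ℝ) : ℂ) * Complex.I) *
            Complex.exp (-(((t j * E : ℝ) : ℂ) * Complex.I)) := by
        rw [← Complex.exp_add]
        congr 1
        push_cast
        ring
      rw [e4]
      ring
    simp_rw [e2]
    rw [integral_finset_sum _ fun i _ => integrable_finset_sum _ fun j _ =>
      (exp_int μ (t j - t i)).const_mul _]
    refine Finset.sum_congr rfl fun i _ => ?_
    rw [integral_finset_sum _ fun j _ => (exp_int μ (t j - t i)).const_mul _, inner_smul_left,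
      inner_sum, Finset.mul_sum]
    refine Finset.sum_congr rfl fun j _ => ?_
    rw [inner_smul_right, U_inner hG, h1 (t j - t i), integral_const_mul]
    ring
  have h4 : ‖qU U a t V f‖ ^ 2 = ∫ E : ℝ, ‖qE a t E‖ ^ 2 ∂μ := by
    have h6 : ((‖qU U a t V f‖ ^ 2 : ℝ) : ℂ) = ((∫ E : ℝ, ‖qE a t E‖ ^ 2 ∂μ : ℝ) : ℂ) :=
      h3.trans integral_ofReal
    exact Complex.ofReal_injective h6
  have h5 : ‖qU U a t V f‖ ^ 2 ≤ (K * ‖f‖) ^ 2 := by
    rw [h4]
    calc ∫ E : ℝ, ‖qE a t E‖ ^ 2 ∂μ ≤ ∫ E : ℝ, K ^ 2 ∂μ := by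
          apply integral_mono_of_nonneg (Eventually.of_forall fun E => by positivity)
            (integrable_const _)
          exact Eventually.of_forall fun E => pow_le_pow_left₀ (norm_nonneg _) (hq E) 2
      _ = (K * ‖f‖) ^ 2 := by
          rw [integral_const, h2, smul_eq_mul]
          ring
  exact (sq_le_sq₀ (norm_nonneg _) (by positivity)).1 h5

end Pool.Agent.T2h98.MR.QBDx

namespace Pool.Agent.T2h98.MR

/-- the norm of a trigonometric polynomial of the Hamiltonian -/
theorem t_QBD (hS : Pool.Agent.T2h98.EA.T_SPE) : T_QBD := QBDx.t_QBD hS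

end Pool.Agent.T2h98.MR
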