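import Pool.Agent.T2h98.MR.Stm

/-! Small disorder: the group converges to the free group (QCV). -/

set_option autoImplicit false
set_option linter.unusedSectionVars false

open scoped BigOperators Topology
open MeasureTheory ProbabilityTheory Filter

namespace Pool.Agent.T2h98.MR

open Pool.Agent.TH980.IM.PR (PP sh)
open Pool.Agent.T2h98.NB

/-- the law of `σ ξ` -/
theorem PP_ns (d : ℕ) (σ : ℝ) : PP (Sd d) (ns σ) =
    (PP (Sd d) (gaussianReal 0 1)).map fun (ξ : Om d) (x : Sd d) => σ * ξ x := by
  unfold PP ns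
  exact (Measure.infinitePi_map_pi (μ := fun _ : Sd d => gaussianReal 0 1)
    (f := fun _ v => σ * v) (fun _ => by fun_prop)).symm

instance ns_prob (σ : ℝ) : IsProbabilityMeasure (ns σ) := by
  unfold ns
  exact Measure.isProbabilityMeasure_map (by fun_prop)

/-- **small disorder** -/
theorem qcv : T_QCV := by
  intro d U hU n a t f η hη
  obtain ⟨g, hg⟩ : ∃ g : Om d → ℝ, g = fun V => ‖qU U a t V f - qU U a t 0 f‖ := ⟨_, rfl⟩
  have hUc : ∀ s : ℝ, Continuous fun V : Om d => U V s f := fun s =>
    (hU.g0.cont f).comp (continuous_id.prodMk continuous_const)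
  have hqe : ∀ V, qU U a t V f = ∑ i, a i • U V (t i) f := by
    intro V
    unfold qU
    rw [sum_apply]
    rfl
  have hqc : Continuous fun V : Om d => qU U a t V f := by
    simp only [hqe]
    refine continuous_finsetSum _ fun i _ => ?_
    exact (continuous_const (y := a i)).smul (hUc (t i))
  have hgc : Continuous g := by
    rw [hg]
    exact (hqc.sub continuous_const).norm
  have hg0 : ∀ V, 0 ≤ g V := fun V => by rw [hg]; exact norm_nonneg _
  have hqn : ∀ V, ‖qU U a t V f‖ ≤ (∑ i, ‖a i‖) * ‖f‖ := by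
    intro V
    rw [hqe, Finset.sum_mul]
    refine (norm_sum_le _ _).trans (Finset.sum_le_sum fun i _ => ?_)
    rw [norm_smul, hU.g0.norm]
  obtain ⟨K, hK⟩ : ∃ K : ℝ, K = 2 * ((∑ i, ‖a i‖) * ‖f‖) := ⟨_, rfl⟩
  have hgK : ∀ V, g V ≤ K := by
    intro V
    rw [hg, hK]
    refine (norm_sub_le _ _).trans ?_
    linarith [hqn V, hqn 0]
  have hgz : g 0 = 0 := by rw [hg]; simp
  -- dominated convergence
  have hlim : Tendsto (fun σ : ℝ => ∫ ξ : Om d, g (fun x => σ * ξ x) ∂(PP (Sd d) (gaussianReal 0 1)))
      (𝓝[>] 0) (𝓝 (∫ _ξ : Om d, (0 : ℝ) ∂(PP (Sd d) (gaussianReal 0 1)))) := by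
    refine tendsto_integral_filter_of_dominated_convergence (fun _ => K) ?_ ?_
      (integrable_const K) ?_
    · refine Filter.Eventually.of_forall fun σ => ?_
      have : Measurable fun ξ : Om d => g (fun x => σ * ξ x) :=
        hgc.measurable.comp (by fun_prop)
      exact this.aestronglyMeasurable
    · refine Filter.Eventually.of_forall fun σ => Filter.Eventually.of_forall fun ξ => ?_
      rw [Real.norm_eq_abs, abs_of_nonneg (hg0 _)]
      exact hgK _
    · refine Filter.Eventually.of_forall fun ξ => ?_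
      have h1 : Continuous fun σ : ℝ => g (fun x => σ * ξ x) := hgc.comp (by fun_prop)
      have h2 := h1.tendsto 0
      have h3 : g (fun x => (0 : ℝ) * ξ x) = 0 := by
        have : (fun x => (0 : ℝ) * ξ x) = (0 : Om d) := by
          funext x
          simp
        rw [this, hgz]
      rw [h3] at h2
      exact h2.mono_left nhdsWithin_le_nhds
  rw [integral_zero] at hlim
  filter_upwards [hlim.eventually_lt_const (show (0 : ℝ) < η * η by positivity)] with σ hσ
  have hΩm : MeasurableSet {V : Om d | g V ≤ η} := measurableSet_le hgc.measurable measurable_const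
  have hsm : Measurable fun (ξ : Om d) (x : Sd d) => σ * ξ x := by fun_prop
  refine ⟨{V | g V ≤ η}, hΩm, ?_, ?_⟩
  · rw [PP_ns, measureReal_def, Measure.map_apply hsm hΩm, ← measureReal_def]
    have hint : Integrable (fun ξ : Om d => g (fun x => σ * ξ x)) (PP (Sd d) (gaussianReal 0 1)) := by
      refine Integrable.of_bound (hgc.measurable.comp hsm).aestronglyMeasurable K
        (Filter.Eventually.of_forall fun ξ => ?_)
      rw [Real.norm_eq_abs, abs_of_nonneg (hg0 _)]
      exact hgK _
    have h1 := mul_meas_ge_le_integral_of_nonneg (μ := PP (Sd d) (gaussianReal 0 1))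
      (f := fun ξ : Om d => g (fun x => σ * ξ x))
      (Filter.Eventually.of_forall fun ξ => hg0 _) hint η
    have h2 : (PP (Sd d) (gaussianReal 0 1)).real {ξ : Om d | η ≤ g (fun x => σ * ξ x)} ≤ η := by
      have h3 := h1.trans hσ.le
      exact le_of_mul_le_mul_left h3 hη
    have h3 := probReal_compl_eq_one_sub (μ := PP (Sd d) (gaussianReal 0 1)) (hsm hΩm)
    have h4 : ((fun (ξ : Om d) (x : Sd d) => σ * ξ x) ⁻¹' {V | g V ≤ η})ᶜ ⊆
        {ξ : Om d | η ≤ g (fun x => σ * ξ x)} := by
      intro ξ hξ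
      have h5 : ¬ g (fun x => σ * ξ x) ≤ η := hξ
      exact (not_le.1 h5).le
    have h5 := measureReal_mono (μ := PP (Sd d) (gaussianReal 0 1)) h4
    linarith
  · intro V hV
    have h1 : g V ≤ η := hV
    rw [hg] at h1
    exact h1

end Pool.Agent.T2h98.MR
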