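import Pool.Agent.T2h98.MR.Stm

/-! Relaxation of the momentum at all times: facts on the remainder. -/

set_option autoImplicit false
set_option linter.unusedVariables false

open scoped BigOperators Topology
open MeasureTheory ProbabilityTheory Filter

namespace Pool.Agent.T2h98.MR.ROCx

open Pool.Agent.TH980.IM.PR (PP sh)
open Pool.Agent.T2h98.PS
open Pool.Agent.T2h98.NB
open Pool.Agent.T2h98.EA (SN Uni1 T_SNF T_MAX)
open Pool.Agent.T2h98.MR

variable {d : ℕ} {U : Om d → ℝ → L2 d →L[ℂ] L2 d}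

theorem cov_zero' : Cov fun _ : Om d => (0 : L2 d →L[ℂ] L2 d) := by
  refine ⟨fun f => stronglyMeasurable_const, ⟨0, fun V => by simp⟩, fun z V f => ?_⟩
  show (0 : L2 d) = Sf (-z) 0
  rw [map_zero]

theorem cov_add' {B C : Om d → L2 d →L[ℂ] L2 d} (hB : Cov B) (hC : Cov C) :
    Cov fun V => B V + C V := by
  obtain ⟨b, hb⟩ := hB.bdd
  obtain ⟨c, hc⟩ := hC.bdd
  refine ⟨fun f => (hB.meas f).add (hC.meas f), ⟨b + c, fun V => ?_⟩, fun z V f => ?_⟩
  · exact (norm_add_le _ _).trans (add_le_add (hb V) (hc V))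
  · show B (sh z V) f + C (sh z V) f = Sf (-z) (B V (Sf z f) + C V (Sf z f))
    rw [hB.cov, hC.cov, map_add]

theorem cov_smul' {B : Om d → L2 d →L[ℂ] L2 d} (hB : Cov B) (c : ℂ) : Cov fun V => c • B V := by
  obtain ⟨b, hb⟩ := hB.bdd
  refine ⟨fun f => (hB.meas f).const_smul c, ⟨‖c‖ * b, fun V => ?_⟩, fun z V f => ?_⟩
  · rw [norm_smul]
    exact mul_le_mul_of_nonneg_left (hb V) (norm_nonneg _)
  · show c • B (sh z V) f = Sf (-z) (c • B V (Sf z f))
    rw [hB.cov, map_smul]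

theorem cov_sum' {ι : Type} (s : Finset ι) (B : ι → Om d → L2 d →L[ℂ] L2 d)
    (hB : ∀ i, Cov (B i)) : Cov fun V => ∑ i ∈ s, B i V := by
  classical
  induction s using Finset.induction_on with
  | empty =>
    simp only [Finset.sum_empty]
    exact cov_zero'
  | insert i s hi ih =>
    simp only [Finset.sum_insert hi]
    exact cov_add' (hB i) ih

theorem U_norm (hG : Grp U) (V : Om d) (t : ℝ) : ‖U V t‖ ≤ 1 := by
  refine ContinuousLinearMap.opNorm_le_bound _ zero_le_one fun f => ?_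
  rw [hG.g0.norm, one_mul]

theorem cov_U' (hG : Grp U) (t : ℝ) : Cov fun V => U V t := by
  refine ⟨?_, ⟨1, fun V => U_norm hG V t⟩, ?_⟩
  · intro f
    exact ((hG.g0.cont f).comp (continuous_id.prodMk continuous_const)).stronglyMeasurable
  · intro z V f
    exact hG.shift z V t f

theorem qU_apply {n : ℕ} (a : Fin n → ℂ) (t : Fin n → ℝ) (V : Om d) (f : L2 d) :
    qU U a t V f = ∑ i, a i • U V (t i) f := by
  unfold qU
  rw [ContinuousLinearMap.sum_apply]
  rfl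

theorem qU_comm (hG : Grp U) {n : ℕ} (a : Fin n → ℂ) (t : Fin n → ℝ) (V : Om d) (s : ℝ)
    (f : L2 d) : U V (-s) (qU U a t V (U V s f)) = qU U a t V f := by
  rw [qU_apply, qU_apply, map_sum]
  refine Finset.sum_congr rfl fun i _ => ?_
  rw [map_smul, ← hG.g0.add, ← hG.g0.add]
  congr 3
  ring

theorem SN_apply (B : Om d → L2 d →L[ℂ] L2 d) (n : ℕ) (V : Om d) (f : L2 d) :
    SN U B n V f = ∑ k ∈ Finset.range n, U V (-(k : ℝ)) (B V (U V (k : ℝ) f)) := by
  unfold SN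
  rw [ContinuousLinearMap.sum_apply]
  rfl

theorem SN_RO (hG : Grp U) (B : Om d → L2 d →L[ℂ] L2 d) (M : ℕ) {n : ℕ} (a : Fin n → ℂ)
    (t : Fin n → ℝ) (N : ℕ) (V : Om d) (f : L2 d) :
    SN U (RO U B M a t) N V f = SN U (fun W => ((M : ℂ)⁻¹) • SN U B M W) N V f -
      (N : ℂ) • qU U a t V f := by
  rw [SN_apply, SN_apply]
  have h1 : ∀ k : ℕ, U V (-(k : ℝ)) (RO U B M a t V (U V (k : ℝ) f)) =
      U V (-(k : ℝ)) ((((M : ℂ)⁻¹) • SN U B M V) (U V (k : ℝ) f)) - qU U a t V f := by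
    intro k
    rw [← qU_comm hG a t V (k : ℝ) f, ← map_sub]
    rfl
  simp_rw [h1]
  rw [Finset.sum_sub_distrib, Finset.sum_const, Finset.card_range]
  congr 1
  rw [Nat.cast_smul_eq_nsmul]

theorem t_ROC (hS : T_SNF) : T_ROC := by
  intro d U hG m B hB M hM n a t
  obtain ⟨hS1, hS2, hS3, -⟩ := hS d U hG
  have hM0 : (0 : ℝ) < M := by exact_mod_cast hM
  refine ⟨?_, ?_, ?_⟩
  · have h1 : Cov fun V => ((M : ℂ)⁻¹) • SN U B M V := cov_smul' (hS1 B M hB.cov) _
    have h2 : Cov fun V => ∑ i ∈ Finset.univ, a i • U V (t i) :=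
      cov_sum' Finset.univ (fun i V => a i • U V (t i)) fun i => cov_smul' (cov_U' hG (t i)) _
    have h3 := cov_add' h1 (cov_smul' h2 (-1))
    have e : RO U B M a t = fun V => ((M : ℂ)⁻¹) • SN U B M V +
        (-1 : ℂ) • ∑ i ∈ Finset.univ, a i • U V (t i) := by
      funext V
      unfold RO qU
      rw [neg_one_smul, sub_eq_add_neg]
    rw [e]
    exact h3
  · intro V
    unfold RO
    refine (norm_sub_le _ _).trans (add_le_add ?_ ?_)
    · refine ContinuousLinearMap.opNorm_le_bound _ zero_le_one fun f => ?_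
      show ‖((M : ℂ)⁻¹) • SN U B M V f‖ ≤ 1 * ‖f‖
      rw [norm_smul, norm_inv, Complex.norm_natCast]
      have h1 := hS2 B M 1 hB.bdd V f
      rw [mul_one] at h1
      rw [inv_mul_le_iff₀ hM0, one_mul]
      exact h1
    · unfold qU
      refine (norm_sum_le _ _).trans (Finset.sum_le_sum fun i _ => ?_)
      rw [norm_smul]
      calc ‖a i‖ * ‖U V (t i)‖ ≤ ‖a i‖ * 1 :=
            mul_le_mul_of_nonneg_left (U_norm hG V (t i)) (norm_nonneg _)
        _ = ‖a i‖ := mul_one _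
  · intro N hN V f
    have hN0 : (0 : ℝ) < N := by exact_mod_cast hN
    have hNc : (N : ℂ) ≠ 0 := by
      exact_mod_cast hN0.ne'
    rw [SN_RO hG, smul_sub, smul_smul, inv_mul_cancel₀ hNc, one_smul]
    have e : ((N : ℂ)⁻¹) • SN U B N V f - qU U a t V f -
        (((N : ℂ)⁻¹) • SN U (fun W => ((M : ℂ)⁻¹) • SN U B M W) N V f - qU U a t V f) =
        ((N : ℂ)⁻¹) • (SN U B N V f - SN U (fun W => ((M : ℂ)⁻¹) • SN U B M W) N V f) := by
      rw [smul_sub]
      abel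
    rw [e, norm_smul, norm_inv, Complex.norm_natCast]
    have h1 := hS3 B M N 1 zero_le_one hB.bdd hM V f
    calc (N : ℝ)⁻¹ * ‖SN U B N V f - SN U (fun W => ((M : ℂ)⁻¹) • SN U B M W) N V f‖
        ≤ (N : ℝ)⁻¹ * (2 * M * 1 * ‖f‖) := mul_le_mul_of_nonneg_left h1 (by positivity)
      _ = 2 * (M : ℝ) / N * ‖f‖ := by
          field_simp

end Pool.Agent.T2h98.MR.ROCx

namespace Pool.Agent.T2h98.MR

/-- facts on the remainder -/
theorem t_ROC (hX : Pool.Agent.T2h98.NB.T_XT) (hS : Pool.Agent.T2h98.EA.T_SNF) : T_ROC :=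
  ROCx.t_ROC hS

end Pool.Agent.T2h98.MR
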