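import Pool.Agent.T2h98.MR.Stm

/-! SNC: the kernel of the time average. -/

set_option autoImplicit false

open scoped BigOperators Topology
open MeasureTheory Filter

namespace Pool.Agent.T2h98.MR

namespace SNC

theorem sin_le (u : ℝ) : Real.sin u ^ 2 * (1 + u ^ 2 / 4) ≤ u ^ 2 := by
  by_cases h : u ^ 2 ≤ 2
  · have h1 : Real.sin u ^ 2 ≤ u ^ 2 * (1 - u ^ 2 / 4) := by
      have e : Real.sin u = 2 * Real.sin (u / 2) * Real.cos (u / 2) := by
        rw [← Real.sin_two_mul]
        congr 1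
        ring
      have hs : Real.sin (u / 2) ^ 2 ≤ (u / 2) ^ 2 := by
        rw [← sq_abs (Real.sin (u / 2)), ← sq_abs (u / 2)]
        exact pow_le_pow_left₀ (abs_nonneg _) Real.abs_sin_le_abs 2
      have hc : Real.cos (u / 2) ^ 2 = 1 - Real.sin (u / 2) ^ 2 := by
        have := Real.sin_sq_add_cos_sq (u / 2)
        linarith
      have e2 : Real.sin u ^ 2 = 4 * Real.sin (u / 2) ^ 2 * (1 - Real.sin (u / 2) ^ 2) := by
        rw [e, ← hc]
        ring
      rw [e2]
      nlinarith [mul_nonneg (sub_nonneg.2 hs)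
        (show 0 ≤ 1 - (Real.sin (u / 2) ^ 2 + (u / 2) ^ 2) by nlinarith)]
    have h2 : 0 ≤ 1 + u ^ 2 / 4 := by positivity
    have h3 := mul_le_mul_of_nonneg_right h1 h2
    nlinarith [mul_nonneg (sq_nonneg u) (mul_nonneg (sq_nonneg u) (sq_nonneg u))]
  · push Not at h
    have h1 : Real.sin u ^ 2 ≤ 1 := Real.sin_sq_le_one u
    nlinarith

end SNC

theorem snc : T_SNC := by
  intro ε M x hε hM
  have hM0 : 0 < M := lt_of_lt_of_le (by positivity) hM
  have hMε : 2 ≤ M * ε := by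
    rwa [div_le_iff₀ hε] at hM
  by_cases hx : x = 0
  · subst hx
    have e1 : ∀ s : ℝ, Complex.exp (((s * 0 : ℝ) : ℂ) * Complex.I) = 1 := by
      intro s
      simp
    simp only [e1]
    rw [intervalIntegral.integral_const]
    have e2 : ((2 * ε : ℝ) : ℂ) ≠ 0 := by
      exact_mod_cast (by positivity : (2 * ε : ℝ) ≠ 0)
    have e3 : (M : ℂ) ≠ 0 := by exact_mod_cast hM0.ne'
    rw [Complex.ofReal_zero, zero_mul, sub_zero, sub_zero, div_self e2, Complex.real_smul, mul_one,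
      inv_mul_cancel₀ e3]
  · have hxI : (x : ℂ) * Complex.I ≠ 0 :=
      mul_ne_zero (by exact_mod_cast hx) Complex.I_ne_zero
    have e1 : ∫ s in (0 : ℝ)..M, Complex.exp (((s * x : ℝ) : ℂ) * Complex.I) =
        (Complex.exp (Complex.I * ((M * x : ℝ) : ℂ)) - 1) / ((x : ℂ) * Complex.I) := by
      have h := integral_exp_mul_complex (a := 0) (b := M) hxI
      have e2 : ∀ s : ℝ, Complex.exp (((s * x : ℝ) : ℂ) * Complex.I) =
          Complex.exp ((x : ℂ) * Complex.I * s) := by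
        intro s
        congr 1
        push_cast
        ring
      simp only [e2]
      rw [h]
      congr 2
      · congr 1
        push_cast
        ring
      · simp
    have e8 : ‖(x : ℂ) * Complex.I‖ = ‖x‖ := by
      rw [norm_mul, Complex.norm_I, mul_one, Complex.norm_real]
    rw [e1, norm_mul, norm_div, norm_div, Complex.norm_exp_I_mul_ofReal_sub_one, norm_inv, e8,
      Complex.norm_real, Complex.norm_real]
    have e5 : ‖((2 * ε : ℝ) : ℂ) - (x : ℂ) * Complex.I‖ = Real.sqrt ((2 * ε) ^ 2 + x ^ 2) := by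
      rw [Complex.norm_eq_sqrt_sq_add_sq]
      congr 1
      simp
    rw [e5]
    have hs0 : 0 < (2 * ε) ^ 2 + x ^ 2 := by positivity
    have hs := Real.sqrt_pos.2 hs0
    have hx2 : 0 < ‖x‖ := norm_pos_iff.2 hx
    rw [← pow_le_pow_iff_left₀ (by positivity) (by positivity) (two_ne_zero)]
    have e6 : (‖M‖⁻¹ * (‖2 * Real.sin (M * x / 2)‖ / ‖x‖)) ^ 2 =
        4 * Real.sin (M * x / 2) ^ 2 / (M ^ 2 * x ^ 2) := by
      rw [mul_pow, div_pow, inv_pow, Real.norm_eq_abs, Real.norm_eq_abs, Real.norm_eq_abs, sq_abs,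
        sq_abs, sq_abs]
      field_simp
      ring
    have e7 : (‖2 * ε‖ / Real.sqrt ((2 * ε) ^ 2 + x ^ 2)) ^ 2 =
        4 * ε ^ 2 / (4 * ε ^ 2 + x ^ 2) := by
      rw [div_pow, Real.sq_sqrt hs0.le, Real.norm_eq_abs, sq_abs]
      ring
    rw [e6, e7, div_le_div_iff₀ (by positivity) (by positivity)]
    have h1 := SNC.sin_le (M * x / 2)
    have h2 : 4 * ε ^ 2 + x ^ 2 ≤ 4 * ε ^ 2 * (1 + (M * x / 2) ^ 2 / 4) := by
      have h3 : 4 ≤ (M * ε) ^ 2 := by nlinarith
      nlinarith [mul_le_mul_of_nonneg_right h3 (sq_nonneg x)]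
    have h4 := mul_le_mul_of_nonneg_left h2 (by positivity :
      0 ≤ 4 * Real.sin (M * x / 2) ^ 2)
    have h5 := mul_le_mul_of_nonneg_left h1 (by positivity : 0 ≤ 16 * ε ^ 2)
    nlinarith

end Pool.Agent.T2h98.MR
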