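import Pool.Agent.T2h98.MR.Stm

/-! The time average on the torus is close to a function of the energy (TOB). -/

set_option autoImplicit false
set_option linter.unusedSectionVars false

open scoped BigOperators Matrix Topology
open MeasureTheory ProbabilityTheory Filter

namespace Pool.Agent.T2h98.MR

open Pool.Agent.W788.MFP.Four (T e NN adj K)
open Pool.Agent.W788.BK (nsq hs JJ hi Low cr)
open Pool.Agent.TH980.IM.PR (PP sh)
open Pool.Agent.T2h98.QD (Zd ev HT dl rep Mo GP dn T_DOS)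
open Pool.Agent.T2h98.PS

namespace Tob

/-- powers of `σ` tend to zero -/
lemma rpow_small {p : ℝ} (hp : 0 < p) {r : ℝ} (hr : 0 < r) : ∀ᶠ σ : ℝ in 𝓝[>] 0, σ ^ p < r := by
  have h1 : Tendsto (fun σ : ℝ => σ ^ p) (𝓝 0) (𝓝 ((0 : ℝ) ^ p)) :=
    Real.continuousAt_rpow_const 0 p (Or.inr hp.le)
  rw [Real.zero_rpow hp.ne'] at h1
  exact (h1.mono_left nhdsWithin_le_nhds).eventually_lt_const hr

variable {d : ℕ} {m : Fin d → ℤ} {c0 : ℝ}

lemma cf_cont (hd : 3 ≤ d) (hM : T_PWM) (hD : T_DOS) (hc0 : 0 < c0) : Continuous (cf d m c0) := by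
  have h1 := (hM d hd m).1
  have h2 := (hD d hd).1
  unfold cf
  exact h1.div (h2.max continuous_const) fun E => (lt_of_lt_of_le hc0 (le_max_right _ _)).ne'

lemma cf_le (hd : 3 ≤ d) (hM : T_PWM) (hc0 : 0 < c0) (E : ℝ) : |cf d m c0 E| ≤ 1 := by
  have h1 := (hM d hd m).2 E
  have h2 : 0 < max (dn d E) c0 := lt_of_lt_of_le hc0 (le_max_right _ _)
  unfold cf
  rw [abs_div, abs_of_pos h2, div_le_one h2]
  exact h1.trans (le_max_left _ _)

lemma cf_supp (hd : 3 ≤ d) (hM : T_PWM) (hD : T_DOS) : HasCompactSupport (cf d m c0) := by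
  refine HasCompactSupport.intro (K := Set.Icc (-(2 * (d : ℝ))) (2 * d)) isCompact_Icc
    fun E hE => ?_
  have h1 : 2 * (d : ℝ) ≤ |E| := by
    by_contra h
    rw [not_le, abs_lt] at h
    exact hE ⟨h.1.le, h.2.le⟩
  have h2 := ((hD d hd).2.2.2.2.1 E h1).1
  have h3 := (hM d hd m).2 E
  rw [h2] at h3
  have h4 : wm d m E = 0 := abs_nonpos_iff.1 h3
  unfold cf
  rw [h4, zero_div]

/-- a trigonometric polynomial is bounded -/
lemma qE_le {n : ℕ} (a : Fin n → ℂ) (t : Fin n → ℝ) (E : ℝ) : ‖qE a t E‖ ≤ ∑ i, ‖a i‖ := by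
  unfold qE
  refine (norm_sum_le _ _).trans (Finset.sum_le_sum fun i _ => ?_)
  rw [norm_mul]
  have h1 : ‖Complex.exp (-(((t i * E : ℝ) : ℂ) * Complex.I))‖ = 1 := by
    rw [← neg_mul, ← Complex.ofReal_neg, Complex.norm_exp_ofReal_mul_I]
  rw [h1, mul_one]

/-- the squares of the coordinates -/
lemma int_sq {d L : ℕ} [NeZero L] (x : T d L) :
    Integrable (fun ξ : T d L → ℝ => ξ x ^ 2) (GP (T d L)) ∧
      ∫ ξ : T d L → ℝ, ξ x ^ 2 ∂(GP (T d L)) = 1 := by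
  have hmp : MeasurePreserving (Function.eval x) (GP (T d L)) (gaussianReal 0 1) := by
    show MeasurePreserving (Function.eval x)
      (Measure.pi fun _ : T d L => gaussianReal 0 1) (gaussianReal 0 1)
    exact measurePreserving_eval _ x
  have h1 : MemLp id 2 (gaussianReal 0 1) := memLp_id_gaussianReal 2
  have h2 : Integrable (fun y : ℝ => y ^ 2) (gaussianReal 0 1) := h1.integrable_sq
  have h3 : ∫ y : ℝ, y ^ 2 ∂(gaussianReal 0 1) = 1 := by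
    have h4 := variance_id_gaussianReal (μ := 0) (v := 1)
    rw [variance_eq_sub h1] at h4
    simp only [Pi.pow_apply, id_eq, integral_id_gaussianReal] at h4
    simpa using h4
  refine ⟨?_, ?_⟩
  · exact hmp.integrable_comp_of_integrable h2
  · have h5 := hmp.hasLaw.integral_comp (f := fun y : ℝ => y ^ 2) h2.aestronglyMeasurable
    rw [h3] at h5
    exact h5

end Tob

open Tob in
/-- pointwise bound -/
lemma tob_pt (hM : T_PWM) (hS : T_SNC) (hO : T_OUT) {d L : ℕ} [NeZero L] (hd : 3 ≤ d)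
    (m : Fin d → ℤ) {c0 η ε σ : ℝ} (hc0 : 0 < c0) (hε : 0 < ε) {n : ℕ}
    (a : Fin n → ℂ) (t : Fin n → ℝ)
    (hq : ∀ E : ℝ, |E| ≤ 2 * (d : ℝ) + 1 → ‖qE a t E - (cf d m c0 E : ℂ)‖ ≤ η)
    (M : ℕ) (hM1 : 1 ≤ M) (hMε : 2 / ε ≤ (M : ℝ)) (ξ : T d L → ℝ) (u : T d L → T d L → ℂ)
    (w : T d L → ℝ) (hE : EB σ ξ u w) :
    ∑ j, ∑ l, ‖(star (u j) ⬝ᵥ (Mo (chm m) *ᵥ u l)) *
      ((M : ℂ)⁻¹ * ∫ s in (0 : ℝ)..M, Complex.exp (((s * (w j - w l) : ℝ) : ℂ) * Complex.I)) -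
        if j = l then qE a t (w j) else 0‖ ^ 2 ≤
    2 * (∑ j, ∑ l, ‖Xm m (cf d m c0) ε u w j l‖ ^ 2) + 2 * (η ^ 2 * NN d L +
      (1 + ∑ i, ‖a i‖) ^ 2 * (σ ^ 2 * ∑ x, ξ x ^ 2)) := by
  classical
  obtain ⟨K, hK⟩ : ∃ K : ℝ, K = 1 + ∑ i, ‖a i‖ := ⟨_, rfl⟩
  have hK0 : 0 ≤ K := by
    rw [hK]
    have : 0 ≤ ∑ i, ‖a i‖ := Finset.sum_nonneg fun i _ => norm_nonneg _
    linarith
  have hM0 : (0 : ℝ) < M := by exact_mod_cast hM1
  have hMc : (M : ℂ) ≠ 0 := by exact_mod_cast hM0.ne'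
  have h1 : ∀ j l : T d L, ‖(star (u j) ⬝ᵥ (Mo (chm m) *ᵥ u l)) *
      ((M : ℂ)⁻¹ * ∫ s in (0 : ℝ)..M, Complex.exp (((s * (w j - w l) : ℝ) : ℂ) * Complex.I)) -
        if j = l then qE a t (w j) else 0‖ ^ 2 ≤
      2 * ‖Xm m (cf d m c0) ε u w j l‖ ^ 2 +
        if j = l then 2 * ‖(cf d m c0 (w j) : ℂ) - qE a t (w j)‖ ^ 2 else 0 := by
    intro j l
    by_cases hjl : j = l
    · subst hjl
      have h2 : (M : ℂ)⁻¹ * (∫ s in (0 : ℝ)..M,
          Complex.exp (((s * (w j - w j) : ℝ) : ℂ) * Complex.I)) = 1 := by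
        simp [hMc]
      have h3 : Xm m (cf d m c0) ε u w j j =
          (star (u j) ⬝ᵥ (Mo (chm m) *ᵥ u j)) - (cf d m c0 (w j) : ℂ) := by
        unfold Xm
        have h4 : ((2 * ε : ℝ) : ℂ) ≠ 0 := by
          have : (2 * ε : ℝ) ≠ 0 := by positivity
          exact_mod_cast this
        simp only [sub_self, Complex.ofReal_zero, zero_mul, sub_zero, if_true]
        rw [div_self h4, mul_one]
      rw [h2, h3, mul_one, if_pos rfl, if_pos rfl]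
      obtain ⟨A, hA⟩ : ∃ A : ℂ, A = star (u j) ⬝ᵥ (Mo (chm m) *ᵥ u j) := ⟨_, rfl⟩
      rw [← hA]
      have h5 : A - qE a t (w j) = (A - (cf d m c0 (w j) : ℂ)) +
          ((cf d m c0 (w j) : ℂ) - qE a t (w j)) := by ring
      rw [h5]
      have h6 := norm_add_le (A - (cf d m c0 (w j) : ℂ)) ((cf d m c0 (w j) : ℂ) - qE a t (w j))
      have h7 := norm_nonneg ((A - (cf d m c0 (w j) : ℂ)) +
          ((cf d m c0 (w j) : ℂ) - qE a t (w j)))
      nlinarith [sq_nonneg (‖A - (cf d m c0 (w j) : ℂ)‖ - ‖(cf d m c0 (w j) : ℂ) - qE a t (w j)‖),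
        norm_nonneg (A - (cf d m c0 (w j) : ℂ)),
        norm_nonneg ((cf d m c0 (w j) : ℂ) - qE a t (w j))]
    · rw [if_neg hjl, if_neg hjl, sub_zero, add_zero]
      have h2 : Xm m (cf d m c0) ε u w j l = (star (u j) ⬝ᵥ (Mo (chm m) *ᵥ u l)) *
          (((2 * ε : ℝ) : ℂ) / (((2 * ε : ℝ) : ℂ) - ((w j - w l : ℝ) : ℂ) * Complex.I)) := by
        unfold Xm
        rw [if_neg hjl, sub_zero]
      rw [h2]
      have h3 := hS ε (M : ℝ) (w j - w l) hε hMε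
      rw [Complex.ofReal_natCast] at h3
      generalize (star (u j) ⬝ᵥ (Mo (chm m) *ᵥ u l)) = A
      revert h3
      generalize ((M : ℂ)⁻¹ * ∫ s in (0 : ℝ)..M,
          Complex.exp (((s * (w j - w l) : ℝ) : ℂ) * Complex.I)) = B
      generalize (((2 * ε : ℝ) : ℂ) / (((2 * ε : ℝ) : ℂ) - ((w j - w l : ℝ) : ℂ) * Complex.I)) = D
      intro h3
      rw [norm_mul, norm_mul]
      have h4 : (‖A‖ * ‖B‖) ^ 2 ≤ (‖A‖ * ‖D‖) ^ 2 :=
        pow_le_pow_left₀ (by positivity)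
          (mul_le_mul_of_nonneg_left h3 (norm_nonneg _)) 2
      refine h4.trans ?_
      have h5 : 0 ≤ (‖A‖ * ‖D‖) ^ 2 := sq_nonneg _
      linarith
  have h2 : ∑ j, ∑ l, ‖(star (u j) ⬝ᵥ (Mo (chm m) *ᵥ u l)) *
      ((M : ℂ)⁻¹ * ∫ s in (0 : ℝ)..M, Complex.exp (((s * (w j - w l) : ℝ) : ℂ) * Complex.I)) -
        if j = l then qE a t (w j) else 0‖ ^ 2 ≤
      2 * (∑ j, ∑ l, ‖Xm m (cf d m c0) ε u w j l‖ ^ 2) +
        ∑ j, 2 * ‖(cf d m c0 (w j) : ℂ) - qE a t (w j)‖ ^ 2 := by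
    refine (Finset.sum_le_sum fun j _ => Finset.sum_le_sum fun l _ => h1 j l).trans (le_of_eq ?_)
    simp only [Finset.sum_add_distrib, Finset.sum_ite_eq, Finset.mem_univ, if_true,
      Finset.mul_sum]
  have h3 : ∀ j : T d L, ‖(cf d m c0 (w j) : ℂ) - qE a t (w j)‖ ^ 2 ≤ η ^ 2 +
      K ^ 2 * (if 2 * (d : ℝ) + 1 < |w j| then 1 else 0) := by
    intro j
    by_cases hj : 2 * (d : ℝ) + 1 < |w j|
    · rw [if_pos hj, mul_one]
      have h4 : ‖(cf d m c0 (w j) : ℂ) - qE a t (w j)‖ ≤ K := by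
        refine (norm_sub_le _ _).trans ?_
        rw [hK]
        refine add_le_add ?_ (qE_le a t _)
        rw [Complex.norm_real]
        exact cf_le hd hM hc0 _
      have h5 : ‖(cf d m c0 (w j) : ℂ) - qE a t (w j)‖ ^ 2 ≤ K ^ 2 :=
        pow_le_pow_left₀ (norm_nonneg _) h4 2
      have h6 : 0 ≤ η ^ 2 := sq_nonneg _
      linarith
    · rw [if_neg hj, mul_zero, add_zero]
      have h4 := hq (w j) (not_lt.1 hj)
      rw [norm_sub_rev] at h4
      exact pow_le_pow_left₀ (norm_nonneg _) h4 2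
  have h4 : ∑ j : T d L, (if 2 * (d : ℝ) + 1 < |w j| then (1 : ℝ) else 0) ≤
      σ ^ 2 * ∑ x, ξ x ^ 2 := by
    have h5 := hO d L σ ξ u w hE
    refine le_trans (le_of_eq ?_) h5
    rw [Finset.sum_ite, Finset.sum_const_zero, add_zero, Finset.sum_const, nsmul_eq_mul, mul_one]
    congr 1
    rw [← Set.ncard_coe_finset]
    congr 1
    ext j
    simp
  have h5 : ∑ j : T d L, ‖(cf d m c0 (w j) : ℂ) - qE a t (w j)‖ ^ 2 ≤ η ^ 2 * NN d L +
      K ^ 2 * (σ ^ 2 * ∑ x, ξ x ^ 2) := by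
    refine (Finset.sum_le_sum fun j _ => h3 j).trans ?_
    rw [Finset.sum_add_distrib, ← Finset.mul_sum, Finset.sum_const, nsmul_eq_mul]
    have h6 : ((Finset.univ : Finset (T d L)).card : ℝ) = NN d L :=
      Pool.Agent.W788.MFP.Four.card_T
    rw [h6, mul_comm]
    have h7 := mul_le_mul_of_nonneg_left h4 (sq_nonneg K)
    linarith
  rw [← hK]
  refine h2.trans ?_
  rw [← Finset.mul_sum]
  linarith

open Tob in
/-- **the time average on the torus is close to a function of the energy** -/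
theorem t_TOB (hT : T_PTO) (hF : T_PFU) (hE : T_PDE) (hP : T_PPO) (hM : T_PWM) (hD : T_DOS)
    (hX : T_PEX) (hS : T_SNC) (hO : T_OUT) (hZ : T_ZEG) (hR : T_ZTR) : T_TOB := by
  classical
  intro κ d hd h hh0 hh1 m c0 η hc0 hη n a t hq
  obtain ⟨K, hK⟩ : ∃ K : ℝ, K = 1 + ∑ i, ‖a i‖ := ⟨_, rfl⟩
  have hK1 : 1 ≤ K := by
    rw [hK]
    have : 0 ≤ ∑ i, ‖a i‖ := Finset.sum_nonneg fun i _ => norm_nonneg _
    linarith
  have ccont := cf_cont (m := m) hd hM hD hc0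
  have cle := cf_le (m := m) hd hM hc0
  have csup := cf_supp (m := m) (c0 := c0) hd hM hD
  obtain ⟨ε1, hε1, hP1⟩ := hP.1 _ ccont csup η hη
  obtain ⟨ε2, hε2, hP2⟩ := hP.1 (fun E => cf d m c0 E ^ 2) (ccont.pow 2)
    (csup.comp_left (g := fun x : ℝ => x ^ 2) (by norm_num)) η hη
  have hsm : 0 < η / K ^ 2 := by positivity
  filter_upwards [hT κ d hd h hh0 hh1 1 one_pos m c0 η hc0 hη, self_mem_nhdsWithin,
    rpow_small (p := 2 + h) (by linarith) hε1, rpow_small (p := 2 + h) (by linarith) hε2,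
    rpow_small (p := 2) (by norm_num) hsm]
    with σ hTσ hσ0 hs1 hs2 hs3 L _ hL1 hL2 M hMσ
  have hσ0' : 0 < σ := hσ0
  have hN0 := Pool.Agent.W788.MFP.Four.NN_pos (d := d) (L := L)
  obtain ⟨ε, hε⟩ : ∃ ε : ℝ, ε = σ ^ (2 + h) := ⟨_, rfl⟩
  rw [← hε] at hs1 hs2 hMσ
  have hε0 : 0 < ε := by rw [hε]; positivity
  have hM0 : (0 : ℝ) < M := lt_of_lt_of_le (by positivity) hMσ
  have hM1 : 1 ≤ M := by exact_mod_cast hM0
  have hL1' : σ ^ (-2 - (1 : ℝ)) ≤ (L : ℝ) := by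
    have : (-2 - (1 : ℝ)) = -3 := by norm_num
    rw [this]
    exact hL1
  obtain ⟨hT1, -⟩ := hTσ L hL1' hL2
  rw [← hε] at hT1
  obtain ⟨hF1, hF2, hF3, hF4, hF5, hF6, hF7, hF8⟩ :=
    hF d L m (cf d m c0) ε σ hε0 hσ0' ccont cle
  have hprob : IsProbabilityMeasure (GP (T d L)) := by
    show IsProbabilityMeasure (Measure.pi fun _ : T d L => gaussianReal 0 1)
    infer_instance
  obtain ⟨-, -, hR3⟩ := hR d L m M hM1 n a t σ
  rw [hR3]
  obtain ⟨Y, hY⟩ : ∃ Y : (T d L → ℝ) → ℝ, Y = fun V => (NN d L * (2 * Real.pi⁻¹)) *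
    (∫ E : ℝ, Ph m (cf d m c0) ε σ V E) + ((2 * K ^ 2 * σ ^ 2) * (∑ x, V x ^ 2) +
      (NN d L * (6 * η + 2 * η ^ 2))) := ⟨_, rfl⟩
  have hpt : ∀ V : T d L → ℝ, (∑ x, ∑ y, ‖ZT m M a t σ V x y‖ ^ 2) ≤ Y V := by
    intro V
    obtain ⟨u, w, huw⟩ := hX d L σ V
    rw [hZ d L m M hM1 n a t σ V u w huw]
    refine (tob_pt hM hS hO hd m hc0 hε0 a t hq M hM1 hMσ V u w huw).trans ?_
    have h1 := hE d L m (cf d m c0) ε σ η hε0 ccont cle (hP1 ε hε0 hs1) (hP2 ε hε0 hs2) V u w huw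
    rw [inv_mul_le_iff₀ hN0] at h1
    rw [hY, ← hK]
    simp only
    linarith
  have hsq : Integrable (fun V : T d L → ℝ => ∑ x, V x ^ 2) (GP (T d L)) :=
    integrable_finsetSum _ fun x _ => (int_sq x).1
  have hsq2 : ∫ V : T d L → ℝ, (∑ x, V x ^ 2) ∂(GP (T d L)) = NN d L := by
    rw [integral_finsetSum _ fun x _ => (int_sq x).1]
    rw [Finset.sum_congr rfl fun x _ => (int_sq (d := d) (L := L) x).2]
    rw [Finset.sum_const, nsmul_eq_mul, mul_one]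
    exact Pool.Agent.W788.MFP.Four.card_T
  have hYi : Integrable Y (GP (T d L)) := by
    rw [hY]
    exact (hF2.const_mul _).add ((hsq.const_mul _).add (integrable_const _))
  have hYint : ∫ V, Y V ∂(GP (T d L)) = (NN d L * (2 * Real.pi⁻¹)) * (∫ V : T d L → ℝ,
        (∫ E : ℝ, Ph m (cf d m c0) ε σ V E) ∂(GP (T d L))) + ((2 * K ^ 2 * σ ^ 2) * NN d L +
      (NN d L * (6 * η + 2 * η ^ 2))) := by
    have i1 : Integrable (fun V : T d L → ℝ => (2 * K ^ 2 * σ ^ 2) * (∑ x, V x ^ 2))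
      (GP (T d L)) := hsq.const_mul _
    have i2 : Integrable (fun V : T d L → ℝ => (2 * K ^ 2 * σ ^ 2) * (∑ x, V x ^ 2) +
      (NN d L * (6 * η + 2 * η ^ 2))) (GP (T d L)) := i1.add (integrable_const _)
    have i3 : Integrable (fun V : T d L → ℝ => (NN d L * (2 * Real.pi⁻¹)) *
      (∫ E : ℝ, Ph m (cf d m c0) ε σ V E)) (GP (T d L)) := hF2.const_mul _
    rw [hY]
    simp only
    rw [integral_add i3 i2, integral_const_mul, integral_add i1 (integrable_const _),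
      integral_const_mul, integral_const, hsq2]
    simp
  have hle : ∫ V : T d L → ℝ, (∑ x, ∑ y, ‖ZT m M a t σ V x y‖ ^ 2) ∂(GP (T d L)) ≤
      ∫ V, Y V ∂(GP (T d L)) := by
    refine integral_mono_of_nonneg (ae_of_all _ fun V => ?_) hYi (ae_of_all _ hpt)
    exact Finset.sum_nonneg fun x _ => Finset.sum_nonneg fun y _ => sq_nonneg _
  rw [hYint] at hle
  rw [inv_mul_le_iff₀ hN0]
  refine hle.trans ?_
  have h2 : 2 * Real.pi⁻¹ ≤ 1 := by
    have h3 : (Real.pi⁻¹ : ℝ) ≤ 2⁻¹ := by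
      rw [inv_le_inv₀ Real.pi_pos (by norm_num)]
      linarith [Real.pi_gt_three]
    linarith
  have h3 : 0 ≤ Real.pi⁻¹ := by positivity
  have h4 : 2 * (Real.pi⁻¹ * (∫ V : T d L → ℝ,
      (∫ E : ℝ, Ph m (cf d m c0) ε σ V E) ∂(GP (T d L)))) ≤ η + 100 * d * c0 := by
    calc _ ≤ 2 * (Real.pi⁻¹ * (η + 100 * d * c0)) := by
          have := mul_le_mul_of_nonneg_left hT1 h3
          linarith
      _ = (2 * Real.pi⁻¹) * (η + 100 * d * c0) := by ring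
      _ ≤ 1 * (η + 100 * d * c0) := mul_le_mul_of_nonneg_right h2 (by positivity)
      _ = _ := one_mul _
  have h5 : K ^ 2 * σ ^ 2 ≤ η := by
    have h6 : σ ^ (2 : ℝ) = σ ^ 2 := by
      rw [← Real.rpow_natCast]
      norm_num
    rw [h6, lt_div_iff₀ (by positivity)] at hs3
    linarith
  have h7 : (NN d L * (2 * Real.pi⁻¹)) * (∫ V : T d L → ℝ,
        (∫ E : ℝ, Ph m (cf d m c0) ε σ V E) ∂(GP (T d L))) + ((2 * K ^ 2 * σ ^ 2) * NN d L +
      (NN d L * (6 * η + 2 * η ^ 2))) = NN d L * (2 * (Real.pi⁻¹ * (∫ V : T d L → ℝ,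
        (∫ E : ℝ, Ph m (cf d m c0) ε σ V E) ∂(GP (T d L)))) + 6 * η + 2 * η ^ 2 +
          2 * (K ^ 2 * σ ^ 2)) := by ring
  rw [h7]
  apply mul_le_mul_of_nonneg_left _ hN0.le
  nlinarith [sq_nonneg η]

end Pool.Agent.T2h98.MR
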