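import Pool.Agent.T2h98.MR.Stm
import Pool.Agent.T2h98.NB.GPO
import Pool.Agent.T2h98.QD.Cmp

/-! Relaxation of the momentum: comparison of the groups on the lattice and on the torus. -/

set_option autoImplicit false
set_option linter.unusedVariables false
set_option linter.unusedSectionVars false

open scoped BigOperators Matrix Topology
open MeasureTheory ProbabilityTheory Filter

namespace Pool.Agent.T2h98.MR.TR1x

open Pool.Agent.W788.MFP.Four (T e NN adj K)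
open Pool.Agent.W788.BK (nsq hs JJ hi Low cr)
open Pool.Agent.TH980.IM.PR (PP sh)
open Pool.Agent.T2h98.QD (Zd ev HT dl rep Mo GP dn)
open Pool.Agent.T2h98.NB
open Pool.Agent.T2h98.NB.GPO (U_adj U_neg)
open Pool.Agent.T2h98.MR

variable {d : ℕ}

/-! ## The lattice -/

/-- evaluation at a site -/
noncomputable def evx (x : Sd d) : L2 d →L[ℂ] ℂ := innerSL ℂ (ee x)

theorem evx_apply (x : Sd d) (f : L2 d) : evx x f = f x := inner_ee x f

/-- the equation of motion, in coordinates (as in `EA/LAPR.lean`) -/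
theorem coord {U : Om d → ℝ → L2 d →L[ℂ] L2 d} (hU : Gr0 U) (V : Om d) (f : L2 d) (x : Sd d)
    (t : ℝ) : HasDerivAt (fun s : ℝ => (U V s f) x)
      (-Complex.I * ((V x : ℂ) * (U V t f) x + (Ad d (U V t f)) x)) t := by
  have h1 : HasDerivAt ((evx x) ∘ fun s : ℝ => Mu (s • V) (U V s f))
      ((evx x) (-(Complex.I • Mu (t • V) (Ad d (U V t f))))) t :=
    ((evx x).restrictScalars ℝ).hasFDerivAt.comp_hasDerivAt t (hU.der V f t)
  have h2 : ∀ s : ℝ, ((evx x) ∘ fun s : ℝ => Mu (s • V) (U V s f)) s =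
      Complex.exp (((s * V x : ℝ) : ℂ) * Complex.I) * (U V s f) x := by
    intro s
    change evx x (Mu (s • V) (U V s f)) = _
    rw [evx_apply, Mu_apply]
    rfl
  have h3 : HasDerivAt (fun s : ℝ => Complex.exp (-(((s * V x : ℝ) : ℂ) * Complex.I)))
      (Complex.exp (-(((t * V x : ℝ) : ℂ) * Complex.I)) * (-((V x : ℂ) * Complex.I))) t := by
    have h4 : HasDerivAt (fun s : ℝ => -(((s * V x : ℝ) : ℂ) * Complex.I))
        (-((V x : ℂ) * Complex.I)) t := by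
      have h5 : HasDerivAt (fun s : ℝ => ((s * V x : ℝ) : ℂ)) (V x : ℂ) t := by
        have := ((hasDerivAt_id t).mul_const (V x)).ofReal_comp
        simpa using this
      exact (h5.mul_const _).neg
    exact h4.cexp
  have h6 := h3.mul h1
  have h7 : (fun s : ℝ => (U V s f) x) =
      (fun s : ℝ => Complex.exp (-(((s * V x : ℝ) : ℂ) * Complex.I))) *
        ((evx x) ∘ fun s : ℝ => Mu (s • V) (U V s f)) := by
    funext s
    rw [Pi.mul_apply, h2, ← mul_assoc, ← Complex.exp_add, neg_add_cancel, Complex.exp_zero, one_mul]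
  rw [h7]
  refine h6.congr_deriv ?_
  rw [h2]
  have h8 : (evx x) (-(Complex.I • Mu (t • V) (Ad d (U V t f)))) =
      -(Complex.I * (Complex.exp (((t * V x : ℝ) : ℂ) * Complex.I) * (Ad d (U V t f)) x)) := by
    rw [map_neg, map_smul, evx_apply, Mu_apply]
    rfl
  have h9 : Complex.exp (-(((t * V x : ℝ) : ℂ) * Complex.I)) *
      Complex.exp (((t * V x : ℝ) : ℂ) * Complex.I) = 1 := by
    rw [← Complex.exp_add, neg_add_cancel, Complex.exp_zero]
  rw [h8]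
  linear_combination (-Complex.I * (V x : ℂ) * (U V t f) x - Complex.I * (Ad d (U V t f)) x) * h9

theorem sub_le (u : L2 d) {J : Type} [Fintype J] (f : J → Sd d) (hf : Function.Injective f) :
    ∑ j, ‖u (f j)‖ ^ 2 ≤ ‖u‖ ^ 2 := by
  rw [norm_sq]
  calc ∑ j, ‖u (f j)‖ ^ 2 = ∑ x ∈ Finset.univ.map ⟨f, hf⟩, ‖u x‖ ^ 2 := by
        rw [Finset.sum_map]; rfl
    _ ≤ _ := (sq_summable u).sum_le_tsum _ fun x _ => by positivity

section torus

variable {L : ℕ} [NeZero L]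

theorem inner_Jt (u : L2 d) (ψ : T d L → ℂ) :
    (inner ℂ u (Jt ψ) : ℂ) = ∑ k : T d L, ψ k * star (u (rep k)) := by
  unfold Jt
  rw [inner_sum]
  refine Finset.sum_congr rfl fun k _ => ?_
  rw [inner_smul_right, ← inner_conj_symm, inner_ee]
  rfl

/-- a step near the boundary -/
theorem step' (k : T d L) (i : Fin d) (ε : ℤ) (hε : ε = 1 ∨ ε = -1) (hL : 4 ≤ L) :
    rep (k + Pi.single i (ε : ZMod L)) = (rep k + Pi.single i ε : Zd d) ∨
      (L : ℝ) / 4 ≤ |(rep k i : ℝ)| := by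
  obtain ⟨a, ha⟩ : ∃ a : ℤ, a = (k i).valMinAbs := ⟨_, rfl⟩
  obtain ⟨b, hb⟩ : ∃ b : ℤ, b = (k i + (ε : ZMod L)).valMinAbs := ⟨_, rfl⟩
  have h1 := (k i).valMinAbs_mem_Ioc
  have h2 := (k i + (ε : ZMod L)).valMinAbs_mem_Ioc
  rw [← ha, Set.mem_Ioc] at h1
  rw [← hb, Set.mem_Ioc] at h2
  have h3 : ∃ c : ℤ, b - (a + ε) = L * c := by
    have : ((b - (a + ε) : ℤ) : ZMod L) = 0 := by
      push_cast
      rw [hb, ha, ZMod.coe_valMinAbs, ZMod.coe_valMinAbs, sub_self]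
    rw [ZMod.intCast_zmod_eq_zero_iff_dvd] at this
    exact this
  obtain ⟨c, hc⟩ := h3
  have hother : ∀ j, j ≠ i → rep (k + Pi.single i (ε : ZMod L)) j = (rep k + Pi.single i ε : Zd d) j := by
    intro j hj
    simp [rep, Pi.single_eq_of_ne hj]
  have hi1 : rep (k + Pi.single i (ε : ZMod L)) i = b := by simp [rep, hb]
  have hi2 : (rep k + Pi.single i ε : Zd d) i = a + ε := by simp [rep, ha]
  have hi3 : rep k i = a := by simp [rep, ha]
  by_cases hc0 : c = 0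
  · left
    funext j
    by_cases hj : j = i
    · subst hj
      rw [hi1, hi2]
      rw [hc0, mul_zero] at hc
      omega
    · exact hother j hj
  · right
    have hL' : (4 : ℤ) ≤ L := by exact_mod_cast hL
    have hc1 : (L : ℤ) * c ≤ -L ∨ (L : ℤ) ≤ L * c := by
      rcases lt_or_gt_of_ne hc0 with h | h
      · left; nlinarith
      · right; nlinarith
    have g1 : (L : ℤ) ≤ 4 * |a| := by
      rcases hc1 with h | h
      · rcases hε with h' | h' <;> (rw [h'] at hc; rcases abs_cases a with ⟨h5, h6⟩ | ⟨h5, h6⟩ <;> omega)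
      · rcases hε with h' | h' <;> (rw [h'] at hc; rcases abs_cases a with ⟨h5, h6⟩ | ⟨h5, h6⟩ <;> omega)
    have g1' : (L : ℝ) ≤ 4 * |(a : ℝ)| := by exact_mod_cast g1
    rw [hi3]
    linarith

/-- one direction -/
theorem dir_le (hL : 4 ≤ L) (u : L2 d) (ψ : T d L → ℂ) (j : Fin d × Bool) :
    ∑ k : T d L, ‖ψ k‖ * ‖u (rep (k + Pi.single j.1 ((QD.Cmp.sg j.2 : ℤ) : ZMod L))) -
      u (rep k + Pi.single j.1 (QD.Cmp.sg j.2))‖ ≤
      8 / L * Real.sqrt (W2 ψ) * ‖u‖ := by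
  obtain ⟨i, b⟩ := j
  have hε : QD.Cmp.sg b = 1 ∨ QD.Cmp.sg b = -1 := by
    cases b <;> simp [QD.Cmp.sg]
  obtain ⟨ε, hε'⟩ : ∃ ε : ℤ, ε = QD.Cmp.sg b := ⟨_, rfl⟩
  simp only
  rw [← hε'] at hε ⊢
  have hLpos : (0 : ℝ) < L := by exact_mod_cast Nat.pos_of_ne_zero (NeZero.ne L)
  obtain ⟨δ, hδ⟩ : ∃ δ : T d L → ℂ, δ = fun k => u (rep (k + Pi.single i (ε : ZMod L))) -
      u (rep k + Pi.single i ε) := ⟨_, rfl⟩
  have e0 : ∀ k : T d L, ‖ψ k‖ * ‖δ k‖ ≤ 4 / L * ((|(rep k i : ℝ)| * ‖ψ k‖) * ‖δ k‖) := by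
    intro k
    rcases step' k i ε hε hL with h | h
    · have : δ k = 0 := by
        rw [hδ]
        show u (rep (k + Pi.single i (ε : ZMod L))) - u (rep k + Pi.single i ε) = 0
        rw [h, sub_self]
      rw [this, norm_zero, mul_zero, mul_zero, mul_zero]
    · have h5 : 1 ≤ 4 / L * |(rep k i : ℝ)| := by
        rw [div_mul_eq_mul_div, one_le_div hLpos]
        linarith
      have h6 : 0 ≤ ‖ψ k‖ * ‖δ k‖ := by positivity
      calc ‖ψ k‖ * ‖δ k‖ ≤ (4 / L * |(rep k i : ℝ)|) * (‖ψ k‖ * ‖δ k‖) :=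
            le_mul_of_one_le_left h6 h5
        _ = _ := by ring
  have i1 : Function.Injective (fun k : T d L => rep (k + Pi.single i (ε : ZMod L))) := by
    intro k k' h
    have := QD.Cmp.rep_inj h
    exact add_right_cancel this
  have i2 : Function.Injective (fun k : T d L => (rep k + Pi.single i ε : Zd d)) := by
    intro k k' h
    have h' : rep k = rep k' := add_right_cancel h
    exact QD.Cmp.rep_inj h'
  have h2 := sub_le u _ i1
  have h3 := sub_le u _ i2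
  have h4 : ∀ k, ‖δ k‖ ^ 2 ≤ 2 * ‖u (rep (k + Pi.single i (ε : ZMod L)))‖ ^ 2 +
        2 * ‖u (rep k + Pi.single i ε)‖ ^ 2 := by
    intro k
    rw [hδ]
    have g1 := norm_sub_le (u (rep (k + Pi.single i (ε : ZMod L))))
      (u (rep k + Pi.single i ε))
    have g2 := norm_nonneg (u (rep (k + Pi.single i (ε : ZMod L))) -
      u (rep k + Pi.single i ε))
    nlinarith [sq_nonneg (‖u (rep (k + Pi.single i (ε : ZMod L)))‖ -
      ‖u (rep k + Pi.single i ε)‖)]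
  have h5 : ∑ k, ‖δ k‖ ^ 2 ≤ (2 * ‖u‖) ^ 2 := by
    refine (Finset.sum_le_sum fun k _ => h4 k).trans ?_
    rw [Finset.sum_add_distrib, ← Finset.mul_sum, ← Finset.mul_sum]
    nlinarith
  have h6 : ∑ k : T d L, (|(rep k i : ℝ)| * ‖ψ k‖) ^ 2 ≤ W2 ψ := by
    unfold W2
    refine Finset.sum_le_sum fun k _ => ?_
    rw [mul_pow, sq_abs]
    refine mul_le_mul_of_nonneg_right ?_ (by positivity)
    exact Finset.single_le_sum (f := fun i => (rep k i : ℝ) ^ 2) (fun i _ => by positivity)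
      (Finset.mem_univ i)
  have h7 : ∑ k : T d L, ‖ψ k‖ * ‖δ k‖ ≤ 8 / L * Real.sqrt (W2 ψ) * ‖u‖ := by
    refine (Finset.sum_le_sum fun k _ => e0 k).trans ?_
    rw [← Finset.mul_sum]
    have h8 := Real.sum_mul_le_sqrt_mul_sqrt Finset.univ
      (fun k : T d L => |(rep k i : ℝ)| * ‖ψ k‖) (fun k => ‖δ k‖)
    have h9 : Real.sqrt (∑ k, ‖δ k‖ ^ 2) ≤ 2 * ‖u‖ := by
      rw [Real.sqrt_le_left (by positivity)]
      exact h5
    have h10 : Real.sqrt (∑ k : T d L, (|(rep k i : ℝ)| * ‖ψ k‖) ^ 2) ≤ Real.sqrt (W2 ψ) :=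
      Real.sqrt_le_sqrt h6
    have h11 := h8.trans (mul_le_mul h10 h9 (Real.sqrt_nonneg _) (Real.sqrt_nonneg _))
    calc 4 / L * ∑ k : T d L, (|(rep k i : ℝ)| * ‖ψ k‖) * ‖δ k‖ ≤
          4 / L * (Real.sqrt (W2 ψ) * (2 * ‖u‖)) :=
          mul_le_mul_of_nonneg_left h11 (by positivity)
      _ = _ := by ring
  rw [hδ] at h7
  exact h7

/-- the source term, tested -/
theorem src_bound (hL : 4 ≤ L) (u : L2 d) (ψ : T d L → ℂ) (s : ℝ) :
    ‖∑ k : T d L, ψ k * star (QD.Cmp.src (fun _ => fun x => u x) s k)‖ ≤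
      16 * d / L * Real.sqrt (W2 ψ) * ‖u‖ := by
  refine (norm_sum_le _ _).trans ?_
  have h1 : ∀ k : T d L, ‖ψ k * star (QD.Cmp.src (fun _ => fun x => u x) s k)‖ ≤
      ∑ j : Fin d × Bool, ‖ψ k‖ *
        ‖u (rep (k + Pi.single j.1 ((QD.Cmp.sg j.2 : ℤ) : ZMod L))) -
        u (rep k + Pi.single j.1 (QD.Cmp.sg j.2))‖ := by
    intro k
    rw [norm_mul, norm_star, ← Finset.mul_sum]
    refine mul_le_mul_of_nonneg_left ?_ (norm_nonneg _)
    exact norm_sum_le _ _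
  refine (Finset.sum_le_sum fun k _ => h1 k).trans ?_
  rw [Finset.sum_comm]
  refine (Finset.sum_le_sum fun j _ => dir_le hL u ψ j).trans ?_
  rw [Finset.sum_const, Finset.card_univ, nsmul_eq_mul]
  have h3 : ((Fintype.card (Fin d × Bool) : ℕ) : ℝ) = 2 * d := by
    simp
    ring
  rw [h3]
  refine le_of_eq ?_
  ring

/-- the equation of motion on the torus -/
theorem tor_deriv (σ : ℝ) (ξ : T d L → ℝ) (φ : T d L → ℂ) (k : T d L) (t : ℝ) :
    HasDerivAt (fun s : ℝ => (ev (HT σ ξ) s *ᵥ φ) k)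
      (-Complex.I * (HT σ ξ *ᵥ (ev (HT σ ξ) t *ᵥ φ)) k) t := by
  obtain ⟨u, E, hE, ho⟩ := QD.Uni.exists_basis (QD.HT_herm σ ξ)
  obtain ⟨-, e2⟩ := QD.Uni.ev_eq _ u E hE ho
  obtain ⟨p, hp⟩ : ∃ p : T d L → T d L → ℂ, p = fun j => (star (u j) ⬝ᵥ φ) • u j := ⟨_, rfl⟩
  have h1 : ∀ s : ℝ, ev (HT σ ξ) s *ᵥ φ = ∑ j, Complex.exp (-((s : ℂ) * Complex.I * E j)) • p j := by
    intro s
    rw [e2 s, Matrix.sum_mulVec]
    refine Finset.sum_congr rfl fun j _ => ?_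
    rw [Matrix.smul_mulVec, hp]
    congr 1
    ext x
    simp only [Matrix.mulVec, dotProduct, Matrix.vecMulVec_apply, Pi.smul_apply, smul_eq_mul,
      Finset.sum_mul]
    refine Finset.sum_congr rfl fun y _ => ?_
    ring
  have h2 : HT σ ξ *ᵥ (ev (HT σ ξ) t *ᵥ φ) =
      ∑ j, Complex.exp (-((t : ℂ) * Complex.I * E j)) • ((E j : ℂ) • p j) := by
    rw [h1, Matrix.mulVec_sum]
    refine Finset.sum_congr rfl fun j _ => ?_
    rw [Matrix.mulVec_smul, hp]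
    congr 1
    show HT σ ξ *ᵥ ((star (u j) ⬝ᵥ φ) • u j) = (E j : ℂ) • ((star (u j) ⬝ᵥ φ) • u j)
    rw [Matrix.mulVec_smul, hE, smul_comm]
  have h3 : (fun s : ℝ => (ev (HT σ ξ) s *ᵥ φ) k) = fun s : ℝ =>
      ∑ j, Complex.exp (-((s : ℂ) * Complex.I * E j)) * p j k := by
    funext s
    rw [h1, Finset.sum_apply]
    rfl
  rw [h3, h2]
  have h4 : HasDerivAt (fun s : ℝ => ∑ j, Complex.exp (-((s : ℂ) * Complex.I * E j)) * p j k)
      (∑ j, (Complex.exp (-((t : ℂ) * Complex.I * E j)) * (-(Complex.I * E j))) * p j k) t := by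
    refine HasDerivAt.fun_sum fun j _ => ?_
    have h5 : HasDerivAt (fun s : ℝ => -((s : ℂ) * Complex.I * E j)) (-(Complex.I * E j)) t := by
      have h6 : HasDerivAt (fun s : ℝ => (s : ℂ)) (1 : ℂ) t := by
        simpa using (hasDerivAt_id t).ofReal_comp
      have h7 := ((h6.mul_const Complex.I).mul_const (E j : ℂ)).neg
      rw [one_mul] at h7
      exact h7
    exact h5.cexp.mul_const _
  refine h4.congr_deriv ?_
  rw [Finset.sum_apply, Finset.mul_sum]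
  refine Finset.sum_congr rfl fun j _ => ?_
  simp only [Pi.smul_apply, smul_eq_mul]
  ring

/-- hermitian matrices -/
theorem herm_swap (σ : ℝ) (ξ : T d L → ℝ) (a b : T d L → ℂ) :
    ∑ k, (HT σ ξ *ᵥ a) k * star (b k) = ∑ k, a k * star ((HT σ ξ *ᵥ b) k) := by
  have h1 : star b ⬝ᵥ (HT σ ξ *ᵥ a) = star (HT σ ξ *ᵥ b) ⬝ᵥ a := by
    rw [Matrix.dotProduct_mulVec, Matrix.star_mulVec, (QD.HT_herm σ ξ).eq]
  have h2 : star b ⬝ᵥ (HT σ ξ *ᵥ a) = ∑ k, (HT σ ξ *ᵥ a) k * star (b k) := by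
    simp only [dotProduct, Pi.star_apply]
    exact Finset.sum_congr rfl fun k _ => mul_comm _ _
  have h3 : star (HT σ ξ *ᵥ b) ⬝ᵥ a = ∑ k, a k * star ((HT σ ξ *ᵥ b) k) := by
    simp only [dotProduct, Pi.star_apply]
    exact Finset.sum_congr rfl fun k _ => mul_comm _ _
  rw [← h2, h1, h3]

/-- the derivative of the tested difference -/
theorem h_deriv {U : Om d → ℝ → L2 d →L[ℂ] L2 d} (hU : Gr0 U) (σ : ℝ) (ξ : Om d) (φ : T d L → ℂ)
    (g : L2 d) (t : ℝ) :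
    HasDerivAt (fun s : ℝ => ∑ k : T d L, (ev (HT σ fun k : T d L => ξ (rep k)) s *ᵥ φ) k *
        star ((U (fun x => σ * ξ x) s g) (rep k)))
      (-Complex.I * ∑ k : T d L, (ev (HT σ fun k : T d L => ξ (rep k)) t *ᵥ φ) k *
        star (QD.Cmp.src (fun _ => fun x => (U (fun x => σ * ξ x) t g) x) 0 k)) t := by
  obtain ⟨H, hH⟩ : ∃ H, H = HT σ (fun k : T d L => ξ (rep k)) := ⟨_, rfl⟩
  obtain ⟨V, hV⟩ : ∃ V : Om d, V = fun x => σ * ξ x := ⟨_, rfl⟩
  obtain ⟨w, hw⟩ : ∃ w : T d L → ℂ, w = fun k => (U V t g) (rep k) := ⟨_, rfl⟩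
  obtain ⟨S, hS⟩ : ∃ S : T d L → ℂ, S = QD.Cmp.src (fun _ => fun x => (U V t g) x) 0 := ⟨_, rfl⟩
  have h1 : ∀ k : T d L, HasDerivAt (fun s : ℝ => star ((U V s g) (rep k)))
      (star (-Complex.I * ((H *ᵥ w) k - S k))) t := by
    intro k
    have h2 := coord hU V g (rep k) t
    have h3 := QD.Cmp.gen_eq σ ξ (fun _ => fun x => (U V t g) x) 0 k
    have h4 : (V (rep k) : ℂ) * (U V t g) (rep k) + (Ad d (U V t g)) (rep k) =
        (H *ᵥ w) k - S k := by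
      rw [hH, hw, hS, ← h3, Ad_apply, hV]
      ring
    rw [h4] at h2
    exact h2.star
  have h5 : HasDerivAt (fun s : ℝ => ∑ k : T d L, (ev H s *ᵥ φ) k * star ((U V s g) (rep k)))
      (∑ k : T d L, ((-Complex.I * (H *ᵥ (ev H t *ᵥ φ)) k) * star ((U V t g) (rep k)) +
        (ev H t *ᵥ φ) k * star (-Complex.I * ((H *ᵥ w) k - S k)))) t := by
    refine HasDerivAt.fun_sum fun k _ => ?_
    have h6 := tor_deriv σ (fun k : T d L => ξ (rep k)) φ k t
    rw [← hH] at h6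
    exact h6.mul (h1 k)
  rw [← hH, ← hV, ← hS]
  refine h5.congr_deriv ?_
  have h7 := herm_swap σ (fun k : T d L => ξ (rep k)) (ev H t *ᵥ φ) w
  rw [← hH] at h7
  have h8 : ∀ k : T d L, star (-Complex.I * ((H *ᵥ w) k - S k)) =
      Complex.I * (star ((H *ᵥ w) k) - star (S k)) := by
    intro k
    rw [star_mul', star_sub, star_neg, Complex.star_def, Complex.conj_I, neg_neg]
  have h9 : ∀ k : T d L, (U V t g) (rep k) = w k := fun k => by rw [hw]
  simp only [h8, h9]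
  rw [Finset.sum_add_distrib]
  have h10 : ∑ k : T d L, -Complex.I * (H *ᵥ (ev H t *ᵥ φ)) k * star (w k) =
      -Complex.I * ∑ k : T d L, (H *ᵥ (ev H t *ᵥ φ)) k * star (w k) := by
    rw [Finset.mul_sum]
    exact Finset.sum_congr rfl fun k _ => by ring
  have h11 : ∑ k : T d L, (ev H t *ᵥ φ) k * (Complex.I * (star ((H *ᵥ w) k) - star (S k))) =
      Complex.I * ∑ k : T d L, (ev H t *ᵥ φ) k * star ((H *ᵥ w) k) -
      Complex.I * ∑ k : T d L, (ev H t *ᵥ φ) k * star (S k) := by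
    rw [Finset.mul_sum, Finset.mul_sum, ← Finset.sum_sub_distrib]
    exact Finset.sum_congr rfl fun k _ => by ring
  rw [h10, h11, h7]
  ring

end torus

theorem t_TR1 (hE : T_TEV) : T_TR1 := by
  intro d
  refine ⟨16 * d * (2 * d + 1) + 1, by positivity, ?_⟩
  intro L _ hL σ ξ U hG φ t
  have hU : Gr0 U := hG.g0
  have hLpos : (0 : ℝ) < L := by exact_mod_cast Nat.pos_of_ne_zero (NeZero.ne L)
  obtain ⟨-, hE2, -, -⟩ := hE d L σ (fun k : T d L => ξ (rep k))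
  obtain ⟨V, hV⟩ : ∃ V : Om d, V = fun x => σ * ξ x := ⟨_, rfl⟩
  obtain ⟨ψ, hψ⟩ : ∃ ψ : ℝ → T d L → ℂ, ψ = fun s =>
      ev (HT σ fun k : T d L => ξ (rep k)) s *ᵥ φ := ⟨_, rfl⟩
  have hψ0 : ψ 0 = φ := by
    rw [hψ]
    show ev (HT σ fun k : T d L => ξ (rep k)) 0 *ᵥ φ = φ
    unfold ev
    rw [Complex.ofReal_zero, zero_mul, neg_zero, zero_smul, NormedSpace.exp_zero, Matrix.one_mulVec]
  obtain ⟨B, hB⟩ : ∃ B : ℝ, B = 16 * d / L * (Real.sqrt (W2 φ) + 2 * d * |t| * Real.sqrt (nsq φ)) :=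
    ⟨_, rfl⟩
  have hB0 : 0 ≤ B := by rw [hB]; positivity
  have key : ∀ g : L2 d, ‖(inner ℂ (U V t g) (Jt (ψ t)) : ℂ) - inner ℂ g (Jt φ)‖ ≤
      B * ‖g‖ * |t| := by
    intro g
    obtain ⟨h, hh⟩ : ∃ h : ℝ → ℂ, h = fun s : ℝ => ∑ k : T d L,
        (ev (HT σ fun k : T d L => ξ (rep k)) s *ᵥ φ) k *
        star ((U (fun x => σ * ξ x) s g) (rep k)) := ⟨_, rfl⟩
    have e1 : ∀ s, h s = inner ℂ (U V s g) (Jt (ψ s)) := by
      intro s
      rw [inner_Jt, hh, hψ, hV]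
    have e2 : inner ℂ g (Jt φ) = h 0 := by
      rw [e1, hψ0, hU.zero]
      rfl
    rw [← e1, e2]
    have hd : ∀ s ∈ Set.uIcc 0 t, HasDerivWithinAt h
        (-Complex.I * ∑ k : T d L, (ev (HT σ fun k : T d L => ξ (rep k)) s *ᵥ φ) k *
        star (QD.Cmp.src (fun _ => fun x => (U (fun x => σ * ξ x) s g) x) 0 k))
        (Set.uIcc 0 t) s := by
      intro s _
      rw [hh]
      exact (h_deriv hU σ ξ φ g s).hasDerivWithinAt
    have hbd : ∀ s ∈ Set.uIcc 0 t, ‖(-Complex.I * ∑ k : T d L,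
        (ev (HT σ fun k : T d L => ξ (rep k)) s *ᵥ φ) k *
        star (QD.Cmp.src (fun _ => fun x => (U (fun x => σ * ξ x) s g) x) 0 k) : ℂ)‖ ≤
        B * ‖g‖ := by
      intro s hs
      rw [norm_mul, norm_neg, Complex.norm_I, one_mul]
      refine (src_bound hL _ _ 0).trans ?_
      rw [hU.norm]
      refine mul_le_mul_of_nonneg_right ?_ (norm_nonneg _)
      rw [hB]
      refine mul_le_mul_of_nonneg_left ?_ (by positivity)
      refine (hE2 s φ).trans ?_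
      have hst : |s| ≤ |t| := by
        have := Set.abs_sub_left_of_mem_uIcc hs
        simpa using this
      have := mul_le_mul_of_nonneg_right hst (Real.sqrt_nonneg (nsq φ))
      nlinarith [Nat.cast_nonneg (α := ℝ) d]
    have := Convex.norm_image_sub_le_of_norm_hasDerivWithin_le hd hbd (convex_uIcc 0 t)
      Set.left_mem_uIcc Set.right_mem_uIcc
    rw [sub_zero, Real.norm_eq_abs] at this
    exact this
  obtain ⟨g, hg⟩ : ∃ g : L2 d, g = U V (-t) (Jt (ψ t)) - Jt φ := ⟨_, rfl⟩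
  have h1 : ‖g‖ ≤ B * |t| := by
    have h2 := key g
    rw [U_adj hU, ← inner_sub_right, ← hg, inner_self_eq_norm_sq_to_K] at h2
    have h3 : ‖((‖g‖ : ℂ) ^ 2)‖ = ‖g‖ * ‖g‖ := by
      rw [norm_pow, Complex.norm_real, norm_norm, sq]
    have h4 : ‖g‖ * ‖g‖ ≤ B * ‖g‖ * |t| := by
      rw [← h3]
      exact h2
    rcases (norm_nonneg g).eq_or_lt with h | h
    · rw [← h]; positivity
    · have : ‖g‖ * ‖g‖ ≤ ‖g‖ * (B * |t|) := by linarith
      exact le_of_mul_le_mul_left this h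
  have h5 : ‖U V t (Jt φ) - Jt (ψ t)‖ = ‖g‖ := by
    rw [← hU.norm V (-t) (U V t (Jt φ) - Jt (ψ t)), map_sub, U_neg hU, hg, norm_sub_rev]
  rw [hV] at h5
  rw [hψ] at h5
  have h6 : ‖U (fun x => σ * ξ x) t (Jt φ) -
      Jt (ev (HT σ fun k : T d L => ξ (rep k)) t *ᵥ φ)‖ ≤ B * |t| := by
    rw [← hψ] at h5
    rw [← hV]
    have h7 : ev (HT σ fun k : T d L => ξ (rep k)) t *ᵥ φ = ψ t := by rw [hψ]
    rw [h7, hV]
    rw [h5]
    exact h1
  refine h6.trans ?_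
  rw [hB]
  have s1 := Real.sqrt_nonneg (W2 φ)
  have s2 := Real.sqrt_nonneg (nsq φ)
  have s3 := abs_nonneg t
  have s4 : (0 : ℝ) ≤ d := Nat.cast_nonneg d
  obtain ⟨a, ha⟩ : ∃ a : ℝ, a = Real.sqrt (W2 φ) := ⟨_, rfl⟩
  obtain ⟨b, hb⟩ : ∃ b : ℝ, b = Real.sqrt (nsq φ) := ⟨_, rfl⟩
  obtain ⟨r, hr⟩ : ∃ r : ℝ, r = |t| := ⟨_, rfl⟩
  rw [← ha] at s1 ⊢
  rw [← hb] at s2 ⊢
  rw [← hr] at s3 ⊢
  have h8 : 16 * (d : ℝ) / L * (a + 2 * d * r * b) * r =
      r / L * (16 * d * a + 32 * d ^ 2 * (r * b)) := by ring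
  have h9 : (16 * (d : ℝ) * (2 * d + 1) + 1) * r / L * (a + r * b) =
      r / L * ((16 * (d : ℝ) * (2 * d + 1) + 1) * (a + r * b)) := by ring
  rw [h8, h9]
  refine mul_le_mul_of_nonneg_left ?_ (by positivity)
  have s5 : 0 ≤ r * b := mul_nonneg s3 s2
  have s6 : 0 ≤ (d : ℝ) ^ 2 := by positivity
  nlinarith [mul_nonneg s6 s1, mul_nonneg s4 s5, mul_nonneg s4 s1]

end Pool.Agent.T2h98.MR.TR1x
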