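import Pool.Agent.T2h98.MR.Stm

/-! Trigonometric approximation on an interval, bounded on the line. -/

set_option autoImplicit false

open scoped BigOperators Matrix Topology
open MeasureTheory ProbabilityTheory Filter

namespace Pool.Agent.T2h98.MR

namespace TR2

/-- triangle wave of period `4 A` -/
noncomputable def hw (A : ℝ) (E : ℝ) : ℝ := 2 * A / Real.pi * Real.arcsin (Real.sin (Real.pi * E / (2 * A)))

lemma hw_eq (A : ℝ) (hA : 0 < A) (E : ℝ) (hE : |E| ≤ A) : hw A E = E := by
  unfold hw
  have hp := Real.pi_pos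
  obtain ⟨h1, h2⟩ := abs_le.1 hE
  rw [Real.arcsin_sin]
  · field_simp
  · rw [le_div_iff₀ (by positivity)]
    nlinarith
  · rw [div_le_iff₀ (by positivity)]
    nlinarith

lemma hw_cont (A : ℝ) : Continuous (hw A) := by
  unfold hw
  exact continuous_const.mul (Real.continuous_arcsin.comp (Real.continuous_sin.comp (by fun_prop)))

lemma hw_per (A : ℝ) (hA : 0 < A) : Function.Periodic (hw A) (4 * A) := by
  intro E
  unfold hw
  congr 2
  have : Real.pi * (E + 4 * A) / (2 * A) = Real.pi * E / (2 * A) + 2 * Real.pi := by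
    field_simp
    ring
  rw [this, Real.sin_add_two_pi]

end TR2

theorem tr2 : T_TR2 := by
  intro c A η hc hb hA hη hη1
  set T : ℝ := 4 * A with hT
  have hT0 : 0 < T := by positivity
  have : Fact (0 < T) := ⟨hT0⟩
  let g : ℝ → ℂ := fun E => ((c (TR2.hw A E) : ℝ) : ℂ)
  have hg : Continuous g := Complex.continuous_ofReal.comp (hc.comp (TR2.hw_cont A))
  have hgp : Function.Periodic g T := fun E => by
    change ((c (TR2.hw A (E + T)) : ℝ) : ℂ) = _
    rw [TR2.hw_per A hA]
  let G : C(AddCircle T, ℂ) := ⟨hgp.lift, by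
    exact continuous_coinduced_dom.mpr hg⟩
  have hG : ∀ E : ℝ, G (E : AddCircle T) = g E := fun E => hgp.lift_coe E
  have hmem : G ∈ (Submodule.span ℂ (Set.range (fourier (T := T)))).topologicalClosure := by
    rw [span_fourier_closure_eq_top]
    trivial
  have hcl : G ∈ closure ((Submodule.span ℂ (Set.range (fourier (T := T))) :
      Submodule ℂ C(AddCircle T, ℂ)) : Set C(AddCircle T, ℂ)) := by
    rwa [← Submodule.topologicalClosure_coe]
  obtain ⟨p, hp, hdist⟩ := Metric.mem_closure_iff.1 hcl η hη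
  obtain ⟨f, hf⟩ := Finsupp.mem_span_range_iff_exists_finsupp.1 hp
  have happ : ∀ E : ℝ, ‖p (E : AddCircle T) - g E‖ ≤ η := by
    intro E
    rw [← hG E, ← dist_eq_norm, dist_comm]
    exact (ContinuousMap.dist_apply_le_dist _).trans hdist.le
  let e := f.support.equivFin
  refine ⟨f.support.card, fun i => f (e.symm i), fun i => -(2 * Real.pi * (e.symm i : ℤ) / T), ?_⟩
  have hq : ∀ E : ℝ, qE (fun i => f (e.symm i)) (fun i => -(2 * Real.pi * (e.symm i : ℤ) / T)) E =
      p (E : AddCircle T) := by
    intro E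
    unfold qE
    rw [← hf, Finsupp.sum]
    have h1 : (∑ k ∈ f.support, f k • (fourier k : C(AddCircle T, ℂ))) (E : AddCircle T) =
        ∑ k ∈ f.support, f k * fourier k (E : AddCircle T) := by
      simp [ContinuousMap.sum_apply]
    rw [h1, ← Finset.sum_coe_sort f.support (fun k => f k * fourier k (E : AddCircle T))]
    rw [← e.sum_comp]
    refine Finset.sum_congr rfl fun k _ => ?_
    simp only [Equiv.symm_apply_apply]
    rw [fourier_coe_apply]
    congr 2
    push_cast
    ring
  constructor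
  · intro E hE
    have h2 := happ E
    rw [hq]
    have h3 : g E = (c E : ℂ) := by
      change ((c (TR2.hw A E) : ℝ) : ℂ) = _
      rw [TR2.hw_eq A hA E hE]
    rwa [h3] at h2
  · intro E
    rw [hq]
    have h2 := happ E
    have h3 : ‖g E‖ ≤ 1 := by
      change ‖((c (TR2.hw A E) : ℝ) : ℂ)‖ ≤ 1
      rw [Complex.norm_real, Real.norm_eq_abs]
      exact hb _
    calc ‖p (E : AddCircle T)‖ = ‖(p (E : AddCircle T) - g E) + g E‖ := by rw [sub_add_cancel]
      _ ≤ ‖p (E : AddCircle T) - g E‖ + ‖g E‖ := norm_add_le _ _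
      _ ≤ 2 := by linarith

end Pool.Agent.T2h98.MR
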