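import Pool.Agent.T2h98.MR.Stm
import Pool.Agent.T2h98.NB.XT
import Pool.Agent.T2h98.QD.Avg

/-! Comparison of the time averages on the lattice and on the torus (TRA). -/

set_option autoImplicit false
set_option linter.unusedSectionVars false

open scoped BigOperators Matrix Topology
open MeasureTheory ProbabilityTheory Filter

namespace Pool.Agent.T2h98.MR

open Pool.Agent.W788.MFP.Four (T e NN adj K)
open Pool.Agent.W788.BK (nsq hs JJ hi Low cr)
open Pool.Agent.TH980.IM.PR (PP sh)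
open Pool.Agent.T2h98.QD (Zd ev HT dl rep Mo GP dn)
open Pool.Agent.T2h98.PS
open Pool.Agent.T2h98.NB
open Pool.Agent.T2h98.EA (SN)

namespace Tra

variable {d L : ℕ} [NeZero L]

lemma ortho : Orthonormal ℂ (fun x : Sd d => (ee x : L2 d)) := by
  classical
  rw [orthonormal_iff_ite]
  intro x y
  rw [inner_ee, ee_apply]

lemma nrm_sum {ι : Type} [Fintype ι] {u : ι → Sd d} (hu : Function.Injective u) (c : ι → ℂ) :
    ‖∑ k, c k • (ee (u k) : L2 d)‖ = Real.sqrt (∑ k, ‖c k‖ ^ 2) := by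
  have ho : Orthonormal ℂ (fun k => (ee (u k) : L2 d)) := ortho.comp u hu
  have h1 : ‖∑ k, c k • (ee (u k) : L2 d)‖ ^ 2 = ∑ k, ‖c k‖ ^ 2 := by
    have h2 := ho.inner_sum c c Finset.univ
    have h3 := inner_self_eq_norm_sq_to_K (𝕜 := ℂ) (∑ k, c k • (ee (u k) : L2 d))
    rw [h2] at h3
    have h4 : ∑ k, (starRingEnd ℂ) (c k) * c k = ((∑ k, ‖c k‖ ^ 2 : ℝ) : ℂ) := by
      push_cast
      refine Finset.sum_congr rfl fun k _ => ?_
      rw [Complex.conj_mul']
    rw [h4] at h3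
    have h5 : ((∑ k, ‖c k‖ ^ 2 : ℝ) : ℂ) = ((‖∑ k, c k • (ee (u k) : L2 d)‖ ^ 2 : ℝ) : ℂ) := by
      rw [h3]
      push_cast
      rfl
    exact (Complex.ofReal_injective h5).symm
  rw [← h1, Real.sqrt_sq (norm_nonneg _)]

lemma rep_inj' : Function.Injective (rep : T d L → Zd d) := by
  intro k l h
  funext i
  exact ZMod.injective_valMinAbs (congrFun h i)

lemma Jt_norm (φ : T d L → ℂ) : ‖(Jt φ : L2 d)‖ = Real.sqrt (nsq φ) := by
  unfold Jt nsq
  exact nrm_sum rep_inj' φ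

/-- the shift on the lattice and on the torus -/
lemma shift_le (hS : T_PSY) (hL : 1 ≤ L) (m : Fin d → ℤ) (φ : T d L → ℂ) :
    ‖Sf (-m) (Jt φ) - (Jt (Mo (chm m) *ᵥ φ) : L2 d)‖ ≤
      (8 + 16 * ((∑ i, |(m i : ℝ)|) + 1)) / L * (Real.sqrt (W2 φ) + Real.sqrt (nsq φ)) := by
  classical
  have hL0 : (0 : ℝ) < L := by exact_mod_cast hL
  obtain ⟨A, hA⟩ : ∃ A : ℝ, A = ∑ i, |(m i : ℝ)| := ⟨_, rfl⟩
  have hA0 : 0 ≤ A := by rw [hA]; exact Finset.sum_nonneg fun i _ => abs_nonneg _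
  obtain ⟨mb, hmb⟩ : ∃ mb : T d L, mb = fun i => ((m i : ℤ) : ZMod L) := ⟨_, rfl⟩
  have e1 : Sf (-m) (Jt φ : L2 d) = ∑ y : T d L, φ y • (ee (rep y + -m) : L2 d) := by
    unfold Jt
    rw [map_sum]
    refine Finset.sum_congr rfl fun y _ => ?_
    rw [map_smul, Sf_ee]
  have e2 : (Jt (Mo (chm m) *ᵥ φ) : L2 d) = ∑ y : T d L, φ y • (ee (rep (y - mb)) : L2 d) := by
    unfold Jt
    have h1 : ∀ x, (Mo (chm m) *ᵥ φ) x = φ (x + mb) := by
      intro x
      rw [hmb]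
      exact (hS d L m).2.2.1 φ x
    simp only [h1]
    rw [← Equiv.sum_comp (Equiv.addRight mb) (fun y => φ y • (ee (rep (y - mb)) : L2 d))]
    refine Finset.sum_congr rfl fun x _ => ?_
    simp
  obtain ⟨c, hc⟩ : ∃ c : T d L → ℂ, c = fun y => if rep y + -m = rep (y - mb) then 0 else φ y :=
    ⟨_, rfl⟩
  have e3 : Sf (-m) (Jt φ) - (Jt (Mo (chm m) *ᵥ φ) : L2 d) =
      ∑ y : T d L, c y • (ee (rep y + -m) : L2 d) - ∑ y : T d L, c y • (ee (rep (y - mb)) : L2 d) := by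
    rw [e1, e2, ← Finset.sum_sub_distrib, ← Finset.sum_sub_distrib]
    refine Finset.sum_congr rfl fun y _ => ?_
    rw [hc]
    by_cases h : rep y + -m = rep (y - mb)
    · simp only [if_pos h, h, sub_self, zero_smul]
    · simp only [if_neg h]
  have hc2 : ∑ y, ‖c y‖ ^ 2 ≤ nsq φ := by
    unfold nsq
    refine Finset.sum_le_sum fun y _ => ?_
    rw [hc]
    by_cases h : rep y + -m = rep (y - mb)
    · simp only [if_pos h, norm_zero]
      rw [zero_pow two_ne_zero]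
      positivity
    · simp only [if_neg h]
      exact le_rfl
  have hn : ‖Sf (-m) (Jt φ) - (Jt (Mo (chm m) *ᵥ φ) : L2 d)‖ ≤
      2 * Real.sqrt (∑ y, ‖c y‖ ^ 2) := by
    rw [e3]
    refine (norm_sub_le _ _).trans (le_of_eq ?_)
    rw [nrm_sum (u := fun y : T d L => rep y + -m) (fun y z h => rep_inj' (add_right_cancel h)) c,
      nrm_sum (u := fun y : T d L => rep (y - mb)) (fun y z h => sub_left_injective
        (rep_inj' h)) c]
    ring
  refine hn.trans ?_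
  have hs1 : 0 ≤ Real.sqrt (W2 φ) := Real.sqrt_nonneg _
  have hs2 : 0 ≤ Real.sqrt (nsq φ) := Real.sqrt_nonneg _
  rw [← hA]
  by_cases hLA : 8 * (A + 1) ≤ L
  · have hbad : ∀ y : T d L, ‖c y‖ ^ 2 ≤ 16 / (L : ℝ) ^ 2 * ((∑ i, (rep y i : ℝ) ^ 2) * ‖φ y‖ ^ 2) := by
      intro y
      rw [hc]
      by_cases h : rep y + -m = rep (y - mb)
      · simp only [if_pos h, norm_zero]
        have : 0 ≤ ∑ i, (rep y i : ℝ) ^ 2 := Finset.sum_nonneg fun i _ => sq_nonneg _
        rw [zero_pow two_ne_zero]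
        positivity
      · simp only [if_neg h]
        -- some coordinate is large
        have h1 : ∃ i, (L : ℝ) ≤ 2 * |(rep y i : ℝ) - m i| := by
          by_contra hcon
          push Not at hcon
          apply h
          funext i
          have h2 := hcon i
          show rep y i + -m i = (y i - mb i).valMinAbs
          symm
          rw [ZMod.valMinAbs_spec]
          have h3 : (y i : ZMod L) = ((rep y i : ℤ) : ZMod L) := (ZMod.coe_valMinAbs (y i)).symm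
          refine ⟨?_, ?_⟩
          · rw [hmb]
            push_cast
            rw [← h3, sub_eq_add_neg]
          · have h4 : 2 * |rep y i - m i| < (L : ℤ) := by
              have h5 : ((2 * |rep y i - m i| : ℤ) : ℝ) < ((L : ℤ) : ℝ) := by
                push_cast
                exact h2
              exact_mod_cast h5
            have h6 : |2 * (rep y i - m i)| < (L : ℤ) := by
              rw [abs_mul]
              simpa using h4
            rw [abs_lt] at h6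
            constructor
            · linarith [h6.1]
            · linarith [h6.2]
        obtain ⟨i, hi⟩ := h1
        have h2 : |(m i : ℝ)| ≤ A := by
          rw [hA]
          exact Finset.single_le_sum (f := fun i => |(m i : ℝ)|) (fun i _ => abs_nonneg _)
            (Finset.mem_univ i)
        have h3 : (L : ℝ) / 4 ≤ |(rep y i : ℝ)| := by
          have h4 := abs_sub (rep y i : ℝ) (m i : ℝ)
          linarith
        have h4 : (L : ℝ) ^ 2 / 16 ≤ (rep y i : ℝ) ^ 2 := by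
          rw [← sq_abs (rep y i : ℝ)]
          have := pow_le_pow_left₀ (by positivity) h3 2
          linarith
        have h5 : (rep y i : ℝ) ^ 2 ≤ ∑ i, (rep y i : ℝ) ^ 2 :=
          Finset.single_le_sum (f := fun i => (rep y i : ℝ) ^ 2) (fun i _ => sq_nonneg _)
            (Finset.mem_univ i)
        have h6 : 1 ≤ 16 / (L : ℝ) ^ 2 * ∑ i, (rep y i : ℝ) ^ 2 := by
          rw [div_mul_eq_mul_div, le_div_iff₀ (by positivity)]
          linarith
        calc ‖φ y‖ ^ 2 = 1 * ‖φ y‖ ^ 2 := (one_mul _).symm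
          _ ≤ (16 / (L : ℝ) ^ 2 * ∑ i, (rep y i : ℝ) ^ 2) * ‖φ y‖ ^ 2 := by gcongr
          _ = _ := by ring
    have h1 : ∑ y, ‖c y‖ ^ 2 ≤ 16 / (L : ℝ) ^ 2 * W2 φ := by
      unfold W2
      rw [Finset.mul_sum]
      exact Finset.sum_le_sum fun y _ => hbad y
    have h2 : Real.sqrt (∑ y, ‖c y‖ ^ 2) ≤ 4 / L * Real.sqrt (W2 φ) := by
      refine (Real.sqrt_le_sqrt h1).trans (le_of_eq ?_)
      rw [Real.sqrt_mul (by positivity)]
      congr 1
      rw [show (16 : ℝ) / (L : ℝ) ^ 2 = (4 / L) ^ 2 by ring, Real.sqrt_sq (by positivity)]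
    calc 2 * Real.sqrt (∑ y, ‖c y‖ ^ 2) ≤ 2 * (4 / L * Real.sqrt (W2 φ)) := by gcongr
      _ = 8 / L * Real.sqrt (W2 φ) := by ring
      _ ≤ (8 + 16 * (A + 1)) / L * (Real.sqrt (W2 φ) + Real.sqrt (nsq φ)) := by
          gcongr
          · linarith
          · linarith
  · rw [not_le] at hLA
    have h1 : 1 ≤ 8 * (A + 1) / L := by
      rw [le_div_iff₀ hL0]
      linarith
    have h2 : Real.sqrt (∑ y, ‖c y‖ ^ 2) ≤ Real.sqrt (nsq φ) := Real.sqrt_le_sqrt hc2
    calc 2 * Real.sqrt (∑ y, ‖c y‖ ^ 2) ≤ 2 * Real.sqrt (nsq φ) := by gcongr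
      _ = 2 * (1 * Real.sqrt (nsq φ)) := by ring
      _ ≤ 2 * (8 * (A + 1) / L * Real.sqrt (nsq φ)) := by gcongr
      _ = 16 * (A + 1) / L * Real.sqrt (nsq φ) := by ring
      _ ≤ (8 + 16 * (A + 1)) / L * (Real.sqrt (W2 φ) + Real.sqrt (nsq φ)) := by
          gcongr
          · linarith
          · linarith

lemma nsq_dl : nsq (dl (0 : T d L)) = 1 := by
  classical
  unfold nsq dl
  rw [Finset.sum_eq_single (0 : T d L)]
  · simp
  · intro y _ hy
    rw [Pi.single_eq_of_ne hy]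
    simp
  · intro h
    exact absurd (Finset.mem_univ _) h

lemma rep_zero' : rep (0 : T d L) = 0 := by
  funext i
  simp [rep]

lemma W2_dl : W2 (dl (0 : T d L)) = 0 := by
  classical
  unfold W2 dl
  apply Finset.sum_eq_zero
  intro y _
  by_cases hy : y = 0
  · subst hy
    rw [rep_zero']
    simp
  · rw [Pi.single_eq_of_ne hy]
    simp

lemma Jt_dl : (Jt (dl (0 : T d L)) : L2 d) = ee 0 := by
  classical
  unfold Jt dl
  rw [Finset.sum_eq_single (0 : T d L)]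
  · rw [Pi.single_eq_same, one_smul, rep_zero']
  · intro y _ hy
    rw [Pi.single_eq_of_ne hy, zero_smul]
  · intro h
    exact absurd (Finset.mem_univ _) h

lemma nsq_Mo (hS : T_PSY) (m : Fin d → ℤ) (φ : T d L → ℂ) : nsq (Mo (chm m) *ᵥ φ) = nsq φ := by
  unfold nsq
  have h1 : ∀ x, (Mo (chm m) *ᵥ φ) x = φ (x + fun i => ((m i : ℤ) : ZMod L)) :=
    fun x => (hS d L m).2.2.1 φ x
  simp only [h1]
  exact Equiv.sum_comp (Equiv.addRight (fun i => ((m i : ℤ) : ZMod L) : T d L))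
    (fun y => ‖φ y‖ ^ 2)

lemma col (A : Matrix (T d L) (T d L) ℂ) (x : T d L) : (A *ᵥ dl 0) x = A x 0 := by
  unfold dl
  rw [Matrix.mulVec_single_one]
  rfl

end Tra

open Tra in
/-- **comparison of the time averages on the lattice and on the torus** -/
theorem tra (hE : T_TEV) (h1 : T_TR1) (hS : T_PSY) : T_TRA := by
  classical
  intro d m n a t
  obtain ⟨C1, hC1, hTR⟩ := h1 d
  obtain ⟨A, hA⟩ : ∃ A : ℝ, A = ∑ i, |(m i : ℝ)| := ⟨_, rfl⟩
  have hA0 : 0 ≤ A := by rw [hA]; exact Finset.sum_nonneg fun i _ => abs_nonneg _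
  obtain ⟨C2, hC2⟩ : ∃ C2 : ℝ, C2 = 8 + 16 * (A + 1) := ⟨_, rfl⟩
  have hC20 : 0 < C2 := by rw [hC2]; positivity
  obtain ⟨K1, hK1⟩ : ∃ K1 : ℝ, K1 = C1 + C2 * (2 * d + 1) + C1 * (2 * d + A + 1) := ⟨_, rfl⟩
  have hK10 : 0 < K1 := by rw [hK1]; positivity
  obtain ⟨K2, hK2⟩ : ∃ K2 : ℝ, K2 = ∑ i, ‖a i‖ * (C1 * (t i) ^ 2) := ⟨_, rfl⟩
  have hK20 : 0 ≤ K2 := by
    rw [hK2]
    exact Finset.sum_nonneg fun i _ => by positivity
  refine ⟨K1 + K2, by positivity, ?_⟩
  intro L _ hL M hM σ ξ U hU B hB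
  have hL0 : (0 : ℝ) < L := by exact_mod_cast (by omega : 0 < L)
  have hM1 : (1 : ℝ) ≤ M := by exact_mod_cast hM
  have hM0 : (0 : ℝ) < M := by linarith
  obtain ⟨V, hV⟩ : ∃ V : Om d, V = fun x => σ * ξ x := ⟨_, rfl⟩
  obtain ⟨H, hH⟩ : ∃ H : Matrix (T d L) (T d L) ℂ, H = HT σ (fun k : T d L => ξ (rep k)) := ⟨_, rfl⟩
  obtain ⟨hE1, hE2, hE3, -⟩ := hE d L σ (fun k : T d L => ξ (rep k))
  have hTR' := hTR L hL σ ξ U hU
  rw [← hH] at hE1 hE2 hTR'
  rw [← hV] at hTR' ⊢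
  obtain ⟨φ, hφ⟩ : ∃ φ : ℝ → T d L → ℂ, φ = fun s => ev H s *ᵥ dl 0 := ⟨_, rfl⟩
  obtain ⟨ψ, hψ⟩ : ∃ ψ : ℝ → T d L → ℂ, ψ = fun s => Mo (chm m) *ᵥ φ s := ⟨_, rfl⟩
  have hn1 : ∀ s, nsq (φ s) = 1 := fun s => by rw [hφ]; exact (hE1 s _).trans nsq_dl
  have hw1 : ∀ s, Real.sqrt (W2 (φ s)) ≤ 2 * d * |s| := fun s => by
    have := hE2 s (dl 0)
    rw [W2_dl, nsq_dl, Real.sqrt_zero, Real.sqrt_one, zero_add, mul_one] at this
    rw [hφ]
    exact this
  have hn2 : ∀ s, nsq (ψ s) = 1 := fun s => by rw [hψ]; exact (nsq_Mo hS m _).trans (hn1 s)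
  have hw2 : ∀ s, Real.sqrt (W2 (ψ s)) ≤ 2 * d * |s| + A := fun s => by
    have h2 := hE3 m (φ s)
    rw [hn1, Real.sqrt_one, mul_one, ← hA] at h2
    rw [hψ]
    exact h2.trans (by linarith [hw1 s])
  -- one time
  have hone : ∀ s : ℝ, ‖U V s (ee 0) - (Jt (φ s) : L2 d)‖ ≤ C1 * s ^ 2 / L := by
    intro s
    have h2 := hTR' (dl 0) s
    rw [W2_dl, nsq_dl, Real.sqrt_zero, Real.sqrt_one, zero_add, mul_one, Jt_dl] at h2
    rw [hφ]
    refine h2.trans (le_of_eq ?_)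
    rw [← sq_abs s]
    ring
  obtain ⟨G, hG⟩ : ∃ G : ℝ → L2 d, G = fun s => U V (-s) (Sf (-m) (U V s (ee 0))) := ⟨_, rfl⟩
  obtain ⟨F, hF⟩ : ∃ F : ℝ → T d L → ℂ, F = fun s => ev H (-s) *ᵥ ψ s := ⟨_, rfl⟩
  have hD : ∀ s : ℝ, |s| ≤ M → ‖G s - (Jt (F s) : L2 d)‖ ≤ K1 * (M : ℝ) ^ 2 / L := by
    intro s hs
    have hs0 := abs_nonneg s
    have e : G s - (Jt (F s) : L2 d) = U V (-s) (Sf (-m) (U V s (ee 0) - Jt (φ s))) +
        (U V (-s) (Sf (-m) (Jt (φ s)) - Jt (ψ s)) + (U V (-s) (Jt (ψ s)) - Jt (F s))) := by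
      rw [hG, map_sub, map_sub, map_sub]
      abel
    have b1 : ‖U V (-s) (Sf (-m) (U V s (ee 0) - Jt (φ s)))‖ ≤ C1 * |s| ^ 2 / L := by
      rw [hU.g0.norm, LinearIsometry.norm_map, sq_abs]
      exact hone s
    have b2 : ‖U V (-s) (Sf (-m) (Jt (φ s)) - Jt (ψ s))‖ ≤ C2 / L * (2 * d * |s| + 1) := by
      rw [hU.g0.norm]
      have h2 := shift_le hS (by omega : 1 ≤ L) m (φ s)
      rw [hn1, Real.sqrt_one, ← hA, ← hC2] at h2
      rw [hψ]
      refine h2.trans ?_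
      have := hw1 s
      gcongr
    have b3 : ‖U V (-s) (Jt (ψ s)) - (Jt (F s) : L2 d)‖ ≤ C1 * |s| / L * (2 * d * |s| + A + |s|) := by
      have h2 := hTR' (ψ s) (-s)
      rw [hn2, Real.sqrt_one, mul_one, abs_neg] at h2
      rw [hF]
      refine h2.trans ?_
      have := hw2 s
      gcongr
    rw [e]
    have h3 : ‖U V (-s) (Sf (-m) (U V s (ee 0) - Jt (φ s))) +
        (U V (-s) (Sf (-m) (Jt (φ s)) - Jt (ψ s)) + (U V (-s) (Jt (ψ s)) - (Jt (F s) : L2 d)))‖ ≤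
        C1 * |s| ^ 2 / L + (C2 / L * (2 * d * |s| + 1) + C1 * |s| / L * (2 * d * |s| + A + |s|)) :=
      (norm_add_le _ _).trans (add_le_add b1 ((norm_add_le _ _).trans (add_le_add b2 b3)))
    refine h3.trans ?_
    have hMM : (1 : ℝ) ≤ (M : ℝ) ^ 2 := one_le_pow₀ hM1
    have hsM : |s| ≤ (M : ℝ) ^ 2 := hs.trans (by nlinarith)
    have hss : |s| ^ 2 ≤ (M : ℝ) ^ 2 := pow_le_pow_left₀ hs0 hs 2
    have hd0 : (0 : ℝ) ≤ d := Nat.cast_nonneg d
    have c1 : C1 * |s| ^ 2 / L ≤ C1 * (M : ℝ) ^ 2 / L := by gcongr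
    have c2 : C2 / L * (2 * d * |s| + 1) ≤ C2 / L * (2 * d * (M : ℝ) ^ 2 + (M : ℝ) ^ 2) := by gcongr
    have c3 : C1 * |s| / L * (2 * d * |s| + A + |s|) ≤
        C1 / L * (2 * d * (M : ℝ) ^ 2 + A * (M : ℝ) ^ 2 + (M : ℝ) ^ 2) := by
      have h4 : |s| * (2 * d * |s| + A + |s|) ≤
          2 * d * (M : ℝ) ^ 2 + A * (M : ℝ) ^ 2 + (M : ℝ) ^ 2 := by
        have h5 : |s| * (2 * d * |s| + A + |s|) = 2 * d * |s| ^ 2 + A * |s| + |s| ^ 2 := by ring
        rw [h5]
        gcongr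
      calc C1 * |s| / L * (2 * d * |s| + A + |s|) = C1 / L * (|s| * (2 * d * |s| + A + |s|)) := by
            ring
        _ ≤ _ := by gcongr
    refine (add_le_add c1 (add_le_add c2 c3)).trans (le_of_eq ?_)
    rw [hK1]
    ring
  -- continuity
  have hGc : Continuous G := by
    rw [hG]
    have h2 : Continuous fun s : ℝ => U V s (ee 0) :=
      (hU.g0.cont (ee 0)).comp (continuous_const.prodMk continuous_id)
    exact XTx.U_cont' hU.g0 (φ := fun _ : ℝ => V) continuous_const continuous_neg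
      ((Sf (-m)).continuous.comp h2)
  have hevc : Continuous fun s : ℝ => ev H s :=
    Pool.Agent.T2h98.QD.ev_continuous (fun _ : ℝ => H) (fun s => s) continuous_const continuous_id
  have hFc : ∀ x, Continuous fun s => F s x := by
    intro x
    have h2 : Continuous fun s : ℝ =>
        (ev H (-s) * Mo (chm m) * ev H s : Matrix (T d L) (T d L) ℂ) :=
      ((hevc.comp continuous_neg).matrix_mul continuous_const).matrix_mul hevc
    have h3 : ∀ s, F s x =
        (ev H (-s) * Mo (chm m) * ev H s : Matrix (T d L) (T d L) ℂ) x 0 := by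
      intro s
      rw [hF, hψ, hφ]
      simp only
      rw [Matrix.mulVec_mulVec, Matrix.mulVec_mulVec, col, Matrix.mul_assoc]
    simp only [h3]
    exact h2.matrix_elem x 0
  have hJc : Continuous fun s => (Jt (F s) : L2 d) := by
    unfold Jt
    exact continuous_finsetSum _ fun x _ => (hFc x).smul continuous_const
  -- the torus
  obtain ⟨Φ, hΦ⟩ : ∃ Φ : T d L → ℂ, Φ = fun x => ZT m M a t σ (fun k : T d L => ξ (rep k)) x 0 :=
    ⟨_, rfl⟩
  have hΦe : (Jt Φ : L2 d) = ((M : ℂ)⁻¹) • (∫ s in (0 : ℝ)..M, (Jt (F s) : L2 d)) -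
      ∑ i, a i • (Jt (φ (t i)) : L2 d) := by
    have h2 : ∀ x, Φ x = (M : ℂ)⁻¹ * (∫ s in (0 : ℝ)..M, F s x) - ∑ i, a i * φ (t i) x := by
      intro x
      rw [hΦ]
      unfold ZT
      simp only
      rw [← hH]
      congr 1
      · congr 1
        refine intervalIntegral.integral_congr fun s _ => ?_
        rw [hF, hψ, hφ]
        simp only
        rw [Matrix.mulVec_mulVec, Matrix.mulVec_mulVec, col, Matrix.mul_assoc]
      · refine Finset.sum_congr rfl fun i _ => ?_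
        rw [hφ]
        simp only
        rw [col]
    have h3 : ∫ s in (0 : ℝ)..M, (Jt (F s) : L2 d) =
        ∑ x : T d L, (∫ s in (0 : ℝ)..M, F s x) • (ee (rep x) : L2 d) := by
      unfold Jt
      refine (intervalIntegral.integral_finsetSum (μ := volume) (a := (0 : ℝ)) (b := (M : ℝ))
        (s := Finset.univ) (f := fun (x : T d L) (s : ℝ) => F s x • (ee (rep x) : L2 d))
        (fun x _ => ((hFc x).smul continuous_const).intervalIntegrable _ _)).trans ?_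
      refine Finset.sum_congr rfl fun x _ => ?_
      rw [intervalIntegral.integral_smul_const]
    rw [h3]
    unfold Jt
    simp only [h2]
    rw [Finset.smul_sum]
    have h4 : ∑ i, a i • ∑ k : T d L, φ (t i) k • (ee (rep k) : L2 d) =
        ∑ k : T d L, (∑ i, a i * φ (t i) k) • (ee (rep k) : L2 d) := by
      simp only [Finset.smul_sum, Finset.sum_smul, smul_smul]
      rw [Finset.sum_comm]
    rw [h4, ← Finset.sum_sub_distrib]
    refine Finset.sum_congr rfl fun x _ => ?_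
    rw [sub_smul, smul_smul]
  have hROe : RO U B M a t V (ee 0) = ((M : ℂ)⁻¹) • (∫ s in (0 : ℝ)..M, G s) -
      ∑ i, a i • U V (t i) (ee 0) := by
    unfold RO qU
    rw [ContinuousLinearMap.sub_apply, ContinuousLinearMap.smul_apply, sum_apply, hB.int V M (ee 0),
      hG]
    rfl
  have hdiff : RO U B M a t V (ee 0) - Jt Φ = ((M : ℂ)⁻¹) • (∫ s in (0 : ℝ)..M,
      (G s - (Jt (F s) : L2 d))) - ∑ i, a i • (U V (t i) (ee 0) - (Jt (φ (t i)) : L2 d)) := by
    rw [intervalIntegral.integral_sub (hGc.intervalIntegrable _ _) (hJc.intervalIntegrable _ _),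
      hROe, hΦe, smul_sub]
    simp only [smul_sub, Finset.sum_sub_distrib]
    abel
  have hdn : ‖RO U B M a t V (ee 0) - Jt Φ‖ ≤ (K1 + K2) * (M : ℝ) ^ 2 / L := by
    rw [hdiff]
    have b1 : ‖((M : ℂ)⁻¹) • (∫ s in (0 : ℝ)..M, (G s - (Jt (F s) : L2 d)))‖ ≤
        K1 * (M : ℝ) ^ 2 / L := by
      rw [norm_smul, norm_inv, Complex.norm_natCast]
      have h2 := intervalIntegral.norm_integral_le_of_norm_le_const (a := (0 : ℝ)) (b := M)
        (C := K1 * (M : ℝ) ^ 2 / L) (f := fun s => G s - (Jt (F s) : L2 d)) (fun s hs => by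
          rw [Set.uIoc_of_le hM0.le] at hs
          exact hD s (by rw [abs_of_pos hs.1]; exact hs.2))
      rw [sub_zero, abs_of_pos hM0] at h2
      calc (M : ℝ)⁻¹ * ‖∫ s in (0 : ℝ)..M, (G s - (Jt (F s) : L2 d))‖ ≤
            (M : ℝ)⁻¹ * (K1 * (M : ℝ) ^ 2 / L * M) := by gcongr
        _ = K1 * (M : ℝ) ^ 2 / L := by field_simp
    have b2 : ‖∑ i, a i • (U V (t i) (ee 0) - (Jt (φ (t i)) : L2 d))‖ ≤ K2 * (M : ℝ) ^ 2 / L := by
      have hMM : (1 : ℝ) ≤ (M : ℝ) ^ 2 := one_le_pow₀ hM1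
      calc ‖∑ i, a i • (U V (t i) (ee 0) - (Jt (φ (t i)) : L2 d))‖ ≤
            ∑ i, ‖a i‖ * (C1 * (t i) ^ 2 / L) := by
            refine (norm_sum_le _ _).trans (Finset.sum_le_sum fun i _ => ?_)
            rw [norm_smul]
            exact mul_le_mul_of_nonneg_left (hone (t i)) (norm_nonneg _)
        _ = K2 * 1 / L := by
            rw [hK2, mul_one, Finset.sum_div]
            refine Finset.sum_congr rfl fun i _ => ?_
            ring
        _ ≤ K2 * (M : ℝ) ^ 2 / L := by gcongr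
    refine (norm_sub_le _ _).trans ((add_le_add b1 b2).trans (le_of_eq ?_))
    ring
  have hJn : ‖(Jt Φ : L2 d)‖ = Real.sqrt (∑ x : T d L,
      ‖ZT m M a t σ (fun k : T d L => ξ (rep k)) x 0‖ ^ 2) := by
    rw [Jt_norm, hΦ]
    rfl
  calc ‖RO U B M a t V (ee 0)‖ = ‖Jt Φ + (RO U B M a t V (ee 0) - Jt Φ)‖ := by
        rw [add_sub_cancel]
    _ ≤ ‖(Jt Φ : L2 d)‖ + ‖RO U B M a t V (ee 0) - Jt Φ‖ := norm_add_le _ _
    _ ≤ _ := by
        rw [hJn]
        gcongr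

end Pool.Agent.T2h98.MR
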