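import Pool.Agent.T2h98.MR.Stm
import Pool.Agent.T2h98.KU.KEIG

/-! The time average in terms of the eigenvectors (ZEG). -/

set_option autoImplicit false
set_option linter.unusedSectionVars false

open scoped BigOperators Matrix Topology
open MeasureTheory ProbabilityTheory Filter

namespace Pool.Agent.T2h98.MR

open Pool.Agent.W788.MFP.Four (T e NN adj K)
open Pool.Agent.T2h98.QD (Zd ev HT dl rep Mo GP dn)
open Pool.Agent.T2h98.PS
open Pool.Agent.T2h98.KU.KEIGh (UM UM_unit UM_star_mul)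

namespace ZEGh

theorem hs_trace {n : Type} [Fintype n] (A : Matrix n n ℂ) :
    ((∑ x, ∑ y, ‖A x y‖ ^ 2 : ℝ) : ℂ) = (A * Aᴴ).trace := by
  rw [Matrix.trace]
  push_cast
  refine Finset.sum_congr rfl fun x _ => ?_
  rw [Matrix.diag_apply, Matrix.mul_apply]
  refine Finset.sum_congr rfl fun y _ => ?_
  rw [Matrix.conjTranspose_apply, RCLike.star_def, Complex.mul_conj, Complex.normSq_eq_norm_sq]
  push_cast
  rfl

theorem hs_unit {n : Type} [Fintype n] [DecidableEq n] (U A : Matrix n n ℂ) (h1 : Uᴴ * U = 1) :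
    ∑ x, ∑ y, ‖(U * A * Uᴴ : Matrix n n ℂ) x y‖ ^ 2 = ∑ x, ∑ y, ‖A x y‖ ^ 2 := by
  have h : ((∑ x, ∑ y, ‖(U * A * Uᴴ : Matrix n n ℂ) x y‖ ^ 2 : ℝ) : ℂ) =
      ((∑ x, ∑ y, ‖A x y‖ ^ 2 : ℝ) : ℂ) := by
    rw [hs_trace, hs_trace]
    rw [Matrix.conjTranspose_mul, Matrix.conjTranspose_mul, Matrix.conjTranspose_conjTranspose]
    calc (U * A * Uᴴ * (U * (Aᴴ * Uᴴ))).trace
        = ((U * A * (Uᴴ * U) * Aᴴ) * Uᴴ).trace := by simp only [Matrix.mul_assoc]
      _ = (Uᴴ * (U * A * (Uᴴ * U) * Aᴴ)).trace := Matrix.trace_mul_comm _ _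
      _ = ((Uᴴ * U) * A * (Uᴴ * U) * Aᴴ).trace := by simp only [Matrix.mul_assoc]
      _ = (A * Aᴴ).trace := by rw [h1, Matrix.one_mul, Matrix.mul_one]
  exact_mod_cast h

end ZEGh

open ZEGh

theorem t_ZEG (hE : T_TEV) : T_ZEG := by
  intro d L _ m M hM n a t σ ξ u w hEB
  obtain ⟨h1, h2⟩ := UM_unit u hEB.2
  set U := UM u with hU
  set D : ℝ → Matrix (T d L) (T d L) ℂ := fun s => Matrix.diagonal fun j =>
    Complex.exp (-(((s * w j : ℝ) : ℂ) * Complex.I)) with hD
  have hev : ∀ s : ℝ, ev (HT σ ξ) s = U * D s * Uᴴ := by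
    intro s
    have hc : ev (HT σ ξ) s * U = U * D s := by
      ext x j
      rw [hD, Matrix.mul_diagonal]
      have h3 := congrFun ((hE d L σ ξ).2.2.2 u w hEB s j) x
      rw [Pi.smul_apply, smul_eq_mul] at h3
      change _ = u j x * _
      rw [mul_comm (u j x), ← h3]
      rfl
    rw [← hc, Matrix.mul_assoc, h2, Matrix.mul_one]
  set B : Matrix (T d L) (T d L) ℂ := Uᴴ * Mo (chm m) * U with hB
  have hMo : Mo (chm m) = U * B * Uᴴ := by
    rw [hB]
    calc Mo (chm m) = (U * Uᴴ) * Mo (chm m) * (U * Uᴴ) := by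
          rw [h2, Matrix.one_mul, Matrix.mul_one]
      _ = _ := by simp only [Matrix.mul_assoc]
  have hcon : ∀ s : ℝ, (ev (HT σ ξ) (-s) * Mo (chm m) * ev (HT σ ξ) s :
      Matrix (T d L) (T d L) ℂ) = U * (D (-s) * B * D s) * Uᴴ := by
    intro s
    rw [hev, hev, hB]
    simp only [Matrix.mul_assoc]
  have hent : ∀ (s : ℝ) (j l : T d L), (D (-s) * B * D s : Matrix (T d L) (T d L) ℂ) j l =
      B j l * Complex.exp (((s * (w j - w l) : ℝ) : ℂ) * Complex.I) := by
    intro s j l
    simp only [hD]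
    rw [Matrix.mul_diagonal, Matrix.diagonal_mul]
    rw [mul_comm (Complex.exp _) (B j l), mul_assoc, ← Complex.exp_add]
    congr 2
    push_cast
    ring
  set G : Matrix (T d L) (T d L) ℂ := Matrix.of fun j l => B j l *
    ((M : ℂ)⁻¹ * ∫ s in (0 : ℝ)..M, Complex.exp (((s * (w j - w l) : ℝ) : ℂ) * Complex.I)) with hG
  set Q : Matrix (T d L) (T d L) ℂ := Matrix.diagonal fun j => qE a t (w j) with hQ
  have hZ : ∀ x y, ZT m M a t σ ξ x y = (U * (G - Q) * Uᴴ : Matrix (T d L) (T d L) ℂ) x y := by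
    intro x y
    unfold ZT
    rw [Matrix.mul_sub, Matrix.sub_mul, Matrix.sub_apply]
    congr 1
    · have e1 : ∀ s : ℝ, (ev (HT σ ξ) (-s) * Mo (chm m) * ev (HT σ ξ) s :
          Matrix (T d L) (T d L) ℂ) x y = ∑ l, ∑ j, U x j * (B j l *
            Complex.exp (((s * (w j - w l) : ℝ) : ℂ) * Complex.I)) * Uᴴ l y := by
        intro s
        rw [hcon, Matrix.mul_apply]
        refine Finset.sum_congr rfl fun l _ => ?_
        rw [Matrix.mul_apply, Finset.sum_mul]
        refine Finset.sum_congr rfl fun j _ => ?_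
        rw [hent]
      have hci : ∀ j l : T d L, Continuous fun s : ℝ => U x j * (B j l *
            Complex.exp (((s * (w j - w l) : ℝ) : ℂ) * Complex.I)) * Uᴴ l y := by
        intro j l
        fun_prop
      rw [intervalIntegral.integral_congr (g := fun s : ℝ => ∑ l, ∑ j, U x j * (B j l *
            Complex.exp (((s * (w j - w l) : ℝ) : ℂ) * Complex.I)) * Uᴴ l y)
          (fun s _ => e1 s)]
      rw [intervalIntegral.integral_finsetSum (fun l _ => (continuous_finsetSum _
        (fun j _ => hci j l)).intervalIntegrable _ _)]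
      rw [Matrix.mul_apply, Finset.mul_sum]
      refine Finset.sum_congr rfl fun l _ => ?_
      rw [intervalIntegral.integral_finsetSum (fun j _ => (hci j l).intervalIntegrable _ _)]
      rw [Matrix.mul_apply, Finset.sum_mul, Finset.mul_sum]
      refine Finset.sum_congr rfl fun j _ => ?_
      rw [intervalIntegral.integral_mul_const, intervalIntegral.integral_const_mul,
        intervalIntegral.integral_const_mul]
      rw [hG, Matrix.of_apply]
      ring
    · have e2 : (U * Q * Uᴴ : Matrix (T d L) (T d L) ℂ) = ∑ i, a i • ev (HT σ ξ) (t i) := by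
        have e3 : Q = ∑ i, a i • D (t i) := by
          ext j l
          rw [hQ, Matrix.sum_apply]
          simp only [hD, Matrix.smul_apply, Matrix.diagonal_apply]
          by_cases hjl : j = l
          · simp only [hjl, if_true]
            unfold qE
            rfl
          · simp [hjl]
        rw [e3, Matrix.mul_sum, Matrix.sum_mul]
        refine Finset.sum_congr rfl fun i _ => ?_
        rw [Matrix.mul_smul, Matrix.smul_mul, hev]
      rw [e2, Matrix.sum_apply]
      rfl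
  calc ∑ x, ∑ y, ‖ZT m M a t σ ξ x y‖ ^ 2
      = ∑ x, ∑ y, ‖(U * (G - Q) * Uᴴ : Matrix (T d L) (T d L) ℂ) x y‖ ^ 2 := by
        simp only [hZ]
    _ = ∑ j, ∑ l, ‖(G - Q) j l‖ ^ 2 := hs_unit U (G - Q) h1
    _ = _ := by
        refine Finset.sum_congr rfl fun j _ => Finset.sum_congr rfl fun l _ => ?_
        rw [Matrix.sub_apply, hG, hQ, Matrix.of_apply, Matrix.diagonal_apply, hB, hU,
          UM_star_mul]

end Pool.Agent.T2h98.MR
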