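import Pool.Agent.T2h98.MR.Stm
import Pool.Agent.T2h98.QD.Avg
import Pool.Agent.T2h98.QD.Inv

/-! The mean over the disorder and the trace. -/

set_option autoImplicit false
set_option linter.unusedSectionVars false
set_option linter.unusedVariables false

open scoped BigOperators Matrix Topology
open MeasureTheory ProbabilityTheory Filter

namespace Pool.Agent.T2h98.MR

open Pool.Agent.W788.MFP.Four (T e NN adj K)
open Pool.Agent.W788.BK (nsq hs JJ hi Low cr)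
open Pool.Agent.T2h98.QD (Zd ev HT dl rep Mo GP dn ev_col HT_herm ev_continuous HT_cont ev_shift inv)
open Pool.Agent.T2h98.PS

namespace ZTR

variable {d L : ℕ} [NeZero L]

/-- the integrand -/
noncomputable def PR (m : Fin d → ℤ) (σ : ℝ) (ξ : T d L → ℝ) (s : ℝ) : Matrix (T d L) (T d L) ℂ :=
  ev (HT σ ξ) (-s) * Mo (chm m) * ev (HT σ ξ) s

theorem PR_apply (m : Fin d → ℤ) (σ : ℝ) (ξ : T d L → ℝ) (s : ℝ) (x y : T d L) :
    PR m σ ξ s x y = ∑ w, (∑ z, ev (HT σ ξ) (-s) x z * Mo (chm m) z w) * ev (HT σ ξ) s w y := by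
  simp only [PR, Matrix.mul_apply]

theorem ev_le (σ : ℝ) (ξ : T d L → ℝ) (s : ℝ) (x y : T d L) : ‖ev (HT σ ξ) s x y‖ ≤ 1 := by
  have h := ev_col (HT σ ξ) (HT_herm σ ξ) s y
  have h1 : ‖ev (HT σ ξ) s x y‖ ^ 2 ≤ 1 := by
    rw [← h]
    exact Finset.single_le_sum (f := fun x => ‖ev (HT σ ξ) s x y‖ ^ 2)
      (fun i _ => by positivity) (Finset.mem_univ x)
  nlinarith [norm_nonneg (ev (HT σ ξ) s x y)]

theorem PR_le (m : Fin d → ℤ) (σ : ℝ) (ξ : T d L → ℝ) (s : ℝ) (x y : T d L) :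
    ‖PR m σ ξ s x y‖ ≤ ∑ w : T d L, ∑ z : T d L, ‖Mo (chm m) z w‖ := by
  rw [PR_apply]
  refine (norm_sum_le _ _).trans (Finset.sum_le_sum fun w _ => ?_)
  rw [norm_mul]
  calc ‖∑ z, ev (HT σ ξ) (-s) x z * Mo (chm m) z w‖ * ‖ev (HT σ ξ) s w y‖
      ≤ ‖∑ z, ev (HT σ ξ) (-s) x z * Mo (chm m) z w‖ * 1 :=
        mul_le_mul_of_nonneg_left (ev_le σ ξ s w y) (norm_nonneg _)
    _ ≤ ∑ z, ‖Mo (chm m) z w‖ := by
        rw [mul_one]
        refine (norm_sum_le _ _).trans (Finset.sum_le_sum fun z _ => ?_)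
        rw [norm_mul]
        exact mul_le_of_le_one_left (norm_nonneg _) (ev_le σ ξ (-s) x z)

theorem PR_cont (m : Fin d → ℤ) (σ : ℝ) (x y : T d L) :
    Continuous fun p : (T d L → ℝ) × ℝ => PR m σ p.1 p.2 x y := by
  have h1 := ev_continuous (fun p : (T d L → ℝ) × ℝ => HT σ p.1) (fun p => -p.2)
    ((HT_cont σ).comp continuous_fst) continuous_snd.neg
  have h2 := ev_continuous (fun p : (T d L → ℝ) × ℝ => HT σ p.1) (fun p => p.2)
    ((HT_cont σ).comp continuous_fst) continuous_snd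
  exact ((h1.matrix_mul continuous_const).matrix_mul h2).matrix_elem x y

theorem PR_shift (m : Fin d → ℤ) (σ : ℝ) (ξ : T d L → ℝ) (a : T d L) (s : ℝ) (x y : T d L) :
    PR m σ (fun z => ξ (z + a)) s x y = PR m σ ξ s (x + a) (y + a) := by
  rw [PR_apply, PR_apply, ← Equiv.sum_comp (Equiv.addRight a)
    (fun w => (∑ z, ev (HT σ ξ) (-s) (x + a) z * Mo (chm m) z w) * ev (HT σ ξ) s w (y + a))]
  refine Finset.sum_congr rfl fun w _ => ?_
  rw [ev_shift, ← Equiv.sum_comp (Equiv.addRight a)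
    (fun z => ev (HT σ ξ) (-s) (x + a) z * Mo (chm m) z ((Equiv.addRight a) w))]
  simp only [Equiv.coe_addRight]
  congr 1
  refine Finset.sum_congr rfl fun z _ => ?_
  rw [ev_shift]
  simp only [Mo, Matrix.of_apply, add_sub_add_right_eq_sub]

theorem ZT_eq (m : Fin d → ℤ) (M : ℕ) {n : ℕ} (a : Fin n → ℂ) (t : Fin n → ℝ) (σ : ℝ)
    (ξ : T d L → ℝ) (x y : T d L) : ZT m M a t σ ξ x y =
      ((M : ℂ)⁻¹ * ∫ s in (0 : ℝ)..M, PR m σ ξ s x y) - ∑ i, a i * ev (HT σ ξ) (t i) x y := rfl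

theorem ZT_shift (m : Fin d → ℤ) (M : ℕ) {n : ℕ} (a : Fin n → ℂ) (t : Fin n → ℝ) (σ : ℝ)
    (ξ : T d L → ℝ) (b : T d L) (x y : T d L) :
    ZT m M a t σ (fun z => ξ (z + b)) x y = ZT m M a t σ ξ (x + b) (y + b) := by
  rw [ZT_eq, ZT_eq]
  simp only [PR_shift, ev_shift]

theorem ZT_cont (m : Fin d → ℤ) (M : ℕ) {n : ℕ} (a : Fin n → ℂ) (t : Fin n → ℝ) (σ : ℝ)
    (x y : T d L) : Continuous fun ξ : T d L → ℝ => ZT m M a t σ ξ x y := by
  simp only [ZT_eq]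
  refine (continuous_const.mul ?_).sub ?_
  · exact intervalIntegral.continuous_parametric_intervalIntegral_of_continuous'
      (PR_cont m σ x y) 0 M
  · refine continuous_finsetSum _ fun i _ => continuous_const.mul ?_
    exact (ev_continuous (fun ξ : T d L → ℝ => HT σ ξ) (fun _ => t i) (HT_cont σ)
      continuous_const).matrix_elem x y

theorem ZT_bdd (m : Fin d → ℤ) (M : ℕ) (hM : 1 ≤ M) {n : ℕ} (a : Fin n → ℂ) (t : Fin n → ℝ) (σ : ℝ) :
    ∃ C : ℝ, ∀ (ξ : T d L → ℝ) (x y : T d L), ‖ZT m M a t σ ξ x y‖ ≤ C := by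
  refine ⟨‖((M : ℂ)⁻¹)‖ * ((∑ w : T d L, ∑ z : T d L, ‖Mo (chm m) z w‖) * |(M : ℝ) - 0|) +
    ∑ i, ‖a i‖, fun ξ x y => ?_⟩
  rw [ZT_eq]
  refine (norm_sub_le _ _).trans (add_le_add ?_ ?_)
  · rw [norm_mul]
    refine mul_le_mul_of_nonneg_left ?_ (norm_nonneg _)
    exact intervalIntegral.norm_integral_le_of_norm_le_const fun s _ => PR_le m σ ξ s x y
  · refine (norm_sum_le _ _).trans (Finset.sum_le_sum fun i _ => ?_)
    rw [norm_mul]
    exact mul_le_of_le_one_right (norm_nonneg _) (ev_le σ ξ (t i) x y)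

theorem inv_real (b : T d L) (F : (T d L → ℝ) → ℝ) :
    ∫ V, F (fun z => V (z + b)) ∂(GP (T d L)) = ∫ V, F V ∂(GP (T d L)) := by
  have h := (inv d L b).1 (fun V => ((F V : ℝ) : ℂ))
  rw [integral_complex_ofReal, integral_complex_ofReal] at h
  exact_mod_cast h

theorem sum_shift (m : Fin d → ℤ) (M : ℕ) {n : ℕ} (a : Fin n → ℂ) (t : Fin n → ℝ) (σ : ℝ)
    (ξ : T d L → ℝ) (y : T d L) : ∑ x, ‖ZT m M a t σ (fun z => ξ (z + y)) x 0‖ ^ 2 =
      ∑ x, ‖ZT m M a t σ ξ x y‖ ^ 2 := by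
  rw [← Equiv.sum_comp (Equiv.addRight y) (fun x => ‖ZT m M a t σ ξ x y‖ ^ 2)]
  refine Finset.sum_congr rfl fun x _ => ?_
  rw [ZT_shift, zero_add, Equiv.coe_addRight]

theorem ztr : T_ZTR := by
  intro d L _ m M hM n a t σ
  refine ⟨ZT_cont m M a t σ, ZT_bdd m M hM a t σ, ?_⟩
  obtain ⟨C, hC⟩ := ZT_bdd (d := d) (L := L) m M hM a t σ
  have hgp : IsProbabilityMeasure (GP (T d L)) := by
    unfold GP Pool.Agent.W788.BK.PP
    infer_instance
  have hint : ∀ y : T d L, Integrable (fun ξ : T d L → ℝ => ∑ x, ‖ZT m M a t σ ξ x y‖ ^ 2)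
      (GP (T d L)) := by
    intro y
    refine integrable_finsetSum _ fun x _ => ?_
    refine Integrable.of_bound ((ZT_cont m M a t σ x y).norm.pow 2).aestronglyMeasurable (C ^ 2)
      (Filter.Eventually.of_forall fun ξ => ?_)
    rw [Real.norm_of_nonneg (by positivity)]
    exact pow_le_pow_left₀ (norm_nonneg _) (hC ξ x y) 2
  have hs : ∀ y : T d L, ∫ ξ : T d L → ℝ, (∑ x, ‖ZT m M a t σ ξ x y‖ ^ 2) ∂(GP (T d L)) =
      ∫ ξ : T d L → ℝ, (∑ x, ‖ZT m M a t σ ξ x 0‖ ^ 2) ∂(GP (T d L)) := by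
    intro y
    have h1 := inv_real y (fun ξ : T d L → ℝ => ∑ x, ‖ZT m M a t σ ξ x 0‖ ^ 2)
    have h2 : (fun V : T d L → ℝ => ∑ x, ‖ZT m M a t σ (fun z => V (z + y)) x 0‖ ^ 2) =
        fun V : T d L → ℝ => ∑ x, ‖ZT m M a t σ V x y‖ ^ 2 := funext fun V => sum_shift m M a t σ V y
    exact (congrArg (fun F : (T d L → ℝ) → ℝ => ∫ V, F V ∂(GP (T d L))) h2).symm.trans h1
  have hcomm : ∀ ξ : T d L → ℝ, (∑ x, ∑ y, ‖ZT m M a t σ ξ x y‖ ^ 2) =
      ∑ y, ∑ x, ‖ZT m M a t σ ξ x y‖ ^ 2 := fun ξ => Finset.sum_comm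
  simp_rw [hcomm]
  rw [integral_finsetSum _ fun y _ => hint y]
  simp_rw [hs]
  rw [Finset.sum_const, Finset.card_univ, nsmul_eq_mul, Pool.Agent.W788.MFP.Four.card_T,
    ← mul_assoc, inv_mul_cancel₀ (Pool.Agent.W788.MFP.Four.NN_pos).ne', one_mul]

end ZTR

end Pool.Agent.T2h98.MR
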