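import Pool.Agent.T2h98.PS.All
import Pool.Agent.T2h98.EA.AllP
import Pool.Agent.T2h98.MR.BOP
import Pool.Agent.T2h98.MR.CFM
import Pool.Agent.T2h98.MR.FRE
import Pool.Agent.T2h98.MR.INF
import Pool.Agent.T2h98.MR.MR
import Pool.Agent.T2h98.MR.MXP
import Pool.Agent.T2h98.MR.MXS
import Pool.Agent.T2h98.MR.OUT
import Pool.Agent.T2h98.MR.QBD
import Pool.Agent.T2h98.MR.QCV
import Pool.Agent.T2h98.MR.ROC
import Pool.Agent.T2h98.MR.SNC
import Pool.Agent.T2h98.MR.TEV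
import Pool.Agent.T2h98.MR.TOB
import Pool.Agent.T2h98.MR.TR1
import Pool.Agent.T2h98.MR.TR2
import Pool.Agent.T2h98.MR.TRA
import Pool.Agent.T2h98.MR.ZEG
import Pool.Agent.T2h98.MR.ZTR

/-! Relaxation of the momentum at all times: all parts. -/

set_option autoImplicit false

namespace Pool.Agent.T2h98.MR.All

open Pool.Agent.T2h98.QD Pool.Agent.T2h98.PS Pool.Agent.T2h98.PS.All Pool.Agent.T2h98.MR
open Pool.Agent.T2h98.NB Pool.Agent.T2h98.EA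

theorem traA : T_TRA := tra t_TEV (TR1x.t_TR1 t_TEV) t_PSY

theorem tobA : T_TOB :=
  t_TOB ptoA pfuA pdeA T_PPO_holds pwmA U.dosF t_PEX MR.snc MR.out (t_ZEG t_TEV) ZTR.ztr

theorem infA : T_INF := t_INF traA tobA ZTR.ztr law

theorem mxsA : T_MXS := mxs (mxp EA.All.maxA SNFx.t_SNF) SNFx.t_SNF

theorem mrA : T_MR :=
  mr BOPx.t_BOP infA (t_ROC NB.All.xtA SNFx.t_SNF) mxsA qcv fre (cfm pwmA U.dosF) tr2
    (t_QBD EA.All.speA) NB.All.xtA SNFx.t_SNF pwmA U.dosF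

end Pool.Agent.T2h98.MR.All
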