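import Pool.Agent.T2h98.MR.Stm

/-! Relaxation of the momentum from the kinetic time scale on: statements of the parts. The smoothing
`σ ^ (2 + h)` is replaced by `σ ^ 2 / K` with a large constant `K`. -/

set_option autoImplicit false
set_option linter.unusedSectionVars false
set_option linter.unusedVariables false

open scoped BigOperators Matrix Topology
open MeasureTheory ProbabilityTheory Filter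

namespace Pool.Agent.T2h98.MR

open Pool.Agent.W788.MFP.Four (T e NN adj K)
open Pool.Agent.W788.BK (nsq hs JJ hi Low cr)
open Pool.Agent.TH980.IM.PR (PP sh)
open Pool.Agent.T2h98.QD (Zd ev HT dl rep Mo GP dn)
open Pool.Agent.T2h98.KU (me)
open Pool.Agent.T2h98.PS
open Pool.Agent.T2h98.NB
open Pool.Agent.T2h98.EA (SN Uni1 T_SNF T_MAX)

/-- good energies (as `T_PLI`) -/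
def T_PLIK : Prop := ∀ (κ : ℕ) (d : ℕ), 3 ≤ d → ∀ a : ℝ, 0 < a →
  ∀ (m : Fin d → ℤ) (c0 η : ℝ), 0 < c0 → 0 < η → ∃ K0 : ℝ, 1 ≤ K0 ∧ ∀ K : ℝ, K0 ≤ K →
  ∀ᶠ σ : ℝ in 𝓝[>] 0,
  ∀ (L : ℕ) [NeZero L], σ ^ (-2 - a) ≤ (L : ℝ) → (L : ℝ) ≤ σ ^ (-(κ : ℝ)) →
  ∀ E : ℝ, c0 ≤ dn d E →
    |∫ V : T d L → ℝ, Ph m (cf d m c0) (σ ^ 2 / K) σ V E ∂(GP (T d L))| ≤ η ∧
    |(me d L false E (σ ^ 2 / K) σ).im - Real.pi * dn d E| ≤ η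

/-- all energies (as `T_PTO`) -/
def T_PTOK : Prop := ∀ (κ : ℕ) (d : ℕ), 3 ≤ d → ∀ a : ℝ, 0 < a →
  ∀ (m : Fin d → ℤ) (c0 η : ℝ), 0 < c0 → 0 < η → ∃ K0 : ℝ, 1 ≤ K0 ∧ ∀ K : ℝ, K0 ≤ K →
  ∀ᶠ σ : ℝ in 𝓝[>] 0,
  ∀ (L : ℕ) [NeZero L], σ ^ (-2 - a) ≤ (L : ℝ) → (L : ℝ) ≤ σ ^ (-(κ : ℝ)) →
    ∫ V : T d L → ℝ, (∫ E : ℝ, Ph m (cf d m c0) (σ ^ 2 / K) σ V E) ∂(GP (T d L)) ≤
      η + 100 * d * c0 ∧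
    ∫ E in {E : ℝ | dn d E < 2 * c0}, (me d L false E (σ ^ 2 / K) σ).im ≤ η + 100 * d * c0

/-- the time average on the torus (as `T_TOB`) -/
def T_TOBK : Prop := ∀ (κ d : ℕ), 3 ≤ d → ∀ (m : Fin d → ℤ)
  (c0 η : ℝ), 0 < c0 → 0 < η → ∃ K : ℝ, 1 ≤ K ∧ ∀ (n : ℕ) (a : Fin n → ℂ) (t : Fin n → ℝ),
  (∀ E : ℝ, |E| ≤ 2 * (d : ℝ) + 1 → ‖qE a t E - (cf d m c0 E : ℂ)‖ ≤ η) →
  ∀ᶠ σ : ℝ in 𝓝[>] 0, ∀ (L : ℕ) [NeZero L], σ ^ (-3 : ℝ) ≤ (L : ℝ) →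
  (L : ℝ) ≤ σ ^ (-(κ : ℝ)) → ∀ M : ℕ, 2 * K / σ ^ 2 ≤ (M : ℝ) →
  ∫ ξ : T d L → ℝ, (∑ x, ‖ZT m M a t σ ξ x 0‖ ^ 2) ∂(GP (T d L)) ≤
    20 * (η + η ^ 2) + 100 * d * c0

/-- the time average on the lattice (as `T_INF`) -/
def T_INFK : Prop := ∀ (d : ℕ), 3 ≤ d → ∀ (m : Fin d → ℤ)
  (c0 η : ℝ), 0 < c0 → 0 < η → ∃ K : ℝ, 1 ≤ K ∧ ∀ (n : ℕ) (a : Fin n → ℂ) (t : Fin n → ℝ),
  (∀ E : ℝ, |E| ≤ 2 * (d : ℝ) + 1 → ‖qE a t E - (cf d m c0 E : ℂ)‖ ≤ η) →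
  ∀ U : Om d → ℝ → L2 d →L[ℂ] L2 d, Grp U → ∀ B : Om d → L2 d →L[ℂ] L2 d, IsB U m B →
  ∀ᶠ σ : ℝ in 𝓝[>] 0, ∀ M : ℕ, 2 * K / σ ^ 2 ≤ (M : ℝ) → (M : ℝ) ≤ 2 * K / σ ^ 2 + 1 →
  ∫ V, ‖RO U B M a t V (ee 0)‖ ^ 2 ∂(PP (Sd d) (ns σ)) ≤ 50 * (η + η ^ 2) + 300 * d * c0

/-- **relaxation of the momentum at all times from the kinetic time on** -/
def T_MRK : Prop := ∀ (d : ℕ), 3 ≤ d → ∀ U : Om d → ℝ → L2 d →L[ℂ] L2 d, Grp U →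
  ∀ (m : Fin d → ℤ) (S : Finset (Sd d)) (f : Sd d → ℂ) (η : ℝ), 0 < η →
  ∃ K : ℝ, 0 < K ∧
  ∀ᶠ σ : ℝ in 𝓝[>] 0, ∃ Ω : Set (Om d), MeasurableSet Ω ∧ 1 - η ≤ (PP (Sd d) (ns σ)).real Ω ∧
    ∀ V ∈ Ω, ∀ τ : ℝ, K / σ ^ 2 ≤ τ →
    ‖(τ : ℂ)⁻¹ * (∫ s in (0 : ℝ)..τ,
        (inner ℂ (U V s (vf S f)) (Sf (-m) (U V s (vf S f))) : ℂ)) -
      ((∫ k in Set.Icc (0 : Fin d → ℝ) 1, ‖fh S f k‖ ^ 2 * (wm d m (ek k) / dn d (ek k)) : ℝ) :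
        ℂ)‖ ≤ η

end Pool.Agent.T2h98.MR
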