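import Pool.Agent.T2h98.MR.INF
import Pool.Agent.T2h98.MR.StmK

/-! The time average on the lattice on the kinetic time scale (part INFK). -/

set_option autoImplicit false
set_option linter.unusedSectionVars false

open scoped BigOperators Matrix Topology
open MeasureTheory ProbabilityTheory Filter

namespace Pool.Agent.T2h98.MR

open Pool.Agent.W788.MFP.Four (T e NN adj K)
open Pool.Agent.TH980.IM.PR (PP sh)
open Pool.Agent.T2h98.QD (Zd ev HT dl rep Mo GP dn T_LAW)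
open Pool.Agent.T2h98.PS
open Pool.Agent.T2h98.NB
open Pool.Agent.T2h98.EA (SN Uni1 T_SNF T_MAX)


open INFa

theorem t_INFK (hA : T_TRA) (hT : T_TOBK) (hZ : T_ZTR) (hL : T_LAW) : T_INFK := by
  intro d hd m c0 η hc0 hη
  obtain ⟨Kc, hKc, hTK⟩ := hT 10 d hd m c0 η hc0 hη
  refine ⟨Kc, hKc, ?_⟩
  intro n a t happ U hU B hB
  obtain ⟨C, hC, hTr⟩ := hA d m n a t
  have hTo := hTK n a t happ
  have hKc0 : 0 < Kc := by linarith
  have hε : 0 < min (1 / 2 : ℝ) (η / (162 * C ^ 2 * Kc ^ 4 + 1)) := by positivity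
  filter_upwards [hTo, self_mem_nhdsWithin, Ioo_mem_nhdsGT hε] with σ hσT hσ0 hσ M hM1 hM2
  have hσ0' : 0 < σ := hσ0
  have hσh : σ < 1 / 2 := lt_of_lt_of_le hσ.2 (min_le_left _ _)
  have hση : σ < η / (162 * C ^ 2 * Kc ^ 4 + 1) := lt_of_lt_of_le hσ.2 (min_le_right _ _)
  have hσ1 : σ ≤ 1 := by linarith
  have hση2 : 162 * C ^ 2 * Kc ^ 4 * σ ≤ η := by
    rw [lt_div_iff₀ (by positivity)] at hση
    nlinarith
  -- the size of the torus
  have hq : σ ^ (-8 : ℝ) = (σ ^ 8)⁻¹ := by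
    rw [Real.rpow_neg hσ0'.le]
    congr 1
    exact_mod_cast Real.rpow_natCast σ 8
  set L : ℕ := ⌈σ ^ (-8 : ℝ)⌉₊ with hLd
  have hL1 : σ ^ (-8 : ℝ) ≤ L := Nat.le_ceil _
  have hq0 : 0 < σ ^ (-8 : ℝ) := Real.rpow_pos_of_pos hσ0' _
  have hL2 : (L : ℝ) < σ ^ (-8 : ℝ) + 1 := Nat.ceil_lt_add_one hq0.le
  have hq4 : 4 ≤ σ ^ (-8 : ℝ) := by
    rw [hq, le_inv_comm₀ (by norm_num) (by positivity)]
    have h2 : σ ^ 8 ≤ (1 / 2) ^ 8 := pow_le_pow_left₀ hσ0'.le hσh.le 8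
    norm_num at h2 ⊢
    linarith
  have hL4 : 4 ≤ L := by
    have : (4 : ℝ) ≤ L := hq4.trans hL1
    exact_mod_cast this
  haveI : NeZero L := ⟨by omega⟩
  have hL3 : σ ^ (-3 : ℝ) ≤ L := by
    refine le_trans ?_ hL1
    exact Real.rpow_le_rpow_of_exponent_ge hσ0' hσ1 (by norm_num)
  have hL10 : (L : ℝ) ≤ σ ^ (-((10 : ℕ) : ℝ)) := by
    have h2 : σ ^ (-((10 : ℕ) : ℝ)) = σ ^ (-8 : ℝ) * (σ ^ 2)⁻¹ := by
      rw [hq, Real.rpow_neg hσ0'.le, Real.rpow_natCast, ← mul_inv]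
      congr 1
      ring
    have h3 : 2 ≤ (σ ^ 2)⁻¹ := by
      rw [le_inv_comm₀ (by norm_num) (by positivity)]
      nlinarith
    rw [h2]
    nlinarith
  -- the number of steps
  have hM0 : 1 ≤ M := by
    have h2 : (0 : ℝ) < M := lt_of_lt_of_le (by positivity) hM1
    exact_mod_cast Nat.cast_pos.1 h2
  have hM3 : (M : ℝ) ≤ 3 * Kc / σ ^ 2 := by
    have h2 : 1 ≤ Kc / σ ^ 2 := by
      rw [le_div_iff₀ (by positivity)]
      nlinarith
    have h3 : 3 * Kc / σ ^ 2 = 2 * Kc / σ ^ 2 + Kc / σ ^ 2 := by ring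
    linarith
  set r : ℝ := C * (M : ℝ) ^ 2 / L with hr
  have hr0 : 0 ≤ r := by positivity
  have hr1 : r ≤ 9 * C * Kc ^ 2 * σ := by
    have h2 : (M : ℝ) ^ 2 ≤ 9 * Kc ^ 2 / σ ^ 4 := by
      calc (M : ℝ) ^ 2 ≤ (3 * Kc / σ ^ 2) ^ 2 := pow_le_pow_left₀ (by positivity) hM3 2
        _ = 9 * Kc ^ 2 / σ ^ 4 := by
          rw [div_pow]
          congr 1 <;> ring
    have h3 : (L : ℝ)⁻¹ ≤ σ ^ 8 := by
      rw [inv_le_comm₀ (by positivity) (by positivity), ← hq]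
      exact hL1
    have h4 : 9 * Kc ^ 2 / σ ^ 4 * σ ^ 8 ≤ 9 * Kc ^ 2 * σ := by
      rw [div_mul_eq_mul_div, div_le_iff₀ (by positivity)]
      have h6 : σ ^ 8 ≤ σ * σ ^ 4 := by
        have h7 : σ * σ ^ 4 = σ ^ 5 := by ring
        rw [h7]
        exact pow_le_pow_of_le_one hσ0'.le hσ1 (by norm_num)
      calc 9 * Kc ^ 2 * σ ^ 8 ≤ 9 * Kc ^ 2 * (σ * σ ^ 4) := by gcongr
        _ = 9 * Kc ^ 2 * σ * σ ^ 4 := by ring
    calc r = C * ((M : ℝ) ^ 2 * (L : ℝ)⁻¹) := by rw [hr]; ring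
      _ ≤ C * (9 * Kc ^ 2 / σ ^ 4 * σ ^ 8) := by gcongr
      _ ≤ C * (9 * Kc ^ 2 * σ) := by gcongr
      _ = 9 * C * Kc ^ 2 * σ := by ring
  have hr2 : 2 * r ^ 2 ≤ η := by
    have h2 : r ^ 2 ≤ (9 * C * Kc ^ 2 * σ) ^ 2 := pow_le_pow_left₀ hr0 hr1 2
    have h3 : (9 * C * Kc ^ 2 * σ) ^ 2 ≤ 81 * C ^ 2 * Kc ^ 4 * σ := by
      have h4 : σ ^ 2 ≤ σ := by nlinarith
      have h5 : (9 * C * Kc ^ 2 * σ) ^ 2 = 81 * C ^ 2 * Kc ^ 4 * σ ^ 2 := by ring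
      rw [h5]
      gcongr
    linarith
  obtain ⟨hZc, ⟨C', hC'⟩, -⟩ := hZ d L m M hM0 n a t σ
  set S : (T d L → ℝ) → ℝ := fun ξ => ∑ x, ‖ZT m M a t σ ξ x 0‖ ^ 2 with hSd
  have hSc : Continuous S := by
    rw [hSd]
    exact continuous_finsetSum _ fun x _ => ((hZc x 0).norm).pow 2
  have hS0 : ∀ ξ, 0 ≤ S ξ := fun ξ => Finset.sum_nonneg fun x _ => by positivity
  have hSb : ∀ ξ, ‖S ξ‖ ≤ ∑ _x : T d L, C' ^ 2 := by
    intro ξ
    rw [Real.norm_of_nonneg (hS0 ξ)]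
    exact Finset.sum_le_sum fun x _ => pow_le_pow_left₀ (norm_nonneg _) (hC' ξ x 0) 2
  have hST := hσT L hL3 hL10 M hM1
  haveI := ns_prob σ
  haveI : IsProbabilityMeasure (PP (Sd d) (ns σ)) := by
    unfold Pool.Agent.TH980.IM.PR.PP
    infer_instance
  have hcV : Continuous fun V : Om d => S (fun k => σ⁻¹ * V (rep k)) := by
    refine hSc.comp (continuous_pi fun k => ?_)
    exact continuous_const.mul (continuous_apply _)
  have hint : Integrable (fun V : Om d => S (fun k => σ⁻¹ * V (rep k))) (PP (Sd d) (ns σ)) :=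
    Integrable.of_bound hcV.aestronglyMeasurable _ (Filter.Eventually.of_forall fun V => hSb _)
  have hle : ∀ V : Om d, ‖RO U B M a t V (ee 0)‖ ^ 2 ≤
      2 * S (fun k => σ⁻¹ * V (rep k)) + 2 * r ^ 2 := by
    intro V
    have h2 := hTr L hL4 M hM0 σ (fun x => σ⁻¹ * V x) U hU B hB
    have h3 : (fun x => σ * (σ⁻¹ * V x)) = V := by
      funext x
      rw [← mul_assoc, mul_inv_cancel₀ hσ0'.ne', one_mul]
    rw [h3] at h2
    have h4 : ‖RO U B M a t V (ee 0)‖ ≤ Real.sqrt (S (fun k => σ⁻¹ * V (rep k))) + r := h2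
    have h5 := Real.sq_sqrt (hS0 (fun k => σ⁻¹ * V (rep k)))
    have h6 := Real.sqrt_nonneg (S (fun k => σ⁻¹ * V (rep k)))
    have h7 := pow_le_pow_left₀ (norm_nonneg _) h4 2
    nlinarith [sq_nonneg (Real.sqrt (S (fun k => σ⁻¹ * V (rep k))) - r)]
  have h2 : ∫ V, ‖RO U B M a t V (ee 0)‖ ^ 2 ∂(PP (Sd d) (ns σ)) ≤
      ∫ V, (2 * S (fun k => σ⁻¹ * V (rep k)) + 2 * r ^ 2) ∂(PP (Sd d) (ns σ)) :=
    integral_mono_of_nonneg (Filter.Eventually.of_forall fun V => by positivity)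
      ((hint.const_mul 2).add (integrable_const _)) (Filter.Eventually.of_forall hle)
  rw [integral_add (hint.const_mul 2) (integrable_const _), integral_const_mul,
    int_eq hL d L hσ0'.ne' S hSc, integral_const, probReal_univ, one_smul] at h2
  have h8 : 0 ≤ (d : ℝ) * c0 := by positivity
  have h9 : 0 < η ^ 2 := by positivity
  nlinarith

end Pool.Agent.T2h98.MR
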