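import Pool.Agent.T2h98.MR.StmK
import Pool.Agent.T2h98.MR.MR

/-! Relaxation of the momentum from the kinetic time on: the theorem from its parts. -/

set_option autoImplicit false
set_option linter.unusedSectionVars false
set_option linter.unusedVariables false

open scoped BigOperators Matrix Topology
open MeasureTheory ProbabilityTheory Filter

namespace Pool.Agent.T2h98.MR

open Pool.Agent.TH980.IM.PR (PP sh)
open Pool.Agent.T2h98.QD (dn T_DOS)
open Pool.Agent.T2h98.PS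
open Pool.Agent.T2h98.NB
open Pool.Agent.T2h98.EA (SN Uni1 T_SNF T_MAX)

open MRx in
/-- **relaxation of the momentum from the kinetic time on**, from the parts -/
theorem mrk (hB : T_BOP) (hI : T_INFK) (hC : T_ROC) (hMx : T_MXS) (hQ : T_QCV) (hF : T_FRE)
    (hCf : T_CFM) (hT : T_TR2) (hBd : T_QBD) (hX : T_XT) (hS : T_SNF) (hPW : T_PWM)
    (hD : T_DOS) : T_MRK := by
  intro d hd U hG m S f η hη
  obtain ⟨B, hBB⟩ := hB d U hG m
  obtain ⟨A, hA⟩ : ∃ A : ℝ, A = ((∑ y ∈ S, ‖f y‖) + 1) ^ 2 := ⟨_, rfl⟩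
  have hA1 : 1 ≤ A := by
    rw [hA]
    have : 0 ≤ ∑ y ∈ S, ‖f y‖ := Finset.sum_nonneg fun y _ => norm_nonneg _
    nlinarith
  have hA0 : 0 < A := by linarith
  -- the constants
  obtain ⟨δ, hδ⟩ : ∃ δ : ℝ, δ = η / (16 * A) := ⟨_, rfl⟩
  have hδ0 : 0 < δ := by
    rw [hδ]
    positivity
  have hAδ : A * δ = η / 16 := by
    rw [hδ]
    field_simp
  have hsq : Real.sqrt (2 * (δ ^ 2 / 2)) = δ := by
    rw [show 2 * (δ ^ 2 / 2) = δ ^ 2 by ring]
    exact Real.sqrt_sq hδ0.le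
  obtain ⟨w, hw⟩ : ∃ w : ℝ, w = δ ^ 2 / 2 * (δ / 3) ^ 2 := ⟨_, rfl⟩
  have hw0 : 0 < w := by
    rw [hw]
    positivity
  obtain ⟨r, hr⟩ : ∃ r : ℝ, r = η / 2 * w / ((S.card : ℝ) + 1) := ⟨_, rfl⟩
  have hr0 : 0 < r := by
    rw [hr]
    positivity
  have hSr : (S.card : ℝ) * (r / w) ≤ η / 2 := by
    have h1 : r / w = η / 2 / ((S.card : ℝ) + 1) := by
      rw [hr]
      field_simp
    rw [h1, mul_div_assoc', div_le_iff₀ (by positivity)]
    nlinarith
  obtain ⟨c0, hc0⟩ : ∃ c0 : ℝ, c0 = min (r / (600 * d)) (δ / (16 * d)) := ⟨_, rfl⟩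
  have hd0 : (0 : ℝ) < d := by
    have : 0 < d := by omega
    exact_mod_cast this
  have hc : 0 < c0 := by
    rw [hc0]
    exact lt_min (by positivity) (by positivity)
  have hc1 : 300 * d * c0 ≤ r / 2 := by
    have h1 : c0 ≤ r / (600 * d) := by
      rw [hc0]
      exact min_le_left _ _
    calc 300 * d * c0 ≤ 300 * d * (r / (600 * d)) := mul_le_mul_of_nonneg_left h1 (by positivity)
      _ = r / 2 := by
        field_simp
        ring
  have hc2 : 16 * d * c0 ≤ δ := by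
    have h1 : c0 ≤ δ / (16 * d) := by
      rw [hc0]
      exact min_le_right _ _
    calc 16 * d * c0 ≤ 16 * d * (δ / (16 * d)) := mul_le_mul_of_nonneg_left h1 (by positivity)
      _ = δ := by
        field_simp
  obtain ⟨η1, hη1⟩ : ∃ η1 : ℝ, η1 = min 1 (min (r / 200) δ) := ⟨_, rfl⟩
  have hη10 : 0 < η1 := by
    rw [hη1]
    exact lt_min one_pos (lt_min (by positivity) hδ0)
  have hη11 : η1 ≤ 1 := by
    rw [hη1]
    exact min_le_left _ _
  have hη12 : η1 ≤ r / 200 := by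
    rw [hη1]
    exact (min_le_right _ _).trans (min_le_left _ _)
  have hη13 : η1 ≤ δ := by
    rw [hη1]
    exact (min_le_right _ _).trans (min_le_right _ _)
  obtain ⟨K1, hK1, hI2⟩ := hI d hd m c0 η1 hc hη10
  obtain ⟨n, q, t, hq1, hq2⟩ := hT (cf d m c0) (2 * (d : ℝ) + 1) η1
    (cf_cont hPW hD hd m hc) (cf_le hPW hd m hc) (by positivity) hη10 hη11
  obtain ⟨e1, he1⟩ : ∃ e1 : ℝ, e1 = min (η / 2) δ := ⟨_, rfl⟩
  have he10 : 0 < e1 := by
    rw [he1]
    exact lt_min (by linarith) hδ0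
  have he11 : e1 ≤ η / 2 := by
    rw [he1]
    exact min_le_left _ _
  have he12 : e1 ≤ δ := by
    rw [he1]
    exact min_le_right _ _
  have F1 := hI2 n q t hq1 U hG B hBB
  have F2 := hQ d U hG n q t (vf S f) e1 he10
  obtain ⟨K, hK⟩ : ∃ K : ℝ, K = 12 * K1 / δ + 2 := ⟨_, rfl⟩
  have hKa : 0 < 12 * K1 / δ := by positivity
  have hK0 : 0 < K := by
    rw [hK]
    linarith
  refine ⟨K, hK0, ?_⟩
  have F4 : ∀ᶠ σ : ℝ in 𝓝[>] 0, 0 < σ := eventually_mem_nhdsWithin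
  have F5 : ∀ᶠ σ : ℝ in 𝓝[>] 0, σ < 1 :=
    (Filter.Tendsto.eventually_lt_const one_pos tendsto_id).filter_mono nhdsWithin_le_nhds
  filter_upwards [F1, F2, F4, F5] with σ G1 G2 hσ0 hσ1
  have := ns_prob σ
  have : IsProbabilityMeasure (PP (Sd d) (ns σ)) := by
    unfold Pool.Agent.TH980.IM.PR.PP
    infer_instance
  have hK10 : 0 < K1 := by linarith
  have hp0 : 0 < σ ^ 2 := by positivity
  have hp1 : σ ^ 2 ≤ 1 := pow_le_one₀ hσ0.le hσ1.le
  obtain ⟨M, hM⟩ : ∃ M : ℕ, M = ⌈2 * K1 / σ ^ 2⌉₊ := ⟨_, rfl⟩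
  have hM1 : 2 * K1 / σ ^ 2 ≤ (M : ℝ) := by
    rw [hM]
    exact Nat.le_ceil _
  have hM2 : (M : ℝ) ≤ 2 * K1 / σ ^ 2 + 1 := by
    rw [hM]
    exact (Nat.ceil_lt_add_one (by positivity)).le
  have hM3 : 1 ≤ M := by
    have h1 : (1 : ℝ) ≤ 2 * K1 / σ ^ 2 := by
      rw [le_div_iff₀ hp0]
      linarith
    exact_mod_cast h1.trans hM1
  have hM0 : (M : ℂ) ≠ 0 := by
    have : M ≠ 0 := by omega
    exact_mod_cast this
  -- the bound of the remainder
  have hRC := (hC d U hG m B hBB M hM3 n q t).1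
  have hR3 : ∀ V, ‖RO U B M q t V‖ ≤ 3 := by
    intro V
    unfold RO
    refine (norm_sub_le _ _).trans ?_
    have h1 : ‖qU U q t V‖ ≤ 2 := hBd d U hG n q t 2 (by norm_num) hq2 V
    have h2 : ‖((M : ℂ)⁻¹) • SN U B M V‖ ≤ 1 := by
      refine ContinuousLinearMap.opNorm_le_bound _ zero_le_one fun g => ?_
      have h3 := (hS d U hG).2.1 B M 1 hBB.bdd V g
      rw [_root_.smul_apply, norm_smul, norm_inv, Complex.norm_natCast, one_mul]
      have hMr : (0 : ℝ) < M := by exact_mod_cast hM3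
      rw [inv_mul_le_iff₀ hMr]
      linarith
    linarith
  have hRr : ∫ V, ‖RO U B M q t V (ee 0)‖ ^ 2 ∂(PP (Sd d) (ns σ)) ≤ r := by
    refine (G1 M hM1 hM2).trans ?_
    nlinarith
  obtain ⟨Ω1, hΩ1, hP1, hb1⟩ := hMx d U hG (ns σ) (RO U B M q t) hRC 3 r (δ ^ 2 / 2) (δ / 3)
    (by norm_num) hR3 hRr (by positivity) (by positivity) S
  obtain ⟨Ω2, hΩ2, hP2, hb2⟩ := G2
  rw [← hw] at hP1
  refine ⟨Ω1 ∩ Ω2, hΩ1.inter hΩ2, ?_, ?_⟩
  · have h1 : (PP (Sd d) (ns σ)).real (Ω1 ∩ Ω2)ᶜ ≤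
        (PP (Sd d) (ns σ)).real Ω1ᶜ + (PP (Sd d) (ns σ)).real Ω2ᶜ := by
      rw [Set.compl_inter]
      exact measureReal_union_le _ _
    rw [probReal_compl_eq_one_sub (hΩ1.inter hΩ2), probReal_compl_eq_one_sub hΩ1,
      probReal_compl_eq_one_sub hΩ2] at h1
    linarith
  · intro V hV τ hτ
    have hτK : K ≤ τ * σ ^ 2 := by
      rwa [div_le_iff₀ hp0] at hτ
    have hKτ : K ≤ τ := by
      refine le_trans ?_ hτ
      rw [le_div_iff₀ hp0]
      nlinarith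
    have hK2 : 2 ≤ K := by
      rw [hK]
      linarith
    have hτ2 : 2 ≤ τ := hK2.trans hKτ
    have hτ0 : 0 < τ := by linarith
    have hKd : 12 * K1 ≤ δ * K := by
      have h1 : δ * (12 * K1 / δ) = 12 * K1 := by field_simp
      rw [hK, mul_add, h1]
      linarith
    have hbb : ∀ y ∈ S, ∀ i : ℕ, 1 ≤ i →
        ‖((i : ℂ)⁻¹) • SN U (RO U B M q t) i V (ee y)‖ ≤ 2 * δ := by
      intro y hy i hi
      have h1 := hb1 V hV.1 y hy i hi
      rw [hsq] at h1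
      linarith
    have hpt := point hX hC hF hCf hPW hD hd hG hBB S f q t hc hq1 hM3 V (by linarith) hbb
      (hb2 V hV.2) hτ2
    rw [← hA] at hpt
    refine hpt.trans ?_
    have h1 : 2 / τ ≤ δ := by
      rw [div_le_iff₀ hτ0]
      have h3 : δ * K ≤ δ * τ := mul_le_mul_of_nonneg_left hKτ hδ0.le
      linarith
    have h2 : 4 * M / τ ≤ δ := by
      rw [div_le_iff₀ hτ0]
      have h3 : (M : ℝ) * σ ^ 2 ≤ 3 * K1 := by
        have h4 : (2 * K1 / σ ^ 2 + 1) * σ ^ 2 = 2 * K1 + σ ^ 2 := by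
          field_simp
        have h5 := mul_le_mul_of_nonneg_right hM2 hp0.le
        rw [h4] at h5
        linarith
      have h6 : δ * K ≤ δ * (τ * σ ^ 2) := mul_le_mul_of_nonneg_left hτK hδ0.le
      have h7 : 4 * (M : ℝ) * σ ^ 2 ≤ δ * τ * σ ^ 2 := by nlinarith
      exact le_of_mul_le_mul_right h7 hp0
    have h7 : A * (2 / τ + 4 * M / τ + 2 * δ + e1 + η1 + 16 * d * c0) ≤ A * (7 * δ) :=
      mul_le_mul_of_nonneg_left (by linarith) hA0.le
    refine h7.trans ?_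
    have h8 : A * (7 * δ) = 7 * (A * δ) := by ring
    rw [h8, hAδ]
    linarith

end Pool.Agent.T2h98.MR
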