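import Pool.Agent.T2h98.MR.StmK
import Pool.Agent.T2h98.PS.PLI
import Pool.Agent.T2h98.KU.KREA

/-! Good energies: the mean of the integrand of the variance. -/

set_option autoImplicit false
set_option linter.unusedSectionVars false

open scoped BigOperators Matrix Topology
open MeasureTheory ProbabilityTheory Filter

namespace Pool.Agent.T2h98.MR.K98

open Pool.Agent.W788.MFP.Four (T e NN adj K)
open Pool.Agent.W788.BK (nsq hs PP JJ hi Low cr)
open Pool.Agent.T2h98.QD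
open Pool.Agent.T2h98.AC (TX RX mX sy Rb Fk)
open Pool.Agent.T2h98.KU
open Pool.Agent.T2h98.PS Pool.Agent.T2h98.MR

open Pool.Agent.T2h98.PS.PLI in
theorem t_PLIK (hG : T_KGE) (hL : T_PREL) (hB : T_PRB) (hC : T_PCAU) (hW : T_PWD) (hS : T_PSY)
    (hM : T_PWM) (hD : T_DOS) : T_PLIK := by
  intro κ d hd a ha m c0 η hc0 hη
  obtain ⟨h, hhd⟩ : ∃ h : ℝ, h = 1 / 6 := ⟨_, rfl⟩
  have hh0 : 0 < h := by rw [hhd]; norm_num
  have hh : h < 1 / 3 := by rw [hhd]; norm_num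
  obtain ⟨B, hB0, hBd⟩ := dn_bdd hD d hd
  have hpi := Real.pi_pos
  have hpi3 := Real.pi_gt_three
  obtain ⟨η1, hη1⟩ : ∃ x : ℝ, x = min (1 / 4) (min (η / 80) (c0 / 4)) := ⟨_, rfl⟩
  have e0 : 0 < η1 := by
    rw [hη1]
    exact lt_min (by norm_num) (lt_min (by positivity) (by positivity))
  have e1 : η1 ≤ 1 / 4 := by rw [hη1]; exact min_le_left _ _
  have e2 : η1 ≤ η / 80 := by rw [hη1]; exact (min_le_right _ _).trans (min_le_left _ _)
  have e3 : η1 ≤ c0 / 4 := by rw [hη1]; exact (min_le_right _ _).trans (min_le_right _ _)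
  obtain ⟨r, hr, hC3⟩ := hC d hd m (a / 4) η1 (by positivity) e0
  obtain ⟨ζ, hζ⟩ : ∃ ζ : ℝ, ζ = min η1 r := ⟨_, rfl⟩
  have hζ0 : 0 < ζ := by rw [hζ]; exact lt_min e0 hr
  have hζ2 : ζ ≤ η1 := by rw [hζ]; exact min_le_left _ _
  have hζ3 : ζ ≤ r := by rw [hζ]; exact min_le_right _ _
  have hh' : h < (if d = 3 then 1 else 2) / 3 := by
    split_ifs
    · linarith
    · linarith
  obtain ⟨m0, hm0, hm1, hev⟩ := hG κ d hd h hh0 hh' a ha c0 ζ hc0 hζ0 (hζ2.trans e1)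
  have hmp : 0 < m0 ^ (1 + a / 4) := Real.rpow_pos_of_pos hm0 _
  obtain ⟨x1, hx1⟩ : ∃ x : ℝ, x = η * m0 / (8 * (Real.pi * B + 2)) := ⟨_, rfl⟩
  have hpB : 0 < Real.pi * B + 2 := by positivity
  have hx1p : 0 < x1 := by rw [hx1]; positivity
  refine ⟨max 1 (1 / x1), le_max_left _ _, fun K hK => ?_⟩
  have hK1 : 1 ≤ K := (le_max_left _ _).trans hK
  have hK0 : 0 < K := one_pos.trans_le hK1
  have hKx : 1 / K ≤ x1 := by
    rw [div_le_iff₀ hK0]
    have h1 := (le_max_right _ _).trans hK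
    rw [div_le_iff₀ hx1p] at h1
    linarith
  filter_upwards [hev, self_mem_nhdsWithin, ev_sq (x := r / 2) (by positivity),
    ev_pow (p := a / 2) (x := m0 ^ (1 + a / 4)) (by positivity) hmp,
    ev_pow (p := h) (x := 1 / K) hh0 (by positivity), ev_lt (x := 1) one_pos] with σ h1 h2 h3 h4 h10 h11
  have hσ : 0 < σ := h2
  intro L _ hL1 hL2 E hE
  obtain ⟨δ, t, Q, g, p0, Ω, hg, h5⟩ := h1 L hL1 hL2
  obtain ⟨ε, hε⟩ : ∃ x : ℝ, x = σ ^ 2 / K := ⟨_, rfl⟩
  have hσ2 : 0 < σ ^ 2 := by positivity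
  have hε0 : 0 < ε := by rw [hε]; positivity
  have hε2 : ε ≤ σ ^ 2 := by
    rw [hε]
    exact div_le_self hσ2.le hK1
  have hε1 : σ ^ (2 + h) ≤ ε := by
    have e1 : σ ^ (2 + h) = σ ^ 2 * σ ^ h := by
      rw [Real.rpow_add hσ]
      congr 1
      rw [← Real.rpow_natCast]
      norm_num
    rw [e1, hε, div_eq_mul_one_div]
    exact mul_le_mul_of_nonneg_left h10.le hσ2.le
  rw [← hε]
  obtain ⟨hP, hSm, h6⟩ := h5 ε hε1 hε2
  obtain ⟨hGE, h7⟩ := h6 E hE
  obtain ⟨hS1, hS2, -, -⟩ := hS d L m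
  have hnq : ∀ k : T d L, ‖chm m k‖ ≤ 1 := fun k => (hS1 k).1.le
  have hnp : ∀ k : T d L, ‖star (chm m k)‖ ≤ 1 := fun k => by rw [norm_star]; exact hnq k
  obtain ⟨w1, w2, w3, w4, w5, w6, w7, w8⟩ := hW d L E ε σ hε0
  obtain ⟨M, hMd⟩ : ∃ x : ℝ, x = (me d L false E ε σ).im := ⟨_, rfl⟩
  rw [← hMd] at h7 w8
  obtain ⟨D, hDd⟩ : ∃ x : ℝ, x = Real.pi * dn d E := ⟨_, rfl⟩
  rw [← hDd] at h7
  have hDc : c0 ≤ D := by
    rw [hDd]
    exact hE.trans (le_mul_of_one_le_left (hc0.le.trans hE) (by linarith))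
  have hD0 : 0 < D := hc0.trans_le hDc
  have hMpos : 0 < M := by
    have := (abs_le.1 h7).1
    linarith
  -- the estimate of the Cauchy sum
  have hre : |(me d L false E ε σ).re| ≤ 2 * g := (Complex.abs_re_le_norm _).trans hGE.h1
  have him : |(me d L false E ε σ).im| ≤ 2 * g := (Complex.abs_im_le_norm _).trans hGE.h1
  have hk2 := hSm.k2
  have hEs : |E - Es d L E ε σ| < r := by
    have e1 : E - Es d L E ε σ = -(σ ^ 2 * (me d L false E ε σ).re) := by
      unfold Es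
      ring
    rw [e1, abs_neg, abs_mul, abs_of_pos hσ2]
    have q1 := mul_le_mul_of_nonneg_left hre hσ2.le
    have q2 : σ ^ 2 * (2 * g) = 4 * σ ^ 2 * g / 2 := by ring
    linarith
  have hGa0 : 0 < Ga d L E ε σ := lt_of_lt_of_le (by positivity) hGE.h2
  have hGar : Ga d L E ε σ < r := by
    unfold Ga
    have q1 := mul_le_mul_of_nonneg_left ((le_abs_self _).trans him) hσ2.le
    have q2 : σ ^ 2 * (2 * g) = 4 * σ ^ 2 * g / 2 := by ring
    linarith
  have hLG : 1 / (L : ℝ) ≤ Ga d L E ε σ ^ (1 + a / 4) := by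
    refine (inv_L hσ hL1).trans ?_
    have e1 : σ ^ (2 + a) = σ ^ (a / 2) * (σ ^ 2) ^ (1 + a / 4) := by
      rw [← Real.rpow_natCast σ 2, ← Real.rpow_mul hσ.le, ← Real.rpow_add hσ]
      congr 1
      push_cast
      ring
    rw [e1]
    calc σ ^ (a / 2) * (σ ^ 2) ^ (1 + a / 4) ≤ m0 ^ (1 + a / 4) * (σ ^ 2) ^ (1 + a / 4) :=
          mul_le_mul_of_nonneg_right h4.le (Real.rpow_nonneg hσ2.le _)
      _ = (m0 * σ ^ 2) ^ (1 + a / 4) := (Real.mul_rpow hm0.le hσ2.le).symm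
      _ ≤ _ := Real.rpow_le_rpow (by positivity) hGE.h2 (by positivity)
  have h9 := hC3 E (Es d L E ε σ) (Ga d L E ε σ) L hEs hGa0 hGar hLG
  -- the mean of `Iv`
  have h8 := hB d L σ δ ε t Q g p0 m0 ζ E Ω hP hSm hGE (chm m) hnq
  have hsum : ((NN d L : ℝ) : ℂ)⁻¹ * ∑ k : T d L, chm m k * ((be false E ε σ k).im : ℂ) =
      (((((NN d L : ℝ) : ℂ)⁻¹ * ∑ k : T d L, ((cqm m k : ℝ) : ℂ) *
        (((adj k - Es d L E ε σ : ℝ) : ℂ) - ((Ga d L E ε σ : ℝ) : ℂ) * Complex.I)⁻¹).im : ℝ) :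
        ℂ) := by
    have k1 := hS2 (fun x => (((((x - Es d L E ε σ : ℝ) : ℂ) -
      ((Ga d L E ε σ : ℝ) : ℂ) * Complex.I)⁻¹).im : ℂ))
    simp only [be_eq]
    rw [k1, ← Complex.ofReal_inv, Complex.im_ofReal_mul, Complex.im_sum]
    push_cast
    congr 1
    refine Finset.sum_congr rfl fun k _ => ?_
    rw [Complex.im_ofReal_mul]
    push_cast
    rfl
  rw [hsum] at h8
  obtain ⟨X, hX⟩ : ∃ X : ℂ, X = ((NN d L : ℝ) : ℂ)⁻¹ * ∑ k : T d L, ((cqm m k : ℝ) : ℂ) *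
        (((adj k - Es d L E ε σ : ℝ) : ℂ) - ((Ga d L E ε σ : ℝ) : ℂ) * Complex.I)⁻¹ := ⟨_, rfl⟩
  rw [← hX] at h8 h9
  obtain ⟨I, hI⟩ : ∃ I : ℂ, I = ∫ V, Iv (chm m) E ε σ V ∂(GP (T d L)) := ⟨_, rfl⟩
  rw [← hI] at h8
  obtain ⟨W, hWd⟩ : ∃ x : ℝ, x = Real.pi * wm d m E := ⟨_, rfl⟩
  have hWc : (cm d m E).im = W := by
    rw [hWd]
    unfold wm
    field_simp
  have hIW : ‖I - (W : ℂ)‖ ≤ ζ + η1 := by
    have q1 : |X.im - W| ≤ η1 := by
      rw [← hWc, ← Complex.sub_im]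
      exact (Complex.abs_im_le_norm _).trans h9
    have q2 : I - (W : ℂ) = (I - ((X.im : ℝ) : ℂ)) + ((X.im - W : ℝ) : ℂ) := by
      push_cast
      ring
    rw [q2]
    refine (norm_add_le _ _).trans (add_le_add h8 ?_)
    rw [Complex.norm_real, Real.norm_eq_abs]
    exact q1
  have hWD : |W| ≤ D := by
    rw [hWd, hDd, abs_mul, abs_of_pos hpi]
    exact mul_le_mul_of_nonneg_left ((hM d hd m).2 E) hpi.le
  -- the product of the resolvents
  have hstar : ∫ V, Iv (fun k => star (chm m k)) E ε σ V ∂(GP (T d L)) = star I := by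
    rw [hI, Complex.star_def, ← integral_conj]
    exact integral_congr_ae (Filter.Eventually.of_forall fun V => w4 V (chm m))
  have hL1 := hL d L σ δ ε t Q g p0 m0 ζ E Ω hP hSm hGE (by rw [← hMd]; exact hMpos)
    (fun k => star (chm m k)) (chm m) hnp hnq
  rw [← hMd, hstar, ← hI] at hL1
  obtain ⟨Y, hY⟩ : ∃ Y : ℂ, Y = ∫ V, Tp (fun k => star (chm m k)) (chm m) E ε σ V
    ∂(GP (T d L)) := ⟨_, rfl⟩
  rw [← hY] at hL1
  have hMB : M + 1 ≤ Real.pi * B + 2 := by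
    have q1 := (abs_le.1 h7).2
    have q2 : D ≤ Real.pi * B := by
      rw [hDd]
      exact mul_le_mul_of_nonneg_left (hBd E) hpi.le
    linarith
  have hr1 : 4 * (ε / σ ^ 2) * ((M + 1) / m0) ≤ η / 2 := by
    have q1 : ε / σ ^ 2 = 1 / K := by
      rw [hε]
      field_simp
    rw [q1]
    have q2 : 4 * (1 / K) * ((M + 1) / m0) ≤ 4 * x1 * ((Real.pi * B + 2) / m0) := by
      apply mul_le_mul
      · exact mul_le_mul_of_nonneg_left hKx (by norm_num)
      · exact div_le_div_of_nonneg_right hMB hm0.le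
      · positivity
      · positivity
    refine q2.trans (le_of_eq ?_)
    rw [hx1]
    have := hpB.ne'
    field_simp
    ring
  have hT2 : |ε * Y.re - Complex.normSq I / M| ≤ η / 2 := by
    refine le_trans ?_ (hL1.trans hr1)
    have q1 : ε * Y.re - Complex.normSq I / M =
        ((ε : ℂ) * Y - star I * I / ((M : ℝ) : ℂ)).re := by
      rw [Complex.star_def, ← Complex.normSq_eq_conj_mul_self, ← Complex.ofReal_div,
        Complex.sub_re, Complex.re_ofReal_mul, Complex.ofReal_re]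
    rw [q1]
    exact Complex.abs_re_le_norm _
  refine ⟨?_, ?_⟩
  · have hcf : cf d m c0 E = W / D := by
      unfold cf
      rw [max_eq_left hE, hWd, hDd, mul_div_mul_left _ _ hpi.ne']
    have i1 := (w6 (fun k => star (chm m k)) (chm m)).1
    have i2 := (w6 (fun k => star (chm m k)) (chm m)).2
    have r1 : ∫ V : T d L → ℝ, (Tp (fun k => star (chm m k)) (chm m) E ε σ V).re ∂(GP (T d L)) =
        Y.re := by
      rw [hY]
      exact integral_re i1
    have r2 : ∫ V : T d L → ℝ, (Iv (chm m) E ε σ V).re ∂(GP (T d L)) = I.re := by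
      rw [hI]
      exact integral_re i2
    have hPh : ∫ V : T d L → ℝ, Ph m (cf d m c0) ε σ V E ∂(GP (T d L)) =
        ε * Y.re - 2 * (W / D) * I.re + (W / D) ^ 2 * M := by
      unfold Ph
      rw [hcf]
      have j1 : Integrable (fun V : T d L → ℝ =>
          ε * (Tp (fun k => star (chm m k)) (chm m) E ε σ V).re) (GP (T d L)) :=
        i1.re.const_mul ε
      have j2 : Integrable (fun V : T d L → ℝ =>
          2 * (W / D) * (Iv (chm m) E ε σ V).re) (GP (T d L)) :=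
        i2.re.const_mul (2 * (W / D))
      have j3 : Integrable (fun V : T d L → ℝ => (W / D) ^ 2 * DS E ε σ V) (GP (T d L)) :=
        w7.const_mul ((W / D) ^ 2)
      have j4 : Integrable (fun V : T d L → ℝ =>
          ε * (Tp (fun k => star (chm m k)) (chm m) E ε σ V).re -
            2 * (W / D) * (Iv (chm m) E ε σ V).re) (GP (T d L)) := j1.sub j2
      rw [integral_add j4 j3, integral_sub j1 j2, integral_const_mul,
        integral_const_mul, integral_const_mul, r1, r2, w8]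
    rw [hPh]
    refine est W D M (ζ + η1) ζ c0 η (η / 2) (ε * Y.re) I hWD hc0 hDc h7 hζ0.le ?_ hIW ?_ ?_ hT2 ?_
    · linarith
    · linarith
    · linarith
    · linarith
  · rw [← hMd, ← hDd]
    refine h7.trans ?_
    linarith

end Pool.Agent.T2h98.MR.K98
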