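import Pool.Agent.T2h98.MR.StmK
import Pool.Agent.T2h98.PS.PTO

/-! All energies. -/

set_option autoImplicit false
set_option linter.unusedSectionVars false

open scoped BigOperators Matrix Topology
open MeasureTheory ProbabilityTheory Filter

namespace Pool.Agent.T2h98.MR.K98

open Pool.Agent.W788.MFP.Four (T e NN adj K)
open Pool.Agent.W788.BK (nsq hs PP JJ hi Low cr)
open Pool.Agent.T2h98.QD
open Pool.Agent.T2h98.AC (TX RX mX sy Rb Fk)
open Pool.Agent.T2h98.KU
open Pool.Agent.T2h98.PS Pool.Agent.T2h98.MR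

open Pool.Agent.T2h98.PS.PTOP

theorem ptok (hL : T_PLIK) (hF : T_PFU) (hM : T_PWM) (hD : T_DOS) (hA : T_LAP) (hW : T_PWD) :
    T_PTOK := by
  intro κ d hd a ha m c0 η hc0 hη
  obtain ⟨hdc, -, hd0, -, hdz, -⟩ := hD d hd
  have hz : ∀ E, 2 * (d : ℝ) ≤ |E| → dn d E = 0 := fun E hE => (hdz E hE).1
  obtain ⟨-, -, hdi, hd1, -⟩ := hA d hd (fun _ => 0)
  obtain ⟨hwc, hwd⟩ := hM d hd m
  have hdR : (3 : ℝ) ≤ d := by exact_mod_cast hd
  set η1 : ℝ := η / (20 * d) with hη1
  have hη1p : 0 < η1 := by positivity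
  have e20 : 20 * d * η1 = η := by
    rw [hη1]
    field_simp
  obtain ⟨K0, hK01, hLK⟩ := hL κ d hd a ha m c0 η1 hc0 hη1p
  refine ⟨K0, hK01, fun K hK => ?_⟩
  have hK1 : 1 ≤ K := hK01.trans hK
  filter_upwards [hLK K hK, self_mem_nhdsWithin] with σ hσL hσ
  intro L _ hL1 hL2
  have hσ0 : 0 < σ := hσ
  have hε : 0 < σ ^ 2 / K := by positivity
  set ε := σ ^ 2 / K with hεdef
  have hmax : ∀ E, 0 < max (dn d E) c0 := fun E => lt_of_lt_of_le hc0 (le_max_right _ _)
  have hcc : Continuous (cf d m c0) := by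
    unfold cf
    exact hwc.div (hdc.max continuous_const) fun E => (hmax E).ne'
  have hc1 : ∀ E, |cf d m c0 E| ≤ 1 := by
    intro E
    unfold cf
    rw [abs_div, abs_of_pos (hmax E), div_le_one (hmax E)]
    exact (hwd E).trans (le_max_left _ _)
  obtain ⟨f1, -, f3, f4, f5, -, f7, -⟩ := hF d L m (cf d m c0) ε σ hε hσ0 hcc hc1
  have hgood := hσL L hL1 hL2
  have bad1 := bad hdc hd0 hz hdi hd1 hc0 hη1p.le (fun E => (me d L false E ε σ).im) f5 f7
    (fun E hE => (hgood E hE).2)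
  have bad2 := bad hdc hd0 hz hdi hd1 (c := 2 * c0) (by positivity) hη1p.le
    (fun E => (me d L false E ε σ).im) f5 f7 (fun E hE => (hgood E (by linarith)).2)
  have hpi4 : Real.pi ≤ 4 := Real.pi_le_four
  have hpi3 : 0 ≤ Real.pi := Real.pi_pos.le
  have hdc0 : 0 ≤ c0 * (4 * (d : ℝ)) := by positivity
  have hp1 : Real.pi * (c0 * (4 * d)) ≤ 4 * (c0 * (4 * (d : ℝ))) :=
    mul_le_mul_of_nonneg_right hpi4 hdc0
  constructor
  · rw [f3]
    set S : Set ℝ := {E : ℝ | c0 ≤ dn d E} with hS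
    have hSm : MeasurableSet S := (isClosed_le continuous_const hdc).measurableSet
    have hv : volume S ≤ ENNReal.ofReal (4 * d) := vol_le hz hc0
    have hvf : volume S < ⊤ := lt_of_le_of_lt hv ENNReal.ofReal_lt_top
    have hd4 : (0 : ℝ) ≤ 4 * d := by positivity
    have hvr : volume.real S ≤ 4 * d := ENNReal.toReal_le_of_le_ofReal hd4 hv
    have hprob : IsProbabilityMeasure (GP (T d L)) := by
      unfold GP PP
      infer_instance
    rw [← integral_add_compl hSm f4]
    have g1 : ∫ E in S, ∫ V : T d L → ℝ, Ph m (cf d m c0) ε σ V E ∂(GP (T d L)) ≤ 4 * d * η1 := by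
      have b1 : ∫ E in S, ∫ V : T d L → ℝ, Ph m (cf d m c0) ε σ V E ∂(GP (T d L)) ≤
          ∫ E in S, η1 := by
        refine setIntegral_mono_on f4.integrableOn (integrableOn_const hvf.ne) hSm fun E hE => ?_
        exact (le_abs_self _).trans (hgood E hE).1
      refine b1.trans ?_
      rw [setIntegral_const, smul_eq_mul]
      exact mul_le_mul_of_nonneg_right hvr hη1p.le
    have g2 : ∫ E in Sᶜ, ∫ V : T d L → ℝ, Ph m (cf d m c0) ε σ V E ∂(GP (T d L)) ≤
        4 * ∫ E in Sᶜ, (me d L false E ε σ).im := by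
      rw [← integral_const_mul]
      refine setIntegral_mono_on f4.integrableOn (f5.const_mul 4).integrableOn hSm.compl
        fun E _ => ?_
      obtain ⟨-, -, -, -, -, -, w7, w8⟩ := hW d L E ε σ hε
      rw [← w8, ← integral_const_mul]
      refine (le_abs_self _).trans ?_
      rw [← Real.norm_eq_abs]
      refine norm_integral_le_of_norm_le (w7.const_mul 4) (Filter.Eventually.of_forall fun V => ?_)
      rw [Real.norm_eq_abs]
      exact f1 V E
    linarith
  · have hset : {E : ℝ | dn d E < 2 * c0} = {E : ℝ | 2 * c0 ≤ dn d E}ᶜ := by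
      ext E
      simp
    rw [hset]
    linarith

end Pool.Agent.T2h98.MR.K98
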