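import Pool.Agent.T2h98.MR.StmK
import Pool.Agent.T2h98.MR.TOB

/-! The time average on the torus is close to a function of the energy (TOB). -/

set_option autoImplicit false
set_option linter.unusedSectionVars false

open scoped BigOperators Matrix Topology
open MeasureTheory ProbabilityTheory Filter

namespace Pool.Agent.T2h98.MR.K98

open Pool.Agent.T2h98.MR

open Pool.Agent.W788.MFP.Four (T e NN adj K)
open Pool.Agent.W788.BK (nsq hs JJ hi Low cr)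
open Pool.Agent.TH980.IM.PR (PP sh)
open Pool.Agent.T2h98.QD (Zd ev HT dl rep Mo GP dn T_DOS)
open Pool.Agent.T2h98.PS


open Tob in
theorem t_TOBK (hT : T_PTOK) (hF : T_PFU) (hE : T_PDE) (hP : T_PPO) (hM : T_PWM) (hD : T_DOS)
    (hX : T_PEX) (hS : T_SNC) (hO : T_OUT) (hZ : T_ZEG) (hR : T_ZTR) : T_TOBK := by
  classical
  intro κ d hd m c0 η hc0 hη
  obtain ⟨K0, hK01, hTK⟩ := hT κ d hd 1 one_pos m c0 η hc0 hη
  refine ⟨K0, hK01, fun n a t hq => ?_⟩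
  have hK00 : 0 < K0 := one_pos.trans_le hK01
  obtain ⟨K, hK⟩ : ∃ K : ℝ, K = 1 + ∑ i, ‖a i‖ := ⟨_, rfl⟩
  have hK1 : 1 ≤ K := by
    rw [hK]
    have : 0 ≤ ∑ i, ‖a i‖ := Finset.sum_nonneg fun i _ => norm_nonneg _
    linarith
  have ccont := cf_cont (m := m) hd hM hD hc0
  have cle := cf_le (m := m) hd hM hc0
  have csup := cf_supp (m := m) (c0 := c0) hd hM hD
  obtain ⟨ε1, hε1, hP1⟩ := hP.1 _ ccont csup η hη
  obtain ⟨ε2, hε2, hP2⟩ := hP.1 (fun E => cf d m c0 E ^ 2) (ccont.pow 2)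
    (csup.comp_left (g := fun x : ℝ => x ^ 2) (by norm_num)) η hη
  have hsm : 0 < η / K ^ 2 := by positivity
  filter_upwards [hTK K0 le_rfl, self_mem_nhdsWithin,
    rpow_small (p := 2) (by norm_num) hε1, rpow_small (p := 2) (by norm_num) hε2,
    rpow_small (p := 2) (by norm_num) hsm]
    with σ hTσ hσ0 hs1 hs2 hs3 L _ hL1 hL2 M hMσ
  have hσ0' : 0 < σ := hσ0
  have hN0 := Pool.Agent.W788.MFP.Four.NN_pos (d := d) (L := L)
  obtain ⟨ε, hε⟩ : ∃ ε : ℝ, ε = σ ^ 2 / K0 := ⟨_, rfl⟩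
  have hsq2' : σ ^ (2 : ℝ) = σ ^ 2 := by
    rw [← Real.rpow_natCast]
    norm_num
  have hεle : ε ≤ σ ^ (2 : ℝ) := by
    rw [hε, hsq2']
    exact div_le_self (by positivity) hK01
  replace hs1 := lt_of_le_of_lt hεle hs1
  replace hs2 := lt_of_le_of_lt hεle hs2
  have hε0 : 0 < ε := by rw [hε]; positivity
  have hMε : 2 * K0 / σ ^ 2 = 2 / ε := by
    rw [hε]
    field_simp
  rw [hMε] at hMσ
  have hM0 : (0 : ℝ) < M := lt_of_lt_of_le (by positivity) hMσ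
  have hM1 : 1 ≤ M := by exact_mod_cast hM0
  have hL1' : σ ^ (-2 - (1 : ℝ)) ≤ (L : ℝ) := by
    have : (-2 - (1 : ℝ)) = -3 := by norm_num
    rw [this]
    exact hL1
  obtain ⟨hT1, -⟩ := hTσ L hL1' hL2
  rw [← hε] at hT1
  obtain ⟨hF1, hF2, hF3, hF4, hF5, hF6, hF7, hF8⟩ :=
    hF d L m (cf d m c0) ε σ hε0 hσ0' ccont cle
  have hprob : IsProbabilityMeasure (GP (T d L)) := by
    show IsProbabilityMeasure (Measure.pi fun _ : T d L => gaussianReal 0 1)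
    infer_instance
  obtain ⟨-, -, hR3⟩ := hR d L m M hM1 n a t σ
  rw [hR3]
  obtain ⟨Y, hY⟩ : ∃ Y : (T d L → ℝ) → ℝ, Y = fun V => (NN d L * (2 * Real.pi⁻¹)) *
    (∫ E : ℝ, Ph m (cf d m c0) ε σ V E) + ((2 * K ^ 2 * σ ^ 2) * (∑ x, V x ^ 2) +
      (NN d L * (6 * η + 2 * η ^ 2))) := ⟨_, rfl⟩
  have hpt : ∀ V : T d L → ℝ, (∑ x, ∑ y, ‖ZT m M a t σ V x y‖ ^ 2) ≤ Y V := by
    intro V
    obtain ⟨u, w, huw⟩ := hX d L σ V
    rw [hZ d L m M hM1 n a t σ V u w huw]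
    refine (tob_pt hM hS hO hd m hc0 hε0 a t hq M hM1 hMσ V u w huw).trans ?_
    have h1 := hE d L m (cf d m c0) ε σ η hε0 ccont cle (hP1 ε hε0 hs1) (hP2 ε hε0 hs2) V u w huw
    rw [inv_mul_le_iff₀ hN0] at h1
    rw [hY, ← hK]
    simp only
    linarith
  have hsq : Integrable (fun V : T d L → ℝ => ∑ x, V x ^ 2) (GP (T d L)) :=
    integrable_finsetSum _ fun x _ => (int_sq x).1
  have hsq2 : ∫ V : T d L → ℝ, (∑ x, V x ^ 2) ∂(GP (T d L)) = NN d L := by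
    rw [integral_finsetSum _ fun x _ => (int_sq x).1]
    rw [Finset.sum_congr rfl fun x _ => (int_sq (d := d) (L := L) x).2]
    rw [Finset.sum_const, nsmul_eq_mul, mul_one]
    exact Pool.Agent.W788.MFP.Four.card_T
  have hYi : Integrable Y (GP (T d L)) := by
    rw [hY]
    exact (hF2.const_mul _).add ((hsq.const_mul _).add (integrable_const _))
  have hYint : ∫ V, Y V ∂(GP (T d L)) = (NN d L * (2 * Real.pi⁻¹)) * (∫ V : T d L → ℝ,
        (∫ E : ℝ, Ph m (cf d m c0) ε σ V E) ∂(GP (T d L))) + ((2 * K ^ 2 * σ ^ 2) * NN d L +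
      (NN d L * (6 * η + 2 * η ^ 2))) := by
    have i1 : Integrable (fun V : T d L → ℝ => (2 * K ^ 2 * σ ^ 2) * (∑ x, V x ^ 2))
      (GP (T d L)) := hsq.const_mul _
    have i2 : Integrable (fun V : T d L → ℝ => (2 * K ^ 2 * σ ^ 2) * (∑ x, V x ^ 2) +
      (NN d L * (6 * η + 2 * η ^ 2))) (GP (T d L)) := i1.add (integrable_const _)
    have i3 : Integrable (fun V : T d L → ℝ => (NN d L * (2 * Real.pi⁻¹)) *
      (∫ E : ℝ, Ph m (cf d m c0) ε σ V E)) (GP (T d L)) := hF2.const_mul _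
    rw [hY]
    simp only
    rw [integral_add i3 i2, integral_const_mul, integral_add i1 (integrable_const _),
      integral_const_mul, integral_const, hsq2]
    simp
  have hle : ∫ V : T d L → ℝ, (∑ x, ∑ y, ‖ZT m M a t σ V x y‖ ^ 2) ∂(GP (T d L)) ≤
      ∫ V, Y V ∂(GP (T d L)) := by
    refine integral_mono_of_nonneg (ae_of_all _ fun V => ?_) hYi (ae_of_all _ hpt)
    exact Finset.sum_nonneg fun x _ => Finset.sum_nonneg fun y _ => sq_nonneg _
  rw [hYint] at hle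
  rw [inv_mul_le_iff₀ hN0]
  refine hle.trans ?_
  have h2 : 2 * Real.pi⁻¹ ≤ 1 := by
    have h3 : (Real.pi⁻¹ : ℝ) ≤ 2⁻¹ := by
      rw [inv_le_inv₀ Real.pi_pos (by norm_num)]
      linarith [Real.pi_gt_three]
    linarith
  have h3 : 0 ≤ Real.pi⁻¹ := by positivity
  have h4 : 2 * (Real.pi⁻¹ * (∫ V : T d L → ℝ,
      (∫ E : ℝ, Ph m (cf d m c0) ε σ V E) ∂(GP (T d L)))) ≤ η + 100 * d * c0 := by
    calc _ ≤ 2 * (Real.pi⁻¹ * (η + 100 * d * c0)) := by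
          have := mul_le_mul_of_nonneg_left hT1 h3
          linarith
      _ = (2 * Real.pi⁻¹) * (η + 100 * d * c0) := by ring
      _ ≤ 1 * (η + 100 * d * c0) := mul_le_mul_of_nonneg_right h2 (by positivity)
      _ = _ := one_mul _
  have h5 : K ^ 2 * σ ^ 2 ≤ η := by
    have h6 : σ ^ (2 : ℝ) = σ ^ 2 := by
      rw [← Real.rpow_natCast]
      norm_num
    rw [h6, lt_div_iff₀ (by positivity)] at hs3
    linarith
  have h7 : (NN d L * (2 * Real.pi⁻¹)) * (∫ V : T d L → ℝ,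
        (∫ E : ℝ, Ph m (cf d m c0) ε σ V E) ∂(GP (T d L))) + ((2 * K ^ 2 * σ ^ 2) * NN d L +
      (NN d L * (6 * η + 2 * η ^ 2))) = NN d L * (2 * (Real.pi⁻¹ * (∫ V : T d L → ℝ,
        (∫ E : ℝ, Ph m (cf d m c0) ε σ V E) ∂(GP (T d L)))) + 6 * η + 2 * η ^ 2 +
          2 * (K ^ 2 * σ ^ 2)) := by ring
  rw [h7]
  apply mul_le_mul_of_nonneg_left _ hN0.le
  nlinarith [sq_nonneg η]

end Pool.Agent.T2h98.MR.K98
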