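import Pool.Agent.T2h98.MR.All
import Pool.Agent.T2h98.MR.PLIK98
import Pool.Agent.T2h98.MR.PTOK98
import Pool.Agent.T2h98.MR.TOBK98
import Pool.Agent.T2h98.MR.INFK
import Pool.Agent.T2h98.MR.MRK

/-! Relaxation of the momentum from the kinetic time on: all parts. -/

set_option autoImplicit false

namespace Pool.Agent.T2h98.MR.All

open Pool.Agent.T2h98.QD Pool.Agent.T2h98.KU Pool.Agent.T2h98.PS Pool.Agent.T2h98.PS.All
open Pool.Agent.T2h98.MR Pool.Agent.T2h98.NB Pool.Agent.T2h98.EA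

theorem plikA : T_PLIK := K98.t_PLIK kgeA prelA prbA pcauA pwdA t_PSY pwmA U.dosF

theorem ptokA : T_PTOK := K98.ptok plikA pfuA pwmA U.dosF (lap U.dosF) pwdA

theorem tobkA : T_TOBK :=
  K98.t_TOBK ptokA pfuA pdeA T_PPO_holds pwmA U.dosF t_PEX MR.snc MR.out (t_ZEG t_TEV) ZTR.ztr

theorem infkA : T_INFK := t_INFK traA tobkA ZTR.ztr law

theorem mrkA : T_MRK :=
  mrk BOPx.t_BOP infkA (t_ROC NB.All.xtA SNFx.t_SNF) mxsA qcv fre (cfm pwmA U.dosF) tr2
    (t_QBD EA.All.speA) NB.All.xtA SNFx.t_SNF pwmA U.dosF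

end Pool.Agent.T2h98.MR.All
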