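import Pool.Agent.T2h98.MR.StmU
import Pool.Agent.T2h98.MR.MR

/-! Relaxation of the momentum in most kinetic windows, at all times: lemmas. -/

set_option autoImplicit false
set_option linter.unusedSectionVars false
set_option linter.unusedVariables false

open scoped BigOperators Matrix Topology
open MeasureTheory ProbabilityTheory Filter

namespace Pool.Agent.T2h98.MR.U98

open Pool.Agent.TH980.IM.PR (PP sh)
open Pool.Agent.T2h98.QD (dn T_DOS)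
open Pool.Agent.T2h98.PS
open Pool.Agent.T2h98.NB
open Pool.Agent.T2h98.EA (SN Uni1 T_SNF T_MAX)
open Pool.Agent.T2h98.MR Pool.Agent.T2h98.MR.MRx

variable {d : ℕ}

/-- the value for the group with disorder -/
theorem stat (hF : T_FRE) (hCf : T_CFM) (hM : T_PWM) (hD : T_DOS)
    (hd : 3 ≤ d) {U : Om d → ℝ → L2 d →L[ℂ] L2 d} (hG : Grp U) {m : Sd d}
    (S : Finset (Sd d)) (f : Sd d → ℂ) {n : ℕ}
    (a : Fin n → ℂ) (t : Fin n → ℝ) {c0 η1 : ℝ} (hc : 0 < c0)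
    (h : ∀ E : ℝ, |E| ≤ 2 * (d : ℝ) + 1 → ‖qE a t E - (cf d m c0 E : ℂ)‖ ≤ η1)
    (V : Om d) {e1 : ℝ}
    (he : ‖qU U a t V (vf S f) - qU U a t 0 (vf S f)‖ ≤ e1) :
    ‖(inner ℂ (vf S f) (qU U a t V (vf S f)) : ℂ) -
      ((∫ k in Set.Icc (0 : Fin d → ℝ) 1, ‖fh S f k‖ ^ 2 * (wm d m (ek k) / dn d (ek k)) : ℝ) :
        ℂ)‖ ≤ ((∑ y ∈ S, ‖f y‖) + 1) ^ 2 * (e1 + η1 + 16 * d * c0) := by
  obtain ⟨F, hFd⟩ : ∃ F : L2 d, F = vf S f := ⟨_, rfl⟩
  obtain ⟨F1, hF1⟩ : ∃ F1 : ℝ, F1 = ∑ y ∈ S, ‖f y‖ := ⟨_, rfl⟩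
  have hη1 : 0 ≤ η1 := (norm_nonneg _).trans (h 0 (by rw [abs_zero]; positivity))
  have he0 : 0 ≤ e1 := (norm_nonneg _).trans he
  have hF10 : 0 ≤ F1 := by
    rw [hF1]
    exact Finset.sum_nonneg fun y _ => norm_nonneg _
  have hnF : ‖F‖ ≤ F1 := by
    rw [hFd, hF1]
    exact norm_vf S f
  have hn0 : 0 ≤ ‖F‖ := norm_nonneg _
  have hA2 : ‖F‖ ≤ (F1 + 1) ^ 2 := by nlinarith
  have hA3 : F1 ^ 2 ≤ (F1 + 1) ^ 2 := pow_le_pow_left₀ hF10 (by linarith) 2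
  have E4 : ‖(inner ℂ F (qU U a t V F - qU U a t 0 F) : ℂ)‖ ≤ (F1 + 1) ^ 2 * e1 := by
    rw [← hFd] at he
    exact (norm_inner_le_norm _ _).trans (mul_le_mul hA2 he (norm_nonneg _) (by positivity))
  have E5 := free_part hF hG S f a t
  have E6 := free_err hM hD hd m hc S f a t h
  rw [← E5, ← hF1, ← hFd] at E6
  have E7 := hCf d hd m (fun k => ‖fh S f k‖ ^ 2) (F1 ^ 2) c0 ((FRE.fh_cont S f).norm.pow 2)
    (fun k => by
      rw [abs_of_nonneg (by positivity), hF1]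
      exact pow_le_pow_left₀ (norm_nonneg _) (FRE.fh_le S f k) 2) hc
  have E7' : ‖((∫ k in Set.Icc (0 : Fin d → ℝ) 1, ‖fh S f k‖ ^ 2 * cf d m c0 (ek k) : ℝ) : ℂ) -
      ((∫ k in Set.Icc (0 : Fin d → ℝ) 1, ‖fh S f k‖ ^ 2 * (wm d m (ek k) / dn d (ek k)) : ℝ) :
        ℂ)‖ ≤ 16 * d * F1 ^ 2 * c0 := by
    rw [← Complex.ofReal_sub, Complex.norm_real, Real.norm_eq_abs]
    exact E7
  rw [← hFd, ← hF1]
  obtain ⟨Y0, hY0⟩ : ∃ Y0 : ℂ, Y0 = ((∫ k in Set.Icc (0 : Fin d → ℝ) 1,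
    ‖fh S f k‖ ^ 2 * (wm d m (ek k) / dn d (ek k)) : ℝ) : ℂ) := ⟨_, rfl⟩
  obtain ⟨Z0, hZ0⟩ : ∃ Z0 : ℂ, Z0 = ((∫ k in Set.Icc (0 : Fin d → ℝ) 1,
    ‖fh S f k‖ ^ 2 * cf d m c0 (ek k) : ℝ) : ℂ) := ⟨_, rfl⟩
  rw [← hY0] at E7' ⊢
  rw [← hZ0] at E6 E7'
  rw [inner_sub_right] at E4
  have key : (inner ℂ F (qU U a t V F) : ℂ) - Y0 =
      (inner ℂ F (qU U a t V F) - inner ℂ F (qU U a t 0 F)) +
      (inner ℂ F (qU U a t 0 F) - Z0) + (Z0 - Y0) := by ring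
  rw [key]
  refine (norm_add_le _ _).trans ?_
  refine (add_le_add_left (norm_add_le _ _) _).trans ?_
  have h2 : F1 ^ 2 * η1 ≤ (F1 + 1) ^ 2 * η1 := mul_le_mul_of_nonneg_right hA3 hη1
  have h3 : 16 * d * F1 ^ 2 * c0 ≤ (F1 + 1) ^ 2 * (16 * d * c0) := by
    have : 16 * (d : ℝ) * F1 ^ 2 * c0 = F1 ^ 2 * (16 * d * c0) := by ring
    rw [this]
    exact mul_le_mul_of_nonneg_right hA3 (by positivity)
  linarith

theorem qU_apply (U : Om d → ℝ → L2 d →L[ℂ] L2 d) {n : ℕ} (a : Fin n → ℂ) (t : Fin n → ℝ)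
    (V : Om d) (G : L2 d) : qU U a t V G = ∑ i, a i • U V (t i) G := by
  unfold qU
  rw [sum_apply]
  rfl

theorem comm_qU (hX : T_XT) {U : Om d → ℝ → L2 d →L[ℂ] L2 d} (hG : Grp U) {n : ℕ}
    (a : Fin n → ℂ) (t : Fin n → ℝ) (V : Om d) (s : ℝ) (F : L2 d) :
    (inner ℂ (U V s F) (qU U a t V (U V s F)) : ℂ) = inner ℂ F (qU U a t V F) := by
  obtain ⟨h1, -⟩ := hX d U hG
  rw [qU_apply, qU_apply, inner_sum, inner_sum]
  refine Finset.sum_congr rfl fun i _ => ?_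
  rw [inner_smul_right, inner_smul_right, h1, ← hG.g0.add, ← hG.g0.add]
  congr 3
  ring_nf

theorem wint (hX : T_XT) {U : Om d → ℝ → L2 d →L[ℂ] L2 d} (hG : Grp U) {m : Sd d}
    {B : Om d → L2 d →L[ℂ] L2 d} (hB : IsB U m B) (V : Om d) (M k : ℕ) (F : L2 d) :
    ∫ s in (k : ℝ)..(k + M), (inner ℂ (U V s F) (Sf (-m) (U V s F)) : ℂ) =
      inner ℂ (U V k F) (SN U B M V (U V k F)) := by
  rw [← tint hX hG hB V M (U V k F)]
  have h1 : ∀ s : ℝ, U V s (U V k F) = U V (s + k) F := fun s => (hG.g0.add V s k F).symm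
  simp only [h1]
  rw [intervalIntegral.integral_comp_add_right
    (fun s => (inner ℂ (U V s F) (Sf (-m) (U V s F)) : ℂ)) (k : ℝ), zero_add, add_comm (k : ℝ)]

theorem wone (hX : T_XT) {U : Om d → ℝ → L2 d →L[ℂ] L2 d} (hG : Grp U) {m : Sd d}
    {B : Om d → L2 d →L[ℂ] L2 d} (hB : IsB U m B) {n : ℕ} (a : Fin n → ℂ) (t : Fin n → ℝ)
    (V : Om d) (M k : ℕ) (F : L2 d) :
    ‖(M : ℂ)⁻¹ * (∫ s in (k : ℝ)..(k + M), (inner ℂ (U V s F) (Sf (-m) (U V s F)) : ℂ)) -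
      inner ℂ F (qU U a t V F)‖ ≤ ‖F‖ * ‖RO U B M a t V (U V k F)‖ := by
  rw [wint hX hG hB, ← comm_qU hX hG a t V k F]
  have h1 : (M : ℂ)⁻¹ * (inner ℂ (U V k F) (SN U B M V (U V k F)) : ℂ) -
      inner ℂ (U V k F) (qU U a t V (U V k F)) =
      inner ℂ (U V k F) (RO U B M a t V (U V k F)) := by
    have h2 : RO U B M a t V (U V k F) =
        ((M : ℂ)⁻¹) • SN U B M V (U V k F) - qU U a t V (U V k F) := rfl
    rw [h2, inner_sub_right, inner_smul_right]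
  rw [h1]
  refine (norm_inner_le_norm _ _).trans (le_of_eq ?_)
  rw [hG.g0.norm]

theorem wreal {g : ℝ → ℂ} (hg : Continuous g) {C : ℝ} (hC : ∀ s, ‖g s‖ ≤ C) {W : ℝ} (hW : 0 < W)
    {M : ℕ} (h1 : W ≤ M) (h2 : (M : ℝ) ≤ W + 1) {k t : ℝ} (hk : k ≤ t) (hk1 : t ≤ k + 1) :
    ‖((W⁻¹ : ℝ) : ℂ) * (∫ s in t..(t + W), g s) - (M : ℂ)⁻¹ * ∫ s in k..(k + M), g s‖ ≤
      3 * C / W := by
  have hC0 : 0 ≤ C := (norm_nonneg _).trans (hC 0)
  have hM0 : (0 : ℝ) < M := hW.trans_le h1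
  have hi : ∀ a b : ℝ, IntervalIntegrable g volume a b := fun a b => hg.intervalIntegrable a b
  have e1 : (∫ s in k..t, g s) + (∫ s in t..(t + W), g s) = ∫ s in k..(t + W), g s :=
    intervalIntegral.integral_add_adjacent_intervals (hi _ _) (hi _ _)
  have e2 : (∫ s in k..(t + W), g s) + (∫ s in (t + W)..(k + M), g s) = ∫ s in k..(k + M), g s :=
    intervalIntegral.integral_add_adjacent_intervals (hi _ _) (hi _ _)
  have n1 : ‖∫ s in k..t, g s‖ ≤ C := by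
    refine (intervalIntegral.norm_integral_le_of_norm_le_const (C := C) fun s _ => hC s).trans ?_
    rw [abs_of_nonneg (by linarith)]
    nlinarith
  have n2 : ‖∫ s in (t + W)..(k + M), g s‖ ≤ C := by
    refine (intervalIntegral.norm_integral_le_of_norm_le_const (C := C) fun s _ => hC s).trans ?_
    have h3 : |k + M - (t + W)| ≤ 1 := abs_le.2 ⟨by linarith, by linarith⟩
    nlinarith
  have n3 : ‖∫ s in k..(k + M), g s‖ ≤ C * M := by
    refine (intervalIntegral.norm_integral_le_of_norm_le_const (C := C) fun s _ => hC s).trans ?_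
    rw [add_sub_cancel_left, abs_of_pos hM0]
  obtain ⟨I1, hI1⟩ : ∃ I : ℂ, I = ∫ s in t..(t + W), g s := ⟨_, rfl⟩
  obtain ⟨I2, hI2⟩ : ∃ I : ℂ, I = ∫ s in k..(k + M), g s := ⟨_, rfl⟩
  obtain ⟨J1, hJ1⟩ : ∃ I : ℂ, I = ∫ s in k..t, g s := ⟨_, rfl⟩
  obtain ⟨J2, hJ2⟩ : ∃ I : ℂ, I = ∫ s in (t + W)..(k + M), g s := ⟨_, rfl⟩
  rw [← hI1, ← hI2]
  rw [← hI2] at n3
  rw [← hJ1] at n1
  rw [← hJ2] at n2
  have e3 : I2 = J1 + I1 + J2 := by
    rw [hI2, ← e2, ← e1, hJ1, hI1, hJ2]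
  have e4 : ((W⁻¹ : ℝ) : ℂ) * I1 - (M : ℂ)⁻¹ * I2 =
      (((W⁻¹ - (M : ℝ)⁻¹ : ℝ) : ℂ) * I2) - ((W⁻¹ : ℝ) : ℂ) * J1 - ((W⁻¹ : ℝ) : ℂ) * J2 := by
    rw [e3]
    push_cast
    ring
  rw [e4]
  refine (norm_sub_le _ _).trans ((add_le_add_left (norm_sub_le _ _) _).trans ?_)
  rw [norm_mul, norm_mul, norm_mul, Complex.norm_real, Complex.norm_real, Real.norm_eq_abs,
    Real.norm_eq_abs, abs_of_pos (inv_pos.2 hW), abs_of_nonneg (sub_nonneg.2 (inv_anti₀ hW h1))]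
  have h4 : (W⁻¹ - (M : ℝ)⁻¹) * ‖I2‖ ≤ (W⁻¹ - (M : ℝ)⁻¹) * (C * M) :=
    mul_le_mul_of_nonneg_left n3 (sub_nonneg.2 (inv_anti₀ hW h1))
  have h5 : (W⁻¹ - (M : ℝ)⁻¹) * (C * M) ≤ C / W := by
    have : (W⁻¹ - (M : ℝ)⁻¹) * (C * M) = C * (M - W) / W := by
      field_simp
    rw [this, div_le_div_iff_of_pos_right hW]
    nlinarith
  have h6 : W⁻¹ * ‖J1‖ ≤ C / W := by
    rw [inv_mul_eq_div, div_le_div_iff_of_pos_right hW]
    exact n1
  have h7 : W⁻¹ * ‖J2‖ ≤ C / W := by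
    rw [inv_mul_eq_div, div_le_div_iff_of_pos_right hW]
    exact n2
  have h8 : 3 * C / W = C / W + C / W + C / W := by ring
  rw [h8]
  linarith

theorem sumR (hX : T_XT) {U : Om d → ℝ → L2 d →L[ℂ] L2 d} (hG : Grp U)
    (R : Om d → L2 d →L[ℂ] L2 d) (V : Om d) (F : L2 d) (n : ℕ) :
    ∑ k ∈ Finset.range n, ‖R V (U V k F)‖ ^ 2 =
      (inner ℂ F (SN U (fun W => (ContinuousLinearMap.adjoint (R W)).comp (R W)) n V F) : ℂ).re := by
  obtain ⟨h1, -⟩ := hX d U hG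
  unfold SN
  rw [sum_apply, inner_sum, Complex.re_sum]
  refine Finset.sum_congr rfl fun k _ => ?_
  have h2 : ((U V (-(k : ℝ))).comp (((ContinuousLinearMap.adjoint (R V)).comp (R V)).comp
      (U V (k : ℝ)))) F = U V (-(k : ℝ)) (ContinuousLinearMap.adjoint (R V) (R V (U V k F))) := rfl
  rw [h2, ← h1, ContinuousLinearMap.adjoint_inner_right, inner_self_eq_norm_sq_to_K]
  norm_cast

theorem tint_le {φ : ℝ → ℝ} (hφ : Continuous φ) (h0 : ∀ t, 0 ≤ φ t) {D : ℕ → ℝ} {Ds : ℝ}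
    (h : ∀ (k : ℕ) (t : ℝ), (k : ℝ) ≤ t → t ≤ k + 1 → φ t ≤ D k)
    (hD : ∀ n : ℕ, 1 ≤ n → ∑ k ∈ Finset.range n, D k ≤ n * Ds) (hDs : 0 ≤ Ds) {τ : ℝ}
    (hτ : 0 < τ) : τ⁻¹ * ∫ t in (0 : ℝ)..τ, φ t ≤ 2 * Ds := by
  have hi : ∀ a b : ℝ, IntervalIntegrable φ volume a b := fun a b => hφ.intervalIntegrable a b
  rcases lt_or_ge τ 1 with h1 | h1
  · have h2 : ∫ t in (0 : ℝ)..τ, φ t ≤ ∫ t in (0 : ℝ)..τ, D 0 := by
      refine intervalIntegral.integral_mono_on hτ.le (hi _ _) intervalIntegrable_const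
        fun t ht => h 0 t (by simpa using ht.1) ?_
      push_cast
      linarith [ht.2]
    rw [intervalIntegral.integral_const, smul_eq_mul, sub_zero] at h2
    have h3 := hD 1 le_rfl
    rw [Finset.sum_range_one] at h3
    push_cast at h3
    have h4 : τ⁻¹ * ∫ t in (0 : ℝ)..τ, φ t ≤ τ⁻¹ * (τ * D 0) :=
      mul_le_mul_of_nonneg_left h2 (inv_pos.2 hτ).le
    rw [← mul_assoc, inv_mul_cancel₀ hτ.ne', one_mul] at h4
    linarith
  · obtain ⟨n, hn⟩ : ∃ n : ℕ, n = ⌈τ⌉₊ := ⟨_, rfl⟩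
    have hn1 : τ ≤ n := by rw [hn]; exact Nat.le_ceil _
    have hn2 : (n : ℝ) < τ + 1 := by rw [hn]; exact Nat.ceil_lt_add_one hτ.le
    have hn3 : 1 ≤ n := by
      have : (1 : ℝ) ≤ n := h1.trans hn1
      exact_mod_cast this
    have h2 : ∫ t in (0 : ℝ)..τ, φ t ≤ ∫ t in (0 : ℝ)..n, φ t := by
      rw [← intervalIntegral.integral_add_adjacent_intervals (hi 0 τ) (hi τ n)]
      have : 0 ≤ ∫ t in τ..n, φ t := intervalIntegral.integral_nonneg hn1 fun t _ => h0 t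
      linarith
    have h3 : ∫ t in (0 : ℝ)..n, φ t = ∑ k ∈ Finset.range n, ∫ t in (k : ℝ)..(k + 1 : ℕ), φ t := by
      have := intervalIntegral.sum_integral_adjacent_intervals (μ := volume) (f := φ)
        (a := fun k : ℕ => (k : ℝ)) (n := n) fun k _ => hi _ _
      rw [this]
      norm_num
    have h4 : ∑ k ∈ Finset.range n, ∫ t in (k : ℝ)..(k + 1 : ℕ), φ t ≤
        ∑ k ∈ Finset.range n, D k := by
      refine Finset.sum_le_sum fun k _ => ?_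
      have h5 : ∫ t in (k : ℝ)..(k + 1 : ℕ), φ t ≤ ∫ t in (k : ℝ)..(k + 1 : ℕ), D k := by
        refine intervalIntegral.integral_mono_on (by push_cast; linarith) (hi _ _)
          intervalIntegrable_const fun t ht => h k t ht.1 ?_
        have := ht.2
        push_cast at this
        exact this
      rw [intervalIntegral.integral_const, smul_eq_mul] at h5
      push_cast at h5 ⊢
      linarith
    have h6 := hD n hn3
    have h7 : ∫ t in (0 : ℝ)..τ, φ t ≤ n * Ds := by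
      rw [h3] at h2
      linarith
    rw [inv_mul_le_iff₀ hτ]
    have h8 : (n : ℝ) * Ds ≤ (2 * τ) * Ds := mul_le_mul_of_nonneg_right (by linarith) hDs
    linarith

/-- **relaxation of the momentum in most kinetic windows, at all times**, from the parts -/
theorem mru98 (hB : T_BOP) (hI : T_INFK) (hC : T_ROC) (hMx : T_MXS) (hQ : T_QCV) (hF : T_FRE)
    (hCf : T_CFM) (hT : T_TR2) (hBd : T_QBD) (hX : T_XT) (hS : T_SNF) (hPW : T_PWM)
    (hD : T_DOS) (hCov : T_COV) : T_MRU := by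
  intro d hd U hG m S η hη
  obtain ⟨B, hBB⟩ := hB d U hG m
  obtain ⟨c, hcd⟩ : ∃ c : ℝ, c = (S.card : ℝ) := ⟨_, rfl⟩
  have hc0' : 0 ≤ c := by rw [hcd]; exact Nat.cast_nonneg _
  obtain ⟨A, hA⟩ : ∃ A : ℝ, A = (c + 1) ^ 2 := ⟨_, rfl⟩
  have hA1 : 1 ≤ A := by
    rw [hA]
    nlinarith
  have hA0 : 0 < A := by linarith
  -- the constants
  obtain ⟨δ, hδ⟩ : ∃ δ : ℝ, δ = min 1 (η / (200 * A ^ 2)) := ⟨_, rfl⟩
  have hδ0 : 0 < δ := by
    rw [hδ]
    exact lt_min one_pos (by positivity)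
  have hδ1 : δ ≤ 1 := by
    rw [hδ]
    exact min_le_left _ _
  have hAδ : 200 * A ^ 2 * δ ≤ η := by
    have h1 : δ ≤ η / (200 * A ^ 2) := by
      rw [hδ]
      exact min_le_right _ _
    rw [le_div_iff₀ (by positivity)] at h1
    linarith
  have hsq : Real.sqrt (2 * (δ ^ 2 / 2)) = δ := by
    rw [show 2 * (δ ^ 2 / 2) = δ ^ 2 by ring]
    exact Real.sqrt_sq hδ0.le
  obtain ⟨w, hw⟩ : ∃ w : ℝ, w = δ ^ 2 / 2 * (δ / 9) ^ 2 := ⟨_, rfl⟩
  have hw0 : 0 < w := by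
    rw [hw]
    positivity
  obtain ⟨r, hr⟩ : ∃ r : ℝ, r = η / 2 * w / (9 * (c + 1)) := ⟨_, rfl⟩
  have hr0 : 0 < r := by
    rw [hr]
    positivity
  have hSr : c * (9 * r / w) ≤ η / 2 := by
    have h1 : 9 * r / w = η / 2 / (c + 1) := by
      rw [hr]
      field_simp
    rw [h1, mul_div_assoc', div_le_iff₀ (by positivity)]
    nlinarith
  obtain ⟨c0, hc0⟩ : ∃ c0 : ℝ, c0 = min (r / (600 * d)) (δ / (16 * d)) := ⟨_, rfl⟩
  have hd0 : (0 : ℝ) < d := by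
    have : 0 < d := by omega
    exact_mod_cast this
  have hc : 0 < c0 := by
    rw [hc0]
    exact lt_min (by positivity) (by positivity)
  have hc1 : 300 * d * c0 ≤ r / 2 := by
    have h1 : c0 ≤ r / (600 * d) := by
      rw [hc0]
      exact min_le_left _ _
    calc 300 * d * c0 ≤ 300 * d * (r / (600 * d)) := mul_le_mul_of_nonneg_left h1 (by positivity)
      _ = r / 2 := by
        field_simp
        ring
  have hc2 : 16 * d * c0 ≤ δ := by
    have h1 : c0 ≤ δ / (16 * d) := by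
      rw [hc0]
      exact min_le_right _ _
    calc 16 * d * c0 ≤ 16 * d * (δ / (16 * d)) := mul_le_mul_of_nonneg_left h1 (by positivity)
      _ = δ := by
        field_simp
  obtain ⟨η1, hη1⟩ : ∃ η1 : ℝ, η1 = min 1 (min (r / 200) δ) := ⟨_, rfl⟩
  have hη10 : 0 < η1 := by
    rw [hη1]
    exact lt_min one_pos (lt_min (by positivity) hδ0)
  have hη11 : η1 ≤ 1 := by
    rw [hη1]
    exact min_le_left _ _
  have hη12 : η1 ≤ r / 200 := by
    rw [hη1]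
    exact (min_le_right _ _).trans (min_le_left _ _)
  have hη13 : η1 ≤ δ := by
    rw [hη1]
    exact (min_le_right _ _).trans (min_le_right _ _)
  obtain ⟨K1, hK1, hI2⟩ := hI d hd m c0 η1 hc hη10
  obtain ⟨n, q, t, hq1, hq2⟩ := hT (cf d m c0) (2 * (d : ℝ) + 1) η1
    (cf_cont hPW hD hd m hc) (cf_le hPW hd m hc) (by positivity) hη10 hη11
  obtain ⟨e2, he2⟩ : ∃ e2 : ℝ, e2 = min (η / (2 * (c + 1))) (δ / (c + 1)) := ⟨_, rfl⟩
  have he20 : 0 < e2 := by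
    rw [he2]
    exact lt_min (by positivity) (by positivity)
  have he21 : c * e2 ≤ η / 2 := by
    have h1 : e2 ≤ η / (2 * (c + 1)) := by
      rw [he2]
      exact min_le_left _ _
    rw [le_div_iff₀ (by positivity)] at h1
    nlinarith
  have he22 : c * e2 ≤ δ := by
    have h1 : e2 ≤ δ / (c + 1) := by
      rw [he2]
      exact min_le_right _ _
    rw [le_div_iff₀ (by positivity)] at h1
    nlinarith
  have F1 := hI2 n q t hq1 U hG B hBB
  have F2 : ∀ᶠ σ : ℝ in 𝓝[>] 0, ∀ y ∈ S, ∃ Ω : Set (Om d), MeasurableSet Ω ∧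
      1 - e2 ≤ (PP (Sd d) (ns σ)).real Ω ∧
      ∀ V ∈ Ω, ‖qU U q t V (ee y) - qU U q t 0 (ee y)‖ ≤ e2 := by
    rw [Filter.eventually_all_finset]
    exact fun y _ => hQ d U hG n q t (ee y) e2 he20
  refine ⟨2 * K1, by linarith, ?_⟩
  have F4 : ∀ᶠ σ : ℝ in 𝓝[>] 0, 0 < σ := eventually_mem_nhdsWithin
  have F5 : ∀ᶠ σ : ℝ in 𝓝[>] 0, σ < min 1 (δ / 3) :=
    (Filter.Tendsto.eventually_lt_const (lt_min one_pos (by positivity)) tendsto_id).filter_mono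
      nhdsWithin_le_nhds
  filter_upwards [F1, F2, F4, F5] with σ G1 G2 hσ0 hσ1'
  have hσ1 : σ < 1 := hσ1'.trans_le (min_le_left _ _)
  have hσδ : σ < δ / 3 := hσ1'.trans_le (min_le_right _ _)
  have := ns_prob σ
  have : IsProbabilityMeasure (PP (Sd d) (ns σ)) := by
    unfold Pool.Agent.TH980.IM.PR.PP
    infer_instance
  have hK10 : 0 < K1 := by linarith
  have hp0 : 0 < σ ^ 2 := by positivity
  have hp1 : σ ^ 2 ≤ 1 := pow_le_one₀ hσ0.le hσ1.le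
  obtain ⟨W, hW⟩ : ∃ W : ℝ, W = 2 * K1 / σ ^ 2 := ⟨_, rfl⟩
  have hW1 : 3 / δ ≤ W := by
    rw [hW, div_le_div_iff₀ hδ0 hp0]
    nlinarith
  have hW0 : 0 < W := by
    rw [hW]
    positivity
  obtain ⟨M, hM⟩ : ∃ M : ℕ, M = ⌈W⌉₊ := ⟨_, rfl⟩
  have hM1 : W ≤ (M : ℝ) := by
    rw [hM]
    exact Nat.le_ceil _
  have hM2 : (M : ℝ) ≤ W + 1 := by
    rw [hM]
    exact (Nat.ceil_lt_add_one hW0.le).le
  have hM3 : 1 ≤ M := by
    have h1 : 0 < M := by
      have : (0 : ℝ) < M := hW0.trans_le hM1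
      exact_mod_cast this
    omega
  -- the bound of the remainder
  have hRC := (hC d U hG m B hBB M hM3 n q t).1
  have hR3 : ∀ V, ‖RO U B M q t V‖ ≤ 3 := by
    intro V
    unfold RO
    refine (norm_sub_le _ _).trans ?_
    have h1 : ‖qU U q t V‖ ≤ 2 := hBd d U hG n q t 2 (by norm_num) hq2 V
    have h2 : ‖((M : ℂ)⁻¹) • SN U B M V‖ ≤ 1 := by
      refine ContinuousLinearMap.opNorm_le_bound _ zero_le_one fun g => ?_
      have h3 := (hS d U hG).2.1 B M 1 hBB.bdd V g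
      rw [_root_.smul_apply, norm_smul, norm_inv, Complex.norm_natCast, one_mul]
      have hMr : (0 : ℝ) < M := by exact_mod_cast hM3
      rw [inv_mul_le_iff₀ hMr]
      linarith
    linarith
  have hRr : ∫ V, ‖RO U B M q t V (ee 0)‖ ^ 2 ∂(PP (Sd d) (ns σ)) ≤ r := by
    rw [hW] at hM1 hM2
    refine (G1 M hM1 hM2).trans ?_
    nlinarith
  -- the square of the remainder
  obtain ⟨R2, hR2⟩ : ∃ R2 : Om d → L2 d →L[ℂ] L2 d, R2 = fun V =>
    (ContinuousLinearMap.adjoint (RO U B M q t V)).comp (RO U B M q t V) := ⟨_, rfl⟩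
  have hR2C : Cov R2 := by
    rw [hR2]
    exact (hCov d).1 _ _ ((hCov d).2.2.2.1 _ hRC) hRC
  have hR2a : ∀ (V : Om d) (g : L2 d), ‖R2 V g‖ ≤ 3 * ‖RO U B M q t V g‖ := by
    intro V g
    rw [hR2]
    have h1 : ‖ContinuousLinearMap.adjoint (RO U B M q t V)‖ ≤ 3 := by
      rw [LinearIsometryEquiv.norm_map]
      exact hR3 V
    have h2 : ‖ContinuousLinearMap.adjoint (RO U B M q t V) (RO U B M q t V g)‖ ≤
        3 * ‖RO U B M q t V g‖ := (ContinuousLinearMap.le_opNorm _ _).trans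
      (mul_le_mul_of_nonneg_right h1 (norm_nonneg _))
    exact h2
  have hR2b : ∀ V, ‖R2 V‖ ≤ 9 := by
    intro V
    refine ContinuousLinearMap.opNorm_le_bound _ (by norm_num) fun g => ?_
    refine (hR2a V g).trans ?_
    have h1 := (ContinuousLinearMap.le_opNorm (RO U B M q t V) g).trans
      (mul_le_mul_of_nonneg_right (hR3 V) (norm_nonneg g))
    linarith
  have hR2r : ∫ V, ‖R2 V (ee 0)‖ ^ 2 ∂(PP (Sd d) (ns σ)) ≤ 9 * r := by
    have h1 : ∫ V, ‖R2 V (ee 0)‖ ^ 2 ∂(PP (Sd d) (ns σ)) ≤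
        ∫ V, 9 * ‖RO U B M q t V (ee 0)‖ ^ 2 ∂(PP (Sd d) (ns σ)) := by
      refine integral_mono_of_nonneg (ae_of_all _ fun V => sq_nonneg _) ?_
        (ae_of_all _ fun V => ?_)
      · refine Integrable.const_mul ?_ _
        refine Integrable.of_bound ((hRC.meas (ee 0)).norm.pow 2).aestronglyMeasurable 9
          (ae_of_all _ fun V => ?_)
        rw [Real.norm_eq_abs, abs_of_nonneg (sq_nonneg _)]
        have h2 := (ContinuousLinearMap.le_opNorm (RO U B M q t V) (ee 0)).trans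
          (mul_le_mul_of_nonneg_right (hR3 V) (norm_nonneg _))
        rw [norm_ee, mul_one] at h2
        nlinarith [norm_nonneg (RO U B M q t V (ee 0))]
      · have h2 := hR2a V (ee 0)
        have h3 : ‖R2 V (ee 0)‖ ^ 2 ≤ (3 * ‖RO U B M q t V (ee 0)‖) ^ 2 :=
          pow_le_pow_left₀ (norm_nonneg _) h2 2
        simp only
        linarith
    rw [integral_const_mul] at h1
    linarith
  obtain ⟨Ω1, hΩ1, hP1, hb1⟩ := hMx d U hG (ns σ) R2 hR2C 9 (9 * r) (δ ^ 2 / 2) (δ / 9)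
    (by norm_num) hR2b hR2r (by positivity) (by positivity) S
  rw [← hw, ← hcd] at hP1
  choose Ω2 hΩ2 hP2 hb2 using G2
  classical
  obtain ⟨Ω3, hΩ3⟩ : ∃ Ω3 : Set (Om d), Ω3 = ⋂ y ∈ S.attach, Ω2 y.1 y.2 := ⟨_, rfl⟩
  have hΩ3m : MeasurableSet Ω3 := by
    rw [hΩ3]
    exact Finset.measurableSet_biInter _ fun y _ => hΩ2 y.1 y.2
  have hP3 : 1 - c * e2 ≤ (PP (Sd d) (ns σ)).real Ω3 := by
    have h1 : (PP (Sd d) (ns σ)).real Ω3ᶜ ≤ ∑ y ∈ S.attach, (PP (Sd d) (ns σ)).real (Ω2 y.1 y.2)ᶜ := by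
      have h2 : Ω3ᶜ = ⋃ y ∈ S.attach, (Ω2 y.1 y.2)ᶜ := by
        rw [hΩ3]
        simp only [Set.compl_iInter]
      rw [h2]
      exact measureReal_biUnion_finset_le _ _
    have h3 : ∑ y ∈ S.attach, (PP (Sd d) (ns σ)).real (Ω2 y.1 y.2)ᶜ ≤ c * e2 := by
      have h4 : ∀ y ∈ S.attach, (PP (Sd d) (ns σ)).real (Ω2 y.1 y.2)ᶜ ≤ e2 := by
        intro y _
        rw [probReal_compl_eq_one_sub (hΩ2 y.1 y.2)]
        have := hP2 y.1 y.2
        linarith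
      refine (Finset.sum_le_sum h4).trans (le_of_eq ?_)
      rw [Finset.sum_const, Finset.card_attach, nsmul_eq_mul, hcd]
    rw [probReal_compl_eq_one_sub hΩ3m] at h1
    linarith
  refine ⟨Ω1 ∩ Ω3, hΩ1.inter hΩ3m, ?_, ?_⟩
  · have h1 : (PP (Sd d) (ns σ)).real (Ω1 ∩ Ω3)ᶜ ≤
        (PP (Sd d) (ns σ)).real Ω1ᶜ + (PP (Sd d) (ns σ)).real Ω3ᶜ := by
      rw [Set.compl_inter]
      exact measureReal_union_le _ _
    rw [probReal_compl_eq_one_sub (hΩ1.inter hΩ3m), probReal_compl_eq_one_sub hΩ1,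
      probReal_compl_eq_one_sub hΩ3m] at h1
    linarith
  · intro V hV f hf τ hτ
    obtain ⟨F, hFd⟩ : ∃ F : L2 d, F = vf S f := ⟨_, rfl⟩
    have hf1 : ∑ y ∈ S, ‖f y‖ ≤ c := by
      refine (Finset.sum_le_sum fun y _ => hf y).trans (le_of_eq ?_)
      rw [Finset.sum_const, nsmul_eq_mul, mul_one, hcd]
    have hf0 : 0 ≤ ∑ y ∈ S, ‖f y‖ := Finset.sum_nonneg fun y _ => norm_nonneg _
    have hnF : ‖F‖ ≤ c := by
      rw [hFd]
      exact (norm_vf S f).trans hf1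
    have hn0 : 0 ≤ ‖F‖ := norm_nonneg _
    have hnA : ‖F‖ ^ 2 ≤ A := by
      rw [hA]
      exact pow_le_pow_left₀ hn0 (by linarith) 2
    -- the static part
    have hq0 : ‖qU U q t V (vf S f) - qU U q t 0 (vf S f)‖ ≤ δ := by
      have h1 := app_vf (qU U q t V - qU U q t 0) S f (b := e2) (fun y hy => by
        have h2 : V ∈ Ω2 y hy := by
          have h3 := hV.2
          rw [hΩ3, Set.mem_iInter₂] at h3
          exact h3 ⟨y, hy⟩ (Finset.mem_attach _ _)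
        exact hb2 y hy V h2)
      have h4 : ‖qU U q t V (vf S f) - qU U q t 0 (vf S f)‖ ≤ (∑ y ∈ S, ‖f y‖) * e2 := h1
      refine h4.trans ((mul_le_mul_of_nonneg_right hf1 he20.le).trans he22)
    have hst := stat hF hCf hPW hD hd hG (m := m) S f q t hc hq1 V hq0
    obtain ⟨l, hl⟩ : ∃ l : ℂ, l = ((∫ k in Set.Icc (0 : Fin d → ℝ) 1,
      ‖fh S f k‖ ^ 2 * (wm d m (ek k) / dn d (ek k)) : ℝ) : ℂ) := ⟨_, rfl⟩
    rw [← hl, ← hFd] at hst
    rw [← hl, ← hFd]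
    have hst2 : ‖(inner ℂ F (qU U q t V F) : ℂ) - l‖ ≤ A * (3 * δ) := by
      refine hst.trans ?_
      rw [hA]
      refine mul_le_mul (pow_le_pow_left₀ (by linarith) (by linarith) 2) (by linarith)
        (by positivity) (by positivity)
    -- the windows
    obtain ⟨g, hg⟩ : ∃ g : ℝ → ℂ, g = fun s => (inner ℂ (U V s F) (Sf (-m) (U V s F)) : ℂ) :=
      ⟨_, rfl⟩
    have hgc : Continuous g := by
      rw [hg]
      exact cont_I hG m V F
    have hgn : ∀ s, ‖g s‖ ≤ ‖F‖ ^ 2 := by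
      rw [hg]
      exact norm_I hG m V F
    have hWi : ((σ ^ 2 / (2 * K1) : ℝ) : ℂ) = ((W⁻¹ : ℝ) : ℂ) := by
      rw [hW, inv_div]
    have hgoal : (fun t' : ℝ => ‖((σ ^ 2 / (2 * K1) : ℝ) : ℂ) *
        (∫ s in t'..(t' + 2 * K1 / σ ^ 2), (inner ℂ (U V s F) (Sf (-m) (U V s F)) : ℂ)) - l‖ ^ 2) =
        fun t' : ℝ => ‖((W⁻¹ : ℝ) : ℂ) * (∫ s in t'..(t' + W), g s) - l‖ ^ 2 := by
      funext t'
      rw [hWi, hg, ← hW]
    rw [hgoal]
    have hpt : ∀ (k : ℕ) (t' : ℝ), (k : ℝ) ≤ t' → t' ≤ k + 1 →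
        ‖((W⁻¹ : ℝ) : ℂ) * (∫ s in t'..(t' + W), g s) - l‖ ^ 2 ≤
          2 * (4 * A * δ) ^ 2 + 2 * A * ‖RO U B M q t V (U V k F)‖ ^ 2 := by
      intro k t' hk hk1
      have h1 := wreal hgc hgn hW0 hM1 hM2 hk hk1
      have h2 := wone hX hG hBB q t V M k F
      have h2' : ‖(M : ℂ)⁻¹ * (∫ s in (k : ℝ)..(k + M), g s) - inner ℂ F (qU U q t V F)‖ ≤
          ‖F‖ * ‖RO U B M q t V (U V k F)‖ := by
        rw [hg]
        exact h2
      have h3 : 3 * ‖F‖ ^ 2 / W ≤ A * δ := by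
        rw [div_le_iff₀ hW0]
        have h4 : 3 ≤ δ * W := by
          rw [div_le_iff₀ hδ0] at hW1
          linarith
        nlinarith
      have h5 : ((W⁻¹ : ℝ) : ℂ) * (∫ s in t'..(t' + W), g s) - l =
          (((W⁻¹ : ℝ) : ℂ) * (∫ s in t'..(t' + W), g s) -
            (M : ℂ)⁻¹ * ∫ s in (k : ℝ)..(k + M), g s) +
          ((M : ℂ)⁻¹ * (∫ s in (k : ℝ)..(k + M), g s) - inner ℂ F (qU U q t V F)) +
          ((inner ℂ F (qU U q t V F) : ℂ) - l) := by ring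
      have h6 : ‖((W⁻¹ : ℝ) : ℂ) * (∫ s in t'..(t' + W), g s) - l‖ ≤
          4 * A * δ + ‖F‖ * ‖RO U B M q t V (U V k F)‖ := by
        rw [h5]
        refine (norm_add_le _ _).trans ((add_le_add_left (norm_add_le _ _) _).trans ?_)
        linarith
      have h7 : ‖((W⁻¹ : ℝ) : ℂ) * (∫ s in t'..(t' + W), g s) - l‖ ^ 2 ≤
          (4 * A * δ + ‖F‖ * ‖RO U B M q t V (U V k F)‖) ^ 2 :=
        pow_le_pow_left₀ (norm_nonneg _) h6 2
      refine h7.trans ?_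
      have h8 : (‖F‖ * ‖RO U B M q t V (U V k F)‖) ^ 2 ≤ A * ‖RO U B M q t V (U V k F)‖ ^ 2 := by
        rw [mul_pow]
        exact mul_le_mul_of_nonneg_right hnA (sq_nonneg _)
      nlinarith [sq_nonneg (4 * A * δ - ‖F‖ * ‖RO U B M q t V (U V k F)‖)]
    have hsum : ∀ N : ℕ, 1 ≤ N → ∑ k ∈ Finset.range N, (2 * (4 * A * δ) ^ 2 +
        2 * A * ‖RO U B M q t V (U V k F)‖ ^ 2) ≤ N * (2 * (4 * A * δ) ^ 2 + 2 * A * (A * (2 * δ))) := by
      intro N hN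
      have hN0 : (0 : ℝ) < N := by exact_mod_cast hN
      rw [Finset.sum_add_distrib, Finset.sum_const, Finset.card_range, nsmul_eq_mul,
        ← Finset.mul_sum, sumR hX hG]
      have h1 := app_vf ((((N : ℂ)⁻¹) • SN U R2 N V : L2 d →L[ℂ] L2 d)) S f (b := 2 * δ)
        (fun y hy => by
          have h2 := hb1 V hV.1 y hy N hN
          rw [hsq] at h2
          refine h2.trans (le_of_eq ?_)
          ring)
      rw [← hFd] at h1
      have h3 : ‖((N : ℂ)⁻¹) • SN U R2 N V F‖ ≤ c * (2 * δ) :=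
        le_trans h1 (mul_le_mul_of_nonneg_right hf1 (by positivity))
      have h4 : ‖SN U R2 N V F‖ ≤ N * (c * (2 * δ)) := by
        rw [norm_smul, norm_inv, Complex.norm_natCast, inv_mul_le_iff₀ hN0] at h3
        exact h3
      have h5 : (inner ℂ F (SN U R2 N V F) : ℂ).re ≤ c * (N * (c * (2 * δ))) := by
        refine (Complex.re_le_norm _).trans ((norm_inner_le_norm _ _).trans ?_)
        exact mul_le_mul hnF h4 (norm_nonneg _) hc0'
      have h6 : c * (N * (c * (2 * δ))) ≤ N * (A * (2 * δ)) := by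
        have h7 : c ^ 2 ≤ A := by
          rw [hA]
          exact pow_le_pow_left₀ hc0' (by linarith) 2
        have h8 : c * (N * (c * (2 * δ))) = c ^ 2 * (N * (2 * δ)) := by ring
        have h9 : (N : ℝ) * (A * (2 * δ)) = A * (N * (2 * δ)) := by ring
        rw [h8, h9]
        exact mul_le_mul_of_nonneg_right h7 (by positivity)
      rw [← hR2]
      have h10 : 2 * A * (inner ℂ F (SN U R2 N V F) : ℂ).re ≤ 2 * A * (N * (A * (2 * δ))) :=
        mul_le_mul_of_nonneg_left (h5.trans h6) (by positivity)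
      nlinarith
    have hfin := tint_le (φ := fun t' : ℝ => ‖((W⁻¹ : ℝ) : ℂ) * (∫ s in t'..(t' + W), g s) - l‖ ^ 2)
      (by
        have h1 : Continuous fun t' : ℝ => ∫ s in t'..(t' + W), g s := by
          have h2 : (fun t' : ℝ => ∫ s in t'..(t' + W), g s) =
              fun t' : ℝ => (∫ s in (0 : ℝ)..(t' + W), g s) - ∫ s in (0 : ℝ)..t', g s := by
            funext t'
            rw [intervalIntegral.integral_interval_sub_left (hgc.intervalIntegrable _ _)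
              (hgc.intervalIntegrable _ _)]
          rw [h2]
          have h3 : Continuous fun x : ℝ => ∫ s in (0 : ℝ)..x, g s :=
            intervalIntegral.continuous_primitive (fun a b => hgc.intervalIntegrable a b) 0
          exact (h3.comp (continuous_id.add continuous_const)).sub h3
        exact ((continuous_const.mul h1).sub continuous_const).norm.pow 2)
      (fun t' => sq_nonneg _) hpt hsum (by positivity) hτ
    refine hfin.trans ?_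
    have h1 : (4 * A * δ) ^ 2 ≤ 16 * A ^ 2 * δ := by
      have : (4 * A * δ) ^ 2 = 16 * A ^ 2 * δ * δ := by ring
      rw [this]
      exact mul_le_of_le_one_right (by positivity) hδ1
    nlinarith

end Pool.Agent.T2h98.MR.U98
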