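import Pool.Agent.T2h98.MR.AllK
import Pool.Agent.T2h98.MR.MRU98

/-! Relaxation of the momentum in most kinetic windows, at all times: all parts. -/

set_option autoImplicit false

namespace Pool.Agent.T2h98.MR.All

open Pool.Agent.T2h98.QD Pool.Agent.T2h98.KU Pool.Agent.T2h98.PS Pool.Agent.T2h98.PS.All
open Pool.Agent.T2h98.MR Pool.Agent.T2h98.NB Pool.Agent.T2h98.EA

theorem mruA : T_MRU :=
  U98.mru98 BOPx.t_BOP infkA (t_ROC NB.All.xtA SNFx.t_SNF) mxsA qcv fre (cfm pwmA U.dosF) tr2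
    (t_QBD EA.All.speA) NB.All.xtA SNFx.t_SNF pwmA U.dosF cov_facts

end Pool.Agent.T2h98.MR.All
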