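import Pool.Agent.T2h98.MR.StmV
import Pool.Agent.T2h98.MR.MRU98

/-! Relaxation of the momentum in most windows, at all times: the theorem from its parts. -/

set_option autoImplicit false
set_option linter.unusedSectionVars false
set_option linter.unusedVariables false

open scoped BigOperators Matrix Topology
open MeasureTheory ProbabilityTheory Filter

namespace Pool.Agent.T2h98.MR.V98

open Pool.Agent.TH980.IM.PR (PP sh)
open Pool.Agent.T2h98.QD (dn T_DOS)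
open Pool.Agent.T2h98.PS
open Pool.Agent.T2h98.NB
open Pool.Agent.T2h98.EA (SN Uni1 T_SNF T_MAX)
open Pool.Agent.T2h98.MR Pool.Agent.T2h98.MR.MRx Pool.Agent.T2h98.MR.U98

variable {d : ℕ}

theorem innSN (hX : T_XT) {U : Om d → ℝ → L2 d →L[ℂ] L2 d} (hG : Grp U)
    (R : Om d → L2 d →L[ℂ] L2 d) (V : Om d) (G : L2 d) (N : ℕ) :
    (inner ℂ G (SN U R N V G) : ℂ) =
      ∑ j ∈ Finset.range N, (inner ℂ (U V j G) (R V (U V j G)) : ℂ) := by
  obtain ⟨h1, -⟩ := hX d U hG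
  unfold SN
  rw [sum_apply, inner_sum]
  refine Finset.sum_congr rfl fun k _ => ?_
  have h2 : ((U V (-(k : ℝ))).comp ((R V).comp (U V (k : ℝ)))) G =
    U V (-(k : ℝ)) (R V (U V k G)) := rfl
  rw [h2, ← h1]

theorem wone2 (hX : T_XT) (hC : T_ROC) {U : Om d → ℝ → L2 d →L[ℂ] L2 d} (hG : Grp U) {m : Sd d}
    {B : Om d → L2 d →L[ℂ] L2 d} (hB : IsB U m B) {n : ℕ} (a : Fin n → ℂ) (t : Fin n → ℝ)
    (V : Om d) {M N : ℕ} (hM : 1 ≤ M) (hN : 1 ≤ N) (k : ℕ) (F : L2 d) :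
    ‖(N : ℂ)⁻¹ * (∫ s in (k : ℝ)..(k + N), (inner ℂ (U V s F) (Sf (-m) (U V s F)) : ℂ)) -
      inner ℂ F (qU U a t V F)‖ ≤ 2 * (M : ℝ) / N * ‖F‖ ^ 2 +
        ‖F‖ * ((N : ℝ)⁻¹ * ∑ j ∈ Finset.range N, ‖RO U B M a t V (U V (k + j : ℕ) F)‖) := by
  have hN0 : (0 : ℝ) < N := by exact_mod_cast hN
  rw [wint hX hG hB, ← comm_qU hX hG a t V k F]
  obtain ⟨G, hGd⟩ : ∃ G : L2 d, G = U V k F := ⟨_, rfl⟩
  have hGn : ‖G‖ = ‖F‖ := by rw [hGd, hG.g0.norm]
  rw [← hGd]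
  have h1 := (hC d U hG m B hB M hM n a t).2.2 N hN V G
  have key : (N : ℂ)⁻¹ * (inner ℂ G (SN U B N V G) : ℂ) - inner ℂ G (qU U a t V G) =
      inner ℂ G (((N : ℂ)⁻¹) • SN U B N V G - qU U a t V G -
        ((N : ℂ)⁻¹) • SN U (RO U B M a t) N V G) +
      (N : ℂ)⁻¹ * inner ℂ G (SN U (RO U B M a t) N V G) := by
    rw [inner_sub_right, inner_sub_right, inner_smul_right, inner_smul_right]
    ring
  rw [key, innSN hX hG]
  refine (norm_add_le _ _).trans (add_le_add ?_ ?_)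
  · refine (norm_inner_le_norm _ _).trans ((mul_le_mul_of_nonneg_left h1 (norm_nonneg _)).trans
      (le_of_eq ?_))
    rw [hGn]
    ring
  · rw [norm_mul, norm_inv, Complex.norm_natCast]
    have h2 : ‖∑ j ∈ Finset.range N, (inner ℂ (U V j G) (RO U B M a t V (U V j G)) : ℂ)‖ ≤
        ‖F‖ * ∑ j ∈ Finset.range N, ‖RO U B M a t V (U V (k + j : ℕ) F)‖ := by
      refine (norm_sum_le _ _).trans ?_
      rw [Finset.mul_sum]
      refine Finset.sum_le_sum fun j _ => (norm_inner_le_norm _ _).trans (le_of_eq ?_)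
      have h3 : U V j G = U V (k + j : ℕ) F := by
        rw [hGd, ← hG.g0.add]
        push_cast
        rw [add_comm]
      rw [h3, hG.g0.norm]
    have h4 : ‖F‖ * ((N : ℝ)⁻¹ * ∑ j ∈ Finset.range N, ‖RO U B M a t V (U V (k + j : ℕ) F)‖) =
        (N : ℝ)⁻¹ * (‖F‖ * ∑ j ∈ Finset.range N, ‖RO U B M a t V (U V (k + j : ℕ) F)‖) := by ring
    rw [h4]
    exact mul_le_mul_of_nonneg_left h2 (inv_pos.2 hN0).le

theorem shift_sum {ρ : ℕ → ℝ} (h0 : ∀ i, 0 ≤ ρ i) {j n L : ℕ} (h : j + n ≤ L) :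
    ∑ k ∈ Finset.range n, ρ (j + k) ≤ ∑ i ∈ Finset.range L, ρ i := by
  have h1 : ∑ k ∈ Finset.range n, ρ (j + k) = ∑ i ∈ Finset.Ico j (j + n), ρ i := by
    rw [Finset.sum_Ico_eq_sum_range, add_tsub_cancel_left]
  rw [h1]
  refine Finset.sum_le_sum_of_subset_of_nonneg (fun i hi => ?_) fun i _ _ => h0 i
  rw [Finset.mem_Ico] at hi
  rw [Finset.mem_range]
  omega

theorem dbl {ρ : ℕ → ℝ} (h0 : ∀ i, 0 ≤ ρ i) {β : ℝ} (hβ : 0 ≤ β)
    (h : ∀ L : ℕ, 1 ≤ L → ∑ i ∈ Finset.range L, ρ i ≤ L * β) {n N : ℕ} (hn : 1 ≤ n) (hN : 1 ≤ N) :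
    ∑ k ∈ Finset.range n, ((N : ℝ)⁻¹ * ∑ j ∈ Finset.range N, ρ (k + j)) ≤ n * (2 * β) := by
  have hN0 : (0 : ℝ) < N := by exact_mod_cast hN
  have hn0 : (0 : ℝ) < n := by exact_mod_cast hn
  have hL := h (n + N) (by omega)
  push_cast at hL
  rcases le_total n N with h1 | h1
  · have h1' : (n : ℝ) ≤ N := by exact_mod_cast h1
    have h2 : ∀ k ∈ Finset.range n, (N : ℝ)⁻¹ * ∑ j ∈ Finset.range N, ρ (k + j) ≤ 2 * β := by
      intro k hk
      rw [inv_mul_le_iff₀ hN0]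
      refine (shift_sum h0 (j := k) (n := N) (L := n + N) ?_).trans (hL.trans ?_)
      · have := Finset.mem_range.1 hk
        omega
      · nlinarith
    refine (Finset.sum_le_sum h2).trans (le_of_eq ?_)
    rw [Finset.sum_const, Finset.card_range, nsmul_eq_mul]
  · have h1' : (N : ℝ) ≤ n := by exact_mod_cast h1
    rw [← Finset.mul_sum, Finset.sum_comm, inv_mul_le_iff₀ hN0]
    have h2 : ∀ j ∈ Finset.range N, ∑ k ∈ Finset.range n, ρ (k + j) ≤ n * (2 * β) := by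
      intro j hj
      have h3 : ∑ k ∈ Finset.range n, ρ (k + j) = ∑ k ∈ Finset.range n, ρ (j + k) :=
        Finset.sum_congr rfl fun k _ => by rw [add_comm]
      rw [h3]
      refine (shift_sum h0 (j := j) (n := n) (L := n + N) ?_).trans (hL.trans ?_)
      · have := Finset.mem_range.1 hj
        omega
      · nlinarith
    refine (Finset.sum_le_sum h2).trans (le_of_eq ?_)
    rw [Finset.sum_const, Finset.card_range, nsmul_eq_mul]

/-- **relaxation of the momentum in most windows, at all times**, from the parts -/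
theorem mrv98 (hB : T_BOP) (hI : T_INFK) (hC : T_ROC) (hMx : T_MXS) (hQ : T_QCV) (hF : T_FRE)
    (hCf : T_CFM) (hT : T_TR2) (hBd : T_QBD) (hX : T_XT) (hS : T_SNF) (hPW : T_PWM)
    (hD : T_DOS) (hCov : T_COV) : T_MRV := by
  intro d hd U hG m S η hη
  obtain ⟨B, hBB⟩ := hB d U hG m
  obtain ⟨c, hcd⟩ : ∃ c : ℝ, c = (S.card : ℝ) := ⟨_, rfl⟩
  have hc0' : 0 ≤ c := by rw [hcd]; exact Nat.cast_nonneg _
  obtain ⟨A, hA⟩ : ∃ A : ℝ, A = (c + 1) ^ 2 := ⟨_, rfl⟩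
  have hA1 : 1 ≤ A := by
    rw [hA]
    nlinarith
  have hA0 : 0 < A := by linarith
  -- the constants
  obtain ⟨δ, hδ⟩ : ∃ δ : ℝ, δ = min 1 (η / (200 * A ^ 2)) := ⟨_, rfl⟩
  have hδ0 : 0 < δ := by
    rw [hδ]
    exact lt_min one_pos (by positivity)
  have hδ1 : δ ≤ 1 := by
    rw [hδ]
    exact min_le_left _ _
  have hAδ : 200 * A ^ 2 * δ ≤ η := by
    have h1 : δ ≤ η / (200 * A ^ 2) := by
      rw [hδ]
      exact min_le_right _ _
    rw [le_div_iff₀ (by positivity)] at h1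
    linarith
  have hsq : Real.sqrt (2 * (δ ^ 2 / 2)) = δ := by
    rw [show 2 * (δ ^ 2 / 2) = δ ^ 2 by ring]
    exact Real.sqrt_sq hδ0.le
  obtain ⟨w, hw⟩ : ∃ w : ℝ, w = δ ^ 2 / 2 * (δ / 9) ^ 2 := ⟨_, rfl⟩
  have hw0 : 0 < w := by
    rw [hw]
    positivity
  obtain ⟨r, hr⟩ : ∃ r : ℝ, r = η / 2 * w / (9 * (c + 1)) := ⟨_, rfl⟩
  have hr0 : 0 < r := by
    rw [hr]
    positivity
  have hSr : c * (9 * r / w) ≤ η / 2 := by
    have h1 : 9 * r / w = η / 2 / (c + 1) := by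
      rw [hr]
      field_simp
    rw [h1, mul_div_assoc', div_le_iff₀ (by positivity)]
    nlinarith
  obtain ⟨c0, hc0⟩ : ∃ c0 : ℝ, c0 = min (r / (600 * d)) (δ / (16 * d)) := ⟨_, rfl⟩
  have hd0 : (0 : ℝ) < d := by
    have : 0 < d := by omega
    exact_mod_cast this
  have hc : 0 < c0 := by
    rw [hc0]
    exact lt_min (by positivity) (by positivity)
  have hc1 : 300 * d * c0 ≤ r / 2 := by
    have h1 : c0 ≤ r / (600 * d) := by
      rw [hc0]
      exact min_le_left _ _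
    calc 300 * d * c0 ≤ 300 * d * (r / (600 * d)) := mul_le_mul_of_nonneg_left h1 (by positivity)
      _ = r / 2 := by
        field_simp
        ring
  have hc2 : 16 * d * c0 ≤ δ := by
    have h1 : c0 ≤ δ / (16 * d) := by
      rw [hc0]
      exact min_le_right _ _
    calc 16 * d * c0 ≤ 16 * d * (δ / (16 * d)) := mul_le_mul_of_nonneg_left h1 (by positivity)
      _ = δ := by
        field_simp
  obtain ⟨η1, hη1⟩ : ∃ η1 : ℝ, η1 = min 1 (min (r / 200) δ) := ⟨_, rfl⟩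
  have hη10 : 0 < η1 := by
    rw [hη1]
    exact lt_min one_pos (lt_min (by positivity) hδ0)
  have hη11 : η1 ≤ 1 := by
    rw [hη1]
    exact min_le_left _ _
  have hη12 : η1 ≤ r / 200 := by
    rw [hη1]
    exact (min_le_right _ _).trans (min_le_left _ _)
  have hη13 : η1 ≤ δ := by
    rw [hη1]
    exact (min_le_right _ _).trans (min_le_right _ _)
  obtain ⟨K1, hK1, hI2⟩ := hI d hd m c0 η1 hc hη10
  obtain ⟨n, q, t, hq1, hq2⟩ := hT (cf d m c0) (2 * (d : ℝ) + 1) η1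
    (cf_cont hPW hD hd m hc) (cf_le hPW hd m hc) (by positivity) hη10 hη11
  obtain ⟨e2, he2⟩ : ∃ e2 : ℝ, e2 = min (η / (2 * (c + 1))) (δ / (c + 1)) := ⟨_, rfl⟩
  have he20 : 0 < e2 := by
    rw [he2]
    exact lt_min (by positivity) (by positivity)
  have he21 : c * e2 ≤ η / 2 := by
    have h1 : e2 ≤ η / (2 * (c + 1)) := by
      rw [he2]
      exact min_le_left _ _
    rw [le_div_iff₀ (by positivity)] at h1
    nlinarith
  have he22 : c * e2 ≤ δ := by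
    have h1 : e2 ≤ δ / (c + 1) := by
      rw [he2]
      exact min_le_right _ _
    rw [le_div_iff₀ (by positivity)] at h1
    nlinarith
  have F1 := hI2 n q t hq1 U hG B hBB
  have F2 : ∀ᶠ σ : ℝ in 𝓝[>] 0, ∀ y ∈ S, ∃ Ω : Set (Om d), MeasurableSet Ω ∧
      1 - e2 ≤ (PP (Sd d) (ns σ)).real Ω ∧
      ∀ V ∈ Ω, ‖qU U q t V (ee y) - qU U q t 0 (ee y)‖ ≤ e2 := by
    rw [Filter.eventually_all_finset]
    exact fun y _ => hQ d U hG n q t (ee y) e2 he20
  obtain ⟨K, hK⟩ : ∃ K : ℝ, K = 6 * K1 / δ := ⟨_, rfl⟩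
  have hK0 : 0 < K := by
    rw [hK]
    positivity
  have hKδ : K * δ = 6 * K1 := by
    rw [hK]
    field_simp
  refine ⟨K, hK0, ?_⟩
  have F4 : ∀ᶠ σ : ℝ in 𝓝[>] 0, 0 < σ := eventually_mem_nhdsWithin
  have F5 : ∀ᶠ σ : ℝ in 𝓝[>] 0, σ < min 1 (δ / 3) :=
    (Filter.Tendsto.eventually_lt_const (lt_min one_pos (by positivity)) tendsto_id).filter_mono
      nhdsWithin_le_nhds
  filter_upwards [F1, F2, F4, F5] with σ G1 G2 hσ0 hσ1'
  have hσ1 : σ < 1 := hσ1'.trans_le (min_le_left _ _)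
  have hσδ : σ < δ / 3 := hσ1'.trans_le (min_le_right _ _)
  have := ns_prob σ
  have : IsProbabilityMeasure (PP (Sd d) (ns σ)) := by
    unfold Pool.Agent.TH980.IM.PR.PP
    infer_instance
  have hK10 : 0 < K1 := by linarith
  have hp0 : 0 < σ ^ 2 := by positivity
  have hp1 : σ ^ 2 ≤ 1 := pow_le_one₀ hσ0.le hσ1.le
  obtain ⟨W0, hW0d⟩ : ∃ W0 : ℝ, W0 = 2 * K1 / σ ^ 2 := ⟨_, rfl⟩
  have hW00 : 0 < W0 := by
    rw [hW0d]
    positivity
  obtain ⟨M, hM⟩ : ∃ M : ℕ, M = ⌈W0⌉₊ := ⟨_, rfl⟩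
  have hM1 : W0 ≤ (M : ℝ) := by
    rw [hM]
    exact Nat.le_ceil _
  have hM2 : (M : ℝ) ≤ W0 + 1 := by
    rw [hM]
    exact (Nat.ceil_lt_add_one hW00.le).le
  have hM3 : 1 ≤ M := by
    have h1 : 0 < M := by
      have : (0 : ℝ) < M := hW00.trans_le hM1
      exact_mod_cast this
    omega
  have hMσ : (M : ℝ) * σ ^ 2 ≤ 3 * K1 := by
    have h4 : (W0 + 1) * σ ^ 2 = 2 * K1 + σ ^ 2 := by
      rw [hW0d]
      field_simp
    have h5 := mul_le_mul_of_nonneg_right hM2 hp0.le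
    rw [h4] at h5
    linarith
  -- the bound of the remainder
  have hRC := (hC d U hG m B hBB M hM3 n q t).1
  have hR3 : ∀ V, ‖RO U B M q t V‖ ≤ 3 := by
    intro V
    unfold RO
    refine (norm_sub_le _ _).trans ?_
    have h1 : ‖qU U q t V‖ ≤ 2 := hBd d U hG n q t 2 (by norm_num) hq2 V
    have h2 : ‖((M : ℂ)⁻¹) • SN U B M V‖ ≤ 1 := by
      refine ContinuousLinearMap.opNorm_le_bound _ zero_le_one fun g => ?_
      have h3 := (hS d U hG).2.1 B M 1 hBB.bdd V g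
      rw [_root_.smul_apply, norm_smul, norm_inv, Complex.norm_natCast, one_mul]
      have hMr : (0 : ℝ) < M := by exact_mod_cast hM3
      rw [inv_mul_le_iff₀ hMr]
      linarith
    linarith
  have hRr : ∫ V, ‖RO U B M q t V (ee 0)‖ ^ 2 ∂(PP (Sd d) (ns σ)) ≤ r := by
    rw [hW0d] at hM1 hM2
    refine (G1 M hM1 hM2).trans ?_
    nlinarith
  -- the square of the remainder
  obtain ⟨R2, hR2⟩ : ∃ R2 : Om d → L2 d →L[ℂ] L2 d, R2 = fun V =>
    (ContinuousLinearMap.adjoint (RO U B M q t V)).comp (RO U B M q t V) := ⟨_, rfl⟩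
  have hR2C : Cov R2 := by
    rw [hR2]
    exact (hCov d).1 _ _ ((hCov d).2.2.2.1 _ hRC) hRC
  have hR2a : ∀ (V : Om d) (g : L2 d), ‖R2 V g‖ ≤ 3 * ‖RO U B M q t V g‖ := by
    intro V g
    rw [hR2]
    have h1 : ‖ContinuousLinearMap.adjoint (RO U B M q t V)‖ ≤ 3 := by
      rw [LinearIsometryEquiv.norm_map]
      exact hR3 V
    have h2 : ‖ContinuousLinearMap.adjoint (RO U B M q t V) (RO U B M q t V g)‖ ≤
        3 * ‖RO U B M q t V g‖ := (ContinuousLinearMap.le_opNorm _ _).trans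
      (mul_le_mul_of_nonneg_right h1 (norm_nonneg _))
    exact h2
  have hR2b : ∀ V, ‖R2 V‖ ≤ 9 := by
    intro V
    refine ContinuousLinearMap.opNorm_le_bound _ (by norm_num) fun g => ?_
    refine (hR2a V g).trans ?_
    have h1 := (ContinuousLinearMap.le_opNorm (RO U B M q t V) g).trans
      (mul_le_mul_of_nonneg_right (hR3 V) (norm_nonneg g))
    linarith
  have hR2r : ∫ V, ‖R2 V (ee 0)‖ ^ 2 ∂(PP (Sd d) (ns σ)) ≤ 9 * r := by
    have h1 : ∫ V, ‖R2 V (ee 0)‖ ^ 2 ∂(PP (Sd d) (ns σ)) ≤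
        ∫ V, 9 * ‖RO U B M q t V (ee 0)‖ ^ 2 ∂(PP (Sd d) (ns σ)) := by
      refine integral_mono_of_nonneg (ae_of_all _ fun V => sq_nonneg _) ?_
        (ae_of_all _ fun V => ?_)
      · refine Integrable.const_mul ?_ _
        refine Integrable.of_bound ((hRC.meas (ee 0)).norm.pow 2).aestronglyMeasurable 9
          (ae_of_all _ fun V => ?_)
        rw [Real.norm_eq_abs, abs_of_nonneg (sq_nonneg _)]
        have h2 := (ContinuousLinearMap.le_opNorm (RO U B M q t V) (ee 0)).trans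
          (mul_le_mul_of_nonneg_right (hR3 V) (norm_nonneg _))
        rw [norm_ee, mul_one] at h2
        nlinarith [norm_nonneg (RO U B M q t V (ee 0))]
      · have h2 := hR2a V (ee 0)
        have h3 : ‖R2 V (ee 0)‖ ^ 2 ≤ (3 * ‖RO U B M q t V (ee 0)‖) ^ 2 :=
          pow_le_pow_left₀ (norm_nonneg _) h2 2
        simp only
        linarith
    rw [integral_const_mul] at h1
    linarith
  obtain ⟨Ω1, hΩ1, hP1, hb1⟩ := hMx d U hG (ns σ) R2 hR2C 9 (9 * r) (δ ^ 2 / 2) (δ / 9)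
    (by norm_num) hR2b hR2r (by positivity) (by positivity) S
  rw [← hw, ← hcd] at hP1
  choose Ω2 hΩ2 hP2 hb2 using G2
  classical
  obtain ⟨Ω3, hΩ3⟩ : ∃ Ω3 : Set (Om d), Ω3 = ⋂ y ∈ S.attach, Ω2 y.1 y.2 := ⟨_, rfl⟩
  have hΩ3m : MeasurableSet Ω3 := by
    rw [hΩ3]
    exact Finset.measurableSet_biInter _ fun y _ => hΩ2 y.1 y.2
  have hP3 : 1 - c * e2 ≤ (PP (Sd d) (ns σ)).real Ω3 := by
    have h1 : (PP (Sd d) (ns σ)).real Ω3ᶜ ≤ ∑ y ∈ S.attach, (PP (Sd d) (ns σ)).real (Ω2 y.1 y.2)ᶜ := by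
      have h2 : Ω3ᶜ = ⋃ y ∈ S.attach, (Ω2 y.1 y.2)ᶜ := by
        rw [hΩ3]
        simp only [Set.compl_iInter]
      rw [h2]
      exact measureReal_biUnion_finset_le _ _
    have h3 : ∑ y ∈ S.attach, (PP (Sd d) (ns σ)).real (Ω2 y.1 y.2)ᶜ ≤ c * e2 := by
      have h4 : ∀ y ∈ S.attach, (PP (Sd d) (ns σ)).real (Ω2 y.1 y.2)ᶜ ≤ e2 := by
        intro y _
        rw [probReal_compl_eq_one_sub (hΩ2 y.1 y.2)]
        have := hP2 y.1 y.2
        linarith
      refine (Finset.sum_le_sum h4).trans (le_of_eq ?_)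
      rw [Finset.sum_const, Finset.card_attach, nsmul_eq_mul, hcd]
    rw [probReal_compl_eq_one_sub hΩ3m] at h1
    linarith
  refine ⟨Ω1 ∩ Ω3, hΩ1.inter hΩ3m, ?_, ?_⟩
  · have h1 : (PP (Sd d) (ns σ)).real (Ω1 ∩ Ω3)ᶜ ≤
        (PP (Sd d) (ns σ)).real Ω1ᶜ + (PP (Sd d) (ns σ)).real Ω3ᶜ := by
      rw [Set.compl_inter]
      exact measureReal_union_le _ _
    rw [probReal_compl_eq_one_sub (hΩ1.inter hΩ3m), probReal_compl_eq_one_sub hΩ1,
      probReal_compl_eq_one_sub hΩ3m] at h1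
    linarith
  · intro V hV f hf W hWK τ hτ
    have hWK' : K ≤ W * σ ^ 2 := by
      rwa [div_le_iff₀ hp0] at hWK
    have hW0 : 0 < W := lt_of_lt_of_le (by positivity) hWK
    have hW1 : 3 / δ ≤ W := by
      refine le_trans ?_ hWK
      rw [div_le_div_iff₀ hδ0 hp0, hKδ]
      nlinarith
    obtain ⟨N, hNd⟩ : ∃ N : ℕ, N = ⌈W⌉₊ := ⟨_, rfl⟩
    have hN1 : W ≤ (N : ℝ) := by
      rw [hNd]
      exact Nat.le_ceil _
    have hN2 : (N : ℝ) ≤ W + 1 := by
      rw [hNd]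
      exact (Nat.ceil_lt_add_one hW0.le).le
    have hN3 : 1 ≤ N := by
      have h1 : 0 < N := by
        have : (0 : ℝ) < N := hW0.trans_le hN1
        exact_mod_cast this
      omega
    have hN0 : (0 : ℝ) < N := hW0.trans_le hN1
    have hMN : 2 * (M : ℝ) / N ≤ δ := by
      rw [div_le_iff₀ hN0]
      have h1 : K ≤ N * σ ^ 2 := hWK'.trans (mul_le_mul_of_nonneg_right hN1 hp0.le)
      have h2 : δ * K ≤ δ * (N * σ ^ 2) := mul_le_mul_of_nonneg_left h1 hδ0.le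
      have h3 : 2 * (M : ℝ) * σ ^ 2 ≤ δ * N * σ ^ 2 := by nlinarith
      exact le_of_mul_le_mul_right h3 hp0
    obtain ⟨F, hFd⟩ : ∃ F : L2 d, F = vf S f := ⟨_, rfl⟩
    have hf1 : ∑ y ∈ S, ‖f y‖ ≤ c := by
      refine (Finset.sum_le_sum fun y _ => hf y).trans (le_of_eq ?_)
      rw [Finset.sum_const, nsmul_eq_mul, mul_one, hcd]
    have hf0 : 0 ≤ ∑ y ∈ S, ‖f y‖ := Finset.sum_nonneg fun y _ => norm_nonneg _
    have hnF : ‖F‖ ≤ c := by
      rw [hFd]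
      exact (norm_vf S f).trans hf1
    have hn0 : 0 ≤ ‖F‖ := norm_nonneg _
    have hnA : ‖F‖ ^ 2 ≤ A := by
      rw [hA]
      exact pow_le_pow_left₀ hn0 (by linarith) 2
    -- the static part
    have hq0 : ‖qU U q t V (vf S f) - qU U q t 0 (vf S f)‖ ≤ δ := by
      have h1 := app_vf (qU U q t V - qU U q t 0) S f (b := e2) (fun y hy => by
        have h2 : V ∈ Ω2 y hy := by
          have h3 := hV.2
          rw [hΩ3, Set.mem_iInter₂] at h3
          exact h3 ⟨y, hy⟩ (Finset.mem_attach _ _)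
        exact hb2 y hy V h2)
      have h4 : ‖qU U q t V (vf S f) - qU U q t 0 (vf S f)‖ ≤ (∑ y ∈ S, ‖f y‖) * e2 := h1
      refine h4.trans ((mul_le_mul_of_nonneg_right hf1 he20.le).trans he22)
    have hst := stat hF hCf hPW hD hd hG (m := m) S f q t hc hq1 V hq0
    obtain ⟨l, hl⟩ : ∃ l : ℂ, l = ((∫ k in Set.Icc (0 : Fin d → ℝ) 1,
      ‖fh S f k‖ ^ 2 * (wm d m (ek k) / dn d (ek k)) : ℝ) : ℂ) := ⟨_, rfl⟩
    rw [← hl, ← hFd] at hst
    rw [← hl, ← hFd]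
    have hst2 : ‖(inner ℂ F (qU U q t V F) : ℂ) - l‖ ≤ A * (3 * δ) := by
      refine hst.trans ?_
      rw [hA]
      refine mul_le_mul (pow_le_pow_left₀ (by linarith) (by linarith) 2) (by linarith)
        (by positivity) (by positivity)
    -- the windows
    obtain ⟨g, hg⟩ : ∃ g : ℝ → ℂ, g = fun s => (inner ℂ (U V s F) (Sf (-m) (U V s F)) : ℂ) :=
      ⟨_, rfl⟩
    have hgc : Continuous g := by
      rw [hg]
      exact cont_I hG m V F
    have hgn : ∀ s, ‖g s‖ ≤ ‖F‖ ^ 2 := by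
      rw [hg]
      exact norm_I hG m V F
    have hgoal : (fun t' : ℝ => ‖((W⁻¹ : ℝ) : ℂ) *
        (∫ s in t'..(t' + W), (inner ℂ (U V s F) (Sf (-m) (U V s F)) : ℂ)) - l‖ ^ 2) =
        fun t' : ℝ => ‖((W⁻¹ : ℝ) : ℂ) * (∫ s in t'..(t' + W), g s) - l‖ ^ 2 := by
      rw [hg]
    rw [hgoal]
    obtain ⟨ρ, hρ⟩ : ∃ ρ : ℕ → ℝ, ρ = fun i => ‖RO U B M q t V (U V (i : ℕ) F)‖ ^ 2 := ⟨_, rfl⟩
    have hρ0 : ∀ i, 0 ≤ ρ i := fun i => by
      rw [hρ]
      exact sq_nonneg _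
    have hpt : ∀ (k : ℕ) (t' : ℝ), (k : ℝ) ≤ t' → t' ≤ k + 1 →
        ‖((W⁻¹ : ℝ) : ℂ) * (∫ s in t'..(t' + W), g s) - l‖ ^ 2 ≤
          2 * (5 * A * δ) ^ 2 + 2 * A * ((N : ℝ)⁻¹ * ∑ j ∈ Finset.range N, ρ (k + j)) := by
      intro k t' hk hk1
      have h1 := wreal hgc hgn hW0 hN1 hN2 hk hk1
      have h2 := wone2 hX hC hG hBB q t V hM3 hN3 k F
      obtain ⟨s1, hs1⟩ : ∃ s1 : ℝ, s1 = (N : ℝ)⁻¹ * ∑ j ∈ Finset.range N,
        ‖RO U B M q t V (U V (k + j : ℕ) F)‖ := ⟨_, rfl⟩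
      rw [← hs1] at h2
      have hs10 : 0 ≤ s1 := by
        rw [hs1]
        exact mul_nonneg (inv_pos.2 hN0).le (Finset.sum_nonneg fun j _ => norm_nonneg _)
      have hs12 : s1 ^ 2 ≤ (N : ℝ)⁻¹ * ∑ j ∈ Finset.range N, ρ (k + j) := by
        rw [hs1, mul_pow, hρ]
        have h3 := sq_sum_le_card_mul_sum_sq (s := Finset.range N)
          (f := fun j => ‖RO U B M q t V (U V (k + j : ℕ) F)‖)
        rw [Finset.card_range] at h3
        have h4 : ((N : ℝ)⁻¹) ^ 2 * (∑ j ∈ Finset.range N,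
            ‖RO U B M q t V (U V (k + j : ℕ) F)‖) ^ 2 ≤ ((N : ℝ)⁻¹) ^ 2 *
            (N * ∑ j ∈ Finset.range N, ‖RO U B M q t V (U V (k + j : ℕ) F)‖ ^ 2) :=
          mul_le_mul_of_nonneg_left h3 (by positivity)
        refine h4.trans (le_of_eq ?_)
        field_simp
      have h2' : ‖(N : ℂ)⁻¹ * (∫ s in (k : ℝ)..(k + N), g s) - inner ℂ F (qU U q t V F)‖ ≤
          2 * (M : ℝ) / N * ‖F‖ ^ 2 + ‖F‖ * s1 := by
        rw [hg]
        exact h2
      have h3 : 3 * ‖F‖ ^ 2 / W ≤ A * δ := by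
        rw [div_le_iff₀ hW0]
        have h4 : 3 ≤ δ * W := by
          rw [div_le_iff₀ hδ0] at hW1
          linarith
        nlinarith
      have h3' : 2 * (M : ℝ) / N * ‖F‖ ^ 2 ≤ A * δ := by
        rw [mul_comm A δ]
        exact mul_le_mul hMN hnA (sq_nonneg _) hδ0.le
      have h5 : ((W⁻¹ : ℝ) : ℂ) * (∫ s in t'..(t' + W), g s) - l =
          (((W⁻¹ : ℝ) : ℂ) * (∫ s in t'..(t' + W), g s) -
            (N : ℂ)⁻¹ * ∫ s in (k : ℝ)..(k + N), g s) +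
          ((N : ℂ)⁻¹ * (∫ s in (k : ℝ)..(k + N), g s) - inner ℂ F (qU U q t V F)) +
          ((inner ℂ F (qU U q t V F) : ℂ) - l) := by ring
      have h6 : ‖((W⁻¹ : ℝ) : ℂ) * (∫ s in t'..(t' + W), g s) - l‖ ≤
          5 * A * δ + ‖F‖ * s1 := by
        rw [h5]
        refine (norm_add_le _ _).trans ((add_le_add_left (norm_add_le _ _) _).trans ?_)
        linarith
      have h7 : ‖((W⁻¹ : ℝ) : ℂ) * (∫ s in t'..(t' + W), g s) - l‖ ^ 2 ≤
          (5 * A * δ + ‖F‖ * s1) ^ 2 :=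
        pow_le_pow_left₀ (norm_nonneg _) h6 2
      refine h7.trans ?_
      have h8 : (‖F‖ * s1) ^ 2 ≤ A * ((N : ℝ)⁻¹ * ∑ j ∈ Finset.range N, ρ (k + j)) := by
        rw [mul_pow]
        exact mul_le_mul hnA hs12 (sq_nonneg _) hA0.le
      have h9 := sq_nonneg (5 * A * δ - ‖F‖ * s1)
      have h10 : (5 * A * δ + ‖F‖ * s1) ^ 2 = 2 * (5 * A * δ) ^ 2 + 2 * (‖F‖ * s1) ^ 2 -
        (5 * A * δ - ‖F‖ * s1) ^ 2 := by ring
      rw [h10]
      linarith
    have hρs : ∀ L : ℕ, 1 ≤ L → ∑ i ∈ Finset.range L, ρ i ≤ L * (A * (2 * δ)) := by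
      intro L hL
      have hL0 : (0 : ℝ) < L := by exact_mod_cast hL
      rw [hρ, sumR hX hG]
      have h1 := app_vf ((((L : ℂ)⁻¹) • SN U R2 L V : L2 d →L[ℂ] L2 d)) S f (b := 2 * δ)
        (fun y hy => by
          have h2 := hb1 V hV.1 y hy L hL
          rw [hsq] at h2
          refine h2.trans (le_of_eq ?_)
          ring)
      rw [← hFd] at h1
      have h3 : ‖((L : ℂ)⁻¹) • SN U R2 L V F‖ ≤ c * (2 * δ) :=
        le_trans h1 (mul_le_mul_of_nonneg_right hf1 (by positivity))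
      have h4 : ‖SN U R2 L V F‖ ≤ L * (c * (2 * δ)) := by
        rw [norm_smul, norm_inv, Complex.norm_natCast, inv_mul_le_iff₀ hL0] at h3
        exact h3
      have h5 : (inner ℂ F (SN U R2 L V F) : ℂ).re ≤ c * (L * (c * (2 * δ))) := by
        refine (Complex.re_le_norm _).trans ((norm_inner_le_norm _ _).trans ?_)
        exact mul_le_mul hnF h4 (norm_nonneg _) hc0'
      have h6 : c * (L * (c * (2 * δ))) ≤ L * (A * (2 * δ)) := by
        have h7 : c ^ 2 ≤ A := by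
          rw [hA]
          exact pow_le_pow_left₀ hc0' (by linarith) 2
        have h8 : c * (L * (c * (2 * δ))) = c ^ 2 * (L * (2 * δ)) := by ring
        have h9 : (L : ℝ) * (A * (2 * δ)) = A * (L * (2 * δ)) := by ring
        rw [h8, h9]
        exact mul_le_mul_of_nonneg_right h7 (by positivity)
      rw [← hR2]
      exact h5.trans h6
    have hsum : ∀ n' : ℕ, 1 ≤ n' → ∑ k ∈ Finset.range n', (2 * (5 * A * δ) ^ 2 +
        2 * A * ((N : ℝ)⁻¹ * ∑ j ∈ Finset.range N, ρ (k + j))) ≤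
        n' * (2 * (5 * A * δ) ^ 2 + 2 * A * (2 * (A * (2 * δ)))) := by
      intro n' hn'
      rw [Finset.sum_add_distrib, Finset.sum_const, Finset.card_range, nsmul_eq_mul,
        ← Finset.mul_sum]
      have h1 := dbl hρ0 (β := A * (2 * δ)) (by positivity) hρs hn' hN3
      have h2 := mul_le_mul_of_nonneg_left h1 (show 0 ≤ 2 * A by positivity)
      have h3 : (n' : ℝ) * (2 * (5 * A * δ) ^ 2 + 2 * A * (2 * (A * (2 * δ)))) =
        n' * (2 * (5 * A * δ) ^ 2) + 2 * A * (n' * (2 * (A * (2 * δ)))) := by ring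
      rw [h3]
      linarith
    have hfin := tint_le (φ := fun t' : ℝ => ‖((W⁻¹ : ℝ) : ℂ) * (∫ s in t'..(t' + W), g s) - l‖ ^ 2)
      (by
        have h1 : Continuous fun t' : ℝ => ∫ s in t'..(t' + W), g s := by
          have h2 : (fun t' : ℝ => ∫ s in t'..(t' + W), g s) =
              fun t' : ℝ => (∫ s in (0 : ℝ)..(t' + W), g s) - ∫ s in (0 : ℝ)..t', g s := by
            funext t'
            rw [intervalIntegral.integral_interval_sub_left (hgc.intervalIntegrable _ _)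
              (hgc.intervalIntegrable _ _)]
          rw [h2]
          have h3 : Continuous fun x : ℝ => ∫ s in (0 : ℝ)..x, g s :=
            intervalIntegral.continuous_primitive (fun a b => hgc.intervalIntegrable a b) 0
          exact (h3.comp (continuous_id.add continuous_const)).sub h3
        exact ((continuous_const.mul h1).sub continuous_const).norm.pow 2)
      (fun t' => sq_nonneg _) hpt hsum (by positivity) hτ
    refine hfin.trans ?_
    have h1 : (5 * A * δ) ^ 2 ≤ 25 * (A ^ 2 * δ) := by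
      have : (5 * A * δ) ^ 2 = 25 * (A ^ 2 * δ) * δ := by ring
      rw [this]
      exact mul_le_of_le_one_right (by positivity) hδ1
    have h2 : 2 * (2 * (5 * A * δ) ^ 2 + 2 * A * (2 * (A * (2 * δ)))) =
      4 * (5 * A * δ) ^ 2 + 16 * (A ^ 2 * δ) := by ring
    rw [h2]
    have h3 : 200 * (A ^ 2 * δ) ≤ η := by linarith
    have h4 : 0 ≤ A ^ 2 * δ := by positivity
    linarith

end Pool.Agent.T2h98.MR.V98
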