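import Pool.Agent.T2h98.MR.StmU
import Pool.Agent.T2h98.MR.MR
import Pool.Agent.T2h98.MR.ROC

/-! Relaxation of the momentum in most kinetic time windows, at all times, uniformly in the
initial state: the theorem from its parts. -/

set_option autoImplicit false
set_option linter.unusedSectionVars false
set_option linter.unusedVariables false

open scoped BigOperators Matrix Topology
open MeasureTheory ProbabilityTheory Filter

namespace Pool.Agent.T2h98.MR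

open Pool.Agent.TH980.IM.PR (PP sh)
open Pool.Agent.T2h98.QD (dn T_DOS)
open Pool.Agent.T2h98.PS
open Pool.Agent.T2h98.NB
open Pool.Agent.T2h98.EA (SN Uni1 T_SNF T_MAX)

namespace MRUx

open MRx

variable {d : ℕ}

theorem win {I : ℝ → ℂ} (hI : Continuous I) {A : ℝ} (hA : ∀ s, ‖I s‖ ≤ A) {W t : ℝ} {k M : ℕ}
    (hW : 0 < W) (hM1 : W ≤ (M : ℝ)) (hM2 : (M : ℝ) ≤ W + 1) (ht1 : (k : ℝ) ≤ t)
    (ht2 : t ≤ k + 1) :
    ‖((W⁻¹ : ℝ) : ℂ) * (∫ s in t..(t + W), I s) -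
      (M : ℂ)⁻¹ * ∫ s in (k : ℝ)..((k : ℝ) + M), I s‖ ≤ 3 * A / W := by
  have hA0 : 0 ≤ A := (norm_nonneg _).trans (hA 0)
  have hM0 : (0 : ℝ) < M := lt_of_lt_of_le hW hM1
  have ii : ∀ x y : ℝ, IntervalIntegrable I volume x y := fun x y => hI.intervalIntegrable _ _
  have h1 : ∫ s in (k : ℝ)..((k : ℝ) + M), I s = (∫ s in (k : ℝ)..t, I s) +
      (∫ s in t..(t + W), I s) + ∫ s in (t + W)..((k : ℝ) + M), I s := by
    rw [intervalIntegral.integral_add_adjacent_intervals (ii _ _) (ii _ _),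
      intervalIntegral.integral_add_adjacent_intervals (ii _ _) (ii _ _)]
  have hn : ∀ x y : ℝ, ‖∫ s in x..y, I s‖ ≤ A * |y - x| := fun x y =>
    intervalIntegral.norm_integral_le_of_norm_le_const fun s _ => hA s
  have h2 : ‖∫ s in (k : ℝ)..t, I s‖ ≤ A := by
    refine (hn _ _).trans ?_
    have : |t - k| ≤ 1 := by
      rw [abs_le]
      constructor <;> linarith
    nlinarith
  have h3 : ‖∫ s in (t + W)..((k : ℝ) + M), I s‖ ≤ A := by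
    refine (hn _ _).trans ?_
    have : |(k : ℝ) + M - (t + W)| ≤ 1 := by
      rw [abs_le]
      constructor <;> linarith
    nlinarith
  have h4 : ‖∫ s in (k : ℝ)..((k : ℝ) + M), I s‖ ≤ A * M := by
    refine (hn _ _).trans ?_
    have : |(k : ℝ) + M - k| = M := by
      rw [add_sub_cancel_left, abs_of_pos hM0]
    rw [this]
  obtain ⟨x, hx⟩ : ∃ x : ℂ, x = ∫ s in (k : ℝ)..t, I s := ⟨_, rfl⟩
  obtain ⟨y, hy⟩ : ∃ y : ℂ, y = ∫ s in (t + W)..((k : ℝ) + M), I s := ⟨_, rfl⟩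
  obtain ⟨J, hJ⟩ : ∃ J : ℂ, J = ∫ s in (k : ℝ)..((k : ℝ) + M), I s := ⟨_, rfl⟩
  rw [← hx, ← hy, ← hJ] at h1
  rw [← hx] at h2
  rw [← hy] at h3
  rw [← hJ] at h4
  rw [← hJ]
  have h5 : ∫ s in t..(t + W), I s = J - x - y := by
    rw [h1]
    ring
  have h6 : ((W⁻¹ : ℝ) : ℂ) * (∫ s in t..(t + W), I s) - (M : ℂ)⁻¹ * J =
      ((W⁻¹ - (M : ℝ)⁻¹ : ℝ) : ℂ) * J - ((W⁻¹ : ℝ) : ℂ) * x - ((W⁻¹ : ℝ) : ℂ) * y := by
    rw [h5]
    push_cast
    ring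
  have hWM : 0 ≤ W⁻¹ - (M : ℝ)⁻¹ := sub_nonneg.2 (inv_anti₀ hW hM1)
  rw [h6]
  refine (norm_sub_le _ _).trans ?_
  refine (add_le_add_left (norm_sub_le _ _) _).trans ?_
  rw [norm_mul, norm_mul, norm_mul, Complex.norm_real, Complex.norm_real, Real.norm_eq_abs,
    Real.norm_eq_abs, abs_of_nonneg hWM, abs_of_pos (inv_pos.2 hW)]
  have h7 : (W⁻¹ - (M : ℝ)⁻¹) * ‖J‖ ≤ (W⁻¹ - (M : ℝ)⁻¹) * (A * M) :=
    mul_le_mul_of_nonneg_left h4 hWM
  have h8 : (W⁻¹ - (M : ℝ)⁻¹) * (A * M) = A * ((M - W) / W) := by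
    field_simp
  have h9 : A * ((M - W) / W) ≤ A / W := by
    rw [mul_div_assoc']
    refine div_le_div_of_nonneg_right ?_ hW.le
    nlinarith
  have h10 : W⁻¹ * ‖x‖ ≤ A / W := by
    rw [div_eq_inv_mul]
    exact mul_le_mul_of_nonneg_left h2 (inv_pos.2 hW).le
  have h11 : W⁻¹ * ‖y‖ ≤ A / W := by
    rw [div_eq_inv_mul]
    exact mul_le_mul_of_nonneg_left h3 (inv_pos.2 hW).le
  calc _ ≤ A / W + A / W + A / W := by linarith
    _ = 3 * A / W := by ring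

theorem opn (hX : T_XT) {U : Om d → ℝ → L2 d →L[ℂ] L2 d} (hG : Grp U) {m : Sd d}
    {B : Om d → L2 d →L[ℂ] L2 d} (hB : IsB U m B) (M : ℕ) {n : ℕ} (a : Fin n → ℂ)
    (t : Fin n → ℝ) (V : Om d) (v : L2 d) (k : ℕ) :
    (M : ℂ)⁻¹ * (∫ s in (k : ℝ)..((k : ℝ) + M),
      (inner ℂ (U V s v) (Sf (-m) (U V s v)) : ℂ)) =
    inner ℂ (U V k v) (RO U B M a t V (U V k v)) + inner ℂ v (qU U a t V v) := by
  have h1 : ∫ s in (k : ℝ)..((k : ℝ) + M), (inner ℂ (U V s v) (Sf (-m) (U V s v)) : ℂ) =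
      ∫ s in (0 : ℝ)..M, (inner ℂ (U V s (U V k v)) (Sf (-m) (U V s (U V k v))) : ℂ) := by
    have h := intervalIntegral.integral_comp_add_left (a := 0) (b := (M : ℝ))
      (fun s => (inner ℂ (U V s v) (Sf (-m) (U V s v)) : ℂ)) (k : ℝ)
    rw [add_zero] at h
    rw [← h]
    refine intervalIntegral.integral_congr fun s _ => ?_
    show (inner ℂ (U V (k + s) v) (Sf (-m) (U V (k + s) v)) : ℂ) = _
    rw [add_comm (k : ℝ) s, hG.g0.add]
  rw [h1, tint hX hG hB]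
  have h2 : (M : ℂ)⁻¹ * inner ℂ (U V k v) (SN U B M V (U V k v)) =
      inner ℂ (U V k v) (RO U B M a t V (U V k v)) +
        inner ℂ (U V k v) (qU U a t V (U V k v)) := by
    rw [← inner_smul_right, ← inner_add_right]
    congr 1
    show _ = (((M : ℂ)⁻¹) • SN U B M V - qU U a t V) (U V k v) + _
    rw [_root_.sub_apply, _root_.smul_apply, sub_add_cancel]
  rw [h2]
  congr 1
  rw [(hX d U hG).1, ROCx.qU_comm hG a t V (k : ℝ) v]

theorem sumR (hX : T_XT) {U : Om d → ℝ → L2 d →L[ℂ] L2 d} (hG : Grp U)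
    (R : Om d → L2 d →L[ℂ] L2 d) (V : Om d) (v : L2 d) {b : ℝ} {n : ℕ} (hn : 1 ≤ n)
    (h : ‖(((n : ℂ)⁻¹) • SN U (fun W => (ContinuousLinearMap.adjoint (R W)).comp (R W)) n V :
      L2 d →L[ℂ] L2 d) v‖ ≤ b) :
    ∑ k ∈ Finset.range n, ‖R V (U V (k : ℝ) v)‖ ^ 2 ≤ n * (‖v‖ * b) := by
  have hn0 : (0 : ℝ) < n := by exact_mod_cast hn
  have hnc : (n : ℂ) ≠ 0 := by
    have : n ≠ 0 := by omega
    exact_mod_cast this
  have h1 : (inner ℂ v ((((n : ℂ)⁻¹) • SN U (fun W => (ContinuousLinearMap.adjoint (R W)).comp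
      (R W)) n V : L2 d →L[ℂ] L2 d) v) : ℂ) =
      (n : ℂ)⁻¹ * ((∑ k ∈ Finset.range n, ‖R V (U V (k : ℝ) v)‖ ^ 2 : ℝ) : ℂ) := by
    rw [_root_.smul_apply, inner_smul_right, ROCx.SN_apply, inner_sum]
    congr 1
    push_cast
    refine Finset.sum_congr rfl fun k _ => ?_
    rw [← (hX d U hG).1]
    show (inner ℂ (U V k v) (ContinuousLinearMap.adjoint (R V) (R V (U V k v))) : ℂ) = _
    rw [ContinuousLinearMap.adjoint_inner_right, inner_self_eq_norm_sq_to_K]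
    rfl
  have h2 := norm_inner_le_norm (𝕜 := ℂ) v ((((n : ℂ)⁻¹) • SN U (fun W =>
    (ContinuousLinearMap.adjoint (R W)).comp (R W)) n V : L2 d →L[ℂ] L2 d) v)
  rw [h1, norm_mul, norm_inv, Complex.norm_natCast, Complex.norm_real, Real.norm_eq_abs,
    abs_of_nonneg (Finset.sum_nonneg fun k _ => by positivity)] at h2
  rw [inv_mul_le_iff₀ hn0] at h2
  refine h2.trans (mul_le_mul_of_nonneg_left ?_ hn0.le)
  exact mul_le_mul_of_nonneg_left h (norm_nonneg _)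

theorem mean {g : ℝ → ℝ} (hg : Continuous g) (h0 : ∀ t, 0 ≤ g t) (b : ℕ → ℝ)
    (hb : ∀ (k : ℕ) (t : ℝ), (k : ℝ) ≤ t → t ≤ k + 1 → g t ≤ b k) {β : ℝ}
    (hβ : ∀ n : ℕ, 1 ≤ n → ∑ k ∈ Finset.range n, b k ≤ n * β) {τ : ℝ} (hτ : 0 < τ) :
    τ⁻¹ * (∫ t in (0 : ℝ)..τ, g t) ≤ 2 * β := by
  have ii : ∀ x y : ℝ, IntervalIntegrable g volume x y := fun x y => hg.intervalIntegrable _ _
  have hb0 : b 0 ≤ β := by
    have := hβ 1 le_rfl
    simpa using this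
  have hβ0 : 0 ≤ β := ((h0 0).trans (hb 0 0 (by simp) (by simp))).trans hb0
  rcases lt_or_ge τ 1 with h | h
  · have h1 : ∫ t in (0 : ℝ)..τ, g t ≤ ∫ t in (0 : ℝ)..τ, b 0 := by
      refine intervalIntegral.integral_mono_on hτ.le (ii _ _)
        (continuous_const.intervalIntegrable _ _) fun t ht => ?_
      exact hb 0 t (by simpa using ht.1) (by
        have := ht.2
        push_cast
        linarith)
    rw [intervalIntegral.integral_const, sub_zero, smul_eq_mul] at h1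
    have h2 : τ⁻¹ * (∫ t in (0 : ℝ)..τ, g t) ≤ τ⁻¹ * (τ * b 0) :=
      mul_le_mul_of_nonneg_left h1 (inv_pos.2 hτ).le
    rw [← mul_assoc, inv_mul_cancel₀ hτ.ne', one_mul] at h2
    linarith
  · obtain ⟨n, hn⟩ : ∃ n : ℕ, n = ⌈τ⌉₊ := ⟨_, rfl⟩
    have hn1 : τ ≤ n := by
      rw [hn]
      exact Nat.le_ceil _
    have hn2 : (n : ℝ) ≤ τ + 1 := by
      rw [hn]
      exact (Nat.ceil_lt_add_one hτ.le).le
    have hn3 : 1 ≤ n := by exact_mod_cast h.trans hn1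
    have h1 : ∫ t in (0 : ℝ)..τ, g t ≤ ∫ t in (0 : ℝ)..n, g t := by
      rw [← intervalIntegral.integral_add_adjacent_intervals (ii 0 τ) (ii τ n)]
      have : 0 ≤ ∫ t in τ..n, g t := intervalIntegral.integral_nonneg hn1 fun t _ => h0 t
      linarith
    have h2 : ∫ t in (0 : ℝ)..n, g t ≤ ∑ k ∈ Finset.range n, b k := by
      have h3 := intervalIntegral.sum_integral_adjacent_intervals (f := g) (μ := volume)
        (a := fun k : ℕ => (k : ℝ)) (n := n) fun k _ => ii _ _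
      rw [Nat.cast_zero] at h3
      rw [← h3]
      refine Finset.sum_le_sum fun k _ => ?_
      have h4 : ∫ t in (k : ℝ)..((k + 1 : ℕ) : ℝ), g t ≤ ∫ t in (k : ℝ)..((k + 1 : ℕ) : ℝ), b k := by
        refine intervalIntegral.integral_mono_on (by push_cast; linarith) (ii _ _)
          (continuous_const.intervalIntegrable _ _) fun t ht => ?_
        exact hb k t ht.1 (by
          have := ht.2
          push_cast at this
          exact this)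
      refine h4.trans (le_of_eq ?_)
      rw [intervalIntegral.integral_const, smul_eq_mul]
      push_cast
      ring
    have h5 : ∫ t in (0 : ℝ)..τ, g t ≤ (τ + 1) * β :=
      (h1.trans h2).trans ((hβ n hn3).trans (mul_le_mul_of_nonneg_right hn2 hβ0))
    rw [inv_mul_le_iff₀ hτ]
    nlinarith

/-- the estimate at one potential, for all initial states -/
theorem pointU (hX : T_XT) (hF : T_FRE) (hCf : T_CFM) (hM : T_PWM) (hD : T_DOS)
    (hd : 3 ≤ d) {U : Om d → ℝ → L2 d →L[ℂ] L2 d} (hG : Grp U) {m : Sd d}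
    {B : Om d → L2 d →L[ℂ] L2 d} (hB : IsB U m B) (S : Finset (Sd d)) {n : ℕ}
    (a : Fin n → ℂ) (t : Fin n → ℝ) {c0 η1 : ℝ} (hc : 0 < c0)
    (h : ∀ E : ℝ, |E| ≤ 2 * (d : ℝ) + 1 → ‖qE a t E - (cf d m c0 E : ℂ)‖ ≤ η1)
    {M : ℕ} {W : ℝ} (hW : 0 < W) (hM1 : W ≤ (M : ℝ)) (hM2 : (M : ℝ) ≤ W + 1)
    (V : Om d) {b e1 : ℝ} (hb0 : 0 ≤ b) (he0 : 0 ≤ e1)
    (hb : ∀ y ∈ S, ∀ i : ℕ, 1 ≤ i → ‖((i : ℂ)⁻¹) • SN U (fun X =>
      (ContinuousLinearMap.adjoint (RO U B M a t X)).comp (RO U B M a t X)) i V (ee y)‖ ≤ b)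
    (he : ∀ y ∈ S, ‖qU U a t V (ee y) - qU U a t 0 (ee y)‖ ≤ e1)
    (f : Sd d → ℂ) (hf : ∀ y, ‖f y‖ ≤ 1) {τ : ℝ} (hτ : 0 < τ) :
    τ⁻¹ * (∫ t in (0 : ℝ)..τ, ‖((W⁻¹ : ℝ) : ℂ) * (∫ s in t..(t + W),
        (inner ℂ (U V s (vf S f)) (Sf (-m) (U V s (vf S f))) : ℂ)) -
      ((∫ k in Set.Icc (0 : Fin d → ℝ) 1, ‖fh S f k‖ ^ 2 * (wm d m (ek k) / dn d (ek k)) : ℝ) :
        ℂ)‖ ^ 2) ≤
      2 * (2 * ((S.card : ℝ) + 1) ^ 2 * (((S.card : ℝ) + 1) ^ 2 * b) +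
        2 * (((S.card : ℝ) + 1) ^ 2 * (3 / W + e1 + η1 + 16 * d * c0)) ^ 2) := by
  obtain ⟨v, hv⟩ : ∃ v : L2 d, v = vf S f := ⟨_, rfl⟩
  obtain ⟨D, hDD⟩ : ∃ D : ℝ, D = (S.card : ℝ) + 1 := ⟨_, rfl⟩
  obtain ⟨F1, hF1⟩ : ∃ F1 : ℝ, F1 = ∑ y ∈ S, ‖f y‖ := ⟨_, rfl⟩
  have hη1 : 0 ≤ η1 := (norm_nonneg _).trans (h 0 (by rw [abs_zero]; positivity))
  have hF10 : 0 ≤ F1 := by
    rw [hF1]
    exact Finset.sum_nonneg fun y _ => norm_nonneg _
  have hF1D : F1 ≤ D := by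
    rw [hF1, hDD]
    have h1 : ∑ y ∈ S, ‖f y‖ ≤ ∑ _y ∈ S, (1 : ℝ) := Finset.sum_le_sum fun y _ => hf y
    rw [Finset.sum_const, nsmul_eq_mul, mul_one] at h1
    linarith
  have hD1 : 1 ≤ D := by
    rw [hDD]
    have : (0 : ℝ) ≤ S.card := Nat.cast_nonneg _
    linarith
  have hD0 : 0 ≤ D := by linarith
  have hnF : ‖v‖ ≤ F1 := by
    rw [hv, hF1]
    exact norm_vf S f
  have hn0 : 0 ≤ ‖v‖ := norm_nonneg _
  have hvD : ‖v‖ ≤ D := hnF.trans hF1D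
  have hA1 : ‖v‖ ^ 2 ≤ D ^ 2 := pow_le_pow_left₀ hn0 hvD 2
  have hA3 : F1 ^ 2 ≤ D ^ 2 := pow_le_pow_left₀ hF10 hF1D 2
  rw [← hDD, ← hv]
  -- the diagonal part
  have E4 : ‖(inner ℂ v (qU U a t V v - qU U a t 0 v) : ℂ)‖ ≤ D ^ 2 * e1 := by
    have h1 := app_vf (qU U a t V - qU U a t 0) S f (b := e1) (fun y hy => he y hy)
    rw [← hv, ← hF1] at h1
    refine (norm_inner_le_norm _ _).trans ?_
    have h2 : ‖v‖ * ‖qU U a t V v - qU U a t 0 v‖ ≤ D * (F1 * e1) :=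
      mul_le_mul hvD h1 (norm_nonneg _) hD0
    refine h2.trans ?_
    have h3 : D * (F1 * e1) ≤ D * (D * e1) :=
      mul_le_mul_of_nonneg_left (mul_le_mul_of_nonneg_right hF1D he0) hD0
    refine h3.trans (le_of_eq ?_)
    ring
  have E5 := free_part hF hG S f a t
  have E6 := free_err hM hD hd m hc S f a t h
  rw [← E5, ← hF1, ← hv] at E6
  have E7 := hCf d hd m (fun k => ‖fh S f k‖ ^ 2) (F1 ^ 2) c0 ((FRE.fh_cont S f).norm.pow 2)
    (fun k => by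
      rw [abs_of_nonneg (by positivity), hF1]
      exact pow_le_pow_left₀ (norm_nonneg _) (FRE.fh_le S f k) 2) hc
  have E7' : ‖((∫ k in Set.Icc (0 : Fin d → ℝ) 1, ‖fh S f k‖ ^ 2 * cf d m c0 (ek k) : ℝ) : ℂ) -
      ((∫ k in Set.Icc (0 : Fin d → ℝ) 1, ‖fh S f k‖ ^ 2 * (wm d m (ek k) / dn d (ek k)) : ℝ) :
        ℂ)‖ ≤ 16 * d * F1 ^ 2 * c0 := by
    rw [← Complex.ofReal_sub, Complex.norm_real, Real.norm_eq_abs]
    exact E7
  obtain ⟨Y0, hY0⟩ : ∃ Y0 : ℂ, Y0 = ((∫ k in Set.Icc (0 : Fin d → ℝ) 1,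
    ‖fh S f k‖ ^ 2 * (wm d m (ek k) / dn d (ek k)) : ℝ) : ℂ) := ⟨_, rfl⟩
  obtain ⟨Z0, hZ0⟩ : ∃ Z0 : ℂ, Z0 = ((∫ k in Set.Icc (0 : Fin d → ℝ) 1,
    ‖fh S f k‖ ^ 2 * cf d m c0 (ek k) : ℝ) : ℂ) := ⟨_, rfl⟩
  rw [← hY0] at E7' ⊢
  rw [← hZ0] at E6 E7'
  have hdiag : ‖(inner ℂ v (qU U a t V v) : ℂ) - Y0‖ ≤ D ^ 2 * (e1 + η1 + 16 * d * c0) := by
    rw [inner_sub_right] at E4
    have key : (inner ℂ v (qU U a t V v) : ℂ) - Y0 =
        ((inner ℂ v (qU U a t V v) : ℂ) - inner ℂ v (qU U a t 0 v)) +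
        ((inner ℂ v (qU U a t 0 v) : ℂ) - Z0) + (Z0 - Y0) := by ring
    rw [key]
    refine (norm_add_le _ _).trans ?_
    refine (add_le_add_left (norm_add_le _ _) _).trans ?_
    have h2 : F1 ^ 2 * η1 ≤ D ^ 2 * η1 := mul_le_mul_of_nonneg_right hA3 hη1
    have h3 : 16 * d * F1 ^ 2 * c0 ≤ D ^ 2 * (16 * d * c0) := by
      have : 16 * (d : ℝ) * F1 ^ 2 * c0 = F1 ^ 2 * (16 * d * c0) := by ring
      rw [this]
      exact mul_le_mul_of_nonneg_right hA3 (by positivity)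
    linarith
  obtain ⟨ε0, hε0⟩ : ∃ ε0 : ℝ, ε0 = D ^ 2 * (3 / W + e1 + η1 + 16 * d * c0) := ⟨_, rfl⟩
  rw [← hε0]
  have hcI := cont_I hG m V v
  obtain ⟨I, hI⟩ : ∃ I : ℝ → ℂ, I = fun s => (inner ℂ (U V s v) (Sf (-m) (U V s v)) : ℂ) :=
    ⟨_, rfl⟩
  have hIc : Continuous I := by
    rw [hI]
    exact hcI
  have hIn : ∀ s, ‖I s‖ ≤ D ^ 2 := fun s => by
    rw [hI]
    exact (norm_I hG m V v s).trans hA1
  have hgc : Continuous fun t : ℝ => ‖((W⁻¹ : ℝ) : ℂ) * (∫ s in t..(t + W), I s) - Y0‖ ^ 2 := by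
    have h1 : ∀ t : ℝ, ∫ s in t..(t + W), I s =
        (∫ s in (0 : ℝ)..(t + W), I s) - ∫ s in (0 : ℝ)..t, I s := fun t => by
      rw [intervalIntegral.integral_interval_sub_left (hIc.intervalIntegrable _ _)
        (hIc.intervalIntegrable _ _)]
    simp only [h1]
    have h2 : Continuous fun x : ℝ => ∫ s in (0 : ℝ)..x, I s :=
      intervalIntegral.continuous_primitive (fun x y => hIc.intervalIntegrable _ _) 0
    exact (((continuous_const.mul ((h2.comp (continuous_id.add continuous_const)).sub h2)).sub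
      continuous_const).norm).pow 2
  have hpt : ∀ (k : ℕ) (t' : ℝ), (k : ℝ) ≤ t' → t' ≤ k + 1 →
      ‖((W⁻¹ : ℝ) : ℂ) * (∫ s in t'..(t' + W), I s) - Y0‖ ^ 2 ≤
        2 * D ^ 2 * ‖RO U B M a t V (U V (k : ℝ) v)‖ ^ 2 + 2 * ε0 ^ 2 := by
    intro k t' h1 h2
    have h3 := win hIc hIn hW hM1 hM2 h1 h2
    have h4 := opn hX hG hB M a t V v k
    have h5 : (M : ℂ)⁻¹ * (∫ s in (k : ℝ)..((k : ℝ) + M), I s) =
        inner ℂ (U V k v) (RO U B M a t V (U V k v)) + inner ℂ v (qU U a t V v) := by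
      rw [hI]
      exact h4
    rw [h5] at h3
    have h6 : ‖(inner ℂ (U V k v) (RO U B M a t V (U V k v)) : ℂ)‖ ≤
        D * ‖RO U B M a t V (U V (k : ℝ) v)‖ := by
      refine (norm_inner_le_norm _ _).trans ?_
      rw [hG.g0.norm]
      exact mul_le_mul_of_nonneg_right hvD (norm_nonneg _)
    have h7 : ‖((W⁻¹ : ℝ) : ℂ) * (∫ s in t'..(t' + W), I s) - Y0‖ ≤
        D * ‖RO U B M a t V (U V (k : ℝ) v)‖ + ε0 := by
      have key : ((W⁻¹ : ℝ) : ℂ) * (∫ s in t'..(t' + W), I s) - Y0 =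
          (((W⁻¹ : ℝ) : ℂ) * (∫ s in t'..(t' + W), I s) -
            (inner ℂ (U V k v) (RO U B M a t V (U V k v)) + inner ℂ v (qU U a t V v))) +
          inner ℂ (U V k v) (RO U B M a t V (U V k v)) +
          ((inner ℂ v (qU U a t V v) : ℂ) - Y0) := by ring
      rw [key]
      refine (norm_add_le _ _).trans ?_
      refine (add_le_add_left (norm_add_le _ _) _).trans ?_
      have h8 : 3 * D ^ 2 / W = D ^ 2 * (3 / W) := by ring
      rw [h8] at h3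
      rw [hε0]
      linarith
    have h9 : 0 ≤ D * ‖RO U B M a t V (U V (k : ℝ) v)‖ := mul_nonneg hD0 (norm_nonneg _)
    have h10 := pow_le_pow_left₀ (norm_nonneg _) h7 2
    refine h10.trans ?_
    nlinarith [sq_nonneg (D * ‖RO U B M a t V (U V (k : ℝ) v)‖ - ε0)]
  have hsum : ∀ N : ℕ, 1 ≤ N → ∑ k ∈ Finset.range N,
      (2 * D ^ 2 * ‖RO U B M a t V (U V (k : ℝ) v)‖ ^ 2 + 2 * ε0 ^ 2) ≤
      N * (2 * D ^ 2 * (D ^ 2 * b) + 2 * ε0 ^ 2) := by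
    intro N hN
    have h1 := app_vf (((N : ℂ)⁻¹) • SN U (fun X =>
      (ContinuousLinearMap.adjoint (RO U B M a t X)).comp (RO U B M a t X)) N V) S f
      (fun y hy => hb y hy N hN)
    rw [← hv, ← hF1] at h1
    have h2 := sumR hX hG (RO U B M a t) V v hN h1
    rw [Finset.sum_add_distrib, ← Finset.mul_sum, Finset.sum_const, Finset.card_range,
      nsmul_eq_mul]
    have h3 : ‖v‖ * (F1 * b) ≤ D ^ 2 * b := by
      have h4 : ‖v‖ * (F1 * b) ≤ D * (D * b) :=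
        mul_le_mul hvD (mul_le_mul_of_nonneg_right hF1D hb0) (mul_nonneg hF10 hb0) hD0
      refine h4.trans (le_of_eq ?_)
      ring
    have hN0 : (0 : ℝ) ≤ N := Nat.cast_nonneg _
    have h5 : ∑ k ∈ Finset.range N, ‖RO U B M a t V (U V (k : ℝ) v)‖ ^ 2 ≤
        N * (D ^ 2 * b) := h2.trans (mul_le_mul_of_nonneg_left h3 hN0)
    have h6 := mul_le_mul_of_nonneg_left h5 (show 0 ≤ 2 * D ^ 2 by positivity)
    nlinarith
  have hres := mean hgc (fun t => by positivity) _ hpt hsum hτ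
  rw [hI] at hres
  exact hres

end MRUx

open MRx MRUx in
/-- **relaxation of the momentum in most kinetic windows, uniformly in the initial state**, from
the parts -/
theorem mru (hB : T_BOP) (hI : T_INFK) (hC : T_ROC) (hMx : T_MXS) (hQ : T_QCV) (hF : T_FRE)
    (hCf : T_CFM) (hT : T_TR2) (hBd : T_QBD) (hX : T_XT) (hS : T_SNF) (hPW : T_PWM)
    (hD : T_DOS) (hCov : T_COV) : T_MRU := by
  intro d hd U hG m S η hη
  obtain ⟨B, hBB⟩ := hB d U hG m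
  obtain ⟨A, hA⟩ : ∃ A : ℝ, A = ((S.card : ℝ) + 1) ^ 2 := ⟨_, rfl⟩
  have hcard : (0 : ℝ) ≤ S.card := Nat.cast_nonneg _
  have hA1 : 1 ≤ A := by
    rw [hA]
    nlinarith
  have hA0 : 0 < A := by linarith
  -- the constants
  obtain ⟨δ, hδ⟩ : ∃ δ : ℝ, δ = min 1 η / (72 * A ^ 2) := ⟨_, rfl⟩
  have hm0 : 0 < min 1 η := lt_min one_pos hη
  have hδ0 : 0 < δ := by
    rw [hδ]
    positivity
  have hAδ : 72 * A ^ 2 * δ = min 1 η := by
    rw [hδ]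
    field_simp
  have hδ1 : δ ≤ 1 := by
    have h1 : min 1 η ≤ 1 := min_le_left _ _
    have h2 : 1 ≤ 72 * A ^ 2 := by nlinarith
    nlinarith
  have hsq : Real.sqrt (2 * (δ ^ 2 / 2)) = δ := by
    rw [show 2 * (δ ^ 2 / 2) = δ ^ 2 by ring]
    exact Real.sqrt_sq hδ0.le
  obtain ⟨w, hw⟩ : ∃ w : ℝ, w = δ ^ 2 / 2 * (δ / 9) ^ 2 := ⟨_, rfl⟩
  have hw0 : 0 < w := by
    rw [hw]
    positivity
  obtain ⟨r, hr⟩ : ∃ r : ℝ, r = η / 2 * w / (9 * ((S.card : ℝ) + 1)) := ⟨_, rfl⟩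
  have hr0 : 0 < r := by
    rw [hr]
    positivity
  have hSr : (S.card : ℝ) * (9 * r / w) ≤ η / 2 := by
    have h1 : 9 * r / w = η / 2 / ((S.card : ℝ) + 1) := by
      rw [hr]
      field_simp
    rw [h1, mul_div_assoc', div_le_iff₀ (by positivity)]
    nlinarith
  obtain ⟨c0, hc0⟩ : ∃ c0 : ℝ, c0 = min (r / (600 * d)) (δ / (16 * d)) := ⟨_, rfl⟩
  have hd0 : (0 : ℝ) < d := by
    have : 0 < d := by omega
    exact_mod_cast this
  have hc : 0 < c0 := by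
    rw [hc0]
    exact lt_min (by positivity) (by positivity)
  have hc1 : 300 * d * c0 ≤ r / 2 := by
    have h1 : c0 ≤ r / (600 * d) := by
      rw [hc0]
      exact min_le_left _ _
    calc 300 * d * c0 ≤ 300 * d * (r / (600 * d)) := mul_le_mul_of_nonneg_left h1 (by positivity)
      _ = r / 2 := by
        field_simp
        ring
  have hc2 : 16 * d * c0 ≤ δ := by
    have h1 : c0 ≤ δ / (16 * d) := by
      rw [hc0]
      exact min_le_right _ _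
    calc 16 * d * c0 ≤ 16 * d * (δ / (16 * d)) := mul_le_mul_of_nonneg_left h1 (by positivity)
      _ = δ := by
        field_simp
  obtain ⟨η1, hη1⟩ : ∃ η1 : ℝ, η1 = min 1 (min (r / 200) δ) := ⟨_, rfl⟩
  have hη10 : 0 < η1 := by
    rw [hη1]
    exact lt_min one_pos (lt_min (by positivity) hδ0)
  have hη11 : η1 ≤ 1 := by
    rw [hη1]
    exact min_le_left _ _
  have hη12 : η1 ≤ r / 200 := by
    rw [hη1]
    exact (min_le_right _ _).trans (min_le_left _ _)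
  have hη13 : η1 ≤ δ := by
    rw [hη1]
    exact (min_le_right _ _).trans (min_le_right _ _)
  obtain ⟨K1, hK1, hI2⟩ := hI d hd m c0 η1 hc hη10
  obtain ⟨n, q, t, hq1, hq2⟩ := hT (cf d m c0) (2 * (d : ℝ) + 1) η1
    (cf_cont hPW hD hd m hc) (cf_le hPW hd m hc) (by positivity) hη10 hη11
  obtain ⟨e1, he1⟩ : ∃ e1 : ℝ, e1 = min (η / (2 * ((S.card : ℝ) + 1))) δ := ⟨_, rfl⟩
  have he10 : 0 < e1 := by
    rw [he1]
    exact lt_min (by positivity) hδ0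
  have he11 : (S.card : ℝ) * e1 ≤ η / 2 := by
    have h1 : e1 ≤ η / (2 * ((S.card : ℝ) + 1)) := by
      rw [he1]
      exact min_le_left _ _
    have h2 : (S.card : ℝ) * e1 ≤ (S.card : ℝ) * (η / (2 * ((S.card : ℝ) + 1))) :=
      mul_le_mul_of_nonneg_left h1 hcard
    refine h2.trans ?_
    rw [mul_div_assoc', div_le_div_iff₀ (by positivity) two_pos]
    nlinarith
  have he12 : e1 ≤ δ := by
    rw [he1]
    exact min_le_right _ _
  have F1 := hI2 n q t hq1 U hG B hBB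
  have F2 : ∀ᶠ σ : ℝ in 𝓝[>] 0, ∀ y ∈ S, ∃ Ω : Set (Om d), MeasurableSet Ω ∧
      1 - e1 ≤ (PP (Sd d) (ns σ)).real Ω ∧
      ∀ V ∈ Ω, ‖qU U q t V (ee y) - qU U q t 0 (ee y)‖ ≤ e1 :=
    (Filter.eventually_all_finset S).2 fun y _ => hQ d U hG n q t (ee y) e1 he10
  have F3 : ∀ᶠ σ : ℝ in 𝓝[>] 0, σ ^ 2 < 2 * K1 * δ / 3 := by
    have h1 : Tendsto (fun σ : ℝ => σ ^ 2) (𝓝[>] 0) (𝓝 ((0 : ℝ) ^ 2)) :=
      ((continuous_pow 2).tendsto 0).mono_left nhdsWithin_le_nhds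
    rw [zero_pow two_ne_zero] at h1
    exact h1.eventually_lt_const (by positivity)
  have F4 : ∀ᶠ σ : ℝ in 𝓝[>] 0, 0 < σ := eventually_mem_nhdsWithin
  have F5 : ∀ᶠ σ : ℝ in 𝓝[>] 0, σ < 1 :=
    (Filter.Tendsto.eventually_lt_const one_pos tendsto_id).filter_mono nhdsWithin_le_nhds
  have hK10 : 0 < K1 := by linarith
  refine ⟨2 * K1, by positivity, ?_⟩
  filter_upwards [F1, F2, F3, F4, F5] with σ G1 G2 G3 hσ0 hσ1
  have := ns_prob σ
  have : IsProbabilityMeasure (PP (Sd d) (ns σ)) := by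
    unfold Pool.Agent.TH980.IM.PR.PP
    infer_instance
  have hp0 : 0 < σ ^ 2 := by positivity
  have hp1 : σ ^ 2 ≤ 1 := pow_le_one₀ hσ0.le hσ1.le
  obtain ⟨W, hW⟩ : ∃ W : ℝ, W = 2 * K1 / σ ^ 2 := ⟨_, rfl⟩
  have hW0 : 0 < W := by
    rw [hW]
    positivity
  obtain ⟨M, hM⟩ : ∃ M : ℕ, M = ⌈W⌉₊ := ⟨_, rfl⟩
  have hM1 : W ≤ (M : ℝ) := by
    rw [hM]
    exact Nat.le_ceil _
  have hM2 : (M : ℝ) ≤ W + 1 := by
    rw [hM]
    exact (Nat.ceil_lt_add_one hW0.le).le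
  have hM3 : 1 ≤ M := by
    have h1 : (1 : ℝ) ≤ W := by
      rw [hW, le_div_iff₀ hp0]
      linarith
    exact_mod_cast h1.trans hM1
  -- the bound of the remainder
  have hRC := (hC d U hG m B hBB M hM3 n q t).1
  have hR3 : ∀ V, ‖RO U B M q t V‖ ≤ 3 := by
    intro V
    unfold RO
    refine (norm_sub_le _ _).trans ?_
    have h1 : ‖qU U q t V‖ ≤ 2 := hBd d U hG n q t 2 (by norm_num) hq2 V
    have h2 : ‖((M : ℂ)⁻¹) • SN U B M V‖ ≤ 1 := by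
      refine ContinuousLinearMap.opNorm_le_bound _ zero_le_one fun g => ?_
      have h3 := (hS d U hG).2.1 B M 1 hBB.bdd V g
      rw [_root_.smul_apply, norm_smul, norm_inv, Complex.norm_natCast, one_mul]
      have hMr : (0 : ℝ) < M := by exact_mod_cast hM3
      rw [inv_mul_le_iff₀ hMr]
      linarith
    linarith
  have hRr : ∫ V, ‖RO U B M q t V (ee 0)‖ ^ 2 ∂(PP (Sd d) (ns σ)) ≤ r := by
    refine (G1 M (by rw [← hW]; exact hM1) (by rw [← hW]; exact hM2)).trans ?_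
    nlinarith
  obtain ⟨R', hR'⟩ : ∃ R' : Om d → L2 d →L[ℂ] L2 d, R' = fun X =>
    (ContinuousLinearMap.adjoint (RO U B M q t X)).comp (RO U B M q t X) := ⟨_, rfl⟩
  have hR'C : Cov R' := by
    rw [hR']
    exact (hCov d).1 _ _ ((hCov d).2.2.2.1 _ hRC) hRC
  have hadj : ∀ V, ‖ContinuousLinearMap.adjoint (RO U B M q t V)‖ ≤ 3 := fun V => by
    rw [LinearIsometryEquiv.norm_map]
    exact hR3 V
  have hR'9 : ∀ V, ‖R' V‖ ≤ 9 := fun V => by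
    rw [hR']
    refine (ContinuousLinearMap.opNorm_comp_le _ _).trans ?_
    have h1 := mul_le_mul (hadj V) (hR3 V) (norm_nonneg _) (by norm_num : (0 : ℝ) ≤ 3)
    linarith
  have hR'pt : ∀ V, ‖R' V (ee 0)‖ ^ 2 ≤ 9 * ‖RO U B M q t V (ee 0)‖ ^ 2 := fun V => by
    have h1 : ‖R' V (ee 0)‖ ≤ 3 * ‖RO U B M q t V (ee 0)‖ := by
      rw [hR']
      show ‖ContinuousLinearMap.adjoint (RO U B M q t V) (RO U B M q t V (ee 0))‖ ≤ _
      exact (ContinuousLinearMap.le_opNorm _ _).trans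
        (mul_le_mul_of_nonneg_right (hadj V) (norm_nonneg _))
    have h2 := pow_le_pow_left₀ (norm_nonneg _) h1 2
    refine h2.trans (le_of_eq ?_)
    ring
  have hint : ∀ (Q : Om d → L2 d →L[ℂ] L2 d) (C : ℝ), Cov Q → (∀ V, ‖Q V‖ ≤ C) →
      Integrable (fun V => ‖Q V (ee 0)‖ ^ 2) (PP (Sd d) (ns σ)) := fun Q C hQc hQb => by
    refine Integrable.of_bound (((hQc.meas (ee 0)).norm.pow 2).aestronglyMeasurable) (C ^ 2)
      (Eventually.of_forall fun V => ?_)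
    rw [Real.norm_eq_abs, abs_of_nonneg (by positivity)]
    refine pow_le_pow_left₀ (norm_nonneg _) ?_ 2
    have h1 := (Q V).le_opNorm (ee 0)
    rw [norm_ee, mul_one] at h1
    exact h1.trans (hQb V)
  have hR'r : ∫ V, ‖R' V (ee 0)‖ ^ 2 ∂(PP (Sd d) (ns σ)) ≤ 9 * r := by
    calc ∫ V, ‖R' V (ee 0)‖ ^ 2 ∂(PP (Sd d) (ns σ)) ≤
          ∫ V, 9 * ‖RO U B M q t V (ee 0)‖ ^ 2 ∂(PP (Sd d) (ns σ)) :=
          integral_mono (hint R' 9 hR'C hR'9) ((hint _ 3 hRC hR3).const_mul 9) hR'pt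
      _ = 9 * ∫ V, ‖RO U B M q t V (ee 0)‖ ^ 2 ∂(PP (Sd d) (ns σ)) := integral_const_mul _ _
      _ ≤ 9 * r := by linarith
  obtain ⟨Ω1, hΩ1, hP1, hb1⟩ := hMx d U hG (ns σ) R' hR'C 9 (9 * r) (δ ^ 2 / 2) (δ / 9)
    (by norm_num) hR'9 hR'r (by positivity) (by positivity) S
  rw [← hw] at hP1
  classical
  choose! Ω2 hΩ2 hP2 hb2 using G2
  have hmm : MeasurableSet (⋂ y ∈ S, Ω2 y) := Finset.measurableSet_biInter _ fun y hy => hΩ2 y hy
  have hP3 : (PP (Sd d) (ns σ)).real (⋂ y ∈ S, Ω2 y)ᶜ ≤ η / 2 := by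
    have h2 : (⋂ y ∈ S, Ω2 y)ᶜ = ⋃ y ∈ S, (Ω2 y)ᶜ := by
      simp only [Set.compl_iInter]
    rw [h2]
    refine (measureReal_biUnion_finset_le _ _).trans ?_
    have h3 : ∑ y ∈ S, (PP (Sd d) (ns σ)).real (Ω2 y)ᶜ ≤ ∑ _y ∈ S, e1 := by
      refine Finset.sum_le_sum fun y hy => ?_
      rw [probReal_compl_eq_one_sub (hΩ2 y hy)]
      linarith [hP2 y hy]
    rw [Finset.sum_const, nsmul_eq_mul] at h3
    linarith
  refine ⟨Ω1 ∩ ⋂ y ∈ S, Ω2 y, hΩ1.inter hmm, ?_, ?_⟩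
  · have h1 : (PP (Sd d) (ns σ)).real (Ω1 ∩ ⋂ y ∈ S, Ω2 y)ᶜ ≤
        (PP (Sd d) (ns σ)).real Ω1ᶜ + (PP (Sd d) (ns σ)).real (⋂ y ∈ S, Ω2 y)ᶜ := by
      rw [Set.compl_inter]
      exact measureReal_union_le _ _
    rw [probReal_compl_eq_one_sub (hΩ1.inter hmm), probReal_compl_eq_one_sub hΩ1] at h1
    linarith
  · intro V hV f hf τ hτ
    have hbb : ∀ y ∈ S, ∀ i : ℕ, 1 ≤ i → ‖((i : ℂ)⁻¹) • SN U (fun X =>
        (ContinuousLinearMap.adjoint (RO U B M q t X)).comp (RO U B M q t X)) i V (ee y)‖ ≤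
        2 * δ := by
      intro y hy i hi
      have h1 := hb1 V hV.1 y hy i hi
      rw [hsq, hR'] at h1
      linarith
    have hbe : ∀ y ∈ S, ‖qU U q t V (ee y) - qU U q t 0 (ee y)‖ ≤ e1 := fun y hy =>
      hb2 y hy V (Set.mem_iInter₂.1 hV.2 y hy)
    have hpt := pointU hX hF hCf hPW hD hd hG hBB S q t hc hq1 hW0 hM1 hM2 V (by linarith)
      he10.le hbb hbe f hf hτ
    have hWi : W⁻¹ = σ ^ 2 / (2 * K1) := by
      rw [hW, inv_div]
    rw [hWi, hW] at hpt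
    refine hpt.trans ?_
    rw [← hW, ← hA]
    have h3 : 3 / W ≤ δ := by
      rw [hW, div_div_eq_mul_div, div_le_iff₀ (by positivity)]
      linarith
    have h4 : 3 / W + e1 + η1 + 16 * d * c0 ≤ 4 * δ := by linarith
    have h5 : 0 ≤ 3 / W + e1 + η1 + 16 * d * c0 := by positivity
    have h6 : (A * (3 / W + e1 + η1 + 16 * d * c0)) ^ 2 ≤ (A * (4 * δ)) ^ 2 :=
      pow_le_pow_left₀ (by positivity) (mul_le_mul_of_nonneg_left h4 hA0.le) 2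
    have h7 : (A * (4 * δ)) ^ 2 ≤ 16 * A ^ 2 * δ := by
      have : (A * (4 * δ)) ^ 2 = 16 * A ^ 2 * δ * δ := by ring
      rw [this]
      exact mul_le_of_le_one_right (by positivity) hδ1
    have h8 : min 1 η ≤ η := min_le_right _ _
    calc 2 * (2 * A * (A * (2 * δ)) + 2 * (A * (3 / W + e1 + η1 + 16 * d * c0)) ^ 2) ≤
          2 * (2 * A * (A * (2 * δ)) + 2 * (16 * A ^ 2 * δ)) := by linarith
      _ = 72 * A ^ 2 * δ := by ring
      _ ≤ η := by linarith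

end Pool.Agent.T2h98.MR
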