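import Pool.Agent.T2h98.MR.MR
import Pool.Agent.T2h98.MR.StmW

/-! Relaxation of the momentum in most kinetic windows, at all times (second copy). -/

set_option autoImplicit false
set_option linter.unusedSectionVars false
set_option linter.unusedVariables false

open scoped BigOperators Matrix Topology
open MeasureTheory ProbabilityTheory Filter

namespace Pool.Agent.T2h98.MR

open Pool.Agent.TH980.IM.PR (PP sh)
open Pool.Agent.T2h98.QD (dn T_DOS)
open Pool.Agent.T2h98.PS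
open Pool.Agent.T2h98.NB
open Pool.Agent.T2h98.EA (SN Uni1 T_SNF T_MAX)

namespace MRWbx

open MRx

variable {d : ℕ}

/-- means of a function bounded on the unit intervals -/
theorem win_mean {h : ℝ → ℝ} (hc : Continuous h) (h0 : ∀ t, 0 ≤ h t) {g : ℕ → ℝ}
    (hg : ∀ (k : ℕ) (t : ℝ), (k : ℝ) ≤ t → t ≤ k + 1 → h t ≤ g k) {G : ℝ}
    (hG : ∀ n : ℕ, 1 ≤ n → ∑ k ∈ Finset.range n, g k ≤ n * G) {τ : ℝ} (hτ : 0 < τ) :
    τ⁻¹ * (∫ t in (0 : ℝ)..τ, h t) ≤ 2 * G := by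
  have hg0 : ∀ k, 0 ≤ g k := fun k => (h0 k).trans (hg k k le_rfl (by linarith))
  have hG0 : 0 ≤ G := by
    have h1 := hG 1 le_rfl
    rw [Finset.sum_range_one, Nat.cast_one, one_mul] at h1
    exact (hg0 0).trans h1
  have key : ∀ n : ℕ, (∫ t in (0 : ℝ)..n, h t) ≤ ∑ k ∈ Finset.range n, g k := by
    intro n
    induction n with
    | zero => simp
    | succ n ih =>
      rw [Finset.sum_range_succ]
      have h1 : (∫ t in (0 : ℝ)..((n + 1 : ℕ) : ℝ), h t) =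
          (∫ t in (0 : ℝ)..n, h t) + ∫ t in (n : ℝ)..((n + 1 : ℕ) : ℝ), h t :=
        (intervalIntegral.integral_add_adjacent_intervals (hc.intervalIntegrable _ _)
          (hc.intervalIntegrable _ _)).symm
      rw [h1]
      refine add_le_add ih ?_
      have hn1 : (n : ℝ) ≤ ((n + 1 : ℕ) : ℝ) := by push_cast; linarith
      have h2 : (∫ t in (n : ℝ)..((n + 1 : ℕ) : ℝ), h t) ≤
          ∫ t in (n : ℝ)..((n + 1 : ℕ) : ℝ), g n := by
        refine intervalIntegral.integral_mono_on hn1 (hc.intervalIntegrable _ _)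
          (continuous_const.intervalIntegrable _ _) fun t ht => ?_
        refine hg n t ht.1 (ht.2.trans ?_)
        push_cast
        exact le_rfl
      refine h2.trans (le_of_eq ?_)
      rw [intervalIntegral.integral_const, smul_eq_mul]
      push_cast
      ring
  rcases le_total 1 τ with h1 | h1
  · obtain ⟨n, hn⟩ : ∃ n : ℕ, n = ⌈τ⌉₊ := ⟨_, rfl⟩
    have hn1 : τ ≤ n := by
      rw [hn]
      exact Nat.le_ceil _
    have hn2 : (n : ℝ) < τ + 1 := by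
      rw [hn]
      exact Nat.ceil_lt_add_one hτ.le
    have hn3 : 1 ≤ n := by
      have : (1 : ℝ) ≤ n := h1.trans hn1
      exact_mod_cast this
    have h2 : (∫ t in (0 : ℝ)..τ, h t) ≤ ∫ t in (0 : ℝ)..n, h t := by
      refine intervalIntegral.integral_mono_interval le_rfl hτ.le hn1 ?_
        (hc.intervalIntegrable _ _)
      exact Filter.Eventually.of_forall h0
    have h3 := (h2.trans (key n)).trans (hG n hn3)
    rw [inv_mul_le_iff₀ hτ]
    refine h3.trans ?_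
    nlinarith
  · have h2 : (∫ t in (0 : ℝ)..τ, h t) ≤ ∫ t in (0 : ℝ)..τ, g 0 := by
      refine intervalIntegral.integral_mono_on hτ.le (hc.intervalIntegrable _ _)
        (continuous_const.intervalIntegrable _ _) fun t ht => ?_
      refine hg 0 t ?_ ?_
      · rw [Nat.cast_zero]
        exact ht.1
      · rw [Nat.cast_zero]
        linarith [ht.2]
    rw [intervalIntegral.integral_const, smul_eq_mul, sub_zero] at h2
    rw [inv_mul_le_iff₀ hτ]
    have h3 := hG 1 le_rfl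
    rw [Finset.sum_range_one, Nat.cast_one, one_mul] at h3
    refine h2.trans ?_
    refine mul_le_mul_of_nonneg_left ?_ hτ.le
    linarith

/-- comparison of windows -/
theorem win_cmp {I : ℝ → ℂ} (hI : Continuous I) {K : ℝ} (hK : ∀ s, ‖I s‖ ≤ K) {W : ℝ}
    (hW : 1 ≤ W) {M : ℕ} (h1 : W ≤ M) (h2 : (M : ℝ) ≤ W + 1) (k : ℕ) {t : ℝ} (ht : (k : ℝ) ≤ t)
    (ht2 : t ≤ k + 1) :
    ‖((W⁻¹ : ℝ) : ℂ) * (∫ s in t..(t + W), I s) -
      ((M : ℂ)⁻¹) * (∫ s in (k : ℝ)..(k + M), I s)‖ ≤ 3 * K / W := by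
  have hK0 : 0 ≤ K := (norm_nonneg _).trans (hK 0)
  have hW0 : 0 < W := by linarith
  have hM0 : (0 : ℝ) < M := by linarith
  have e1 : (∫ s in t..(t + W), I s) = (∫ s in (k : ℝ)..(k + M), I s) -
      (∫ s in (k : ℝ)..t, I s) + ∫ s in ((k : ℝ) + M)..(t + W), I s := by
    have a1 := intervalIntegral.integral_add_adjacent_intervals
      (hI.intervalIntegrable (μ := volume) (k : ℝ) t) (hI.intervalIntegrable t (t + W))
    have a2 := intervalIntegral.integral_add_adjacent_intervals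
      (hI.intervalIntegrable (μ := volume) (k : ℝ) (k + M)) (hI.intervalIntegrable (k + M) (t + W))
    rw [← a1] at a2
    linear_combination -a2
  have b1 : ‖∫ s in (k : ℝ)..t, I s‖ ≤ K := by
    have h := intervalIntegral.norm_integral_le_of_norm_le_const (a := (k : ℝ)) (b := t)
      (C := K) fun s _ => hK s
    refine h.trans ?_
    rw [abs_of_nonneg (by linarith)]
    nlinarith
  have b2 : ‖∫ s in ((k : ℝ) + M)..(t + W), I s‖ ≤ K := by
    have h := intervalIntegral.norm_integral_le_of_norm_le_const (a := (k : ℝ) + M) (b := t + W)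
      (C := K) fun s _ => hK s
    refine h.trans ?_
    have h3 : |t + W - ((k : ℝ) + M)| ≤ 1 := by
      rw [abs_le]
      constructor <;> linarith
    nlinarith
  have b3 : ‖∫ s in (k : ℝ)..(k + M), I s‖ ≤ K * M := by
    have h := intervalIntegral.norm_integral_le_of_norm_le_const (a := (k : ℝ)) (b := k + M)
      (C := K) fun s _ => hK s
    refine h.trans (le_of_eq ?_)
    rw [add_sub_cancel_left, abs_of_pos hM0]
  rw [e1]
  have e2 : ((W⁻¹ : ℝ) : ℂ) * ((∫ s in (k : ℝ)..(k + M), I s) -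
      (∫ s in (k : ℝ)..t, I s) + ∫ s in ((k : ℝ) + M)..(t + W), I s) -
      ((M : ℂ)⁻¹) * (∫ s in (k : ℝ)..(k + M), I s) =
      ((W⁻¹ - (M : ℝ)⁻¹ : ℝ) : ℂ) * (∫ s in (k : ℝ)..(k + M), I s) -
        ((W⁻¹ : ℝ) : ℂ) * (∫ s in (k : ℝ)..t, I s) +
        ((W⁻¹ : ℝ) : ℂ) * ∫ s in ((k : ℝ) + M)..(t + W), I s := by
    push_cast
    ring
  rw [e2]
  refine (norm_add_le _ _).trans ?_
  refine (add_le_add_left (norm_sub_le _ _) _).trans ?_
  rw [norm_mul, norm_mul, norm_mul, Complex.norm_real, Complex.norm_real, Real.norm_eq_abs,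
    Real.norm_eq_abs, abs_of_pos (inv_pos.2 hW0), abs_of_nonneg
      (sub_nonneg.2 (inv_anti₀ hW0 h1))]
  have c1 : (W⁻¹ - (M : ℝ)⁻¹) * ‖∫ s in (k : ℝ)..(k + M), I s‖ ≤
      (W⁻¹ - (M : ℝ)⁻¹) * (K * M) :=
    mul_le_mul_of_nonneg_left b3 (sub_nonneg.2 (inv_anti₀ hW0 h1))
  have c2 : W⁻¹ * ‖∫ s in (k : ℝ)..t, I s‖ ≤ W⁻¹ * K :=
    mul_le_mul_of_nonneg_left b1 (inv_pos.2 hW0).le
  have c3 : W⁻¹ * ‖∫ s in ((k : ℝ) + M)..(t + W), I s‖ ≤ W⁻¹ * K :=
    mul_le_mul_of_nonneg_left b2 (inv_pos.2 hW0).le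
  have c4 : (W⁻¹ - (M : ℝ)⁻¹) * (K * M) = W⁻¹ * (K * (M - W)) := by
    field_simp
  have c5 : W⁻¹ * (K * (M - W)) ≤ W⁻¹ * K := by
    refine mul_le_mul_of_nonneg_left ?_ (inv_pos.2 hW0).le
    nlinarith
  calc _ ≤ W⁻¹ * K + W⁻¹ * K + W⁻¹ * K := by linarith
    _ = 3 * K / W := by
      field_simp
      ring

/-- the sum of the squares along the group -/
theorem sn_sq (hX : T_XT) {U : Om d → ℝ → L2 d →L[ℂ] L2 d} (hG : Grp U)
    (R : Om d → L2 d →L[ℂ] L2 d) (n : ℕ) (V : Om d) (F : L2 d) :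
    ∑ k ∈ Finset.range n, ‖R V (U V (k : ℝ) F)‖ ^ 2 =
      (inner ℂ F (SN U (fun W => (ContinuousLinearMap.adjoint (R W)).comp (R W)) n V F) : ℂ).re := by
  obtain ⟨hsa, -⟩ := hX d U hG
  induction n with
  | zero =>
    rw [EA.SNFx.SN_zero, Finset.range_zero, Finset.sum_empty]
    simp
  | succ n ih =>
    rw [EA.SNFx.SN_succ, Finset.sum_range_succ, ih]
    have h1 : ((SN U (fun W => (ContinuousLinearMap.adjoint (R W)).comp (R W)) n V +
        (U V (-(n : ℝ))).comp (((ContinuousLinearMap.adjoint (R V)).comp (R V)).comp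
          (U V (n : ℝ))) : L2 d →L[ℂ] L2 d)) F =
        SN U (fun W => (ContinuousLinearMap.adjoint (R W)).comp (R W)) n V F +
        U V (-(n : ℝ)) (ContinuousLinearMap.adjoint (R V) (R V (U V (n : ℝ) F))) := rfl
    rw [h1, inner_add_right, Complex.add_re, ← hsa, ContinuousLinearMap.adjoint_inner_right,
      inner_self_eq_norm_sq_to_K]
    congr 1
    norm_cast

/-- the mean over an integer window -/
theorem win_int (hX : T_XT) {U : Om d → ℝ → L2 d →L[ℂ] L2 d} (hG : Grp U) {m : Sd d}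
    {B : Om d → L2 d →L[ℂ] L2 d} (hB : IsB U m B) (V : Om d) (M k : ℕ) (F : L2 d) :
    (∫ s in (k : ℝ)..(k + M), (inner ℂ (U V s F) (Sf (-m) (U V s F)) : ℂ)) =
      inner ℂ (U V (k : ℝ) F) (SN U B M V (U V (k : ℝ) F)) := by
  rw [← tint hX hG hB V M (U V (k : ℝ) F)]
  have h := intervalIntegral.integral_comp_add_right (a := 0) (b := (M : ℝ))
    (fun s => (inner ℂ (U V s F) (Sf (-m) (U V s F)) : ℂ)) (k : ℝ)
  rw [zero_add, add_comm (M : ℝ) (k : ℝ)] at h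
  rw [← h]
  refine intervalIntegral.integral_congr fun s _ => ?_
  simp only [hG.g0.add]

theorem qU_com (hX : T_XT) {U : Om d → ℝ → L2 d →L[ℂ] L2 d} (hG : Grp U) {n : ℕ}
    (a : Fin n → ℂ) (t : Fin n → ℝ) (V : Om d) (s : ℝ) (F : L2 d) :
    (inner ℂ (U V s F) (qU U a t V (U V s F)) : ℂ) = inner ℂ F (qU U a t V F) := by
  obtain ⟨hsa, hinv, -⟩ := hX d U hG
  have h1 : ∀ G : L2 d, qU U a t V G = ∑ i, a i • U V (t i) G := by
    intro G
    unfold qU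
    rw [sum_apply]
    rfl
  rw [h1, h1, inner_sum, inner_sum]
  refine Finset.sum_congr rfl fun i _ => ?_
  rw [inner_smul_right, inner_smul_right, ← hG.g0.add, add_comm, hG.g0.add, hsa, hinv]

/-- the estimate of one window at one potential -/
theorem wpoint (hX : T_XT) (hF : T_FRE) (hCf : T_CFM) (hM : T_PWM) (hD : T_DOS)
    (hd : 3 ≤ d) {U : Om d → ℝ → L2 d →L[ℂ] L2 d} (hG : Grp U) {m : Sd d}
    {B : Om d → L2 d →L[ℂ] L2 d} (hB : IsB U m B) (S : Finset (Sd d)) (f : Sd d → ℂ) {n : ℕ}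
    (a : Fin n → ℂ) (q : Fin n → ℝ) {c0 η1 : ℝ} (hc : 0 < c0)
    (h : ∀ E : ℝ, |E| ≤ 2 * (d : ℝ) + 1 → ‖qE a q E - (cf d m c0 E : ℂ)‖ ≤ η1)
    {M : ℕ} {W : ℝ} (hW : 1 ≤ W) (hM1 : W ≤ M) (hM2 : (M : ℝ) ≤ W + 1) (V : Om d) {e1 : ℝ}
    (he : ‖qU U a q V (vf S f) - qU U a q 0 (vf S f)‖ ≤ e1) (k : ℕ) {t : ℝ} (ht : (k : ℝ) ≤ t)
    (ht2 : t ≤ k + 1) :
    ‖((W⁻¹ : ℝ) : ℂ) * (∫ s in t..(t + W),
        (inner ℂ (U V s (vf S f)) (Sf (-m) (U V s (vf S f))) : ℂ)) -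
      ((∫ k in Set.Icc (0 : Fin d → ℝ) 1, ‖fh S f k‖ ^ 2 * (wm d m (ek k) / dn d (ek k)) : ℝ) :
        ℂ)‖ ≤ ((∑ y ∈ S, ‖f y‖) + 1) ^ 2 * (3 / W + e1 + η1 + 16 * d * c0) +
          ((∑ y ∈ S, ‖f y‖) + 1) * ‖RO U B M a q V (U V (k : ℝ) (vf S f))‖ := by
  obtain ⟨F, hFd⟩ : ∃ F : L2 d, F = vf S f := ⟨_, rfl⟩
  obtain ⟨F1, hF1⟩ : ∃ F1 : ℝ, F1 = ∑ y ∈ S, ‖f y‖ := ⟨_, rfl⟩
  have hη1 : 0 ≤ η1 := (norm_nonneg _).trans (h 0 (by rw [abs_zero]; positivity))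
  have he0 : 0 ≤ e1 := (norm_nonneg _).trans he
  have hF10 : 0 ≤ F1 := by
    rw [hF1]
    exact Finset.sum_nonneg fun y _ => norm_nonneg _
  have hnF : ‖F‖ ≤ F1 := by
    rw [hFd, hF1]
    exact norm_vf S f
  have hn0 : 0 ≤ ‖F‖ := norm_nonneg _
  have hA1 : ‖F‖ ^ 2 ≤ (F1 + 1) ^ 2 := pow_le_pow_left₀ hn0 (by linarith) 2
  have hA2 : ‖F‖ ≤ (F1 + 1) ^ 2 := by nlinarith
  have hA3 : F1 ^ 2 ≤ (F1 + 1) ^ 2 := pow_le_pow_left₀ hF10 (by linarith) 2
  have hW0 : 0 < W := by linarith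
  -- first error
  have E1 := win_cmp (cont_I hG m V F) (norm_I hG m V F) hW hM1 hM2 k ht ht2
  rw [win_int hX hG hB V M k F] at E1
  -- the remainder
  have E2 : ‖(inner ℂ (U V (k : ℝ) F) (RO U B M a q V (U V (k : ℝ) F)) : ℂ)‖ ≤
      (F1 + 1) * ‖RO U B M a q V (U V (k : ℝ) F)‖ := by
    refine (norm_inner_le_norm _ _).trans ?_
    rw [hG.g0.norm]
    exact mul_le_mul_of_nonneg_right (by linarith) (norm_nonneg _)
  have E3 : (inner ℂ (U V (k : ℝ) F) (RO U B M a q V (U V (k : ℝ) F)) : ℂ) =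
      (M : ℂ)⁻¹ * inner ℂ (U V (k : ℝ) F) (SN U B M V (U V (k : ℝ) F)) -
        inner ℂ F (qU U a q V F) := by
    have h1 : RO U B M a q V (U V (k : ℝ) F) = (M : ℂ)⁻¹ • SN U B M V (U V (k : ℝ) F) -
        qU U a q V (U V (k : ℝ) F) := rfl
    rw [h1, inner_sub_right, inner_smul_right, qU_com hX hG]
  rw [E3] at E2
  -- fourth error
  have E4 : ‖(inner ℂ F (qU U a q V F - qU U a q 0 F) : ℂ)‖ ≤ (F1 + 1) ^ 2 * e1 := by
    rw [← hFd] at he
    exact (norm_inner_le_norm _ _).trans (mul_le_mul hA2 he (norm_nonneg _) (by positivity))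
  -- the free group
  have E5 := free_part hF hG S f a q
  have E6 := free_err hM hD hd m hc S f a q h
  rw [← E5, ← hF1, ← hFd] at E6
  have E7 := hCf d hd m (fun k => ‖fh S f k‖ ^ 2) (F1 ^ 2) c0 ((FRE.fh_cont S f).norm.pow 2)
    (fun k => by
      rw [abs_of_nonneg (by positivity), hF1]
      exact pow_le_pow_left₀ (norm_nonneg _) (FRE.fh_le S f k) 2) hc
  have E7' : ‖((∫ k in Set.Icc (0 : Fin d → ℝ) 1, ‖fh S f k‖ ^ 2 * cf d m c0 (ek k) : ℝ) : ℂ) -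
      ((∫ k in Set.Icc (0 : Fin d → ℝ) 1, ‖fh S f k‖ ^ 2 * (wm d m (ek k) / dn d (ek k)) : ℝ) :
        ℂ)‖ ≤ 16 * d * F1 ^ 2 * c0 := by
    rw [← Complex.ofReal_sub, Complex.norm_real, Real.norm_eq_abs]
    exact E7
  rw [← hFd, ← hF1]
  obtain ⟨X0, hX0⟩ : ∃ X0 : ℂ, X0 = ((W⁻¹ : ℝ) : ℂ) * (∫ s in t..(t + W),
    (inner ℂ (U V s F) (Sf (-m) (U V s F)) : ℂ)) := ⟨_, rfl⟩
  obtain ⟨Y0, hY0⟩ : ∃ Y0 : ℂ, Y0 = ((∫ k in Set.Icc (0 : Fin d → ℝ) 1,
    ‖fh S f k‖ ^ 2 * (wm d m (ek k) / dn d (ek k)) : ℝ) : ℂ) := ⟨_, rfl⟩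
  obtain ⟨Z0, hZ0⟩ : ∃ Z0 : ℂ, Z0 = ((∫ k in Set.Icc (0 : Fin d → ℝ) 1,
    ‖fh S f k‖ ^ 2 * cf d m c0 (ek k) : ℝ) : ℂ) := ⟨_, rfl⟩
  rw [← hX0] at E1 ⊢
  rw [← hY0] at E7' ⊢
  rw [← hZ0] at E6 E7'
  rw [inner_sub_right] at E4
  have key : X0 - Y0 = (X0 - (M : ℂ)⁻¹ * inner ℂ (U V (k : ℝ) F) (SN U B M V (U V (k : ℝ) F))) +
      ((M : ℂ)⁻¹ * inner ℂ (U V (k : ℝ) F) (SN U B M V (U V (k : ℝ) F)) -
        inner ℂ F (qU U a q V F)) +
      (inner ℂ F (qU U a q V F) - inner ℂ F (qU U a q 0 F)) +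
      (inner ℂ F (qU U a q 0 F) - Z0) + (Z0 - Y0) := by ring
  rw [key]
  refine (norm_add_le _ _).trans ?_
  refine (add_le_add_left (norm_add_le _ _) _).trans ?_
  refine (add_le_add_left (add_le_add_left (norm_add_le _ _) _) _).trans ?_
  refine (add_le_add_left (add_le_add_left (add_le_add_left (norm_add_le _ _) _) _) _).trans ?_
  have h1 : 3 * ‖F‖ ^ 2 / W ≤ (F1 + 1) ^ 2 * (3 / W) := by
    rw [mul_div_assoc', div_le_div_iff_of_pos_right hW0]
    linarith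
  have h2 : F1 ^ 2 * η1 ≤ (F1 + 1) ^ 2 * η1 := mul_le_mul_of_nonneg_right hA3 hη1
  have h3 : 16 * d * F1 ^ 2 * c0 ≤ (F1 + 1) ^ 2 * (16 * d * c0) := by
    have : 16 * (d : ℝ) * F1 ^ 2 * c0 = F1 ^ 2 * (16 * d * c0) := by ring
    rw [this]
    exact mul_le_mul_of_nonneg_right hA3 (by positivity)
  linarith

end MRWbx

end Pool.Agent.T2h98.MR

namespace Pool.Agent.T2h98.MR

open Pool.Agent.TH980.IM.PR (PP sh)
open Pool.Agent.T2h98.QD (dn T_DOS)
open Pool.Agent.T2h98.PS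
open Pool.Agent.T2h98.NB
open Pool.Agent.T2h98.EA (SN Uni1 T_SNF T_MAX)

open MRx MRWbx in
/-- **relaxation of the momentum in most kinetic windows, at all times**, from the parts -/
theorem mrwb (hB : T_BOP) (hI : T_INFK) (hC : T_ROC) (hMx : T_MXS) (hQ : T_QCV) (hF : T_FRE)
    (hCf : T_CFM) (hT : T_TR2) (hBd : T_QBD) (hX : T_XT) (hS : T_SNF) (hPW : T_PWM)
    (hD : T_DOS) (hCov : T_COV) : T_MRW := by
  intro d hd U hG m S f η hη
  obtain ⟨B, hBB⟩ := hB d U hG m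
  obtain ⟨F1, hF1⟩ : ∃ F1 : ℝ, F1 = ∑ y ∈ S, ‖f y‖ := ⟨_, rfl⟩
  have hF10 : 0 ≤ F1 := by
    rw [hF1]
    exact Finset.sum_nonneg fun y _ => norm_nonneg _
  obtain ⟨A, hA⟩ : ∃ A : ℝ, A = (F1 + 1) ^ 2 := ⟨_, rfl⟩
  have hA1 : 1 ≤ A := by
    rw [hA]
    nlinarith
  have hA0 : 0 < A := by linarith
  -- the constants
  obtain ⟨δ, hδ⟩ : ∃ δ : ℝ, δ = min 1 (η / (128 * A ^ 2)) := ⟨_, rfl⟩
  have hδ0 : 0 < δ := by
    rw [hδ]
    exact lt_min one_pos (by positivity)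
  have hδ1 : δ ≤ 1 := by
    rw [hδ]
    exact min_le_left _ _
  have hAδ : 128 * A ^ 2 * δ ≤ η := by
    have h1 : δ ≤ η / (128 * A ^ 2) := by
      rw [hδ]
      exact min_le_right _ _
    rw [le_div_iff₀ (by positivity)] at h1
    linarith
  have hsq : Real.sqrt (2 * (δ ^ 2 / 2)) = δ := by
    rw [show 2 * (δ ^ 2 / 2) = δ ^ 2 by ring]
    exact Real.sqrt_sq hδ0.le
  obtain ⟨w, hw⟩ : ∃ w : ℝ, w = δ ^ 2 / 2 * (δ / 9) ^ 2 := ⟨_, rfl⟩
  have hw0 : 0 < w := by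
    rw [hw]
    positivity
  obtain ⟨r, hr⟩ : ∃ r : ℝ, r = η / 2 * w / (9 * ((S.card : ℝ) + 1)) := ⟨_, rfl⟩
  have hr0 : 0 < r := by
    rw [hr]
    positivity
  have hSr : (S.card : ℝ) * (9 * r / w) ≤ η / 2 := by
    have h1 : 9 * r / w = η / 2 / ((S.card : ℝ) + 1) := by
      rw [hr]
      field_simp
    rw [h1, mul_div_assoc', div_le_iff₀ (by positivity)]
    nlinarith
  obtain ⟨c0, hc0⟩ : ∃ c0 : ℝ, c0 = min (r / (600 * d)) (δ / (16 * d)) := ⟨_, rfl⟩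
  have hd0 : (0 : ℝ) < d := by
    have : 0 < d := by omega
    exact_mod_cast this
  have hc : 0 < c0 := by
    rw [hc0]
    exact lt_min (by positivity) (by positivity)
  have hc1 : 300 * d * c0 ≤ r / 2 := by
    have h1 : c0 ≤ r / (600 * d) := by
      rw [hc0]
      exact min_le_left _ _
    calc 300 * d * c0 ≤ 300 * d * (r / (600 * d)) := mul_le_mul_of_nonneg_left h1 (by positivity)
      _ = r / 2 := by
        field_simp
        ring
  have hc2 : 16 * d * c0 ≤ δ := by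
    have h1 : c0 ≤ δ / (16 * d) := by
      rw [hc0]
      exact min_le_right _ _
    calc 16 * d * c0 ≤ 16 * d * (δ / (16 * d)) := mul_le_mul_of_nonneg_left h1 (by positivity)
      _ = δ := by
        field_simp
  obtain ⟨η1, hη1⟩ : ∃ η1 : ℝ, η1 = min 1 (min (r / 200) δ) := ⟨_, rfl⟩
  have hη10 : 0 < η1 := by
    rw [hη1]
    exact lt_min one_pos (lt_min (by positivity) hδ0)
  have hη11 : η1 ≤ 1 := by
    rw [hη1]
    exact min_le_left _ _
  have hη12 : η1 ≤ r / 200 := by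
    rw [hη1]
    exact (min_le_right _ _).trans (min_le_left _ _)
  have hη13 : η1 ≤ δ := by
    rw [hη1]
    exact (min_le_right _ _).trans (min_le_right _ _)
  obtain ⟨K1, hK1, hI2⟩ := hI d hd m c0 η1 hc hη10
  obtain ⟨n, q, t, hq1, hq2⟩ := hT (cf d m c0) (2 * (d : ℝ) + 1) η1
    (cf_cont hPW hD hd m hc) (cf_le hPW hd m hc) (by positivity) hη10 hη11
  obtain ⟨e1, he1⟩ : ∃ e1 : ℝ, e1 = min (η / 2) δ := ⟨_, rfl⟩
  have he10 : 0 < e1 := by
    rw [he1]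
    exact lt_min (by linarith) hδ0
  have he11 : e1 ≤ η / 2 := by
    rw [he1]
    exact min_le_left _ _
  have he12 : e1 ≤ δ := by
    rw [he1]
    exact min_le_right _ _
  have H1 := hI2 n q t hq1 U hG B hBB
  have H2 := hQ d U hG n q t (vf S f) e1 he10
  have hK10 : 0 < K1 := by linarith
  refine ⟨2 * K1, by linarith, ?_⟩
  have H4 : ∀ᶠ σ : ℝ in 𝓝[>] 0, 0 < σ := eventually_mem_nhdsWithin
  have H5 : ∀ᶠ σ : ℝ in 𝓝[>] 0, σ < δ / 3 :=
    (Filter.Tendsto.eventually_lt_const (by positivity) tendsto_id).filter_mono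
      nhdsWithin_le_nhds
  filter_upwards [H1, H2, H4, H5] with σ G1 G2 hσ0 hσ3
  have := ns_prob σ
  have : IsProbabilityMeasure (PP (Sd d) (ns σ)) := by
    unfold Pool.Agent.TH980.IM.PR.PP
    infer_instance
  have hσ1 : σ < 1 := by linarith
  have hp0 : 0 < σ ^ 2 := by positivity
  have hp1 : σ ^ 2 ≤ 1 := pow_le_one₀ hσ0.le hσ1.le
  obtain ⟨W, hWd⟩ : ∃ W : ℝ, W = 2 * K1 / σ ^ 2 := ⟨_, rfl⟩
  have hWi : ((σ ^ 2 / (2 * K1) : ℝ) : ℂ) = ((W⁻¹ : ℝ) : ℂ) := by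
    rw [hWd, inv_div]
  have hW1 : 1 ≤ W := by
    rw [hWd, le_div_iff₀ hp0]
    linarith
  have hW3 : 3 / W ≤ δ := by
    have h1 : 0 < W := by linarith
    rw [div_le_iff₀ h1, hWd, mul_div_assoc', le_div_iff₀ hp0]
    have h2 : σ ^ 2 ≤ δ / 3 := by nlinarith only [hσ0, hσ3, hσ1]
    have h3 : δ * 1 ≤ δ * K1 := mul_le_mul_of_nonneg_left hK1 hδ0.le
    linarith only [h2, h3, hδ0]
  obtain ⟨M, hM⟩ : ∃ M : ℕ, M = ⌈W⌉₊ := ⟨_, rfl⟩
  have hM1 : W ≤ (M : ℝ) := by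
    rw [hM]
    exact Nat.le_ceil _
  have hM2 : (M : ℝ) ≤ W + 1 := by
    rw [hM]
    exact (Nat.ceil_lt_add_one (by linarith)).le
  have hM3 : 1 ≤ M := by exact_mod_cast hW1.trans hM1
  -- the bound of the remainder
  have hRC := (hC d U hG m B hBB M hM3 n q t).1
  have hR3 : ∀ V, ‖RO U B M q t V‖ ≤ 3 := by
    intro V
    unfold RO
    refine (norm_sub_le _ _).trans ?_
    have h1 : ‖qU U q t V‖ ≤ 2 := hBd d U hG n q t 2 (by norm_num) hq2 V
    have h2 : ‖((M : ℂ)⁻¹) • SN U B M V‖ ≤ 1 := by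
      refine ContinuousLinearMap.opNorm_le_bound _ zero_le_one fun g => ?_
      have h3 := (hS d U hG).2.1 B M 1 hBB.bdd V g
      rw [_root_.smul_apply, norm_smul, norm_inv, Complex.norm_natCast, one_mul]
      have hMr : (0 : ℝ) < M := by exact_mod_cast hM3
      rw [inv_mul_le_iff₀ hMr]
      linarith
    linarith
  have hRr : ∫ V, ‖RO U B M q t V (ee 0)‖ ^ 2 ∂(PP (Sd d) (ns σ)) ≤ r := by
    refine (G1 M (hWd ▸ hM1) (hWd ▸ hM2)).trans ?_
    have h1 : η1 ^ 2 ≤ η1 := by nlinarith only [hη10, hη11]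
    linarith only [h1, hη12, hc1]
  -- the square of the remainder
  obtain ⟨Q, hQd⟩ : ∃ Q : Om d → L2 d →L[ℂ] L2 d, Q = fun W =>
    (ContinuousLinearMap.adjoint (RO U B M q t W)).comp (RO U B M q t W) := ⟨_, rfl⟩
  have hQC : Cov Q := by
    rw [hQd]
    exact (hCov d).1 _ _ ((hCov d).2.2.2.1 _ hRC) hRC
  have hQn : ∀ (V : Om d) (g : L2 d), ‖Q V g‖ ≤ 3 * ‖RO U B M q t V g‖ := by
    intro V g
    rw [hQd]
    have h1 := ContinuousLinearMap.le_opNorm (ContinuousLinearMap.adjoint (RO U B M q t V))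
      (RO U B M q t V g)
    rw [LinearIsometryEquiv.norm_map] at h1
    exact h1.trans (mul_le_mul_of_nonneg_right (hR3 V) (norm_nonneg _))
  have hQ9 : ∀ V, ‖Q V‖ ≤ 9 := by
    intro V
    refine ContinuousLinearMap.opNorm_le_bound _ (by norm_num) fun g => ?_
    have h1 := hQn V g
    have h2 := ContinuousLinearMap.le_of_opNorm_le _ (hR3 V) g
    linarith
  have hQr : ∫ V, ‖Q V (ee 0)‖ ^ 2 ∂(PP (Sd d) (ns σ)) ≤ 9 * r := by
    have h1 : ∫ V, ‖Q V (ee 0)‖ ^ 2 ∂(PP (Sd d) (ns σ)) ≤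
        ∫ V, 9 * ‖RO U B M q t V (ee 0)‖ ^ 2 ∂(PP (Sd d) (ns σ)) := by
      refine integral_mono_of_nonneg (Filter.Eventually.of_forall fun V => by positivity) ?_
        (Filter.Eventually.of_forall fun V => ?_)
      · refine Integrable.const_mul ?_ 9
        refine Integrable.of_bound (C := 9)
          ((hRC.meas (ee 0)).norm.pow 2).aestronglyMeasurable
          (Filter.Eventually.of_forall fun V => ?_)
        rw [Real.norm_eq_abs, abs_of_nonneg (by positivity)]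
        have h2 := ContinuousLinearMap.le_of_opNorm_le _ (hR3 V) (ee 0)
        rw [norm_ee, mul_one] at h2
        have h3 := norm_nonneg (RO U B M q t V (ee 0))
        nlinarith only [h2, h3]
      · have h1 := hQn V (ee 0)
        have h2 := norm_nonneg (Q V (ee 0))
        show ‖Q V (ee 0)‖ ^ 2 ≤ 9 * ‖RO U B M q t V (ee 0)‖ ^ 2
        nlinarith only [h1, h2]
    refine h1.trans ?_
    rw [integral_const_mul]
    linarith
  obtain ⟨Ω1, hΩ1, hP1, hb1⟩ := hMx d U hG (ns σ) Q hQC 9 (9 * r) (δ ^ 2 / 2) (δ / 9)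
    (by norm_num) hQ9 hQr (by positivity) (by positivity) S
  obtain ⟨Ω2, hΩ2, hP2, hb2⟩ := G2
  rw [← hw] at hP1
  refine ⟨Ω1 ∩ Ω2, hΩ1.inter hΩ2, ?_, ?_⟩
  · have h1 : (PP (Sd d) (ns σ)).real (Ω1 ∩ Ω2)ᶜ ≤
        (PP (Sd d) (ns σ)).real Ω1ᶜ + (PP (Sd d) (ns σ)).real Ω2ᶜ := by
      rw [Set.compl_inter]
      exact measureReal_union_le _ _
    rw [probReal_compl_eq_one_sub (hΩ1.inter hΩ2), probReal_compl_eq_one_sub hΩ1,
      probReal_compl_eq_one_sub hΩ2] at h1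
    clear hsq hq1 hq2 hRC hR3 hRr hQC hQn hQ9 hQr hb1 hb2 hW1 hW3 hM1 hM2 hc1 hc2
    linarith only [h1, hP1, hP2, hSr, he11]
  · intro V hV τ hτ
    -- the sum of the squares
    have hsum : ∀ N : ℕ, 1 ≤ N →
        ∑ k ∈ Finset.range N, ‖RO U B M q t V (U V (k : ℝ) (vf S f))‖ ^ 2 ≤
          N * (A * (2 * δ)) := by
      intro N hN
      rw [sn_sq hX hG (RO U B M q t) N V (vf S f), ← hQd]
      have hNr : (0 : ℝ) < N := by exact_mod_cast hN
      have h1 := app_vf ((((N : ℂ)⁻¹) • SN U Q N V : L2 d →L[ℂ] L2 d)) S f (b := 2 * δ)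
        (fun y hy => by
          have h2 := hb1 V hV.1 y hy N hN
          rw [hsq] at h2
          rw [_root_.smul_apply] at *
          linarith)
      rw [_root_.smul_apply, norm_smul, norm_inv, Complex.norm_natCast, ← hF1,
        inv_mul_le_iff₀ hNr] at h1
      have h3 : ‖vf S f‖ ≤ F1 := by
        rw [hF1]
        exact norm_vf S f
      refine (Complex.re_le_norm _).trans ((norm_inner_le_norm _ _).trans ?_)
      have h4 : ‖vf S f‖ * ‖SN U Q N V (vf S f)‖ ≤ F1 * (N * (F1 * (2 * δ))) :=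
        mul_le_mul h3 h1 (norm_nonneg _) hF10
      have h5 : F1 * F1 ≤ A := by
        rw [hA]
        nlinarith
      refine h4.trans ?_
      have h6 : F1 * (N * (F1 * (2 * δ))) = N * (F1 * F1 * (2 * δ)) := by ring
      rw [h6]
      exact mul_le_mul_of_nonneg_left (mul_le_mul_of_nonneg_right h5 (by positivity)) hNr.le
    rw [hWi, ← hWd]
    obtain ⟨l, hl⟩ : ∃ l : ℂ, l = ((∫ k in Set.Icc (0 : Fin d → ℝ) 1,
      ‖fh S f k‖ ^ 2 * (wm d m (ek k) / dn d (ek k)) : ℝ) : ℂ) := ⟨_, rfl⟩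
    have hpt : ∀ (k : ℕ) (x : ℝ), (k : ℝ) ≤ x → x ≤ k + 1 →
        ‖((W⁻¹ : ℝ) : ℂ) * (∫ s in x..(x + W),
          (inner ℂ (U V s (vf S f)) (Sf (-m) (U V s (vf S f))) : ℂ)) - l‖ ^ 2 ≤
          2 * (4 * A * δ) ^ 2 + 2 * A * ‖RO U B M q t V (U V (k : ℝ) (vf S f))‖ ^ 2 := by
      intro k x hx1 hx2
      have h1 := wpoint hX hF hCf hPW hD hd hG hBB S f q t hc hq1 hW1 hM1 hM2 V (hb2 V hV.2)
        k hx1 hx2
      rw [← hl, ← hF1, ← hA] at h1
      have h2 : A * (3 / W + e1 + η1 + 16 * d * c0) ≤ 4 * A * δ := by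
        have h3 : A * (3 / W + e1 + η1 + 16 * d * c0) ≤ A * (4 * δ) :=
          mul_le_mul_of_nonneg_left (by linarith) hA0.le
        linarith
      have h4 := h1.trans (add_le_add_left h2 _)
      have h5 := norm_nonneg (((W⁻¹ : ℝ) : ℂ) * (∫ s in x..(x + W),
          (inner ℂ (U V s (vf S f)) (Sf (-m) (U V s (vf S f))) : ℂ)) - l)
      have h6 := pow_le_pow_left₀ h5 h4 2
      refine h6.trans ?_
      have h7 : ∀ x y z : ℝ, (x + y * z) ^ 2 ≤ 2 * x ^ 2 + 2 * y ^ 2 * z ^ 2 := by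
        intro x y z
        nlinarith only [sq_nonneg (x - y * z)]
      rw [hA]
      exact h7 _ _ _
    have hcon : Continuous fun x : ℝ => ‖((W⁻¹ : ℝ) : ℂ) * (∫ s in x..(x + W),
        (inner ℂ (U V s (vf S f)) (Sf (-m) (U V s (vf S f))) : ℂ)) - l‖ ^ 2 := by
      have hIc := cont_I hG m V (vf S f)
      have h1 : Continuous fun x : ℝ => ∫ s in (0 : ℝ)..x,
          (inner ℂ (U V s (vf S f)) (Sf (-m) (U V s (vf S f))) : ℂ) :=
        intervalIntegral.continuous_primitive (fun a b => hIc.intervalIntegrable a b) 0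
      have h2 : (fun x : ℝ => ∫ s in x..(x + W),
          (inner ℂ (U V s (vf S f)) (Sf (-m) (U V s (vf S f))) : ℂ)) = fun x : ℝ =>
          (∫ s in (0 : ℝ)..(x + W), (inner ℂ (U V s (vf S f)) (Sf (-m) (U V s (vf S f))) : ℂ)) -
          ∫ s in (0 : ℝ)..x, (inner ℂ (U V s (vf S f)) (Sf (-m) (U V s (vf S f))) : ℂ) := by
        funext x
        rw [intervalIntegral.integral_interval_sub_left (hIc.intervalIntegrable _ _)
          (hIc.intervalIntegrable _ _)]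
      have h3 : Continuous fun x : ℝ => ∫ s in x..(x + W),
          (inner ℂ (U V s (vf S f)) (Sf (-m) (U V s (vf S f))) : ℂ) := by
        rw [h2]
        exact (h1.comp (continuous_id.add continuous_const)).sub h1
      exact ((continuous_const.mul h3).sub continuous_const).norm.pow 2
    have hfin := win_mean (τ := τ) (G := 2 * (4 * A * δ) ^ 2 + 2 * A * (A * (2 * δ))) hcon
      (fun x => by positivity) hpt (fun N hN => by
        rw [Finset.sum_add_distrib, Finset.sum_const, Finset.card_range, nsmul_eq_mul,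
          ← Finset.mul_sum]
        have h1 := mul_le_mul_of_nonneg_left (hsum N hN) (by positivity : 0 ≤ 2 * A)
        linarith only [h1]) hτ
    rw [← hl]
    refine hfin.trans ?_
    have h1 : δ ^ 2 ≤ δ := by nlinarith only [hδ0, hδ1]
    have h2 : A ^ 2 * δ ^ 2 ≤ A ^ 2 * δ := mul_le_mul_of_nonneg_left h1 (by positivity)
    have h3 : 0 ≤ A ^ 2 * δ := by positivity
    have h4 : 2 * (2 * (4 * A * δ) ^ 2 + 2 * A * (A * (2 * δ))) =
        64 * (A ^ 2 * δ ^ 2) + 8 * (A ^ 2 * δ) := by ring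
    rw [h4]
    linarith only [h2, h3, hAδ]

end Pool.Agent.T2h98.MR
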