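import Pool.Agent.T2h98.PS.Stm
import Pool.Agent.T2h98.EA.StmP
import Pool.Agent.T2h98.QD.Stm5

/-! Relaxation of the momentum at all times: definitions and statements of the parts. -/

set_option autoImplicit false
set_option linter.unusedSectionVars false
set_option linter.unusedVariables false

open scoped BigOperators Matrix Topology
open MeasureTheory ProbabilityTheory Filter

namespace Pool.Agent.T2h98.MR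

open Pool.Agent.W788.MFP.Four (T e NN adj K)
open Pool.Agent.W788.BK (nsq hs JJ hi Low cr)
open Pool.Agent.TH980.IM.PR (PP sh)
open Pool.Agent.T2h98.QD (Zd ev HT dl rep Mo GP dn)
open Pool.Agent.T2h98.PS
open Pool.Agent.T2h98.NB
open Pool.Agent.T2h98.EA (SN Uni1 T_SNF T_MAX)

section

variable {d : ℕ}

/-- the law of `σ v`, `v` standard Gaussian -/
noncomputable def ns (σ : ℝ) : Measure ℝ := (gaussianReal 0 1).map fun v => σ * v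

/-- the operator `B V = ∫_0^1 U(-s) S_m U(s) ds`, `S_m f = f(· + m)` -/
structure IsB (U : Om d → ℝ → L2 d →L[ℂ] L2 d) (m : Sd d) (B : Om d → L2 d →L[ℂ] L2 d) : Prop where
  cov : Cov B
  bdd : ∀ V, ‖B V‖ ≤ 1
  int : ∀ (V : Om d) (n : ℕ) (f : L2 d), SN U B n V f =
    ∫ s in (0 : ℝ)..n, U V (-s) (Sf (-m) (U V s f))

/-- `∑_i a_i U(t_i)` -/
noncomputable def qU (U : Om d → ℝ → L2 d →L[ℂ] L2 d) {n : ℕ} (a : Fin n → ℂ) (t : Fin n → ℝ)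
    (V : Om d) : L2 d →L[ℂ] L2 d := ∑ i, a i • U V (t i)

/-- `∑_i a_i exp(-i t_i E)` -/
noncomputable def qE {n : ℕ} (a : Fin n → ℂ) (t : Fin n → ℝ) (E : ℝ) : ℂ :=
  ∑ i, a i * Complex.exp (-(((t i * E : ℝ) : ℂ) * Complex.I))

/-- `M⁻¹ ∫_0^M U(-s) S_m U(s) ds - ∑_i a_i U(t_i)` -/
noncomputable def RO (U : Om d → ℝ → L2 d →L[ℂ] L2 d) (B : Om d → L2 d →L[ℂ] L2 d) (M : ℕ) {n : ℕ}
    (a : Fin n → ℂ) (t : Fin n → ℝ) (V : Om d) : L2 d →L[ℂ] L2 d :=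
  ((M : ℂ)⁻¹) • SN U B M V - qU U a t V

/-- the same on the torus -/
noncomputable def ZT {L : ℕ} [NeZero L] (m : Fin d → ℤ) (M : ℕ) {n : ℕ} (a : Fin n → ℂ)
    (t : Fin n → ℝ) (σ : ℝ) (ξ : T d L → ℝ) (x y : T d L) : ℂ :=
  ((M : ℂ)⁻¹ * ∫ s in (0 : ℝ)..M,
    (ev (HT σ ξ) (-s) * Mo (chm m) * ev (HT σ ξ) s : Matrix (T d L) (T d L) ℂ) x y) -
  ∑ i, a i * ev (HT σ ξ) (t i) x y

/-- the Fourier transform of a function with finite support -/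
noncomputable def fh (S : Finset (Sd d)) (f : Sd d → ℂ) (k : Fin d → ℝ) : ℂ :=
  ∑ y ∈ S, f y * Complex.exp (-((2 * Real.pi * ∑ i, k i * (y i : ℝ) : ℝ) * Complex.I))

/-- the energy of the momentum `2 π k` -/
noncomputable def ek (k : Fin d → ℝ) : ℝ := ∑ i, 2 * Real.cos (2 * Real.pi * k i)

/-- the function with finite support as a vector -/
noncomputable def vf (S : Finset (Sd d)) (f : Sd d → ℂ) : L2 d := ∑ y ∈ S, f y • ee y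

/-- the embedding of the torus -/
noncomputable def Jt {L : ℕ} [NeZero L] (φ : T d L → ℂ) : L2 d := ∑ k : T d L, φ k • ee (rep k)

/-- `∑ |x|² |φ(x)|²` on the torus -/
noncomputable def W2 {L : ℕ} [NeZero L] (φ : T d L → ℂ) : ℝ :=
  ∑ k : T d L, (∑ i, (rep k i : ℝ) ^ 2) * ‖φ k‖ ^ 2

end

/-! ## A. The lattice and the torus -/

/-- the operator `B` -/
def T_BOP : Prop := ∀ (d : ℕ) (U : Om d → ℝ → L2 d →L[ℂ] L2 d), Grp U → ∀ m : Sd d,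
  ∃ B : Om d → L2 d →L[ℂ] L2 d, IsB U m B

/-- the group on the torus -/
def T_TEV : Prop := ∀ (d L : ℕ) [NeZero L] (σ : ℝ) (ξ : T d L → ℝ),
  (∀ (t : ℝ) (φ : T d L → ℂ), nsq (ev (HT σ ξ) t *ᵥ φ) = nsq φ) ∧
  (∀ (t : ℝ) (φ : T d L → ℂ), Real.sqrt (W2 (ev (HT σ ξ) t *ᵥ φ)) ≤
    Real.sqrt (W2 φ) + 2 * d * |t| * Real.sqrt (nsq φ)) ∧
  (∀ (m : Fin d → ℤ) (φ : T d L → ℂ), Real.sqrt (W2 (Mo (chm m) *ᵥ φ)) ≤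
    Real.sqrt (W2 φ) + (∑ i, |(m i : ℝ)|) * Real.sqrt (nsq φ)) ∧
  ∀ (u : T d L → T d L → ℂ) (w : T d L → ℝ), EB σ ξ u w → ∀ (t : ℝ) (j : T d L),
    ev (HT σ ξ) t *ᵥ u j = Complex.exp (-(((t * w j : ℝ) : ℂ) * Complex.I)) • u j

/-- comparison of the groups on the lattice and on the torus -/
def T_TR1 : Prop := ∀ d : ℕ, ∃ C : ℝ, 0 < C ∧ ∀ (L : ℕ) [NeZero L], 4 ≤ L → ∀ (σ : ℝ) (ξ : Om d)
  (U : Om d → ℝ → L2 d →L[ℂ] L2 d), Grp U → ∀ (φ : T d L → ℂ) (t : ℝ),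
  ‖U (fun x => σ * ξ x) t (Jt φ) - Jt (ev (HT σ fun k : T d L => ξ (rep k)) t *ᵥ φ)‖ ≤
    C * |t| / L * (Real.sqrt (W2 φ) + |t| * Real.sqrt (nsq φ))

/-- comparison of the time averages on the lattice and on the torus -/
def T_TRA : Prop := ∀ (d : ℕ) (m : Fin d → ℤ) (n : ℕ) (a : Fin n → ℂ) (t : Fin n → ℝ),
  ∃ C : ℝ, 0 < C ∧ ∀ (L : ℕ) [NeZero L], 4 ≤ L → ∀ M : ℕ, 1 ≤ M → ∀ (σ : ℝ) (ξ : Om d)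
  (U : Om d → ℝ → L2 d →L[ℂ] L2 d), Grp U → ∀ B : Om d → L2 d →L[ℂ] L2 d, IsB U m B →
  ‖RO U B M a t (fun x => σ * ξ x) (ee 0)‖ ≤
    Real.sqrt (∑ x : T d L, ‖ZT m M a t σ (fun k : T d L => ξ (rep k)) x 0‖ ^ 2) +
      C * (M : ℝ) ^ 2 / L

/-! ## B. The torus -/

/-- the kernel of the time average -/
def T_SNC : Prop := ∀ (ε M x : ℝ), 0 < ε → 2 / ε ≤ M →
  ‖(M : ℂ)⁻¹ * ∫ s in (0 : ℝ)..M, Complex.exp (((s * x : ℝ) : ℂ) * Complex.I)‖ ≤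
    ‖((2 * ε : ℝ) : ℂ) / (((2 * ε : ℝ) : ℂ) - (x : ℂ) * Complex.I)‖

/-- large eigenvalues -/
def T_OUT : Prop := ∀ (d L : ℕ) [NeZero L] (σ : ℝ) (ξ : T d L → ℝ) (u : T d L → T d L → ℂ)
  (w : T d L → ℝ), EB σ ξ u w →
  ({j | 2 * (d : ℝ) + 1 < |w j|}.ncard : ℝ) ≤ σ ^ 2 * ∑ x, ξ x ^ 2

/-- the time average in terms of the eigenvectors -/
def T_ZEG : Prop := ∀ (d L : ℕ) [NeZero L] (m : Fin d → ℤ) (M : ℕ), 1 ≤ M → ∀ (n : ℕ)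
  (a : Fin n → ℂ) (t : Fin n → ℝ) (σ : ℝ) (ξ : T d L → ℝ) (u : T d L → T d L → ℂ)
  (w : T d L → ℝ), EB σ ξ u w →
  ∑ x, ∑ y, ‖ZT m M a t σ ξ x y‖ ^ 2 = ∑ j, ∑ l, ‖(star (u j) ⬝ᵥ (Mo (chm m) *ᵥ u l)) *
    ((M : ℂ)⁻¹ * ∫ s in (0 : ℝ)..M, Complex.exp (((s * (w j - w l) : ℝ) : ℂ) * Complex.I)) -
      if j = l then qE a t (w j) else 0‖ ^ 2

/-- the mean over the disorder and the trace -/
def T_ZTR : Prop := ∀ (d L : ℕ) [NeZero L] (m : Fin d → ℤ) (M : ℕ), 1 ≤ M → ∀ (n : ℕ)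
  (a : Fin n → ℂ) (t : Fin n → ℝ) (σ : ℝ),
  (∀ x y : T d L, Continuous fun ξ : T d L → ℝ => ZT m M a t σ ξ x y) ∧
  (∃ C : ℝ, ∀ (ξ : T d L → ℝ) (x y : T d L), ‖ZT m M a t σ ξ x y‖ ≤ C) ∧
  ∫ ξ : T d L → ℝ, (∑ x, ‖ZT m M a t σ ξ x 0‖ ^ 2) ∂(GP (T d L)) =
    (NN d L)⁻¹ * ∫ ξ : T d L → ℝ, (∑ x, ∑ y, ‖ZT m M a t σ ξ x y‖ ^ 2) ∂(GP (T d L))

/-- the time average on the torus is close to a function of the energy -/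
def T_TOB : Prop := ∀ (κ d : ℕ), 3 ≤ d → ∀ h : ℝ, 0 < h → h < 1 / 3 → ∀ (m : Fin d → ℤ)
  (c0 η : ℝ), 0 < c0 → 0 < η → ∀ (n : ℕ) (a : Fin n → ℂ) (t : Fin n → ℝ),
  (∀ E : ℝ, |E| ≤ 2 * (d : ℝ) + 1 → ‖qE a t E - (cf d m c0 E : ℂ)‖ ≤ η) →
  ∀ᶠ σ : ℝ in 𝓝[>] 0, ∀ (L : ℕ) [NeZero L], σ ^ (-3 : ℝ) ≤ (L : ℝ) →
  (L : ℝ) ≤ σ ^ (-(κ : ℝ)) → ∀ M : ℕ, 2 / σ ^ (2 + h) ≤ (M : ℝ) →
  ∫ ξ : T d L → ℝ, (∑ x, ‖ZT m M a t σ ξ x 0‖ ^ 2) ∂(GP (T d L)) ≤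
    20 * (η + η ^ 2) + 100 * d * c0

/-! ## C. The lattice -/

/-- the time average on the lattice is close to a function of the energy -/
def T_INF : Prop := ∀ (d : ℕ), 3 ≤ d → ∀ h : ℝ, 0 < h → h < 1 / 3 → ∀ (m : Fin d → ℤ)
  (c0 η : ℝ), 0 < c0 → 0 < η → ∀ (n : ℕ) (a : Fin n → ℂ) (t : Fin n → ℝ),
  (∀ E : ℝ, |E| ≤ 2 * (d : ℝ) + 1 → ‖qE a t E - (cf d m c0 E : ℂ)‖ ≤ η) →
  ∀ U : Om d → ℝ → L2 d →L[ℂ] L2 d, Grp U → ∀ B : Om d → L2 d →L[ℂ] L2 d, IsB U m B →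
  ∀ᶠ σ : ℝ in 𝓝[>] 0, ∀ M : ℕ, 2 / σ ^ (2 + h) ≤ (M : ℝ) → (M : ℝ) ≤ 2 / σ ^ (2 + h) + 1 →
  ∫ V, ‖RO U B M a t V (ee 0)‖ ^ 2 ∂(PP (Sd d) (ns σ)) ≤ 50 * (η + η ^ 2) + 300 * d * c0

/-- facts on the remainder -/
def T_ROC : Prop := ∀ (d : ℕ) (U : Om d → ℝ → L2 d →L[ℂ] L2 d), Grp U → ∀ (m : Sd d)
  (B : Om d → L2 d →L[ℂ] L2 d), IsB U m B → ∀ M : ℕ, 1 ≤ M → ∀ (n : ℕ) (a : Fin n → ℂ)
  (t : Fin n → ℝ), Cov (RO U B M a t) ∧ (∀ V, ‖RO U B M a t V‖ ≤ 1 + ∑ i, ‖a i‖) ∧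
  ∀ (N : ℕ), 1 ≤ N → ∀ (V : Om d) (f : L2 d),
    ‖((N : ℂ)⁻¹) • SN U B N V f - qU U a t V f - ((N : ℂ)⁻¹) • SN U (RO U B M a t) N V f‖ ≤
      2 * (M : ℝ) / N * ‖f‖

/-- the maximal inequality -/
def T_MXP : Prop := ∀ (d : ℕ) (U : Om d → ℝ → L2 d →L[ℂ] L2 d), Grp U → ∀ (ν : Measure ℝ)
  [IsProbabilityMeasure ν] (R : Om d → L2 d →L[ℂ] L2 d), Cov R → ∀ (C r lam s : ℝ), 0 ≤ C →
  (∀ V, ‖R V‖ ≤ C) → ∫ V, ‖R V (ee 0)‖ ^ 2 ∂(PP (Sd d) ν) ≤ r → 0 < lam → 0 < s →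
  ∃ Ω : Set (Om d), MeasurableSet Ω ∧ 1 - r / (lam * s ^ 2) ≤ (PP (Sd d) ν).real Ω ∧
    ∀ V ∈ Ω, ∀ i : ℕ, 1 ≤ i → ‖((i : ℂ)⁻¹) • SN U R i V (ee 0)‖ ≤ Real.sqrt (2 * lam) + C * s

/-- the maximal inequality at finitely many sites -/
def T_MXS : Prop := ∀ (d : ℕ) (U : Om d → ℝ → L2 d →L[ℂ] L2 d), Grp U → ∀ (ν : Measure ℝ)
  [IsProbabilityMeasure ν] (R : Om d → L2 d →L[ℂ] L2 d), Cov R → ∀ (C r lam s : ℝ), 0 ≤ C →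
  (∀ V, ‖R V‖ ≤ C) → ∫ V, ‖R V (ee 0)‖ ^ 2 ∂(PP (Sd d) ν) ≤ r → 0 < lam → 0 < s →
  ∀ S : Finset (Sd d), ∃ Ω : Set (Om d), MeasurableSet Ω ∧
    1 - S.card * (r / (lam * s ^ 2)) ≤ (PP (Sd d) ν).real Ω ∧
    ∀ V ∈ Ω, ∀ y ∈ S, ∀ i : ℕ, 1 ≤ i →
      ‖((i : ℂ)⁻¹) • SN U R i V (ee y)‖ ≤ Real.sqrt (2 * lam) + C * s

/-- small disorder: the group converges to the free group -/
def T_QCV : Prop := ∀ (d : ℕ) (U : Om d → ℝ → L2 d →L[ℂ] L2 d), Grp U → ∀ (n : ℕ)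
  (a : Fin n → ℂ) (t : Fin n → ℝ) (f : L2 d) (η : ℝ), 0 < η → ∀ᶠ σ : ℝ in 𝓝[>] 0,
  ∃ Ω : Set (Om d), MeasurableSet Ω ∧ 1 - η ≤ (PP (Sd d) (ns σ)).real Ω ∧
    ∀ V ∈ Ω, ‖qU U a t V f - qU U a t 0 f‖ ≤ η

/-- the free group -/
def T_FRE : Prop := ∀ (d : ℕ) (U : Om d → ℝ → L2 d →L[ℂ] L2 d), Grp U → ∀ (S : Finset (Sd d))
  (f : Sd d → ℂ) (t : ℝ), (inner ℂ (vf S f) (U 0 t (vf S f)) : ℂ) =
    ∫ k in Set.Icc (0 : Fin d → ℝ) 1, ((‖fh S f k‖ ^ 2 : ℝ) : ℂ) *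
      Complex.exp (-(((t * ek k : ℝ) : ℂ) * Complex.I))

/-- the cut off is harmless -/
def T_CFM : Prop := ∀ (d : ℕ), 3 ≤ d → ∀ (m : Fin d → ℤ) (g : (Fin d → ℝ) → ℝ) (G c0 : ℝ),
  Continuous g → (∀ k, |g k| ≤ G) → 0 < c0 →
  |(∫ k in Set.Icc (0 : Fin d → ℝ) 1, g k * cf d m c0 (ek k)) -
    ∫ k in Set.Icc (0 : Fin d → ℝ) 1, g k * (wm d m (ek k) / dn d (ek k))| ≤ 16 * d * G * c0

/-- trigonometric approximation on an interval -/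
def T_TRG : Prop := ∀ (c : ℝ → ℝ) (A η : ℝ), Continuous c → 0 < A → 0 < η →
  ∃ (n : ℕ) (a : Fin n → ℂ) (t : Fin n → ℝ), ∀ E : ℝ, |E| ≤ A → ‖qE a t E - (c E : ℂ)‖ ≤ η

/-- trigonometric approximation on an interval, bounded on the line -/
def T_TR2 : Prop := ∀ (c : ℝ → ℝ) (A η : ℝ), Continuous c → (∀ E, |c E| ≤ 1) → 0 < A → 0 < η →
  η ≤ 1 → ∃ (n : ℕ) (a : Fin n → ℂ) (t : Fin n → ℝ),
    (∀ E : ℝ, |E| ≤ A → ‖qE a t E - (c E : ℂ)‖ ≤ η) ∧ ∀ E : ℝ, ‖qE a t E‖ ≤ 2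

/-- the norm of a trigonometric polynomial of the Hamiltonian -/
def T_QBD : Prop := ∀ (d : ℕ) (U : Om d → ℝ → L2 d →L[ℂ] L2 d), Grp U → ∀ (n : ℕ)
  (a : Fin n → ℂ) (t : Fin n → ℝ) (K : ℝ), 0 ≤ K → (∀ E : ℝ, ‖qE a t E‖ ≤ K) →
  ∀ V : Om d, ‖qU U a t V‖ ≤ K

/-- **relaxation of the momentum at all times** -/
def T_MR : Prop := ∀ (d : ℕ), 3 ≤ d → ∀ U : Om d → ℝ → L2 d →L[ℂ] L2 d, Grp U →
  ∀ (m : Fin d → ℤ) (a : ℝ), 0 < a → ∀ (S : Finset (Sd d)) (f : Sd d → ℂ) (η : ℝ), 0 < η →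
  ∀ᶠ σ : ℝ in 𝓝[>] 0, ∃ Ω : Set (Om d), MeasurableSet Ω ∧ 1 - η ≤ (PP (Sd d) (ns σ)).real Ω ∧
    ∀ V ∈ Ω, ∀ τ : ℝ, σ ^ (-2 - a) ≤ τ →
    ‖(τ : ℂ)⁻¹ * (∫ s in (0 : ℝ)..τ,
        (inner ℂ (U V s (vf S f)) (Sf (-m) (U V s (vf S f))) : ℂ)) -
      ((∫ k in Set.Icc (0 : Fin d → ℝ) 1, ‖fh S f k‖ ^ 2 * (wm d m (ek k) / dn d (ek k)) : ℝ) :
        ℂ)‖ ≤ η

end Pool.Agent.T2h98.MR
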