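import Pool.Agent.T2h98.MR.StmW

/-! Relaxation of the momentum in most kinetic time windows, at all times, uniformly in the
initial state: statement. -/

set_option autoImplicit false
set_option linter.unusedSectionVars false
set_option linter.unusedVariables false

open scoped BigOperators Matrix Topology
open MeasureTheory ProbabilityTheory Filter

namespace Pool.Agent.T2h98.MR

open Pool.Agent.TH980.IM.PR (PP sh)
open Pool.Agent.T2h98.QD (Zd ev HT dl rep Mo GP dn)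
open Pool.Agent.T2h98.PS
open Pool.Agent.T2h98.NB
open Pool.Agent.T2h98.EA (SN Uni1 T_SNF T_MAX)

/-- the same for all initial states in a ball at once (the event does not depend on `f`) -/
def T_MRU : Prop := ∀ (d : ℕ), 3 ≤ d → ∀ U : Om d → ℝ → L2 d →L[ℂ] L2 d, Grp U →
  ∀ (m : Fin d → ℤ) (S : Finset (Sd d)) (η : ℝ), 0 < η →
  ∃ K : ℝ, 0 < K ∧
  ∀ᶠ σ : ℝ in 𝓝[>] 0, ∃ Ω : Set (Om d), MeasurableSet Ω ∧ 1 - η ≤ (PP (Sd d) (ns σ)).real Ω ∧
    ∀ V ∈ Ω, ∀ f : Sd d → ℂ, (∀ y, ‖f y‖ ≤ 1) → ∀ τ : ℝ, 0 < τ →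
    τ⁻¹ * (∫ t in (0 : ℝ)..τ, ‖((σ ^ 2 / K : ℝ) : ℂ) * (∫ s in t..(t + K / σ ^ 2),
        (inner ℂ (U V s (vf S f)) (Sf (-m) (U V s (vf S f))) : ℂ)) -
      ((∫ k in Set.Icc (0 : Fin d → ℝ) 1, ‖fh S f k‖ ^ 2 * (wm d m (ek k) / dn d (ek k)) : ℝ) :
        ℂ)‖ ^ 2) ≤ η

end Pool.Agent.T2h98.MR
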