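import Pool.Agent.T2h98.MR.Stm
import Pool.Agent.T2h98.QD.Uni
import Pool.Agent.T2h98.QD.Avg
import Pool.Agent.T2h98.QD.Cmp
import Pool.Agent.T2h98.PS.PSY

/-! Project MR: the group on the torus. -/

set_option autoImplicit false
set_option linter.unusedSectionVars false
set_option linter.unusedVariables false

open scoped BigOperators Matrix Topology
open MeasureTheory ProbabilityTheory Filter

namespace Pool.Agent.T2h98.MR

open Pool.Agent.W788.MFP.Four (T e NN adj K)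
open Pool.Agent.W788.BK (nsq hs JJ hi Low cr)
open Pool.Agent.T2h98.QD (Zd ev HT dl rep Mo GP dn)
open Pool.Agent.T2h98.PS

namespace TEV

theorem mink {ι : Type} [Fintype ι] (p q : ι → ℝ) :
    Real.sqrt (∑ i, (p i + q i) ^ 2) ≤ Real.sqrt (∑ i, p i ^ 2) + Real.sqrt (∑ i, q i ^ 2) := by
  have h := norm_add_le (WithLp.toLp 2 p : EuclideanSpace ℝ ι) (WithLp.toLp 2 q)
  simpa [EuclideanSpace.norm_eq] using h

theorem sqrt_sum_le {ι : Type} [Fintype ι] (p : ι → ℝ) :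
    Real.sqrt (∑ i, p i ^ 2) ≤ ∑ i, |p i| := by
  rw [Real.sqrt_le_left (Finset.sum_nonneg fun i _ => abs_nonneg _)]
  have h := Finset.sum_sq_le_sq_sum_of_nonneg (s := Finset.univ) (f := fun i => |p i|)
    (fun i _ => abs_nonneg _)
  simpa [sq_abs] using h

theorem cs {ι : Type} [Fintype ι] (p q : ι → ℝ) :
    ∑ i, p i * q i ≤ Real.sqrt (∑ i, p i ^ 2) * Real.sqrt (∑ i, q i ^ 2) := by
  rw [← Real.sqrt_mul (Finset.sum_nonneg fun i _ => sq_nonneg _)]
  refine Real.le_sqrt_of_sq_le ?_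
  exact Finset.sum_mul_sq_le_sq_mul_sq _ _ _

variable {d L : ℕ} [NeZero L]

/-- the euclidean norm of the representative -/
noncomputable def wt (k : T d L) : ℝ := Real.sqrt (∑ i, (rep k i : ℝ) ^ 2)

theorem wt_nonneg (k : T d L) : 0 ≤ wt k := Real.sqrt_nonneg _

theorem wt_sq (k : T d L) : wt k ^ 2 = ∑ i, (rep k i : ℝ) ^ 2 :=
  Real.sq_sqrt (Finset.sum_nonneg fun i _ => sq_nonneg _)

theorem W2_eq (φ : T d L → ℂ) : W2 φ = ∑ k, (wt k * ‖φ k‖) ^ 2 := by
  unfold W2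
  refine Finset.sum_congr rfl fun k _ => ?_
  rw [mul_pow, wt_sq]

theorem W2_nonneg (φ : T d L → ℂ) : 0 ≤ W2 φ := by
  rw [W2_eq]
  exact Finset.sum_nonneg fun i _ => sq_nonneg _

theorem coord_le (a : ZMod L) (m : ℤ) :
    |((a + (m : ZMod L)).valMinAbs : ℝ)| ≤ |(a.valMinAbs : ℝ)| + |(m : ℝ)| := by
  have h1 : (a + (m : ZMod L)).valMinAbs.natAbs ≤ (a.valMinAbs + m).natAbs := by
    refine ZMod.natAbs_min_of_le_div_two L _ _ ?_ (ZMod.natAbs_valMinAbs_le _)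
    rw [ZMod.coe_valMinAbs, Int.cast_add, ZMod.coe_valMinAbs]
  have h2 : |(a + (m : ZMod L)).valMinAbs| ≤ |a.valMinAbs| + |m| := by
    have h3 : |(a + (m : ZMod L)).valMinAbs| ≤ |a.valMinAbs + m| := by
      rw [Int.abs_eq_natAbs, Int.abs_eq_natAbs]
      exact_mod_cast h1
    exact h3.trans (abs_add_le _ _)
  exact_mod_cast h2

theorem wt_add (k : T d L) (m : Fin d → ℤ) :
    wt (k + fun i => ((m i : ℤ) : ZMod L)) ≤ wt k + ∑ i, |(m i : ℝ)| := by
  have h1 : wt (k + fun i => ((m i : ℤ) : ZMod L)) ≤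
      Real.sqrt (∑ i, (|(rep k i : ℝ)| + |(m i : ℝ)|) ^ 2) := by
    refine Real.sqrt_le_sqrt (Finset.sum_le_sum fun i _ => ?_)
    have := coord_le (k i) (m i)
    rw [← sq_abs]
    exact pow_le_pow_left₀ (abs_nonneg _) this 2
  refine h1.trans ((mink _ _).trans ?_)
  refine add_le_add (le_of_eq ?_) ?_
  · unfold wt
    congr 1
    exact Finset.sum_congr rfl fun i _ => sq_abs _
  · refine (sqrt_sum_le _).trans (le_of_eq ?_)
    exact Finset.sum_congr rfl fun i _ => abs_abs _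

theorem single_cast (i : Fin d) : (Pi.single i 1 : T d L) =
    fun j => (((Pi.single i 1 : Fin d → ℤ) j : ℤ) : ZMod L) := by
  funext j
  rcases eq_or_ne j i with rfl | h
  · simp
  · simp [h]

theorem wt_single (k : T d L) (i : Fin d) : |wt k - wt (k + Pi.single i 1)| ≤ 1 := by
  have s1 : ∑ j, |(((Pi.single i 1 : Fin d → ℤ) j : ℤ) : ℝ)| = 1 := by
    rw [Finset.sum_eq_single i]
    · simp
    · intro j _ hj
      simp [hj]
    · intro h
      exact absurd (Finset.mem_univ i) h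
  have h1 := wt_add k (Pi.single i 1)
  rw [← single_cast, s1] at h1
  have h2 := wt_add (k + Pi.single i 1) (fun j => -((Pi.single i 1 : Fin d → ℤ) j))
  have e1 : (k + Pi.single i 1 + fun j => ((-((Pi.single i 1 : Fin d → ℤ) j) : ℤ) : ZMod L)) = k := by
    rw [single_cast (d := d) (L := L) i]
    funext j
    simp
  rw [e1] at h2
  have s2 : ∑ j, |((-((Pi.single i 1 : Fin d → ℤ) j) : ℤ) : ℝ)| = 1 := by
    rw [← s1]
    refine Finset.sum_congr rfl fun j _ => ?_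
    rw [Int.cast_neg, abs_neg]
  rw [s2] at h2
  rw [abs_le]
  constructor <;> linarith

/-- translations -/
theorem shift_le (m : Fin d → ℤ) (φ : T d L → ℂ) :
    Real.sqrt (W2 fun x => φ (x + fun i => ((m i : ℤ) : ZMod L))) ≤
      Real.sqrt (W2 φ) + (∑ i, |(m i : ℝ)|) * Real.sqrt (nsq φ) := by
  obtain ⟨M, hM⟩ : ∃ M : ℝ, M = ∑ i, |(m i : ℝ)| := ⟨_, rfl⟩
  have hM0 : 0 ≤ M := by
    rw [hM]
    exact Finset.sum_nonneg fun i _ => abs_nonneg _
  rw [← hM]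
  have h1 : W2 (fun x => φ (x + fun i => ((m i : ℤ) : ZMod L))) ≤
      ∑ y : T d L, (wt y * ‖φ y‖ + M * ‖φ y‖) ^ 2 := by
    rw [W2_eq, ← Equiv.sum_comp (Equiv.addRight (fun i => ((m i : ℤ) : ZMod L) : T d L))
      (fun y : T d L => (wt y * ‖φ y‖ + M * ‖φ y‖) ^ 2)]
    refine Finset.sum_le_sum fun x _ => ?_
    simp only [Equiv.coe_addRight]
    have h2 := wt_add (x + fun i => ((m i : ℤ) : ZMod L)) (fun i => -(m i))
    have e1 : (x + (fun i => ((m i : ℤ) : ZMod L)) + fun i => ((-(m i) : ℤ) : ZMod L)) = x := by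
      funext j
      simp
    rw [e1] at h2
    have s2 : ∑ i, |((-(m i) : ℤ) : ℝ)| = M := by
      rw [hM]
      refine Finset.sum_congr rfl fun j _ => ?_
      rw [Int.cast_neg, abs_neg]
    rw [s2] at h2
    rw [← add_mul]
    refine pow_le_pow_left₀ (mul_nonneg (wt_nonneg _) (norm_nonneg _)) ?_ 2
    exact mul_le_mul_of_nonneg_right h2 (norm_nonneg _)
  refine (Real.sqrt_le_sqrt h1).trans ((mink _ _).trans ?_)
  refine add_le_add (le_of_eq ?_) (le_of_eq ?_)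
  · rw [← W2_eq]
  · have : ∑ i : T d L, (M * ‖φ i‖) ^ 2 = M ^ 2 * nsq φ := by
      unfold nsq
      rw [Finset.mul_sum]
      exact Finset.sum_congr rfl fun i _ => mul_pow _ _ _
    rw [this, Real.sqrt_mul (sq_nonneg _), Real.sqrt_sq hM0]

/-- the equation of motion on the torus -/
theorem tor_deriv (σ : ℝ) (ξ : T d L → ℝ) (φ : T d L → ℂ) (k : T d L) (t : ℝ) :
    HasDerivAt (fun s : ℝ => (ev (HT σ ξ) s *ᵥ φ) k)
      (-Complex.I * (HT σ ξ *ᵥ (ev (HT σ ξ) t *ᵥ φ)) k) t := by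
  obtain ⟨u, E, hE, ho⟩ := QD.Uni.exists_basis (QD.HT_herm σ ξ)
  obtain ⟨-, e2⟩ := QD.Uni.ev_eq _ u E hE ho
  obtain ⟨p, hp⟩ : ∃ p : T d L → T d L → ℂ, p = fun j => (star (u j) ⬝ᵥ φ) • u j := ⟨_, rfl⟩
  have h1 : ∀ s : ℝ, ev (HT σ ξ) s *ᵥ φ = ∑ j, Complex.exp (-((s : ℂ) * Complex.I * E j)) • p j := by
    intro s
    rw [e2 s, Matrix.sum_mulVec]
    refine Finset.sum_congr rfl fun j _ => ?_
    rw [Matrix.smul_mulVec, hp]
    congr 1
    ext x
    simp only [Matrix.mulVec, dotProduct, Matrix.vecMulVec_apply, Pi.smul_apply, smul_eq_mul,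
      Finset.sum_mul]
    refine Finset.sum_congr rfl fun y _ => ?_
    ring
  have h2 : HT σ ξ *ᵥ (ev (HT σ ξ) t *ᵥ φ) =
      ∑ j, Complex.exp (-((t : ℂ) * Complex.I * E j)) • ((E j : ℂ) • p j) := by
    rw [h1, Matrix.mulVec_sum]
    refine Finset.sum_congr rfl fun j _ => ?_
    rw [Matrix.mulVec_smul, hp]
    congr 1
    show HT σ ξ *ᵥ ((star (u j) ⬝ᵥ φ) • u j) = (E j : ℂ) • ((star (u j) ⬝ᵥ φ) • u j)
    rw [Matrix.mulVec_smul, hE, smul_comm]
  have h3 : (fun s : ℝ => (ev (HT σ ξ) s *ᵥ φ) k) = fun s : ℝ =>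
      ∑ j, Complex.exp (-((s : ℂ) * Complex.I * E j)) * p j k := by
    funext s
    rw [h1, Finset.sum_apply]
    rfl
  rw [h3, h2]
  have h4 : HasDerivAt (fun s : ℝ => ∑ j, Complex.exp (-((s : ℂ) * Complex.I * E j)) * p j k)
      (∑ j, (Complex.exp (-((t : ℂ) * Complex.I * E j)) * (-(Complex.I * E j))) * p j k) t := by
    refine HasDerivAt.fun_sum fun j _ => ?_
    have h5 : HasDerivAt (fun s : ℝ => -((s : ℂ) * Complex.I * E j)) (-(Complex.I * E j)) t := by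
      have h6 : HasDerivAt (fun s : ℝ => (s : ℂ)) (1 : ℂ) t := by
        simpa using (hasDerivAt_id t).ofReal_comp
      have h7 := ((h6.mul_const Complex.I).mul_const (E j : ℂ)).neg
      rw [one_mul] at h7
      exact h7
    exact h5.cexp.mul_const _
  refine h4.congr_deriv ?_
  rw [Finset.sum_apply, Finset.mul_sum]
  refine Finset.sum_congr rfl fun j _ => ?_
  simp only [Pi.smul_apply, smul_eq_mul]
  ring

theorem nsq_ev (σ : ℝ) (ξ : T d L → ℝ) (t : ℝ) (φ : T d L → ℂ) :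
    nsq (ev (HT σ ξ) t *ᵥ φ) = nsq φ := by
  have hq : ∀ f : T d L → ℂ, ((nsq f : ℝ) : ℂ) = star f ⬝ᵥ f := by
    intro f
    unfold nsq
    rw [dotProduct]
    push_cast
    refine Finset.sum_congr rfl fun x _ => ?_
    rw [Pi.star_apply, ← Complex.conj_mul']
    rfl
  have h1 : star (ev (HT σ ξ) t *ᵥ φ) ⬝ᵥ (ev (HT σ ξ) t *ᵥ φ) = star φ ⬝ᵥ φ := by
    rw [Matrix.star_mulVec, ← Matrix.dotProduct_mulVec, Matrix.mulVec_mulVec,
      QD.ev_unit _ (QD.HT_herm σ ξ), Matrix.one_mulVec]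
  have h2 : ((nsq (ev (HT σ ξ) t *ᵥ φ) : ℝ) : ℂ) = ((nsq φ : ℝ) : ℂ) := by
    rw [hq, hq, h1]
  exact_mod_cast h2

theorem ev_zero (H : Matrix (T d L) (T d L) ℂ) : ev H 0 = 1 := by
  unfold ev
  simp [NormedSpace.exp_zero]

/-- the derivative of the second moment -/
theorem W2_deriv (σ : ℝ) (ξ : T d L → ℝ) (φ : T d L → ℂ) (t : ℝ) :
    HasDerivAt (fun s : ℝ => W2 (ev (HT σ ξ) s *ᵥ φ))
      (∑ k : T d L, wt k ^ 2 * (2 * ((starRingEnd ℂ) ((ev (HT σ ξ) t *ᵥ φ) k) *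
        (-Complex.I * (HT σ ξ *ᵥ (ev (HT σ ξ) t *ᵥ φ)) k)).re)) t := by
  have h1 : (fun s : ℝ => W2 (ev (HT σ ξ) s *ᵥ φ)) =
      fun s : ℝ => ∑ k : T d L, wt k ^ 2 * ‖(ev (HT σ ξ) s *ᵥ φ) k‖ ^ 2 := by
    funext s
    rw [W2_eq]
    exact Finset.sum_congr rfl fun k _ => mul_pow _ _ _
  rw [h1]
  refine HasDerivAt.fun_sum fun k _ => ?_
  refine HasDerivAt.const_mul _ ?_
  have h2 := (tor_deriv σ ξ φ k t).norm_sq
  rw [Complex.inner, mul_comm (-Complex.I * _) _] at h2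
  exact h2

/-- the bound of the derivative -/
theorem bound (σ : ℝ) (ξ : T d L → ℝ) (ψ : T d L → ℂ) :
    |∑ k : T d L, wt k ^ 2 * (2 * ((starRingEnd ℂ) (ψ k) *
        (-Complex.I * (HT σ ξ *ᵥ ψ) k)).re)| ≤
      4 * d * (Real.sqrt (W2 ψ) * Real.sqrt (nsq ψ)) := by
  have h1 : ∀ k : T d L, wt k ^ 2 * (2 * ((starRingEnd ℂ) (ψ k) *
        (-Complex.I * (HT σ ξ *ᵥ ψ) k)).re) =
      2 * ∑ i : Fin d, (wt k ^ 2 * ((starRingEnd ℂ) (ψ k) * ψ (k + Pi.single i 1)).im +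
        wt k ^ 2 * ((starRingEnd ℂ) (ψ k) * ψ (k - Pi.single i 1)).im) := by
    intro k
    rw [QD.Cmp.HT_mulVec]
    have e1 : ((starRingEnd ℂ) (ψ k) * (-Complex.I * (∑ i : Fin d, (ψ (k + Pi.single i 1) +
        ψ (k - Pi.single i 1)) + ((σ * ξ k : ℝ) : ℂ) * ψ k))).re =
        ∑ i : Fin d, (((starRingEnd ℂ) (ψ k) * ψ (k + Pi.single i 1)).im +
          ((starRingEnd ℂ) (ψ k) * ψ (k - Pi.single i 1)).im) := by
      have e2 : (starRingEnd ℂ) (ψ k) * (-Complex.I * (∑ i : Fin d, (ψ (k + Pi.single i 1) +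
          ψ (k - Pi.single i 1)) + ((σ * ξ k : ℝ) : ℂ) * ψ k)) =
          -Complex.I * ∑ i : Fin d, ((starRingEnd ℂ) (ψ k) * ψ (k + Pi.single i 1) +
            (starRingEnd ℂ) (ψ k) * ψ (k - Pi.single i 1)) +
          -Complex.I * (((σ * ξ k : ℝ) : ℂ) * ((starRingEnd ℂ) (ψ k) * ψ k)) := by
        have e0 : ∑ i : Fin d, ((starRingEnd ℂ) (ψ k) * ψ (k + Pi.single i 1) +
            (starRingEnd ℂ) (ψ k) * ψ (k - Pi.single i 1)) =
            (starRingEnd ℂ) (ψ k) * ∑ i : Fin d, (ψ (k + Pi.single i 1) +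
              ψ (k - Pi.single i 1)) := by
          rw [Finset.mul_sum]
          exact Finset.sum_congr rfl fun i _ => (mul_add _ _ _).symm
        rw [e0]
        ring
      rw [e2, Complex.add_re, Complex.conj_mul']
      have e3 : (-Complex.I * (((σ * ξ k : ℝ) : ℂ) * ((‖ψ k‖ : ℂ) ^ 2))).re = 0 := by
        have : (((σ * ξ k : ℝ) : ℂ) * ((‖ψ k‖ : ℂ) ^ 2)) = (((σ * ξ k) * ‖ψ k‖ ^ 2 : ℝ) : ℂ) := by
          push_cast
          ring
        rw [this, neg_mul, Complex.neg_re, Complex.I_mul_re, Complex.ofReal_im]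
        simp
      rw [e3, add_zero, Complex.mul_re]
      simp only [Complex.neg_re, Complex.I_re, neg_zero, zero_mul, Complex.neg_im, Complex.I_im,
        Complex.im_sum, Complex.add_im]
      ring
    rw [e1, Finset.mul_sum, Finset.mul_sum, Finset.mul_sum]
    refine Finset.sum_congr rfl fun i _ => ?_
    ring
  have h2 : ∀ i : Fin d, ∑ k : T d L, (wt k ^ 2 * ((starRingEnd ℂ) (ψ k) *
        ψ (k + Pi.single i 1)).im + wt k ^ 2 * ((starRingEnd ℂ) (ψ k) * ψ (k - Pi.single i 1)).im) =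
      ∑ k : T d L, (wt k ^ 2 - wt (k + Pi.single i 1) ^ 2) *
        ((starRingEnd ℂ) (ψ k) * ψ (k + Pi.single i 1)).im := by
    intro i
    rw [Finset.sum_add_distrib]
    have e1 : ∑ k : T d L, wt k ^ 2 * ((starRingEnd ℂ) (ψ k) * ψ (k - Pi.single i 1)).im =
        ∑ k : T d L, wt (k + Pi.single i 1) ^ 2 *
          ((starRingEnd ℂ) (ψ (k + Pi.single i 1)) * ψ k).im := by
      refine (Equiv.sum_comp (Equiv.addRight (Pi.single i 1 : T d L))
        (fun k : T d L => wt k ^ 2 * ((starRingEnd ℂ) (ψ k) * ψ (k - Pi.single i 1)).im)).symm.trans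
        (Finset.sum_congr rfl fun k _ => ?_)
      simp only [Equiv.coe_addRight, add_sub_cancel_right]
    rw [e1, ← Finset.sum_add_distrib]
    refine Finset.sum_congr rfl fun k _ => ?_
    have e4 : ((starRingEnd ℂ) (ψ (k + Pi.single i 1)) * ψ k).im =
        -((starRingEnd ℂ) (ψ k) * ψ (k + Pi.single i 1)).im := by
      simp only [Complex.mul_im, Complex.conj_re, Complex.conj_im]
      ring
    rw [e4]
    ring
  have h3 : ∀ i : Fin d, |∑ k : T d L, (wt k ^ 2 - wt (k + Pi.single i 1) ^ 2) *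
        ((starRingEnd ℂ) (ψ k) * ψ (k + Pi.single i 1)).im| ≤
      2 * (Real.sqrt (W2 ψ) * Real.sqrt (nsq ψ)) := by
    intro i
    have e1 : |∑ k : T d L, (wt k ^ 2 - wt (k + Pi.single i 1) ^ 2) *
        ((starRingEnd ℂ) (ψ k) * ψ (k + Pi.single i 1)).im| ≤
        ∑ k : T d L, ((wt k * ‖ψ k‖) * ‖ψ (k + Pi.single i 1)‖ +
          ‖ψ k‖ * (wt (k + Pi.single i 1) * ‖ψ (k + Pi.single i 1)‖)) := by
      refine (Finset.abs_sum_le_sum_abs _ _).trans (Finset.sum_le_sum fun k _ => ?_)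
      rw [abs_mul]
      have f1 : |wt k ^ 2 - wt (k + Pi.single i 1) ^ 2| ≤ wt k + wt (k + Pi.single i 1) := by
        have g1 := wt_single k i
        have g2 := wt_nonneg k
        have g3 := wt_nonneg (k + Pi.single i 1)
        have g4 : wt k ^ 2 - wt (k + Pi.single i 1) ^ 2 =
            (wt k - wt (k + Pi.single i 1)) * (wt k + wt (k + Pi.single i 1)) := by ring
        rw [g4, abs_mul, abs_of_nonneg (add_nonneg g2 g3)]
        exact mul_le_of_le_one_left (add_nonneg g2 g3) g1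
      have f2 : |((starRingEnd ℂ) (ψ k) * ψ (k + Pi.single i 1)).im| ≤
          ‖ψ k‖ * ‖ψ (k + Pi.single i 1)‖ := by
        refine (Complex.abs_im_le_norm _).trans ?_
        rw [norm_mul, RCLike.norm_conj]
      calc _ ≤ (wt k + wt (k + Pi.single i 1)) * (‖ψ k‖ * ‖ψ (k + Pi.single i 1)‖) :=
            mul_le_mul f1 f2 (abs_nonneg _) (add_nonneg (wt_nonneg _) (wt_nonneg _))
        _ = _ := by ring
    refine e1.trans ?_
    rw [Finset.sum_add_distrib, two_mul]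
    have s1 : ∑ k : T d L, ‖ψ (k + Pi.single i 1)‖ ^ 2 = nsq ψ := by
      unfold nsq
      exact Equiv.sum_comp (Equiv.addRight (Pi.single i 1 : T d L)) (fun k : T d L => ‖ψ k‖ ^ 2)
    have s2 : ∑ k : T d L, (wt (k + Pi.single i 1) * ‖ψ (k + Pi.single i 1)‖) ^ 2 = W2 ψ := by
      rw [W2_eq]
      exact Equiv.sum_comp (Equiv.addRight (Pi.single i 1 : T d L))
        (fun k : T d L => (wt k * ‖ψ k‖) ^ 2)
    refine add_le_add ?_ ?_
    · refine (cs _ _).trans (le_of_eq ?_)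
      rw [s1, ← W2_eq]
    · refine (cs _ _).trans (le_of_eq ?_)
      rw [s2, mul_comm]
      rfl
  rw [Finset.sum_congr rfl fun k _ => h1 k, ← Finset.mul_sum, Finset.sum_comm,
    Finset.sum_congr rfl fun i _ => h2 i, abs_mul, abs_of_pos (by norm_num : (0 : ℝ) < 2)]
  have h4 : |∑ i : Fin d, ∑ k : T d L, (wt k ^ 2 - wt (k + Pi.single i 1) ^ 2) *
        ((starRingEnd ℂ) (ψ k) * ψ (k + Pi.single i 1)).im| ≤
      d * (2 * (Real.sqrt (W2 ψ) * Real.sqrt (nsq ψ))) := by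
    refine (Finset.abs_sum_le_sum_abs _ _).trans ?_
    refine (Finset.sum_le_sum fun i _ => h3 i).trans (le_of_eq ?_)
    rw [Finset.sum_const, Finset.card_univ, Fintype.card_fin, nsmul_eq_mul]
  calc _ ≤ 2 * ((d : ℝ) * (2 * (Real.sqrt (W2 ψ) * Real.sqrt (nsq ψ)))) :=
        mul_le_mul_of_nonneg_left h4 (by norm_num)
    _ = _ := by ring

theorem W2_ev (σ : ℝ) (ξ : T d L → ℝ) (t : ℝ) (φ : T d L → ℂ) :
    Real.sqrt (W2 (ev (HT σ ξ) t *ᵥ φ)) ≤
      Real.sqrt (W2 φ) + 2 * d * |t| * Real.sqrt (nsq φ) := by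
  obtain ⟨g, hg⟩ : ∃ g : ℝ → ℝ, g = fun s => W2 (ev (HT σ ξ) s *ᵥ φ) := ⟨_, rfl⟩
  have hg0 : ∀ s, 0 ≤ g s := fun s => by
    rw [hg]
    exact W2_nonneg _
  obtain ⟨g', hg'⟩ : ∃ g' : ℝ → ℝ, g' = fun t => ∑ k : T d L, wt k ^ 2 *
      (2 * ((starRingEnd ℂ) ((ev (HT σ ξ) t *ᵥ φ) k) *
        (-Complex.I * (HT σ ξ *ᵥ (ev (HT σ ξ) t *ᵥ φ)) k)).re) := ⟨_, rfl⟩
  have hder : ∀ s, HasDerivAt g (g' s) s := by
    intro s
    rw [hg, hg']
    exact W2_deriv σ ξ φ s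
  have hbd : ∀ s, |g' s| ≤ 4 * d * (Real.sqrt (g s) * Real.sqrt (nsq φ)) := by
    intro s
    have := bound σ ξ (ev (HT σ ξ) s *ᵥ φ)
    rw [nsq_ev] at this
    rw [hg', hg]
    exact this
  have key : ∀ δ : ℝ, 0 < δ → Real.sqrt (g t + δ) ≤ Real.sqrt (g 0 + δ) +
      2 * d * |t| * Real.sqrt (nsq φ) := by
    intro δ hδ
    have h1 : ∀ s ∈ (Set.univ : Set ℝ), HasDerivWithinAt (fun s => Real.sqrt (g s + δ))
        (g' s / (2 * Real.sqrt (g s + δ))) Set.univ s := by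
      intro s _
      have hne : g s + δ ≠ 0 := by
        have := hg0 s
        positivity
      exact (((hder s).add_const δ).sqrt hne).hasDerivWithinAt
    have h2 : ∀ s ∈ (Set.univ : Set ℝ), ‖g' s / (2 * Real.sqrt (g s + δ))‖ ≤
        2 * d * Real.sqrt (nsq φ) := by
      intro s _
      have hpos : 0 < Real.sqrt (g s + δ) := Real.sqrt_pos.2 (by
        have := hg0 s
        positivity)
      rw [Real.norm_eq_abs, abs_div, abs_of_pos (by positivity : 0 < 2 * Real.sqrt (g s + δ)),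
        div_le_iff₀ (by positivity)]
      have h3 : Real.sqrt (g s) ≤ Real.sqrt (g s + δ) := Real.sqrt_le_sqrt (by linarith)
      have h4 := hbd s
      have h5 : 0 ≤ Real.sqrt (nsq φ) := Real.sqrt_nonneg _
      have h6 : (4 : ℝ) * d * (Real.sqrt (g s) * Real.sqrt (nsq φ)) ≤
          4 * d * (Real.sqrt (g s + δ) * Real.sqrt (nsq φ)) := by
        refine mul_le_mul_of_nonneg_left (mul_le_mul_of_nonneg_right h3 h5) (by positivity)
      calc |g' s| ≤ 4 * d * (Real.sqrt (g s + δ) * Real.sqrt (nsq φ)) := h4.trans h6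
        _ = _ := by ring
    have h3 := Convex.norm_image_sub_le_of_norm_hasDerivWithin_le h1 h2 convex_univ
      (Set.mem_univ (0 : ℝ)) (Set.mem_univ t)
    rw [sub_zero, Real.norm_eq_abs, Real.norm_eq_abs] at h3
    have h4 := (le_abs_self _).trans h3
    have h5 : 2 * (d : ℝ) * Real.sqrt (nsq φ) * |t| = 2 * d * |t| * Real.sqrt (nsq φ) := by ring
    linarith
  have hgt : W2 (ev (HT σ ξ) t *ᵥ φ) = g t := by rw [hg]
  have hg00 : W2 φ = g 0 := by
    rw [hg]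
    simp only []
    rw [ev_zero, Matrix.one_mulVec]
  rw [hgt, hg00]
  refine le_of_forall_pos_le_add fun ε hε => ?_
  have h1 := key (ε ^ 2) (by positivity)
  have h2 : Real.sqrt (g t) ≤ Real.sqrt (g t + ε ^ 2) := Real.sqrt_le_sqrt (by
    have := sq_nonneg ε
    linarith)
  have h3 : Real.sqrt (g 0 + ε ^ 2) ≤ Real.sqrt (g 0) + ε := by
    rw [Real.sqrt_le_left (by positivity)]
    nlinarith [Real.sq_sqrt (hg0 0), Real.sqrt_nonneg (g 0)]
  linarith

theorem eig (σ : ℝ) (ξ : T d L → ℝ) (u : T d L → T d L → ℂ) (w : T d L → ℝ) (h : EB σ ξ u w)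
    (t : ℝ) (j : T d L) :
    ev (HT σ ξ) t *ᵥ u j = Complex.exp (-(((t * w j : ℝ) : ℂ) * Complex.I)) • u j := by
  obtain ⟨hE, ho⟩ := h
  obtain ⟨-, e2⟩ := QD.Uni.ev_eq _ u w hE ho
  rw [e2 t, Matrix.sum_mulVec, Finset.sum_eq_single j]
  · rw [Matrix.smul_mulVec]
    have h1 : Matrix.vecMulVec (u j) (star (u j)) *ᵥ u j = u j := by
      rw [Matrix.vecMulVec_mulVec, ho j j, if_pos rfl]
      simp
    rw [h1]
    congr 2
    push_cast
    ring
  · intro k _ hk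
    rw [Matrix.smul_mulVec, Matrix.vecMulVec_mulVec, ho k j, if_neg hk]
    simp
  · intro hj
    exact absurd (Finset.mem_univ j) hj

end TEV

theorem t_TEV : T_TEV := by
  intro d L _ σ ξ
  refine ⟨TEV.nsq_ev σ ξ, TEV.W2_ev σ ξ, fun m φ => ?_, fun u w h t j => TEV.eig σ ξ u w h t j⟩
  have h1 : Mo (chm m) *ᵥ φ = fun x => φ (x + fun i => ((m i : ℤ) : ZMod L)) := by
    funext x
    exact (t_PSY d L m).2.2.1 φ x
  rw [h1]
  exact TEV.shift_le m φ

end Pool.Agent.T2h98.MR
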