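import Pool.Agent.T2h98.MR.Stm

/-! Project MR: trigonometric approximation on an interval. -/

set_option autoImplicit false
set_option linter.unusedSectionVars false

open scoped BigOperators Matrix Topology
open MeasureTheory ProbabilityTheory Filter

namespace Pool.Agent.T2h98.MR

namespace TRG

theorem trg (c : ℝ → ℝ) (A η : ℝ) (hc : Continuous c) (hA : 0 < A) (hη : 0 < η) :
    ∃ (n : ℕ) (a : Fin n → ℂ) (t : Fin n → ℝ), ∀ E : ℝ, |E| ≤ A →
      ‖(∑ i, a i * Complex.exp (-(((t i * E : ℝ) : ℂ) * Complex.I))) - (c E : ℂ)‖ ≤ η := by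
  obtain ⟨T, hT⟩ : ∃ T : ℝ, T = 4 * A := ⟨_, rfl⟩
  have hTpos : 0 < T := by
    rw [hT]
    positivity
  have : Fact (0 < T) := ⟨hTpos⟩
  obtain ⟨χ, hχdef⟩ : ∃ χ : ℝ → ℝ, χ = fun x => max 0 (min 1 (2 - |x| / A)) := ⟨_, rfl⟩
  have hχ : Continuous χ := by
    rw [hχdef]
    fun_prop
  obtain ⟨f, hfdef⟩ : ∃ f : ℝ → ℂ, f = fun x => ((c x * χ x : ℝ) : ℂ) := ⟨_, rfl⟩
  have hf : Continuous f := by
    rw [hfdef]
    fun_prop
  have hχ0 : ∀ x, |x| = 2 * A → χ x = 0 := by
    intro x hx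
    simp only [hχdef]
    rw [hx]
    have : 2 * A / A = 2 := by field_simp
    rw [this]
    norm_num
  have hχ1 : ∀ x, |x| ≤ A → χ x = 1 := by
    intro x hx
    simp only [hχdef]
    have : |x| / A ≤ 1 := (div_le_one hA).2 hx
    rw [min_eq_left (by linarith)]
    norm_num
  have hf0 : f (-(2 * A)) = f (-(2 * A) + T) := by
    have e1 : χ (-(2 * A)) = 0 := hχ0 _ (by rw [abs_neg, abs_of_pos (by positivity)])
    have e2 : χ (-(2 * A) + T) = 0 := hχ0 _ (by
      rw [hT]
      have : -(2 * A) + 4 * A = 2 * A := by ring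
      rw [this, abs_of_pos (by positivity)])
    simp only [hfdef, e1, e2, mul_zero]
  obtain ⟨F, hFdef⟩ : ∃ F : C(AddCircle T, ℂ), ∀ x, F x = AddCircle.liftIco T (-(2 * A)) f x :=
    ⟨⟨AddCircle.liftIco T (-(2 * A)) f, AddCircle.liftIco_continuous hf0 hf.continuousOn⟩,
      fun _ => rfl⟩
  have hF : ∀ E : ℝ, |E| ≤ A → F (E : AddCircle T) = (c E : ℂ) := by
    intro E hE
    have h1 := abs_le.1 hE
    rw [hFdef, AddCircle.liftIco_coe_apply]
    · simp only [hfdef, hχ1 E hE, mul_one]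
    · constructor
      · linarith
      · rw [hT]
        linarith
  have hd : F ∈ closure ((Submodule.span ℂ (Set.range (fourier (T := T)))) :
      Set C(AddCircle T, ℂ)) := by
    rw [← Submodule.topologicalClosure_coe, span_fourier_closure_eq_top]
    trivial
  obtain ⟨g, hg, hgd⟩ := Metric.mem_closure_iff.1 hd η hη
  obtain ⟨w, hw⟩ := (Finsupp.mem_span_range_iff_exists_finsupp).1 hg
  obtain ⟨e⟩ : Nonempty (w.support ≃ Fin w.support.card) := ⟨w.support.equivFin⟩
  refine ⟨w.support.card, fun i => w (e.symm i : ℤ), fun i => -(2 * Real.pi * (e.symm i : ℤ) / T),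
    fun E hE => ?_⟩
  have h1 : ‖g (E : AddCircle T) - F (E : AddCircle T)‖ ≤ η := by
    have := ContinuousMap.dist_apply_le_dist (f := F) (g := g) (E : AddCircle T)
    rw [← dist_eq_norm, dist_comm]
    linarith
  rw [hF E hE] at h1
  have h2 : g (E : AddCircle T) = ∑ i : Fin w.support.card, w (e.symm i : ℤ) *
      Complex.exp (-(((-(2 * Real.pi * (e.symm i : ℤ) / T) * E : ℝ) : ℂ) * Complex.I)) := by
    rw [← hw, Finsupp.sum]
    rw [ContinuousMap.coe_sum, Finset.sum_apply, ← Finset.sum_coe_sort, ← e.symm.sum_comp]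
    refine Finset.sum_congr rfl fun i _ => ?_
    rw [ContinuousMap.coe_smul, Pi.smul_apply, smul_eq_mul, fourier_coe_apply]
    congr 2
    push_cast
    ring
  rw [← h2]
  exact h1

end TRG

theorem t_TRG : T_TRG := by
  intro c A η hc hA hη
  obtain ⟨n, a, t, h⟩ := TRG.trg c A η hc hA hη
  exact ⟨n, a, t, fun E hE => h E hE⟩

end Pool.Agent.T2h98.MR
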